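import Pool.Agent.Lib.MP_1707ab_an.N2.SpecM

/-!
# ALG: derivatives and identities
-/

set_option autoImplicit false

open scoped Topology BigOperators Classical
open Filter

namespace MP1707

namespace AlgM

variable (D : EllData)

/-- `√3` -/
noncomputable def t : ℂ := ((Real.sqrt 3 : ℝ) : ℂ)

theorem t_sq : t ^ 2 = 3 := by
  unfold t
  rw [← Complex.ofReal_pow, Real.sq_sqrt (by norm_num)]
  norm_num

theorem t_ne : t ≠ 0 := by
  intro h
  have := t_sq
  rw [h] at this
  norm_num at this

theorem mm_eq : EllData.mm = 7 - 4 * t := by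
  unfold EllData.mm t
  push_cast
  ring

theorem u_eq : D.u = -(4 - 2 * t) * D.s := by
  unfold EllData.u t
  push_cast
  ring

theorem κ_eq : EllData.κ = 2 / t := by
  unfold EllData.κ t
  push_cast
  ring

theorem κ_t : EllData.κ * t = 2 := by
  rw [κ_eq]
  exact div_mul_cancel₀ _ t_ne

theorem u_sq : D.u ^ 2 = 4 * EllData.mm * D.s ^ 2 := by
  rw [u_eq, mm_eq]
  linear_combination (4 * D.s ^ 2) * t_sq

theorem u_quad : D.u ^ 2 + 8 * D.s * D.u + 4 * D.s ^ 2 = 0 := by
  rw [u_eq]
  linear_combination (4 * D.s ^ 2) * t_sq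

theorem κ_u : EllData.κ * D.u = 4 * D.s * (1 - EllData.κ) := by
  rw [u_eq]
  linear_combination (2 * D.s) * κ_t

theorem u_ne : D.u ≠ 0 := by
  intro h
  have h1 := u_quad D
  rw [h] at h1
  have h2 : D.s ^ 2 = 0 := by linear_combination (1 / 4 : ℂ) * h1
  exact D.hs (pow_eq_zero_iff (n := 2) (by norm_num) |>.1 h2)

end AlgM

open AlgM in
/-- ALG -/
theorem specAlg (hODE : SpecODE) : SpecAlg := by
  intro D
  refine ⟨?_, u_ne D, ?_⟩
  · intro z hz
    have hzl : z ∉ D.Λ.lattice := fun h => hz (Or.inl h)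
    have hY : D.Y z ≠ 0 := fun h => hz (Or.inr h)
    have hs := D.hs
    obtain ⟨hP, hQ, hsq⟩ := hODE D z hzl
    have hζ := D.hζ z hzl
    have hζ' : HasDerivAt D.ζ (-(D.P z)) z := hζ
    have hYQ : D.Q z = D.Y z + D.s := by
      unfold EllData.Y
      ring
    have hdY : HasDerivAt D.Y (6 * D.P z ^ 2) z := by
      have := hQ.sub_const D.s
      exact this
    have hY3 : D.Y z * (D.Y z + 2 * D.s) = 4 * D.P z ^ 3 := by
      rw [hYQ] at hsq
      linear_combination hsq
    have hdU : HasDerivAt D.U (6 * D.P z ^ 2) z := by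
      have := hdY.sub_const D.u
      exact this
    have hdG : HasDerivAt D.G (D.G1 z) z := by
      have h1 := (hP.neg).div (hdY.const_mul (2 * D.s)) (mul_ne_zero (mul_ne_zero two_ne_zero hs) hY)
      have e : ((-(D.Q z)) * (2 * D.s * D.Y z) - (-(D.P z)) * (2 * D.s * (6 * D.P z ^ 2))) /
          (2 * D.s * D.Y z) ^ 2 = D.G1 z := by
        unfold EllData.G1
        rw [hYQ]
        field_simp
        linear_combination (-6 : ℂ) * hY3
      exact e ▸ h1
    have hdv1 : HasDerivAt D.v1 (D.v2 z) z := by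
      have h1 := hP.add (hdG.const_mul (D.u ^ 2))
      have e : D.Q z + D.u ^ 2 * D.G1 z = D.v2 z := by
        unfold EllData.G1 EllData.v2 EllData.U
        rw [hYQ]
        field_simp
        linear_combination (D.Y z) * u_quad D
      exact e ▸ h1
    have hdv : HasDerivAt D.v (D.v1 z) z := by
      have h1 := (hζ'.const_mul (-(1 - EllData.mm))).add
        (((hP.pow 2).const_mul (2 * EllData.mm)).div hdY hY)
      have e : -(1 - EllData.mm) * -(D.P z) + (2 * EllData.mm *
          (((2 : ℕ) : ℂ) * D.P z ^ (2 - 1) * D.Q z) * D.Y z - 2 * EllData.mm * D.P z ^ 2 *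
            (6 * D.P z ^ 2)) / D.Y z ^ 2 = D.v1 z := by
        unfold EllData.v1 EllData.G
        rw [u_sq, hYQ]
        field_simp
        push_cast
        linear_combination (6 * EllData.mm * D.P z) * hY3
      exact e ▸ h1
    have hκ : 1 + D.φ * D.G1 z = EllData.κ * D.U z / D.Y z := by
      unfold EllData.φ EllData.G1 EllData.U
      field_simp
      linear_combination (-(D.Y z)) * κ_u D
    refine ⟨hdv, hdv1, hdG, hdU, ?_, hκ⟩
    rw [hκ]
    unfold EllData.v2
    ring
  · intro p hp
    have hu := u_ne D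
    unfold EllData.φ EllData.fh EllData.v1
    rw [if_neg hp]
    field_simp
    ring

end MP1707
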