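import Pool.Agent.Lib.MP_1707ab_an.N2.M.NearE

/-!
# MP_1707ab_an, n = 2, PART M: module AREAE (helper59)
-/

set_option autoImplicit false

open scoped Topology BigOperators Classical ContDiff
open MeasureTheory Filter

namespace MP1707

namespace AreaEM

open ZBaseM ZsetM FarEM

theorem real_ball (a : ℂ) (r : ℝ) (hr : 0 ≤ r) : volume.real (Metric.ball a r) = r ^ 2 * Real.pi := by
  rw [measureReal_def, Complex.volume_ball]
  simp [ENNReal.toReal_ofReal hr]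

theorem count (S : Set ℂ) (d : ℝ) (hd : 0 < d) (hs : ∀ p ∈ S, ∀ q ∈ S, p ≠ q → d ≤ ‖p - q‖) :
    ∃ C : ℝ, 0 < C ∧ ∀ R : ℝ, 1 ≤ R → ∀ T : Finset ℂ, (∀ p ∈ T, p ∈ S ∧ ‖p‖ ≤ R) →
      (T.card : ℝ) ≤ C * R ^ 2 := by
  refine ⟨4 * (1 + d) ^ 2 / d ^ 2, by positivity, fun R hR T hT => ?_⟩
  have hdis : Set.PairwiseDisjoint (T : Set ℂ) (fun p => Metric.ball p (d / 2)) := by
    intro p hp q hq hpq
    refine Metric.ball_disjoint_ball ?_
    have := hs p (hT p hp).1 q (hT q hq).1 hpq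
    rw [Complex.dist_eq]; linarith
  have h1 := measureReal_biUnion_finset (μ := (volume : Measure ℂ)) hdis
    (fun p _ => Metric.isOpen_ball.measurableSet) (fun p _ => measure_ball_lt_top.ne)
  have h2 : (⋃ p ∈ T, Metric.ball p (d / 2)) ⊆ Metric.ball (0 : ℂ) (R + d) := by
    intro w hw
    simp only [Set.mem_iUnion, exists_prop] at hw
    obtain ⟨p, hp, hw⟩ := hw
    rw [Metric.mem_ball, dist_zero_right]
    rw [Metric.mem_ball, Complex.dist_eq] at hw
    have h3 : w = (w - p) + p := by ring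
    rw [h3]
    have := norm_add_le (w - p) p
    have := (hT p hp).2
    linarith
  have h3 := measureReal_mono (μ := (volume : Measure ℂ)) h2 measure_ball_lt_top.ne
  rw [h1, real_ball _ _ (by linarith)] at h3
  simp only [real_ball _ _ (by linarith : 0 ≤ d / 2), Finset.sum_const, nsmul_eq_mul] at h3
  have h4 : (T.card : ℝ) * (d / 2) ^ 2 ≤ (R + d) ^ 2 := by
    have : ((T.card : ℝ) * (d / 2) ^ 2) * Real.pi ≤ (R + d) ^ 2 * Real.pi := by linarith
    exact le_of_mul_le_mul_right this Real.pi_pos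
  have h5 : (R + d) ^ 2 ≤ ((1 + d) * R) ^ 2 := by
    have : R + d ≤ (1 + d) * R := by nlinarith
    gcongr
  rw [div_mul_eq_mul_div, le_div_iff₀ (by positivity)]
  nlinarith

theorem cover (S : Set ℂ) (d : ℝ) (hd : 0 < d) (hs : ∀ p ∈ S, ∀ q ∈ S, p ≠ q → d ≤ ‖p - q‖) :
    ∃ C : ℝ, 0 < C ∧ ∀ r R : ℝ, 0 < r → r ≤ 1 → 1 ≤ R →
      volume {w : ℂ | ‖w‖ ≤ R ∧ ∃ p ∈ S, ‖w - p‖ < r} ≤ ENNReal.ofReal (C * r ^ 2 * R ^ 2) := by
  obtain ⟨C, hC, hc⟩ := count S d hd hs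
  refine ⟨4 * C * Real.pi, by positivity, fun r R hr hr1 hR => ?_⟩
  have hfin : (S ∩ Metric.closedBall (0 : ℂ) (R + 1)).Finite := by
    by_contra hinf
    obtain ⟨n, hn⟩ := exists_nat_gt (C * (R + 1) ^ 2)
    obtain ⟨t, ht, htn⟩ := Set.Infinite.exists_subset_card_eq hinf n
    have := hc (R + 1) (by linarith) t (fun p hp => ⟨(ht hp).1, mem_closedBall_zero_iff.1 (ht hp).2⟩)
    rw [htn] at this
    linarith
  have hcard := hc (R + 1) (by linarith) hfin.toFinset (fun p hp => by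
    rw [Set.Finite.mem_toFinset] at hp
    exact ⟨hp.1, mem_closedBall_zero_iff.1 hp.2⟩)
  have hsub : {w : ℂ | ‖w‖ ≤ R ∧ ∃ p ∈ S, ‖w - p‖ < r} ⊆ ⋃ p ∈ hfin.toFinset, Metric.ball p r := by
    rintro w ⟨h1, p, hp, h2⟩
    simp only [Set.mem_iUnion, exists_prop, Set.Finite.mem_toFinset]
    refine ⟨p, ⟨hp, ?_⟩, ?_⟩
    · rw [mem_closedBall_zero_iff]
      have h3 : p = w - (w - p) := by ring
      rw [h3]
      have := norm_sub_le w (w - p)
      linarith
    · rwa [Metric.mem_ball, Complex.dist_eq]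
  refine (measure_mono hsub).trans ((measure_biUnion_finset_le _ _).trans ?_)
  have e1 : ∀ p : ℂ, volume (Metric.ball p r) = ENNReal.ofReal (r ^ 2 * Real.pi) := by
    intro p
    rw [← real_ball p r hr.le, measureReal_def, ENNReal.ofReal_toReal measure_ball_lt_top.ne]
  simp only [e1, Finset.sum_const, nsmul_eq_mul]
  rw [← ENNReal.ofReal_natCast, ← ENNReal.ofReal_mul (by positivity)]
  refine ENNReal.ofReal_le_ofReal ?_
  have h6 : (hfin.toFinset.card : ℝ) ≤ C * (4 * R ^ 2) := by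
    refine hcard.trans ?_
    have : (R + 1) ^ 2 ≤ 4 * R ^ 2 := by nlinarith
    gcongr
  calc (hfin.toFinset.card : ℝ) * (r ^ 2 * Real.pi) ≤ C * (4 * R ^ 2) * (r ^ 2 * Real.pi) := by
        gcongr
    _ = _ := by ring

variable (D : EllData)

/-- the zeros of `U` -/
def S : Set ℂ := {z | z ∉ D.Λ.lattice ∧ D.U z = 0}

theorem S_ev (p : ℂ) : ∀ᶠ z in 𝓝[≠] p, z ∉ S D := by
  filter_upwards [Q_ne D (D.s + D.u) p] with z h2 h3
  refine h2 ?_
  have : D.Q z - D.s - D.u = 0 := h3.2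
  rw [← this]; ring

theorem S_sub (z : ℂ) (hz : z ∈ S D) (l : ℂ) (hl : l ∈ D.Λ.lattice) : z - l ∈ S D := by
  refine ⟨fun h => hz.1 (by simpa using Submodule.add_mem _ h hl), ?_⟩
  have h1 := Y_add D (z - l) l hl
  rw [sub_add_cancel] at h1
  have h2 := hz.2
  unfold EllData.U at *
  rw [← h1]; exact h2

theorem S_add (z : ℂ) (hz : z ∈ S D) (l : ℂ) (hl : l ∈ D.Λ.lattice) : z + l ∈ S D := by
  have := S_sub D z hz (-l) (neg_mem hl)
  rwa [sub_neg_eq_add] at this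

theorem u_ne : D.u ≠ 0 := by
  unfold EllData.u
  refine mul_ne_zero (neg_ne_zero.2 ?_) D.hs
  rw [Complex.ofReal_ne_zero]
  have h3 : Real.sqrt 3 < 2 := by
    rw [Real.sqrt_lt' (by norm_num)]; norm_num
  intro h; linarith

theorem P_ne {z : ℂ} (hz : z ∈ S D) : D.P z ≠ 0 := by
  intro hP
  have h1 := sq_eq D z hz.1
  rw [hP] at h1
  have h2 : D.Q z - D.s - D.u = 0 := hz.2
  have h3 : D.Q z = D.s + D.u := by linear_combination h2
  rw [h3] at h1
  have h4 : D.u * (D.u + 2 * D.s) = 0 := by linear_combination h1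
  rcases mul_eq_zero.1 h4 with h5 | h5
  · exact u_ne D h5
  · unfold EllData.u at h5
    have h6 : ((2 * Real.sqrt 3 - 2 : ℝ) : ℂ) * D.s = 0 := by
      push_cast at h5 ⊢
      linear_combination h5
    rcases mul_eq_zero.1 h6 with h7 | h7
    · rw [Complex.ofReal_eq_zero] at h7
      have h3 : 1 < Real.sqrt 3 := by
        rw [Real.lt_sqrt (by norm_num)]; norm_num
      linarith
    · exact D.hs h7

/-- local statement -/
theorem loc (hO : SpecODE) (x : ℂ) : ∃ c : ℝ, 0 < c ∧ ∀ᶠ w in 𝓝 x, w ∉ D.Z → ‖D.U w‖ < c →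
    ∃ p ∈ S D, ‖w - p‖ ≤ ‖D.U w‖ / c := by
  by_cases hx : x ∈ D.Λ.lattice
  · refine ⟨1, one_pos, ?_⟩
    have h := Q_large D x hx (1 + ‖D.s‖ + ‖D.u‖)
    rw [eventually_nhdsWithin_iff] at h
    filter_upwards [h] with w hw hwZ hU
    have hwx : w ≠ x := fun h => hwZ (h ▸ Or.inl hx)
    have h1 := hw hwx
    exfalso
    have h2 : D.Q w = D.U w + (D.s + D.u) := by unfold EllData.U EllData.Y; ring
    rw [h2] at h1
    have h3 := norm_add_le (D.U w) (D.s + D.u)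
    have h4 := norm_add_le D.s D.u
    linarith
  · obtain ⟨_, hQ, _⟩ := hO D x hx
    have hU : HasDerivAt D.U (6 * D.P x ^ 2) x := (hQ.sub_const D.s).sub_const D.u
    by_cases h0 : D.U x = 0
    · have hP : D.P x ≠ 0 := P_ne D ⟨hx, h0⟩
      set a : ℝ := ‖6 * D.P x ^ 2‖ with ha
      have ha0 : 0 < a := by
        rw [ha]; exact norm_pos_iff.2 (mul_ne_zero (by norm_num) (pow_ne_zero _ hP))
      refine ⟨a / 2, by positivity, ?_⟩
      have h1 := (hasDerivAt_iff_isLittleO.1 hU).def (half_pos ha0)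
      filter_upwards [h1] with w hw _ _
      refine ⟨x, ⟨hx, h0⟩, ?_⟩
      rw [h0, sub_zero, smul_eq_mul] at hw
      have h2 : ‖(w - x) * (6 * D.P x ^ 2)‖ - ‖D.U w‖ ≤ ‖D.U w - (w - x) * (6 * D.P x ^ 2)‖ := by
        rw [norm_sub_rev]; exact norm_sub_norm_le _ _
      rw [norm_mul, ← ha] at h2
      rw [le_div_iff₀ (by positivity)]
      linarith
    · refine ⟨‖D.U x‖ / 2, by positivity, ?_⟩
      have h1 : ∀ᶠ w in 𝓝 x, ‖D.U x‖ / 2 < ‖D.U w‖ :=
        hU.continuousAt.norm.eventually (lt_mem_nhds (by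
          have := norm_pos_iff.2 h0
          linarith))
      filter_upwards [h1] with w hw _ h2
      linarith

theorem glob (hO : SpecODE) : ∃ c : ℝ, 0 < c ∧ ∀ w : ℂ, w ∉ D.Z → ‖D.U w‖ < c →
    ∃ p ∈ S D, ‖w - p‖ ≤ ‖D.U w‖ / c := by
  obtain ⟨R0, _, hn⟩ := exists_near D.Λ
  have hK : IsCompact (Metric.closedBall (0 : ℂ) R0) := isCompact_closedBall _ _
  have key : ∃ c : ℝ, 0 < c ∧ ∀ w ∈ Metric.closedBall (0 : ℂ) R0, w ∉ D.Z → ‖D.U w‖ < c →
      ∃ p ∈ S D, ‖w - p‖ ≤ ‖D.U w‖ / c := by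
    refine hK.induction_on (p := fun s => ∃ c : ℝ, 0 < c ∧ ∀ w ∈ s, w ∉ D.Z → ‖D.U w‖ < c →
      ∃ p ∈ S D, ‖w - p‖ ≤ ‖D.U w‖ / c) ⟨1, one_pos, by simp⟩ ?_ ?_ ?_
    · rintro s t hst ⟨c, hc, h⟩
      exact ⟨c, hc, fun w hw => h w (hst hw)⟩
    · rintro s t ⟨c, hc, h⟩ ⟨c', hc', h'⟩
      refine ⟨min c c', lt_min hc hc', fun w hw h1 h2 => ?_⟩
      rcases hw with hw | hw
      · obtain ⟨p, hp, h3⟩ := h w hw h1 (h2.trans_le (min_le_left _ _))
        exact ⟨p, hp, h3.trans (by gcongr; exact min_le_left _ _)⟩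
      · obtain ⟨p, hp, h3⟩ := h' w hw h1 (h2.trans_le (min_le_right _ _))
        exact ⟨p, hp, h3.trans (by gcongr; exact min_le_right _ _)⟩
    · intro x _
      obtain ⟨c, hc, h⟩ := loc D hO x
      exact ⟨_, mem_nhdsWithin_of_mem_nhds h, c, hc, fun w hw => hw⟩
  obtain ⟨c, hc, h⟩ := key
  refine ⟨c, hc, fun w hw hU => ?_⟩
  obtain ⟨l, hl, hl'⟩ := hn w
  have e : D.U (w - l) = D.U w := by
    have h1 := Y_add D (w - l) l hl
    rw [sub_add_cancel] at h1
    unfold EllData.U; rw [h1]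
  obtain ⟨p, hp, h1⟩ := h (w - l) (mem_closedBall_zero_iff.2 hl')
    (fun h => hw (by simpa using add_mem D _ h l hl)) (by rwa [e])
  refine ⟨p + l, S_add D p hp l hl, ?_⟩
  rw [e] at h1
  have h2 : w - (p + l) = w - l - p := by ring
  rwa [h2]

end AreaEM

open AreaEM ZBaseM ZsetM FarEM in
/-- AREAE -/
theorem specAreaE (hO : SpecODE) : SpecAreaE := by
  intro D
  obtain ⟨hne, _, _, d, hd, hsep⟩ := specZset D
  obtain ⟨C1, hC1, h1⟩ := cover D.Z d hd hsep
  obtain ⟨d', hd', hsep'⟩ := separated D.Λ (S D) (S_ev D) (fun z hz l hl => S_sub D z hz l hl)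
  obtain ⟨C2, hC2, h2⟩ := cover (S D) d' hd' hsep'
  obtain ⟨c, hc, hg⟩ := glob D hO
  refine ⟨2 + 4 * C1 + C2 / c ^ 2 + 1 / c, by positivity, ?_, ?_⟩
  · intro ε R hε hε1 hR
    have hεc : ε < c := by
      have h3 : 1 / (2 + 4 * C1 + C2 / c ^ 2 + 1 / c) < c := by
        rw [div_lt_iff₀ (by positivity)]
        have : c * (1 / c) = 1 := by field_simp
        have : 0 < c * (2 + 4 * C1 + C2 / c ^ 2) := by positivity
        nlinarith
      linarith
    refine (measure_mono ?_).trans ((h2 (ε / c) R (by positivity) (by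
      rw [div_le_one hc]; exact hεc.le) hR).trans (ENNReal.ofReal_le_ofReal ?_))
    · rintro w ⟨hw1, hw2, hw3⟩
      obtain ⟨p, hp, h4⟩ := hg w hw2 (hw3.trans hεc)
      refine ⟨hw1, p, hp, h4.trans_lt ?_⟩
      gcongr
    · have : C2 * (ε / c) ^ 2 * R ^ 2 = (C2 / c ^ 2) * ε ^ 2 * R ^ 2 := by field_simp
      rw [this]
      gcongr
      have : 0 < 1 / c := by positivity
      linarith
  · intro r R hr hr1 hR
    have hr2 : 2 * r ≤ 1 := by
      have h3 : 1 / (2 + 4 * C1 + C2 / c ^ 2 + 1 / c) ≤ 1 / 2 := by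
        apply one_div_le_one_div_of_le (by norm_num)
        have : 0 < 4 * C1 + C2 / c ^ 2 + 1 / c := by positivity
        linarith
      linarith
    refine (measure_mono ?_).trans ((h1 (2 * r) R (by positivity) hr2 hR).trans
      (ENNReal.ofReal_le_ofReal ?_))
    · rintro w ⟨hw1, hw2⟩
      have h4 : Metric.infDist w D.Z < 2 * r := by linarith
      obtain ⟨p, hp, h5⟩ := (Metric.infDist_lt_iff hne).1 h4
      exact ⟨hw1, p, hp, by rwa [Complex.dist_eq] at h5⟩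
    · have : C1 * (2 * r) ^ 2 * R ^ 2 = (4 * C1) * r ^ 2 * R ^ 2 := by ring
      rw [this]
      gcongr
      have : 0 < C2 / c ^ 2 + 1 / c := by positivity
      linarith

end MP1707
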