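import Pool.Agent.Lib.MP_1707ab_an.N2.SpecM

/-!
# MP_1707ab_an, n = 2, PART M, module CUT
-/

set_option autoImplicit false

open scoped Topology BigOperators Classical ContDiff
open MeasureTheory

namespace MP1707

namespace CutM

theorem exists_bound : ∃ B : ℝ, 0 < B ∧ ∀ t, |deriv Real.smoothTransition t| ≤ B := by
  have hc : Continuous (deriv Real.smoothTransition) :=
    (Real.smoothTransition.contDiff (n := 1)).continuous_deriv le_rfl
  obtain ⟨C, hC⟩ := (isCompact_Icc (a := (-1 : ℝ)) (b := 2)).exists_bound_of_continuousOn hc.continuousOn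
  refine ⟨max C 1, lt_max_of_lt_right one_pos, fun t => ?_⟩
  by_cases ht : t ∈ Set.Icc (-1 : ℝ) 2
  · exact (hC t ht).trans (le_max_left _ _)
  · have h0 : deriv Real.smoothTransition t = 0 := by
      rw [Set.mem_Icc, not_and_or, not_le, not_le] at ht
      rcases ht with ht | ht
      · have : Real.smoothTransition =ᶠ[𝓝 t] fun _ => (0 : ℝ) := by
          filter_upwards [Iio_mem_nhds (show t < 0 by linarith)] with s hs
          exact Real.smoothTransition.zero_of_nonpos (le_of_lt hs)
        rw [this.deriv_eq]; simp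
      · have : Real.smoothTransition =ᶠ[𝓝 t] fun _ => (1 : ℝ) := by
          filter_upwards [Ioi_mem_nhds (show 1 < t by linarith)] with s hs
          exact Real.smoothTransition.one_of_one_le (le_of_lt hs)
        rw [this.deriv_eq]; simp
    rw [h0, abs_zero]
    exact (zero_le_one).trans (le_max_right _ _)

theorem st_lip {B : ℝ} (hB : 0 < B) (h : ∀ t, |deriv Real.smoothTransition t| ≤ B) :
    LipschitzWith (Real.toNNReal B) Real.smoothTransition := by
  refine lipschitzWith_of_nnnorm_deriv_le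
    ((Real.smoothTransition.contDiff (n := 1)).differentiable (by norm_num)) fun t => ?_
  rw [← NNReal.coe_le_coe, coe_nnnorm, Real.norm_eq_abs, Real.coe_toNNReal _ hB.le]
  exact h t

variable (D : Cell)

theorem infDist_eq {p w : ℂ} (hp : p ∈ D.Z) (hw : ‖w - p‖ < 2 * D.d0) :
    Metric.infDist w D.Z = ‖w - p‖ := by
  apply le_antisymm
  · rw [← dist_eq_norm]; exact Metric.infDist_le_dist_of_mem hp
  · rw [Metric.le_infDist D.ne]
    intro q hq
    by_cases hqp : q = p
    · rw [hqp, dist_eq_norm]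
    · have h1 := D.sep p hp q hq (fun h => hqp h.symm)
      have h2 : ‖p - q‖ ≤ ‖w - p‖ + dist w q := by
        rw [dist_eq_norm]
        calc ‖p - q‖ = ‖(w - q) - (w - p)‖ := by congr 1; ring
          _ ≤ ‖w - q‖ + ‖w - p‖ := norm_sub_le _ _
          _ = _ := by ring
      linarith

theorem uniq {p q w : ℂ} (hp : p ∈ D.Z) (hq : q ∈ D.Z) (hw : ‖w - p‖ < 2 * D.d0)
    (hw' : ‖w - q‖ < 2 * D.d0) : p = q := by
  by_contra hpq
  have h1 := D.sep p hp q hq hpq
  have h2 : ‖p - q‖ ≤ ‖w - p‖ + ‖w - q‖ := by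
    calc ‖p - q‖ = ‖(w - q) - (w - p)‖ := by congr 1; ring
      _ ≤ ‖w - q‖ + ‖w - p‖ := norm_sub_le _ _
      _ = _ := by ring
  linarith

theorem near_eq {p w : ℂ} (hp : p ∈ D.Z) (hw : ‖w - p‖ < 2 * D.d0) : D.near w = p := by
  have hex : ∃ q ∈ D.Z, ‖w - q‖ < 2 * D.d0 := ⟨p, hp, hw⟩
  unfold Cell.near
  rw [dif_pos hex]
  exact (uniq D hp hex.choose_spec.1 hw hex.choose_spec.2).symm

theorem exists_mem {w : ℂ} (hw : Metric.infDist w D.Z < 2 * D.d0) :
    ∃ p ∈ D.Z, ‖w - p‖ < 2 * D.d0 := by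
  obtain ⟨p, hp, h⟩ := (Metric.infDist_lt_iff D.ne).1 hw
  exact ⟨p, hp, by rwa [← dist_eq_norm]⟩

/-- the general cutoff -/
noncomputable def T (a : ℝ) (w : ℂ) : ℝ := Real.smoothTransition (a * Metric.infDist w D.Z - 1)

theorem th_eq (r : ℝ) : D.th r = T D (1 / r) := by
  funext w; unfold Cell.th T chi; congr 2; ring

theorem th2_eq (r : ℝ) : D.th2 r = T D (4 / r) := by
  funext w; unfold Cell.th2 T chi; congr 2; ring

theorem T_lip {B : ℝ} (hB : 0 < B) (h : ∀ t, |deriv Real.smoothTransition t| ≤ B) {a : ℝ}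
    (ha : 0 < a) : LipschitzWith (Real.toNNReal (B * a)) (T D a) := by
  apply LipschitzWith.of_dist_le_mul
  intro x y
  have h1 := (st_lip hB h).dist_le_mul (a * Metric.infDist x D.Z - 1) (a * Metric.infDist y D.Z - 1)
  rw [Real.coe_toNNReal _ hB.le] at h1
  rw [Real.coe_toNNReal _ (by positivity)]
  refine h1.trans ?_
  have h2 : dist (a * Metric.infDist x D.Z - 1) (a * Metric.infDist y D.Z - 1) ≤ a * dist x y := by
    rw [Real.dist_eq]
    have : a * Metric.infDist x D.Z - 1 - (a * Metric.infDist y D.Z - 1) =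
        a * (Metric.infDist x D.Z - Metric.infDist y D.Z) := by ring
    rw [this, abs_mul, abs_of_pos ha]
    apply mul_le_mul_of_nonneg_left _ ha.le
    have := (Metric.lipschitz_infDist_pt D.Z).dist_le_mul x y
    simpa [Real.dist_eq] using this
  calc B * dist (a * Metric.infDist x D.Z - 1) (a * Metric.infDist y D.Z - 1)
      ≤ B * (a * dist x y) := by gcongr
    _ = B * a * dist x y := by ring

theorem T_fderiv {B : ℝ} (hB : 0 < B) (h : ∀ t, |deriv Real.smoothTransition t| ≤ B) {a : ℝ}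
    (ha : 0 < a) (w : ℂ) : ‖fderiv ℝ (T D a) w‖ ≤ B * a := by
  have := norm_fderiv_le_of_lipschitz ℝ (x₀ := w) (T_lip D hB h ha)
  rwa [Real.coe_toNNReal _ (by positivity)] at this

theorem T_zero {a : ℝ} {w : ℂ} (h : a * Metric.infDist w D.Z ≤ 1) : T D a w = 0 :=
  Real.smoothTransition.zero_of_nonpos (by linarith)

theorem T_one {a : ℝ} {w : ℂ} (h : 2 ≤ a * Metric.infDist w D.Z) : T D a w = 1 :=
  Real.smoothTransition.one_of_one_le (by linarith)

theorem T_contDiff {a : ℝ} (ha : 1 < a * D.d0) : ContDiff ℝ ∞ (T D a) := by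
  have hd0 := D.hd0
  have ha0 : 0 < a := by
    by_contra h
    push Not at h
    have : a * D.d0 ≤ 0 := mul_nonpos_of_nonpos_of_nonneg h hd0.le
    linarith
  have hcont : Continuous fun w : ℂ => Metric.infDist w D.Z := Metric.continuous_infDist_pt _
  rw [contDiff_iff_contDiffAt]
  intro w
  by_cases hw : Metric.infDist w D.Z < 2 * D.d0
  · obtain ⟨p, hp, hwp⟩ := exists_mem D hw
    have hev : T D a =ᶠ[𝓝 w] fun x => Real.smoothTransition (a * ‖x - p‖ - 1) := by
      have ho : IsOpen {x : ℂ | ‖x - p‖ < 2 * D.d0} :=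
        isOpen_lt (by fun_prop) continuous_const
      filter_upwards [ho.mem_nhds hwp] with x hx
      unfold T
      rw [infDist_eq D hp hx]
    by_cases hwp' : w = p
    · have hev0 : T D a =ᶠ[𝓝 w] fun _ => (0 : ℝ) := by
        have ho : IsOpen {x : ℂ | a * ‖x - p‖ < 1} :=
          isOpen_lt (by fun_prop) continuous_const
        filter_upwards [hev, ho.mem_nhds (by simp [hwp'] : w ∈ {x : ℂ | a * ‖x - p‖ < 1})] with x hx hx'
        rw [hx]
        apply Real.smoothTransition.zero_of_nonpos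
        have : a * ‖x - p‖ < 1 := hx'
        linarith
      exact contDiffAt_const.congr_of_eventuallyEq hev0
    · refine ContDiffAt.congr_of_eventuallyEq ?_ hev
      apply (Real.smoothTransition.contDiffAt (n := ⊤)).comp
      apply ContDiffAt.sub _ contDiffAt_const
      apply contDiffAt_const.mul
      exact ContDiffAt.norm ℝ (contDiffAt_id.sub contDiffAt_const) (sub_ne_zero.2 hwp')
  · push Not at hw
    have hev1 : T D a =ᶠ[𝓝 w] fun _ => (1 : ℝ) := by
      have ho : IsOpen {x : ℂ | 2 < a * Metric.infDist x D.Z} :=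
        isOpen_lt continuous_const (continuous_const.mul hcont)
      have hmem : w ∈ {x : ℂ | 2 < a * Metric.infDist x D.Z} := by
        show 2 < a * Metric.infDist w D.Z
        calc (2 : ℝ) < 2 * (a * D.d0) := by linarith
          _ = a * (2 * D.d0) := by ring
          _ ≤ _ := by gcongr
      filter_upwards [ho.mem_nhds hmem] with x hx
      exact T_one D (le_of_lt hx)
    exact contDiffAt_const.congr_of_eventuallyEq hev1

theorem T_mem (a : ℝ) (w : ℂ) : 0 ≤ T D a w ∧ T D a w ≤ 1 :=
  ⟨Real.smoothTransition.nonneg _, Real.smoothTransition.le_one _⟩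

end CutM

open CutM in
theorem specCut : SpecCut := by
  obtain ⟨B, hB, hBd⟩ := exists_bound
  refine ⟨B, hB, hBd, fun D r hr hrd => ?_⟩
  have hd0 := D.hd0
  have h1r : 1 < 1 / r * D.d0 := by
    rw [div_mul_eq_mul_div, one_mul, lt_div_iff₀ hr]; linarith
  have h4r : 1 < 4 / r * D.d0 := by
    rw [div_mul_eq_mul_div, lt_div_iff₀ hr]; linarith
  refine ⟨?_, ?_, ?_, ?_, ?_, ?_, ?_, ?_, ?_, ?_⟩
  · rw [th_eq]; exact T_contDiff D h1r
  · rw [th2_eq]; exact T_contDiff D h4r
  · intro w
    rw [th_eq, th2_eq]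
    exact ⟨(T_mem D _ w).1, (T_mem D _ w).2, (T_mem D _ w).1, (T_mem D _ w).2⟩
  · intro w hw
    rw [th_eq]
    apply T_zero
    rw [one_div, inv_mul_le_iff₀ hr]; linarith
  · intro w hw
    rw [th_eq]
    apply T_one
    rw [one_div, ← div_eq_inv_mul, le_div_iff₀ hr]; linarith
  · intro w hw
    rw [th2_eq]
    apply T_zero
    rw [div_mul_eq_mul_div, div_le_iff₀ hr]; linarith
  · intro w hw
    rw [th2_eq]
    apply T_one
    rw [div_mul_eq_mul_div, le_div_iff₀ hr]; linarith
  · intro w
    constructor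
    · rw [th_eq]
      refine (T_fderiv D hB hBd (by positivity) w).trans (le_of_eq ?_)
      ring
    · rw [th2_eq]
      refine (T_fderiv D hB hBd (by positivity) w).trans (le_of_eq ?_)
      ring
  · intro p hp w hw
    exact ⟨near_eq D hp hw, infDist_eq D hp hw⟩
  · intro w hw
    exact exists_mem D hw

end MP1707
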