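import Pool.Agent.Lib.MP_1707ab_an.N2.SpecM

/-!
# HEX: the hexagonal lattice has `g₂ = 0`, `g₃ ≠ 0`
-/

set_option autoImplicit false

open scoped Topology BigOperators Classical
open Filter Set

namespace MP1707

namespace HexM

/-- `e^{iπ/3}` -/
noncomputable def ρ : ℂ := ⟨1 / 2, Real.sqrt 3 / 2⟩

lemma ρ_re : ρ.re = 1 / 2 := rfl
lemma ρ_im : ρ.im = Real.sqrt 3 / 2 := rfl

lemma s3 : Real.sqrt 3 * Real.sqrt 3 = 3 := Real.mul_self_sqrt (by norm_num)

lemma ρsq : ρ * ρ = ρ - 1 := by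
  apply Complex.ext
  · rw [Complex.mul_re, Complex.sub_re, ρ_re, ρ_im, Complex.one_re]
    nlinarith [s3]
  · rw [Complex.mul_im, Complex.sub_im, ρ_re, ρ_im, Complex.one_im]
    ring

lemma ρinv : ρ * (1 - ρ) = 1 := by linear_combination -ρsq

lemma ρ_im_ne : ρ.im ≠ 0 := by
  rw [ρ_im]
  have := Real.sqrt_pos.2 (show (0 : ℝ) < 3 by norm_num)
  positivity

lemma ρ_ne : ρ ≠ 0 := fun h => ρ_im_ne (by rw [h]; rfl)

/-- the hexagonal lattice -/
noncomputable def Λ : PeriodPair where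
  ω₁ := 1
  ω₂ := ρ
  indep := by
    rw [LinearIndependent.pair_iff]
    intro s t h
    have h1 := congrArg Complex.im h
    simp only [Complex.add_im, Complex.real_smul, Complex.mul_im, Complex.ofReal_re,
      Complex.ofReal_im, Complex.one_im, Complex.one_re, Complex.zero_im] at h1
    have ht : t = 0 := by
      have : t * ρ.im = 0 := by linarith
      exact (mul_eq_zero.1 this).resolve_right ρ_im_ne
    subst ht
    have h2 := congrArg Complex.re h
    simp at h2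
    exact ⟨h2, rfl⟩

lemma mem {x : ℂ} : x ∈ Λ.lattice ↔ ∃ m n : ℤ, (m : ℂ) + n * ρ = x := by
  rw [PeriodPair.mem_lattice]
  simp [Λ]

lemma mem_mul {x : ℂ} (hx : x ∈ Λ.lattice) : ρ * x ∈ Λ.lattice := by
  obtain ⟨m, n, rfl⟩ := mem.1 hx
  refine mem.2 ⟨-n, m + n, ?_⟩
  push_cast
  linear_combination (-(n : ℂ)) * ρsq

lemma mem_mul' {x : ℂ} (hx : x ∈ Λ.lattice) : (1 - ρ) * x ∈ Λ.lattice := by
  obtain ⟨m, n, rfl⟩ := mem.1 hx
  refine mem.2 ⟨m + n, -m, ?_⟩
  push_cast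
  linear_combination (n : ℂ) * ρsq

/-- multiplication by `ρ` -/
noncomputable def e : Λ.lattice ≃ Λ.lattice where
  toFun l := ⟨ρ * l, mem_mul l.2⟩
  invFun l := ⟨(1 - ρ) * l, mem_mul' l.2⟩
  left_inv l := by
    apply Subtype.ext
    change (1 - ρ) * (ρ * (l : ℂ)) = l
    linear_combination (l : ℂ) * ρinv
  right_inv l := by
    apply Subtype.ext
    change ρ * ((1 - ρ) * (l : ℂ)) = l
    linear_combination (l : ℂ) * ρinv

lemma e_coe (l : Λ.lattice) : ((e l : Λ.lattice) : ℂ) = ρ * l := rfl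

lemma ρ4 : ρ ^ 4 = -ρ := by
  have h2 : ρ ^ 2 = ρ - 1 := by rw [sq, ρsq]
  calc ρ ^ 4 = (ρ ^ 2) ^ 2 := by ring
    _ = (ρ - 1) ^ 2 := by rw [h2]
    _ = ρ ^ 2 - 2 * ρ + 1 := by ring
    _ = -ρ := by rw [h2]; ring

lemma ρ4_ne : (ρ ^ 4)⁻¹ ≠ 1 := by
  intro h
  have h1 : ρ ^ 4 = 1 := by
    have := congrArg (·⁻¹) h
    simpa using this
  rw [ρ4] at h1
  have := congrArg Complex.im h1
  simp only [Complex.neg_im, Complex.one_im] at this
  exact ρ_im_ne (by linarith)

lemma G4 : Λ.G 4 = 0 := by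
  have h : Λ.G 4 = (ρ ^ 4)⁻¹ * Λ.G 4 := by
    conv_lhs => rw [PeriodPair.G, ← e.tsum_eq]
    rw [PeriodPair.G, ← tsum_mul_left]
    congr 1
    funext l
    rw [e_coe, mul_pow, mul_inv]
  by_contra h0
  exact ρ4_ne (mul_right_cancel₀ h0 (by rw [one_mul]; exact h.symm))

lemma P_mul (z : ℂ) : Λ.weierstrassP (ρ * z) = (ρ ^ 2)⁻¹ * Λ.weierstrassP z := by
  conv_lhs => rw [PeriodPair.weierstrassP, ← e.tsum_eq]
  rw [PeriodPair.weierstrassP, ← tsum_mul_left]
  congr 1
  funext l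
  rw [e_coe, ← mul_sub, mul_pow, mul_pow, one_div, one_div, mul_inv, mul_inv, one_div, one_div]
  ring

/-- the zero of `℘` -/
noncomputable def z0 : ℂ := (1 + ρ) / 3

lemma z0_notMem : z0 ∉ Λ.lattice := by
  intro h
  obtain ⟨m, n, h⟩ := mem.1 h
  have h1 := congrArg Complex.im h
  simp only [z0, Complex.add_im, Complex.intCast_im, Complex.mul_im, Complex.intCast_re,
    zero_add, zero_mul, add_zero] at h1
  have h2 : ((1 + ρ) / 3).im = ρ.im / 3 := by
    have : ((1 + ρ) / 3) = ((1 / 3 : ℝ) : ℂ) * (1 + ρ) := by push_cast; ring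
    rw [this, Complex.im_ofReal_mul, Complex.add_im, Complex.one_im]
    ring
  rw [h2] at h1
  have h3 : (n : ℝ) = 1 / 3 := by
    have : ((n : ℝ) - 1 / 3) * ρ.im = 0 := by linarith
    have := (mul_eq_zero.1 this).resolve_right ρ_im_ne
    linarith
  have h4 : (3 * n : ℤ) = 1 := by
    have : (3 * (n : ℝ)) = 1 := by rw [h3]; norm_num
    exact_mod_cast this
  omega

lemma P_z0 : Λ.weierstrassP z0 = 0 := by
  have h1 : ρ * (ρ * z0) = z0 - 1 := by
    unfold z0
    linear_combination ((1 + ρ) / 3) * ρsq + (1 / 3 : ℂ) * ρsq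
  have h2 : Λ.weierstrassP (z0 - 1) = Λ.weierstrassP z0 := by
    have := Λ.weierstrassP_sub_coe z0 ⟨Λ.ω₁, Λ.ω₁_mem_lattice⟩
    exact this
  have h3 : Λ.weierstrassP z0 = (ρ ^ 4)⁻¹ * Λ.weierstrassP z0 := by
    conv_lhs => rw [← h2, ← h1, P_mul, P_mul]
    rw [← mul_assoc, ← mul_inv]
    ring_nf
  by_contra h0
  exact ρ4_ne (mul_right_cancel₀ h0 (by rw [one_mul]; exact h3.symm))

end HexM

open HexM in
theorem specHex : SpecHex := by
  refine ⟨Λ, by rw [PeriodPair.g₂, G4, mul_zero], fun h3 => ?_⟩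
  have hopen : IsOpen ((Λ.lattice : Set ℂ)ᶜ) := Λ.isClosed_lattice.isOpen_compl
  have hz0 : z0 ∈ ((Λ.lattice : Set ℂ)ᶜ) := z0_notMem
  have hP := Λ.analyticOnNhd_weierstrassP z0 hz0
  have hQ := Λ.analyticOnNhd_derivWeierstrassP z0 hz0
  -- not locally zero
  have hne : analyticOrderAt Λ.weierstrassP z0 ≠ ⊤ := by
    intro htop
    rw [analyticOrderAt_eq_top] at htop
    have hconn : IsPreconnected ((Λ.lattice : Set ℂ)ᶜ) :=
      (Set.Countable.isConnected_compl_of_one_lt_rank (by simp)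
        (countable_of_Lindelof_of_discrete (X := Λ.lattice))).isPreconnected
    have h0 := Λ.analyticOnNhd_weierstrassP.eqOn_zero_of_preconnected_of_eventuallyEq_zero
      hconn hz0 htop
    have h1 := Λ.order_weierstrassP 0 (zero_mem _)
    have h2 : meromorphicOrderAt Λ.weierstrassP 0 = ⊤ := by
      rw [meromorphicOrderAt_eq_top_iff]
      filter_upwards [self_mem_nhdsWithin, mem_nhdsWithin_of_mem_nhds
        (Λ.compl_lattice_sdiff_singleton_mem_nhds 0)] with w hw hw'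
      refine h0 fun hwl => hw' ⟨hwl, hw⟩
    rw [h2] at h1
    exact absurd h1 (by decide)
  obtain ⟨m, hm⟩ := ENat.ne_top_iff_exists.1 hne
  have hder := hP.analyticOrderAt_deriv_add_one
  simp only [P_z0, sub_zero, PeriodPair.deriv_weierstrassP] at hder
  have hsq : analyticOrderAt (Λ.derivWeierstrassP ^ 2) z0
      = analyticOrderAt ((fun _ => (4 : ℂ)) * Λ.weierstrassP ^ 3) z0 := by
    refine analyticOrderAt_congr ?_
    filter_upwards [hopen.mem_nhds hz0] with w hw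
    have := Λ.derivWeierstrassP_sq w hw
    rw [PeriodPair.g₂, G4, h3] at this
    simp only [Pi.pow_apply, Pi.mul_apply]
    rw [this]
    ring
  rw [analyticOrderAt_pow hQ, analyticOrderAt_mul analyticAt_const (hP.pow 3),
    analyticOrderAt_pow hP] at hsq
  have hc : analyticOrderAt (fun _ : ℂ => (4 : ℂ)) z0 = 0 := by
    rw [AnalyticAt.analyticOrderAt_eq_zero analyticAt_const]
    norm_num
  rw [hc, zero_add, ← hm] at hsq
  change analyticOrderAt Λ.derivWeierstrassP z0 + 1 = analyticOrderAt (fun x => Λ.weierstrassP x) z0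
    at hder
  change analyticOrderAt Λ.derivWeierstrassP z0 + 1 = analyticOrderAt Λ.weierstrassP z0 at hder
  rw [← hm] at hder
  have hq : analyticOrderAt Λ.derivWeierstrassP z0 ≠ ⊤ := by
    intro h
    rw [h] at hder
    simp at hder
  obtain ⟨q, hq⟩ := ENat.ne_top_iff_exists.1 hq
  rw [← hq] at hder hsq
  have e1 : q + 1 = m := by exact_mod_cast hder
  have e2 : 2 * q = 3 * m := by
    have : ((2 * q : ℕ) : ℕ∞) = ((3 * m : ℕ) : ℕ∞) := by
      push_cast
      simpa [nsmul_eq_mul] using hsq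
    exact_mod_cast this
  omega

end MP1707
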