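import Pool.Agent.Lib.MP_1707ab_an.N2.M.Cut

section
/-!
# MP_1707ab_an, n = 2, PART M, module SM
-/
set_option autoImplicit false

open scoped Topology BigOperators Classical ContDiff
open MeasureTheory

namespace MP1707

namespace SmM

variable (D : Cell)

theorem cont_infDist (l : ℝ) : Continuous fun z : ℂ => Metric.infDist (z / l) D.Z :=
  (Metric.continuous_infDist_pt _).comp (by fun_prop)

theorem not_mem_of_infDist {w : ℂ} (h : 0 < Metric.infDist w D.Z) : w ∉ D.Z := fun hw => by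
  rw [Metric.infDist_zero_of_mem hw] at h; exact lt_irrefl _ h

theorem infDist_pos {w : ℂ} (h : w ∉ D.Z) : 0 < Metric.infDist w D.Z :=
  (D.closed.notMem_iff_infDist_pos D.ne).1 h

/-- `near` is locally constant near the masses -/
theorem near_ev {w : ℂ} (hw : Metric.infDist w D.Z < 2 * D.d0) :
    ∃ p ∈ D.Z, ‖w - p‖ < 2 * D.d0 ∧ ∀ᶠ x in 𝓝 w, D.near x = p := by
  obtain ⟨p, hp, hwp⟩ := CutM.exists_mem D hw
  refine ⟨p, hp, hwp, ?_⟩
  have ho : IsOpen {x : ℂ | ‖x - p‖ < 2 * D.d0} := isOpen_lt (by fun_prop) continuous_const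
  filter_upwards [ho.mem_nhds hwp] with x hx
  exact CutM.near_eq D hp hx

theorem near_ev' {l : ℝ} {z : ℂ} (hw : Metric.infDist (z / l) D.Z < 2 * D.d0) :
    ∃ p ∈ D.Z, ‖z / l - p‖ < 2 * D.d0 ∧ ∀ᶠ x in 𝓝 z, D.near (x / l) = p := by
  obtain ⟨p, hp, hwp, h⟩ := near_ev D hw
  refine ⟨p, hp, hwp, ?_⟩
  have hc : Filter.Tendsto (fun x : ℂ => x / l) (𝓝 z) (𝓝 (z / l)) := by
    have : Continuous fun x : ℂ => x / (l : ℂ) := by fun_prop
    exact this.tendsto z
  exact hc.eventually h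

theorem glue {a l : ℝ} (ha : 1 < a * D.d0) {n : ℕ∞} {A B : ℂ → ℂ}
    (hA : ∀ z : ℂ, z / l ∉ D.Z → ContDiffAt ℝ n A z)
    (hB : ∀ z : ℂ, Metric.infDist (z / l) D.Z < 2 * D.d0 → ContDiffAt ℝ n B z) :
    ContDiff ℝ n (fun z : ℂ => (CutM.T D a (z / l) : ℂ) * A z + (1 - (CutM.T D a (z / l) : ℂ)) * B z) := by
  have hd0 := D.hd0
  have ha0 : 0 < a := by
    by_contra h
    push Not at h
    have : a * D.d0 ≤ 0 := mul_nonpos_of_nonpos_of_nonneg h hd0.le
    linarith
  have hT : ContDiff ℝ n fun z : ℂ => (CutM.T D a (z / l) : ℂ) := by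
    have h1 : ContDiff ℝ n (CutM.T D a) := (CutM.T_contDiff D ha).of_le (by exact_mod_cast le_top)
    have h2 : ContDiff ℝ n fun z : ℂ => z / (l : ℂ) := contDiff_id.div_const _
    exact Complex.ofRealCLM.contDiff.comp (h1.comp h2)
  rw [contDiff_iff_contDiffAt]
  intro z
  rcases lt_or_ge (Metric.infDist (z / l) D.Z) (2 * D.d0) with hz | hz
  · by_cases hzZ : z / l ∈ D.Z
    · have h0 : a * Metric.infDist (z / l) D.Z < 1 := by
        rw [Metric.infDist_zero_of_mem hzZ]; simp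
      have hev : (fun z : ℂ => (CutM.T D a (z / l) : ℂ) * A z + (1 - (CutM.T D a (z / l) : ℂ)) * B z)
          =ᶠ[𝓝 z] B := by
        have ho : IsOpen {x : ℂ | a * Metric.infDist (x / l) D.Z < 1} :=
          isOpen_lt (continuous_const.mul (cont_infDist D l)) continuous_const
        filter_upwards [ho.mem_nhds h0] with x hx
        rw [CutM.T_zero D (le_of_lt hx)]
        simp
      exact (hB z hz).congr_of_eventuallyEq hev
    · exact (hT.contDiffAt.mul (hA z hzZ)).add ((contDiffAt_const.sub hT.contDiffAt).mul (hB z hz))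
  · have h2 : 2 < a * Metric.infDist (z / l) D.Z := by
      calc (2 : ℝ) < 2 * (a * D.d0) := by linarith
        _ = a * (2 * D.d0) := by ring
        _ ≤ _ := by gcongr
    have hev : (fun z : ℂ => (CutM.T D a (z / l) : ℂ) * A z + (1 - (CutM.T D a (z / l) : ℂ)) * B z)
        =ᶠ[𝓝 z] A := by
      have ho : IsOpen {x : ℂ | 2 < a * Metric.infDist (x / l) D.Z} :=
        isOpen_lt continuous_const (continuous_const.mul (cont_infDist D l))
      filter_upwards [ho.mem_nhds h2] with x hx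
      rw [CutM.T_one D (le_of_lt hx)]
      simp
    exact (hA z (not_mem_of_infDist D (by linarith))).congr_of_eventuallyEq hev

theorem contDiffAt_of_deriv {f f' : ℂ → ℂ} (h : ∀ z ∉ D.Z, HasDerivAt f (f' z) z) (n : ℕ∞)
    {w : ℂ} (hw : w ∉ D.Z) : ContDiffAt ℝ n f w := by
  have h1 : DifferentiableOn ℂ f D.Zᶜ := fun z hz =>
    (h z hz).differentiableAt.differentiableWithinAt
  have h2 : AnalyticAt ℂ f w := h1.analyticAt (D.closed.isOpen_compl.mem_nhds hw)
  exact (h2.contDiffAt (n := (n : WithTop ℕ∞))).restrict_scalars ℝ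

theorem contDiffAt_scaled {f f' : ℂ → ℂ} (h : ∀ z ∉ D.Z, HasDerivAt f (f' z) z) (n : ℕ∞) {l : ℝ}
    {z : ℂ} (hw : z / l ∉ D.Z) : ContDiffAt ℝ n (fun x : ℂ => f (x / l)) z := by
  have h1 := contDiffAt_of_deriv D h n hw
  have h2 : ContDiffAt ℝ n (fun z : ℂ => z / (l : ℂ)) z := (contDiff_id.div_const _).contDiffAt
  exact ContDiffAt.comp z h1 h2

theorem cd_re {f : ℝ → ℝ} {n : ℕ∞} (h : ContDiff ℝ n f) : ContDiff ℝ n fun z : ℂ => (f z.im : ℂ) :=
  Complex.ofRealCLM.contDiff.comp (h.comp Complex.imCLM.contDiff)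

theorem cd_st (n : ℕ∞) : ContDiff ℝ n Real.smoothTransition := Real.smoothTransition.contDiff

theorem cd_chi3 (n : ℕ∞) : ContDiff ℝ n chi3 := by
  unfold chi3
  exact ((cd_st n).comp (by fun_prop)).mul ((cd_st n).comp (by fun_prop))

theorem cd_chi1 (l : ℝ) (n : ℕ∞) : ContDiff ℝ n (chi1 l) := by
  unfold chi1
  exact ((cd_st n).comp ((contDiff_id.sub contDiff_const).div_const _)).mul
    ((cd_st n).comp ((contDiff_const.sub contDiff_id).div_const _))

theorem cd_chib (n : ℕ∞) : ContDiff ℝ n chib := by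
  unfold chib
  exact (cd_st n).comp (by fun_prop)

theorem cd_chit (n : ℕ∞) : ContDiff ℝ n chit := by
  unfold chit
  exact (cd_st n).comp (by fun_prop)

theorem cd_entire {g : ℂ → ℂ} (hg : Differentiable ℂ g) (n : ℕ∞) : ContDiff ℝ n g :=
  (hg.contDiff (n := (n : WithTop ℕ∞))).restrict_scalars ℝ

theorem diff_deriv {g : ℂ → ℂ} (hg : Differentiable ℂ g) : Differentiable ℂ (deriv g) := by
  intro z
  exact ((hg.analyticAt z).deriv).differentiableAt

theorem cd_gw {g : ℂ → ℂ} (hg : Differentiable ℂ g) (n : ℕ∞) : ContDiff ℝ n (gw g) := by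
  unfold gw
  exact (((cd_re (cd_chib n)).mul (cd_re (cd_chit n))).mul (cd_entire hg n)).add
    (contDiff_const.sub (cd_re (cd_chit n)))

theorem vs_eq (r : ℝ) : D.vs r = fun z : ℂ => (CutM.T D (4 / r) (z / (1 : ℝ)) : ℂ) * D.v z +
    (1 - (CutM.T D (4 / r) (z / (1 : ℝ)) : ℂ)) * D.v (D.near z + D.d0) := by
  funext z
  unfold Cell.vs
  rw [CutM.th2_eq]
  simp

theorem h4r {r : ℝ} (hr : 0 < r) (hrd : r ≤ D.d0 / 4) : 1 < 4 / r * D.d0 := by
  have hd0 := D.hd0
  rw [div_mul_eq_mul_div, lt_div_iff₀ hr]; linarith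

theorem h1r {r : ℝ} (hr : 0 < r) (hrd : r ≤ D.d0 / 4) : 1 < 1 / r * D.d0 := by
  have hd0 := D.hd0
  rw [div_mul_eq_mul_div, one_mul, lt_div_iff₀ hr]; linarith

theorem cd_vs {r : ℝ} (hr : 0 < r) (hrd : r ≤ D.d0 / 4) (n : ℕ∞) : ContDiff ℝ n (D.vs r) := by
  rw [vs_eq]
  refine glue D (h4r D hr hrd) (fun z hz => ?_) (fun z hz => ?_)
  · rw [Complex.ofReal_one, div_one] at hz
    exact contDiffAt_of_deriv D D.dv n hz
  · rw [Complex.ofReal_one, div_one] at hz
    obtain ⟨p, hp, -, h⟩ := near_ev D hz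
    refine (contDiffAt_const (c := D.v (p + D.d0))).congr_of_eventuallyEq ?_
    filter_upwards [h] with x hx
    rw [hx]

theorem cd_VV {g : ℂ → ℂ} (hg : Differentiable ℂ g) {A r l : ℝ} (hr : 0 < r) (hrd : r ≤ D.d0 / 4)
    (n : ℕ∞) : ContDiff ℝ n (D.VV g A r l) := by
  unfold Cell.VV
  refine ((contDiff_const.mul (cd_entire (diff_deriv hg) n)).mul ?_).mul (cd_re (cd_chi3 n))
  exact (cd_vs D hr hrd n).comp (contDiff_id.div_const _)

theorem cd_dz {V : ℂ → ℂ} (hV : ContDiff ℝ 2 V) : ContDiff ℝ 1 (dz V) := by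
  have h1 : ContDiff ℝ 1 (fderiv ℝ V) := hV.fderiv_right (by norm_num)
  unfold dz
  exact ((h1.clm_apply contDiff_const).sub (contDiff_const.mul (h1.clm_apply contDiff_const))).div_const _

theorem cd_Fj {A l : ℝ} {n : ℕ∞} {z : ℂ} (hz : Metric.infDist (z / l) D.Z < 2 * D.d0) :
    ContDiffAt ℝ n (fun x : ℂ => D.Fj A l (x / l)) z := by
  obtain ⟨p, hp, -, h⟩ := near_ev' D hz
  refine (contDiffAt_const (c := (chi1 l (l * p.im) : ℂ) * (l * A) * D.fh p)).congr_of_eventuallyEq ?_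
  filter_upwards [h] with x hx
  unfold Cell.Fj
  rw [hx]

theorem cd_gwnear {g : ℂ → ℂ} {l : ℝ} {n : ℕ∞} {z : ℂ} (hz : Metric.infDist (z / l) D.Z < 2 * D.d0) :
    ContDiffAt ℝ n (fun x : ℂ => gw g (l * D.near (x / l))) z := by
  obtain ⟨p, hp, -, h⟩ := near_ev' D hz
  refine (contDiffAt_const (c := gw g (l * p))).congr_of_eventuallyEq ?_
  filter_upwards [h] with x hx
  rw [hx]

theorem cd_Fs (hP : SpecPsi) {A ε l : ℝ} (hε : 0 < ε) {z : ℂ} (hz : z / l ∉ D.Z) :
    ContDiffAt ℝ ((1 : ℕ∞) : WithTop ℕ∞) (D.Fs A ε l) z := by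
  unfold Cell.Fs
  refine ((cd_re (cd_chi1 l 1)).contDiffAt.mul contDiffAt_const).mul (contDiffAt_const.mul ?_)
  have h1 : ContDiff ℝ ((1 : ℕ∞) : WithTop ℕ∞) (psi ε) := by exact_mod_cast (hP ε hε).1
  exact ContDiffAt.comp z h1.contDiffAt (contDiffAt_scaled D D.dU 1 hz)

theorem cd_Cs {g : ℂ → ℂ} (hg : Differentiable ℂ g) {l : ℝ} {n : ℕ∞} {z : ℂ} (hz : z / l ∉ D.Z) :
    ContDiffAt ℝ n (D.Cs g l) z := by
  unfold Cell.Cs
  refine (cd_gw hg n).contDiffAt.add ((((cd_re (cd_chi1 l n)).contDiffAt.mul contDiffAt_const).mul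
    (cd_entire (diff_deriv hg) n).contDiffAt).mul (contDiffAt_const.mul ?_))
  exact contDiffAt_scaled D D.dG n hz

theorem FF_eq (A ε r l : ℝ) : D.FF A ε r l = fun z : ℂ => (CutM.T D (1 / r) (z / l) : ℂ) * D.Fs A ε l z +
    (1 - (CutM.T D (1 / r) (z / l) : ℂ)) * D.Fj A l (z / l) := by
  funext z
  unfold Cell.FF
  rw [CutM.th_eq]

theorem CC_eq (g : ℂ → ℂ) (A r l : ℝ) : D.CC g A r l =
    fun z : ℂ => (CutM.T D (1 / r) (z / l) : ℂ) * D.Cs g l z +
    (1 - (CutM.T D (1 / r) (z / l) : ℂ)) *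
      (gw g (l * D.near (z / l)) + D.Fj A l (z / l) * dz (D.VV g A r l) z) := by
  funext z
  unfold Cell.CC
  rw [CutM.th_eq]

theorem cd_FF (hP : SpecPsi) {A ε r l : ℝ} (hε : 0 < ε) (hr : 0 < r) (hrd : r ≤ D.d0 / 4) :
    ContDiff ℝ 1 (D.FF A ε r l) := by
  rw [FF_eq]
  exact_mod_cast glue D (n := 1) (h1r D hr hrd) (fun z hz => cd_Fs D hP hε hz)
    (fun z hz => cd_Fj D hz)

theorem cd_CC {g : ℂ → ℂ} (hg : Differentiable ℂ g) {A r l : ℝ} (hr : 0 < r) (hrd : r ≤ D.d0 / 4) :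
    ContDiff ℝ 1 (D.CC g A r l) := by
  rw [CC_eq]
  have hV : ContDiff ℝ 2 (D.VV g A r l) := by exact_mod_cast cd_VV D hg hr hrd 2
  have hdz : ContDiff ℝ ((1 : ℕ∞) : WithTop ℕ∞) (dz (D.VV g A r l)) := by exact_mod_cast cd_dz hV
  exact_mod_cast glue D (n := 1) (h1r D hr hrd) (fun z hz => cd_Cs D hg hz)
    (fun z hz => (cd_gwnear D hz).add ((cd_Fj D hz).mul hdz.contDiffAt))

end SmM

theorem specSm (hP : SpecPsi) : SpecSm := by
  intro D g A ε r l hg _ hε _ hr hrd _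
  refine ⟨?_, SmM.cd_FF D hP hε hr hrd, SmM.cd_CC D hg hr hrd⟩
  exact_mod_cast SmM.cd_VV D hg hr hrd 2

end MP1707
end

section
/-!
# MP_1707ab_an, n = 2, PART M, modules LOC and WALL
-/
set_option autoImplicit false

open scoped Topology BigOperators Classical ContDiff
open MeasureTheory

namespace MP1707

namespace LocM

variable (D : Cell)

/-- either the cutoff is `1`, or there is a mass near -/
theorem near_cases {r : ℝ} (hr : 0 < r) (hrd : r ≤ D.d0 / 4) (w : ℂ) :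
    D.th r w = 1 ∨ ∃ p ∈ D.Z, ‖w - p‖ < 2 * r ∧ D.near w = p := by
  have hd0 := D.hd0
  rcases lt_or_ge (Metric.infDist w D.Z) (2 * r) with h | h
  · right
    obtain ⟨p, hp, h'⟩ := (Metric.infDist_lt_iff D.ne).1 h
    rw [dist_eq_norm] at h'
    exact ⟨p, hp, h', CutM.near_eq D hp (by linarith)⟩
  · left
    rw [CutM.th_eq]
    apply CutM.T_one
    rw [one_div, ← div_eq_inv_mul, le_div_iff₀ hr]; linarith

theorem scaled {l r : ℝ} (hl : 0 < l) {z p : ℂ} (h : ‖z / l - p‖ < 2 * r) :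
    ‖z - l * p‖ < 2 * r * l ∧ |z.im - l * p.im| < 2 * r * l := by
  have hl' : (l : ℂ) ≠ 0 := by exact_mod_cast hl.ne'
  have h1 : z - l * p = l * (z / l - p) := by field_simp
  have h2 : ‖z - l * p‖ < 2 * r * l := by
    rw [h1, norm_mul, Complex.norm_real, Real.norm_eq_abs, abs_of_pos hl]
    nlinarith
  refine ⟨h2, lt_of_le_of_lt ?_ h2⟩
  have h3 : z.im - l * p.im = (z - l * p).im := by simp
  rw [h3]
  exact Complex.abs_im_le_norm _

theorem chi1_zero_low {l y : ℝ} (hl : 0 < l) (hy : y ≤ 1 / 8) : chi1 l y = 0 := by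
  unfold chi1
  rw [Real.smoothTransition.zero_of_nonpos (x := (y - 1 / 8) / l)
    (div_nonpos_of_nonpos_of_nonneg (by linarith) hl.le), zero_mul]

theorem chi1_zero_high {l y : ℝ} (hl : 0 < l) (hy : 7 / 8 ≤ y) : chi1 l y = 0 := by
  unfold chi1
  rw [Real.smoothTransition.zero_of_nonpos (x := (7 / 8 - y) / l)
    (div_nonpos_of_nonpos_of_nonneg (by linarith) hl.le), mul_zero]

theorem chi1_mem (l y : ℝ) : 0 ≤ chi1 l y ∧ chi1 l y ≤ 1 := by
  unfold chi1
  exact ⟨mul_nonneg (Real.smoothTransition.nonneg _) (Real.smoothTransition.nonneg _),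
    mul_le_one₀ (Real.smoothTransition.le_one _) (Real.smoothTransition.nonneg _)
      (Real.smoothTransition.le_one _)⟩

theorem chi3_mem (y : ℝ) : 0 ≤ chi3 y ∧ chi3 y ≤ 1 := by
  unfold chi3
  exact ⟨mul_nonneg (Real.smoothTransition.nonneg _) (Real.smoothTransition.nonneg _),
    mul_le_one₀ (Real.smoothTransition.le_one _) (Real.smoothTransition.nonneg _)
      (Real.smoothTransition.le_one _)⟩

theorem chi3_one {y : ℝ} (h1 : 5 / 64 ≤ y) (h2 : y ≤ 59 / 64) : chi3 y = 1 := by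
  unfold chi3
  rw [Real.smoothTransition.one_of_one_le (by linarith), Real.smoothTransition.one_of_one_le (by linarith),
    mul_one]

theorem chi3_zero_low {y : ℝ} (h : y ≤ 1 / 16) : chi3 y = 0 := by
  unfold chi3
  rw [Real.smoothTransition.zero_of_nonpos (x := 64 * (y - 1 / 16)) (by linarith), zero_mul]

theorem chi3_zero_high {y : ℝ} (h : 15 / 16 ≤ y) : chi3 y = 0 := by
  unfold chi3
  rw [Real.smoothTransition.zero_of_nonpos (x := 64 * (15 / 16 - y)) (by linarith), mul_zero]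

theorem gw_low (g : ℂ → ℂ) {z : ℂ} (h : z.im ≤ 3 / 32) : gw g z = 0 := by
  unfold gw chib chit
  rw [Real.smoothTransition.zero_of_nonpos (x := 32 * (z.im - 3 / 32)) (by linarith),
    Real.smoothTransition.one_of_one_le (x := 32 * (29 / 32 - z.im)) (by linarith)]
  simp

theorem gw_high (g : ℂ → ℂ) {z : ℂ} (h : 29 / 32 ≤ z.im) : gw g z = 1 := by
  unfold gw chit
  rw [Real.smoothTransition.zero_of_nonpos (x := 32 * (29 / 32 - z.im)) (by linarith)]
  simp

theorem imlp (l : ℝ) (p : ℂ) : ((l : ℂ) * p).im = l * p.im := by simp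

/-- below the lower wall -/
theorem low {r l : ℝ} (hr : 0 < r) (hrd : r ≤ D.d0 / 4) (hl : 0 < l) (hrl : 2 * r * l ≤ 1 / 128)
    (g : ℂ → ℂ) (A ε : ℝ) {z : ℂ} (hz : z.im ≤ 5 / 64 + 1 / 256) :
    D.FF A ε r l z = 0 ∧ D.CC g A r l z = 0 := by
  have hF : D.Fs A ε l z = 0 := by
    unfold Cell.Fs; rw [chi1_zero_low hl (by linarith)]; simp
  have hC : D.Cs g l z = 0 := by
    unfold Cell.Cs; rw [chi1_zero_low hl (by linarith), gw_low g (by linarith)]; simp
  rcases near_cases D hr hrd (z / l) with h | ⟨p, hp, h, hn⟩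
  · unfold Cell.FF Cell.CC
    rw [h, hF, hC]; simp
  · have h2 := (scaled hl h).2
    rw [abs_lt] at h2
    have h3 : l * p.im ≤ 3 / 32 := by linarith
    have hFj : D.Fj A l (z / l) = 0 := by
      unfold Cell.Fj; rw [hn, chi1_zero_low hl (by linarith)]; simp
    unfold Cell.FF Cell.CC
    rw [hF, hC, hFj, hn, gw_low g (by rw [imlp]; exact h3)]; simp

/-- above the upper wall -/
theorem high {r l : ℝ} (hr : 0 < r) (hrd : r ≤ D.d0 / 4) (hl : 0 < l) (hrl : 2 * r * l ≤ 1 / 128)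
    (g : ℂ → ℂ) (A ε : ℝ) {z : ℂ} (hz : 59 / 64 - 1 / 256 ≤ z.im) :
    D.FF A ε r l z = 0 ∧ D.CC g A r l z = 1 := by
  have hF : D.Fs A ε l z = 0 := by
    unfold Cell.Fs; rw [chi1_zero_high hl (by linarith)]; simp
  have hC : D.Cs g l z = 1 := by
    unfold Cell.Cs; rw [chi1_zero_high hl (by linarith), gw_high g (by linarith)]; simp
  rcases near_cases D hr hrd (z / l) with h | ⟨p, hp, h, hn⟩
  · unfold Cell.FF Cell.CC
    rw [h, hF, hC]; simp
  · have h2 := (scaled hl h).2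
    rw [abs_lt] at h2
    have h3 : 29 / 32 ≤ l * p.im := by linarith
    have hFj : D.Fj A l (z / l) = 0 := by
      unfold Cell.Fj; rw [hn, chi1_zero_high hl (by linarith)]; simp
    unfold Cell.FF Cell.CC
    rw [hF, hC, hFj, hn, gw_high g (by rw [imlp]; exact h3)]; simp

/-- near the masses -/
theorem exact_near {r l : ℝ} (hr : 0 < r) (hrd : r ≤ D.d0 / 4) (g : ℂ → ℂ) (A ε : ℝ)
    {z : ℂ} (hz : Metric.infDist (z / l) D.Z < r) :
    ∃ p ∈ D.Z, ‖z / l - p‖ < 2 * D.d0 ∧ ∀ᶠ ζ in 𝓝 z, D.near (ζ / l) = p ∧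
      D.FF A ε r l ζ = (chi1 l (l * p.im) : ℂ) * (l * A) * D.fh p ∧
      D.CC g A r l ζ = ((chi1 l (l * p.im) : ℂ) * (l * A) * D.fh p) * dz (D.VV g A r l) ζ + gw g (l * p) := by
  have hd0 := D.hd0
  obtain ⟨p, hp, hwp, h⟩ := SmM.near_ev' D (z := z) (l := l) (by linarith)
  refine ⟨p, hp, hwp, ?_⟩
  have ho : IsOpen {x : ℂ | Metric.infDist (x / l) D.Z < r} :=
    isOpen_lt (SmM.cont_infDist D l) continuous_const
  filter_upwards [h, ho.mem_nhds hz] with ζ h1 h2
  have h3 : D.th r (ζ / l) = 0 := by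
    rw [CutM.th_eq]
    apply CutM.T_zero
    have h2' : Metric.infDist (ζ / l) D.Z < r := h2
    rw [one_div, inv_mul_le_iff₀ hr]; linarith
  refine ⟨h1, ?_, ?_⟩
  · unfold Cell.FF Cell.Fj; rw [h3, h1]; simp
  · unfold Cell.CC Cell.Fj; rw [h3, h1]; simp; ring

/-- where `V` is holomorphic -/
theorem VV_eq {r : ℝ} (hr : 0 < r) (g : ℂ → ℂ) (A l : ℝ) {z : ℂ}
    (hz : r / 2 < Metric.infDist (z / l) D.Z) (h1 : 5 / 64 ≤ z.im) (h2 : z.im ≤ 59 / 64) :
    D.VV g A r l z = (l / A : ℂ) * deriv g z * D.v (z / l) := by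
  unfold Cell.VV Cell.vs
  have h3 : D.th2 r (z / l) = 1 := by
    rw [CutM.th2_eq]
    apply CutM.T_one
    rw [div_mul_eq_mul_div, le_div_iff₀ hr]; linarith
  rw [h3, chi3_one h1 h2]; simp

theorem isOpen_mid (r l : ℝ) : IsOpen {z : ℂ | r / 2 < Metric.infDist (z / l) D.Z ∧ 5 / 64 < z.im ∧
    z.im < 59 / 64} :=
  (isOpen_lt continuous_const (SmM.cont_infDist D l)).inter
    ((isOpen_lt continuous_const Complex.continuous_im).inter
      (isOpen_lt Complex.continuous_im continuous_const))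

theorem VV_diff {r : ℝ} (hr : 0 < r) {g : ℂ → ℂ} (hg : Differentiable ℂ g) (A l : ℝ) :
    DifferentiableOn ℂ (D.VV g A r l) {z : ℂ | r / 2 < Metric.infDist (z / l) D.Z ∧ 5 / 64 < z.im ∧
      z.im < 59 / 64} := by
  intro z hz
  have hz' : z / l ∉ D.Z := SmM.not_mem_of_infDist D (by linarith [hz.1])
  have h1 : DifferentiableAt ℂ (fun x : ℂ => (l / A : ℂ) * deriv g x * D.v (x / l)) z := by
    refine ((differentiableAt_const _).mul (SmM.diff_deriv hg z)).mul ?_
    have h2 := (D.dv _ hz').differentiableAt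
    have h3 : DifferentiableAt ℂ (fun x : ℂ => x / (l : ℂ)) z := by fun_prop
    exact DifferentiableAt.comp z h2 h3
  refine DifferentiableAt.differentiableWithinAt (h1.congr_of_eventuallyEq ?_)
  filter_upwards [(isOpen_mid D r l).mem_nhds hz] with x hx
  exact VV_eq D hr g A l hx.1 hx.2.1.le hx.2.2.le

theorem vs_bound {r : ℝ} (hr : 0 < r) (hrd : r ≤ D.d0 / 4) : ∃ C2 : ℝ, 0 < C2 ∧ ∀ w : ℂ,
    ‖D.vs r w‖ ≤ C2 + D.C * ‖w‖ := by
  have hd0 := D.hd0
  have hC := D.hC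
  obtain ⟨C1, hC1, h1⟩ := D.far (r / 4) (by positivity)
  obtain ⟨C3, hC3, h3⟩ := D.far D.d0 hd0
  refine ⟨C1 + C3 + D.C * (r / 2 + D.d0), by positivity, fun w => ?_⟩
  set t := D.th2 r w with ht
  have ht0 : 0 ≤ t ∧ t ≤ 1 := by rw [ht, CutM.th2_eq]; exact CutM.T_mem D _ _
  have hX : 0 ≤ C1 + C3 + D.C * (r / 2 + D.d0) + D.C * ‖w‖ := by positivity
  have hA : t * ‖D.v w‖ ≤ t * (C1 + C3 + D.C * (r / 2 + D.d0) + D.C * ‖w‖) := by
    rcases le_or_gt (r / 4) (Metric.infDist w D.Z) with h | h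
    · apply mul_le_mul_of_nonneg_left _ ht0.1
      have := (h1 w h).1
      have h5 : 0 ≤ D.C * (r / 2 + D.d0) := by positivity
      linarith
    · have : t = 0 := by
        rw [ht, CutM.th2_eq]
        apply CutM.T_zero
        rw [div_mul_eq_mul_div, div_le_iff₀ hr]; linarith
      rw [this, zero_mul, zero_mul]
  have hB : (1 - t) * ‖D.v (D.near w + D.d0)‖ ≤
      (1 - t) * (C1 + C3 + D.C * (r / 2 + D.d0) + D.C * ‖w‖) := by
    rcases lt_or_ge (Metric.infDist w D.Z) (r / 2) with h | h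
    · apply mul_le_mul_of_nonneg_left _ (by linarith [ht0.2])
      obtain ⟨p, hp, h'⟩ := (Metric.infDist_lt_iff D.ne).1 h
      rw [dist_eq_norm] at h'
      have hn : D.near w = p := CutM.near_eq D hp (by linarith)
      rw [hn]
      have h4 : ‖p + (D.d0 : ℂ) - p‖ = D.d0 := by
        rw [add_sub_cancel_left, Complex.norm_real, Real.norm_eq_abs, abs_of_pos hd0]
      have h5 : Metric.infDist (p + (D.d0 : ℂ)) D.Z = D.d0 := by
        rw [CutM.infDist_eq D hp (by rw [h4]; linarith), h4]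
      have h6 := (h3 (p + D.d0) (by rw [h5])).1
      have h7 : ‖p + (D.d0 : ℂ)‖ ≤ ‖w‖ + (r / 2 + D.d0) := by
        calc ‖p + (D.d0 : ℂ)‖ = ‖w - (w - p) + D.d0‖ := by congr 1; ring
          _ ≤ ‖w - (w - p)‖ + ‖(D.d0 : ℂ)‖ := norm_add_le _ _
          _ ≤ ‖w‖ + ‖w - p‖ + D.d0 := by
              rw [Complex.norm_real, Real.norm_eq_abs, abs_of_pos hd0]
              gcongr
              exact norm_sub_le _ _
          _ ≤ _ := by linarith
      have h8 : D.C * ‖p + (D.d0 : ℂ)‖ ≤ D.C * (‖w‖ + (r / 2 + D.d0)) := by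
        apply mul_le_mul_of_nonneg_left h7; linarith
      nlinarith
    · have : t = 1 := by
        rw [ht, CutM.th2_eq]
        apply CutM.T_one
        rw [div_mul_eq_mul_div, le_div_iff₀ hr]; linarith
      rw [this]; simp
  calc ‖D.vs r w‖ ≤ ‖(t : ℂ) * D.v w‖ + ‖(1 - (t : ℂ)) * D.v (D.near w + D.d0)‖ := by
        unfold Cell.vs; rw [← ht]; exact norm_add_le _ _
    _ = t * ‖D.v w‖ + (1 - t) * ‖D.v (D.near w + D.d0)‖ := by
        rw [norm_mul, norm_mul]
        have h1 : ‖(t : ℂ)‖ = t := by rw [Complex.norm_real, Real.norm_eq_abs, abs_of_nonneg ht0.1]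
        have h2 : ‖(1 - (t : ℂ))‖ = 1 - t := by
          rw [← Complex.ofReal_one, ← Complex.ofReal_sub, Complex.norm_real, Real.norm_eq_abs,
            abs_of_nonneg (by linarith [ht0.2])]
        rw [h1, h2]
    _ ≤ _ := by linarith

theorem FF_bound (hP : SpecPsi) {A ε r l : ℝ} (hA : 1 ≤ A) (hε : 0 < ε) (hl : 0 < l) (z : ℂ) :
    ‖D.FF A ε r l z‖ ≤ (A * D.C * (2 / ε) + A * D.C) * l := by
  have hC := D.hC
  set t := D.th r (z / l) with ht
  have ht0 : 0 ≤ t ∧ t ≤ 1 := by rw [ht, CutM.th_eq]; exact CutM.T_mem D _ _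
  have hFs : ‖D.Fs A ε l z‖ ≤ A * D.C * (2 / ε) * l := by
    unfold Cell.Fs
    rw [norm_mul, norm_mul, norm_mul, norm_mul, Complex.norm_real, Complex.norm_real, Complex.norm_real,
      Real.norm_eq_abs, Real.norm_eq_abs, Real.norm_eq_abs, abs_of_pos hl, abs_of_nonneg (chi1_mem l _).1,
      abs_of_pos (by linarith : 0 < A)]
    calc chi1 l z.im * (l * A) * (‖D.κ‖ * ‖psi ε (D.U (z / l))‖)
        ≤ 1 * (l * A) * (D.C * (2 / ε)) := by
          gcongr
          · exact (chi1_mem l _).2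
          · exact D.κb
          · exact (hP ε hε).2.1 _
      _ = _ := by ring
  have hFj : ‖D.Fj A l (z / l)‖ ≤ A * D.C * l := by
    unfold Cell.Fj
    rw [norm_mul, norm_mul, norm_mul, Complex.norm_real, Complex.norm_real, Complex.norm_real,
      Real.norm_eq_abs, Real.norm_eq_abs, Real.norm_eq_abs, abs_of_pos hl, abs_of_nonneg (chi1_mem l _).1,
      abs_of_pos (by linarith : 0 < A)]
    calc chi1 l (l * (D.near (z / l)).im) * (l * A) * ‖D.fh (D.near (z / l))‖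
        ≤ 1 * (l * A) * D.C := by
          gcongr
          · exact (chi1_mem l _).2
          · exact D.fhb _
      _ = _ := by ring
  have h1 : ‖(t : ℂ)‖ ≤ 1 := by
    rw [Complex.norm_real, Real.norm_eq_abs, abs_of_nonneg ht0.1]; exact ht0.2
  have h2 : ‖(1 - (t : ℂ))‖ ≤ 1 := by
    rw [← Complex.ofReal_one, ← Complex.ofReal_sub, Complex.norm_real, Real.norm_eq_abs,
      abs_of_nonneg (by linarith [ht0.2])]
    linarith [ht0.1]
  calc ‖D.FF A ε r l z‖ ≤ ‖(t : ℂ) * D.Fs A ε l z‖ + ‖(1 - (t : ℂ)) * D.Fj A l (z / l)‖ := by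
        unfold Cell.FF; rw [← ht]; exact norm_add_le _ _
    _ ≤ 1 * ‖D.Fs A ε l z‖ + 1 * ‖D.Fj A l (z / l)‖ := by
        rw [norm_mul, norm_mul]; gcongr
    _ ≤ _ := by linarith

end LocM

open LocM in
theorem specLoc : SpecLoc := by
  intro D
  have hd0 := D.hd0
  refine ⟨max 1 (4 / D.d0), le_max_left _ _, ?_⟩
  intro L e0 H0 g hg hL hH he he1 A ε r hA hε hεC hr hrC
  have hrd : r ≤ D.d0 / 4 := by
    refine hrC.trans ?_
    rw [div_le_iff₀ (by positivity)]
    calc (1 : ℝ) = D.d0 / 4 * (4 / D.d0) := by field_simp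
      _ ≤ _ := by gcongr; exact le_max_right _ _
  refine ⟨1, 1 / (256 * r), one_pos, by positivity, ?_⟩
  intro l hl hl0 z hz
  have hrl : 2 * r * l ≤ 1 / 128 := by
    have : l * (256 * r) ≤ 1 := by rwa [le_div_iff₀ (by positivity)] at hl0
    linarith
  rcases lt_or_ge (Metric.infDist (z / l) D.Z) r with h | h
  · right
    obtain ⟨p, hp, -, hev⟩ := exact_near D hr hrd g A ε h
    obtain ⟨t, ht, ht'⟩ := Metric.eventually_nhds_iff_ball.1 hev
    exact ⟨t, ht, _, _, fun ζ hζ => (ht' ζ hζ).2⟩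
  · rcases le_or_gt z.im (5 / 64) with h1 | h1
    · right
      have ho : IsOpen {x : ℂ | x.im < 5 / 64 + 1 / 256} := isOpen_lt Complex.continuous_im continuous_const
      obtain ⟨t, ht, ht'⟩ := Metric.isOpen_iff.1 ho z (by show z.im < 5 / 64 + 1 / 256; linarith)
      refine ⟨t, ht, 0, 0, fun ζ hζ => ?_⟩
      have h2 := low D hr hrd hl hrl g A ε (z := ζ) (le_of_lt (ht' hζ))
      rw [h2.1, h2.2]; simp
    · rcases lt_or_ge z.im (59 / 64) with h2 | h2
      · left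
        obtain ⟨t, ht, ht'⟩ := Metric.isOpen_iff.1 (isOpen_mid D r l) z ⟨by linarith, h1, h2⟩
        exact ⟨t, ht, (VV_diff D hr hg.1 A l).mono ht'⟩
      · right
        have ho : IsOpen {x : ℂ | 59 / 64 - 1 / 256 < x.im} :=
          isOpen_lt continuous_const Complex.continuous_im
        obtain ⟨t, ht, ht'⟩ := Metric.isOpen_iff.1 ho z (by show 59 / 64 - 1 / 256 < z.im; linarith)
        refine ⟨t, ht, 0, 1, fun ζ hζ => ?_⟩
        have h2 := high D hr hrd hl hrl g A ε (z := ζ) (le_of_lt (ht' hζ))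
        rw [h2.1, h2.2]; simp

open LocM in
theorem specWall (hP : SpecPsi) : SpecWall := by
  intro D
  have hd0 := D.hd0
  have hDC := D.hC
  refine ⟨max 1 (4 / D.d0) + 4 * D.C, by have := le_max_left 1 (4 / D.d0); linarith, ?_⟩
  intro L e0 H0 g hg hL hH he he1 A ε r hA hε hεC hr hrC
  have hrd : r ≤ D.d0 / 4 := by
    refine hrC.trans ?_
    rw [div_le_iff₀ (by positivity)]
    calc (1 : ℝ) = D.d0 / 4 * (4 / D.d0) := by field_simp
      _ ≤ _ := by
          gcongr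
          have := le_max_right 1 (4 / D.d0)
          linarith
  obtain ⟨C1, hC1, hvs⟩ := vs_bound D hr hrd
  refine ⟨(A * D.C * (2 / ε) + A * D.C) + H0 * C1, 1 / (256 * r), by positivity, by positivity, ?_⟩
  intro l hl hl0 z hz
  have hrl : 2 * r * l ≤ 1 / 128 := by
    have : l * (256 * r) ≤ 1 := by rwa [le_div_iff₀ (by positivity)] at hl0
    linarith
  refine ⟨fun h => ?_, fun h => ?_, ?_, ?_⟩
  · refine ⟨?_, low D hr hrd hl hrl g A ε (by linarith)⟩
    unfold Cell.VV; rw [chi3_zero_low h.le]; simp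
  · refine ⟨?_, high D hr hrd hl hrl g A ε (by linarith)⟩
    unfold Cell.VV; rw [chi3_zero_high h.le]; simp
  · refine (FF_bound D hP hA hε hl z).trans ?_
    apply mul_le_mul_of_nonneg_right _ hl.le
    have : 0 ≤ H0 * C1 := by positivity
    linarith
  · obtain ⟨hz1, hz2, hz3⟩ := hz
    have hg1 : ‖deriv g z‖ ≤ H0 := (hg.2.1 z (by linarith) (by rw [abs_of_nonneg hz2]; linarith)).2.1
    have hzn : ‖z‖ ≤ 4 * L := by
      have h1 := Complex.norm_le_abs_re_add_abs_im z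
      rw [abs_of_nonneg hz2] at h1
      linarith
    have hv := hvs (z / l)
    have hzl : ‖z / (l : ℂ)‖ = ‖z‖ / l := by
      rw [norm_div, Complex.norm_real, Real.norm_eq_abs, abs_of_pos hl]
    have hc3 : ‖(chi3 z.im : ℂ)‖ ≤ 1 := by
      rw [Complex.norm_real, Real.norm_eq_abs, abs_of_nonneg (chi3_mem _).1]; exact (chi3_mem _).2
    have hA0 : 0 < A := by linarith
    have hlA : ‖(l / A : ℂ)‖ = l / A := by
      rw [norm_div, Complex.norm_real, Complex.norm_real, Real.norm_eq_abs, Real.norm_eq_abs,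
        abs_of_pos hl, abs_of_pos hA0]
    calc ‖D.VV g A r l z‖ = (l / A) * ‖deriv g z‖ * ‖D.vs r (z / l)‖ * ‖(chi3 z.im : ℂ)‖ := by
          unfold Cell.VV; rw [norm_mul, norm_mul, norm_mul, hlA]
      _ ≤ (l / A) * H0 * (C1 + D.C * (4 * L / l)) * 1 := by
          gcongr
          refine hv.trans ?_
          rw [hzl]
          gcongr
      _ = H0 * C1 * (l / A) + 4 * D.C * H0 * L / A := by field_simp
      _ ≤ H0 * C1 * l + (max 1 (4 / D.d0) + 4 * D.C) * H0 * L / A := by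
          have h1 : l / A ≤ l := div_le_self hl.le hA
          gcongr
          have := le_max_left 1 (4 / D.d0)
          linarith
      _ ≤ _ := by
          have : 0 ≤ (A * D.C * (2 / ε) + A * D.C) * l := by positivity
          linarith

end MP1707
end
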