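import Pool.Agent.Lib.MP_1707ab_an.N2.SpecM

/-!
# MP_1707ab_an, n = 2, part M, module PSI
-/

set_option autoImplicit false

open scoped Topology BigOperators ContDiff

namespace MP1707

namespace PsiM

theorem le_of_sq_le_sq_of_nonneg' {a b : ℝ} (_ : 0 < a) (h : a ^ 2 ≤ b ^ 2) (hb : 0 ≤ b) : a ≤ b :=
  le_of_not_gt fun h' => absurd h (not_le.mpr (by nlinarith))

/-- radial profile of `psi` in the variable `t = ‖u‖²` -/
noncomputable def hh (ε t : ℝ) : ℝ := if ε ^ 2 ≤ t then t⁻¹ else (2 * ε ^ 2 - t) / ε ^ 4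

noncomputable def hh1 (ε t : ℝ) : ℝ := -((max t (ε ^ 2)) ^ 2)⁻¹

theorem hasDerivAt_hh {ε : ℝ} (hε : 0 < ε) (t : ℝ) : HasDerivAt (hh ε) (hh1 ε t) t := by
  have he2 : 0 < ε ^ 2 := by positivity
  have he4 : ε ^ 4 = ε ^ 2 * ε ^ 2 := by ring
  have haff : ∀ s : ℝ, HasDerivAt (fun t : ℝ => (2 * ε ^ 2 - t) / ε ^ 4) (-(1 / ε ^ 4)) s := by
    intro s
    have h0 := ((hasDerivAt_id s).const_sub (2 * ε ^ 2)).div_const (ε ^ 4)
    have e : (-1 : ℝ) / ε ^ 4 = -(1 / ε ^ 4) := neg_div _ _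
    rw [e] at h0
    exact h0
  have hinv : ∀ s : ℝ, s ≠ 0 → HasDerivAt (fun t : ℝ => t⁻¹) (-(s ^ 2)⁻¹) s := fun s hs =>
    hasDerivAt_inv hs
  rcases lt_trichotomy t (ε ^ 2) with h | h | h
  · have : hh1 ε t = -(1 / ε ^ 4) := by
      unfold hh1
      rw [max_eq_right h.le, he4]
      ring
    rw [this]
    refine (haff t).congr_of_eventuallyEq ?_
    filter_upwards [isOpen_Iio.mem_nhds h] with s hs
    simp only [hh, not_le.mpr (Set.mem_Iio.mp hs), if_false]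
  · subst h
    have e1 : hh1 ε (ε ^ 2) = -(1 / ε ^ 4) := by
      unfold hh1
      rw [max_self, he4]
      ring
    rw [e1]
    have hl : HasDerivWithinAt (hh ε) (-(1 / ε ^ 4)) (Set.Iic (ε ^ 2)) (ε ^ 2) := by
      refine ((haff (ε ^ 2)).hasDerivWithinAt).congr_of_mem ?_ (Set.mem_Iic.mpr le_rfl)
      intro s hs
      rcases (Set.mem_Iic.mp hs).lt_or_eq with h' | h'
      · simp only [hh, not_le.mpr h', if_false]
      · rw [h']
        simp only [hh, le_refl, if_true]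
        rw [he4]
        field_simp
        ring
    have hr : HasDerivWithinAt (hh ε) (-(1 / ε ^ 4)) (Set.Ici (ε ^ 2)) (ε ^ 2) := by
      have h3 := (hinv (ε ^ 2) he2.ne').hasDerivWithinAt (s := Set.Ici (ε ^ 2))
      have e2 : -((ε ^ 2) ^ 2)⁻¹ = -(1 / ε ^ 4) := by
        rw [he4]; ring
      rw [e2] at h3
      refine h3.congr_of_mem ?_ (Set.mem_Ici.mpr le_rfl)
      intro s hs
      simp only [hh, Set.mem_Ici.mp hs, if_true]
    have := hl.union hr
    rwa [Set.Iic_union_Ici, hasDerivWithinAt_univ] at this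
  · have e1 : hh1 ε t = -(t ^ 2)⁻¹ := by
      unfold hh1
      rw [max_eq_left h.le]
    rw [e1]
    refine (hinv t (he2.trans h).ne').congr_of_eventuallyEq ?_
    filter_upwards [isOpen_Ioi.mem_nhds h] with s hs
    simp only [hh, (Set.mem_Ioi.mp hs).le, if_true]

theorem contDiff_hh {ε : ℝ} (hε : 0 < ε) : ContDiff ℝ 1 (hh ε) := by
  rw [contDiff_one_iff_deriv]
  refine ⟨fun t => (hasDerivAt_hh hε t).differentiableAt, ?_⟩
  have : deriv (hh ε) = hh1 ε := funext fun t => (hasDerivAt_hh hε t).deriv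
  rw [this]
  unfold hh1
  have he2 : 0 < ε ^ 2 := by positivity
  refine (Continuous.inv₀ (by fun_prop) fun t => ?_).neg
  have : 0 < max t (ε ^ 2) := lt_max_of_lt_right he2
  positivity

theorem psi_eq {ε : ℝ} (hε : 0 < ε) (u : ℂ) :
    psi ε u = (starRingEnd ℂ u) * ((hh ε (‖u‖ ^ 2) : ℝ) : ℂ) := by
  unfold psi hh
  by_cases h : ε ≤ ‖u‖
  · have h2 : ε ^ 2 ≤ ‖u‖ ^ 2 := by gcongr
    rw [if_pos h, if_pos h2]
    have hu : u ≠ 0 := by
      rintro rfl
      simp at h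
      linarith
    rw [Complex.inv_def, Complex.normSq_eq_norm_sq]
  · have h2 : ¬ ε ^ 2 ≤ ‖u‖ ^ 2 := by
      intro h3
      exact h (le_of_sq_le_sq_of_nonneg' hε h3 (norm_nonneg u))
    rw [if_neg h, if_neg h2]
    push_cast
    ring

theorem contDiff_psi {ε : ℝ} (hε : 0 < ε) : ContDiff ℝ 1 (psi ε) := by
  have : psi ε = fun u => (Complex.conjCLE u) * (Complex.ofRealCLM (hh ε (‖u‖ ^ 2))) := by
    funext u
    rw [psi_eq hε]
    rfl
  rw [this]
  refine ContDiff.mul Complex.conjCLE.contDiff ?_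
  exact Complex.ofRealCLM.contDiff.comp ((contDiff_hh hε).comp (contDiff_norm_sq ℝ))

theorem hh_bounds {ε : ℝ} (hε : 0 < ε) {t : ℝ} (_ : 0 ≤ t) :
    0 ≤ hh ε t ∧ hh ε t + 2 * t * |hh1 ε t| ≤ 3 / max (ε ^ 2) t ∧ t * hh ε t ≤ 1 := by
  have he2 : 0 < ε ^ 2 := by positivity
  have he4 : ε ^ 4 = ε ^ 2 * ε ^ 2 := by ring
  unfold hh hh1
  by_cases h : ε ^ 2 ≤ t
  · have ht0 : 0 < t := he2.trans_le h
    rw [if_pos h, max_eq_left h, max_eq_right h, abs_neg, abs_of_pos (by positivity)]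
    refine ⟨by positivity, ?_, ?_⟩
    · have : t⁻¹ + 2 * t * (t ^ 2)⁻¹ = 3 / t := by field_simp; norm_num
      rw [this]
    · rw [mul_inv_cancel₀ ht0.ne']
  · rw [if_neg h]
    push Not at h
    rw [max_eq_right h.le, max_eq_left h.le, abs_neg, abs_of_pos (by positivity), he4]
    refine ⟨div_nonneg (by linarith) (by positivity), ?_, ?_⟩
    · have e : (2 * ε ^ 2 - t) / (ε ^ 2 * ε ^ 2) + 2 * t * ((ε ^ 2) ^ 2)⁻¹ =
          (2 * ε ^ 2 + t) / (ε ^ 2 * ε ^ 2) := by field_simp; ring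
      rw [e, div_le_div_iff₀ (by positivity) he2]
      nlinarith [mul_pos he2 he2]
    · rw [mul_div_assoc', div_le_one (by positivity)]
      nlinarith [sq_nonneg (t - ε ^ 2)]

end PsiM

open PsiM in
theorem specPsi : SpecPsi := by
  intro ε hε
  have he2 : 0 < ε ^ 2 := by positivity
  have hn : ∀ u : ℂ, ‖psi ε u‖ = ‖u‖ * hh ε (‖u‖ ^ 2) := by
    intro u
    rw [psi_eq hε, norm_mul, RCLike.norm_conj, Complex.norm_real,
      Real.norm_of_nonneg (hh_bounds hε (by positivity)).1]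
  have hmul : ∀ u : ℂ, ‖psi ε u‖ * ‖u‖ ≤ 1 := by
    intro u
    rw [hn]
    have := (hh_bounds hε (t := ‖u‖ ^ 2) (by positivity)).2.2
    nlinarith
  refine ⟨contDiff_psi hε, ?_, fun u => (hmul u).trans (by norm_num), ?_⟩
  · intro u
    rw [le_div_iff₀ hε]
    by_cases h : ε ≤ ‖u‖
    · have := hmul u
      nlinarith [norm_nonneg (psi ε u)]
    · push Not at h
      rw [hn]
      have hb := hh_bounds hε (t := ‖u‖ ^ 2) (by positivity)
      have h2 : hh ε (‖u‖ ^ 2) ≤ 3 / max (ε ^ 2) (‖u‖ ^ 2) := by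
        have : 0 ≤ 2 * ‖u‖ ^ 2 * |hh1 ε (‖u‖ ^ 2)| := by positivity
        linarith [hb.2.1]
      have h4 : ¬ ε ^ 2 ≤ ‖u‖ ^ 2 := fun h3 =>
        absurd (le_of_sq_le_sq_of_nonneg' hε h3 (norm_nonneg u)) (not_le.mpr h)
      have h5 : hh ε (‖u‖ ^ 2) ≤ 2 / ε ^ 2 := by
        unfold hh
        rw [if_neg h4, div_le_div_iff₀ (by positivity) he2]
        nlinarith [norm_nonneg u, sq_nonneg ‖u‖, mul_nonneg (sq_nonneg ‖u‖) he2.le]
      calc ‖u‖ * hh ε (‖u‖ ^ 2) * ε ≤ ε * (2 / ε ^ 2) * ε := by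
            gcongr
            exact hb.1
        _ = 2 := by field_simp
  · intro u
    set t := ‖u‖ ^ 2 with ht
    have hd : HasFDerivAt (psi ε)
        ((Complex.conjCLE u) • (Complex.ofRealCLM.comp ((hh1 ε t) • (2 • innerSL ℝ u))) +
          (Complex.ofRealCLM (hh ε t)) • (Complex.conjCLE : ℂ →L[ℝ] ℂ)) u := by
      have h1 : HasFDerivAt (fun v : ℂ => ‖v‖ ^ 2) (2 • innerSL ℝ u) u :=
        (hasStrictFDerivAt_norm_sq u).hasFDerivAt
      have h2 : HasFDerivAt (fun v : ℂ => hh ε (‖v‖ ^ 2)) ((hh1 ε t) • (2 • innerSL ℝ u)) u :=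
        HasDerivAt.comp_hasFDerivAt (f := fun v : ℂ => ‖v‖ ^ 2) (h₂ := hh ε) u
          (hasDerivAt_hh hε t) h1
      have h3 : HasFDerivAt (fun v : ℂ => Complex.ofRealCLM (hh ε (‖v‖ ^ 2)))
          (Complex.ofRealCLM.comp ((hh1 ε t) • (2 • innerSL ℝ u))) u :=
        Complex.ofRealCLM.hasFDerivAt.comp u h2
      have h4 := (Complex.conjCLE.hasFDerivAt (x := u)).mul h3
      refine h4.congr_of_eventuallyEq ?_
      filter_upwards with v
      rw [psi_eq hε]
      rfl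
    rw [hd.fderiv]
    have hb := hh_bounds hε (t := t) (by positivity)
    have hmax : (max ε ‖u‖) ^ 2 = max (ε ^ 2) t := by
      rcases le_total ε ‖u‖ with h | h
      · rw [max_eq_right h, max_eq_right]
        rw [ht]; gcongr
      · rw [max_eq_left h, max_eq_left]
        rw [ht]; gcongr
    rw [hmax]
    refine (ContinuousLinearMap.opNorm_le_bound _ (M := 3 / max (ε ^ 2) t) (by positivity) ?_).trans ?_
    · intro v
      have e : (((Complex.conjCLE u) • (Complex.ofRealCLM.comp ((hh1 ε t) • (2 • innerSL ℝ u))) +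
          (Complex.ofRealCLM (hh ε t)) • (Complex.conjCLE : ℂ →L[ℝ] ℂ)) : ℂ →L[ℝ] ℂ) v =
          (starRingEnd ℂ u) * (((hh1 ε t * (2 * inner ℝ u v)) : ℝ) : ℂ) +
            ((hh ε t : ℝ) : ℂ) * (starRingEnd ℂ v) := by
        simp [nsmul_eq_mul]
        left
        ring
      rw [e]
      calc ‖(starRingEnd ℂ u) * (((hh1 ε t * (2 * inner ℝ u v)) : ℝ) : ℂ) +
            ((hh ε t : ℝ) : ℂ) * (starRingEnd ℂ v)‖
          ≤ ‖u‖ * (|hh1 ε t| * (2 * (‖u‖ * ‖v‖))) + hh ε t * ‖v‖ := by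
            refine (norm_add_le _ _).trans ?_
            rw [norm_mul, norm_mul, RCLike.norm_conj, RCLike.norm_conj, Complex.norm_real,
              Complex.norm_real, Real.norm_of_nonneg hb.1, Real.norm_eq_abs, abs_mul, abs_mul,
              abs_of_pos (by norm_num : (0:ℝ) < 2)]
            gcongr
            exact abs_real_inner_le_norm u v
        _ = (hh ε t + 2 * t * |hh1 ε t|) * ‖v‖ := by rw [ht]; ring
        _ ≤ 3 / max (ε ^ 2) t * ‖v‖ := by gcongr; exact hb.2.1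
    · gcongr
      norm_num

end MP1707
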