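import Pool.Agent.Lib.MP_1707ab_an.N2.SpecM
import Pool.Agent.Lib.MP_1707ab_an.N2.M.Loc
import Pool.Agent.Lib.MP_1707ab_an.N2.M.Cut

section
/-!
# MP_1707ab_an, n = 2, PART M, module VDER
-/
set_option autoImplicit false

open scoped Topology BigOperators Classical
open MeasureTheory

namespace MP1707

namespace VderM

/-- Wirtinger derivatives of a holomorphic function -/
theorem wirt {f : ℂ → ℂ} {f' z : ℂ} (h : HasDerivAt f f' z) : dz f z = f' ∧ dzb f z = 0 := by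
  have h1 : fderiv ℝ f z = f' • (1 : ℂ →L[ℝ] ℂ) := h.complexToReal_fderiv.fderiv
  have h2 : Complex.I * Complex.I = -1 := Complex.I_mul_I
  rw [dz, dzb, h1]
  simp only [smul_apply, one_apply_eq_self, smul_eq_mul]
  constructor
  · linear_combination (-f' / 2) * h2
  · linear_combination (f' / 2) * h2

/-- derivatives of entire functions are entire -/
theorem diff_deriv {g : ℂ → ℂ} (hg : Differentiable ℂ g) : Differentiable ℂ (deriv g) :=
  differentiableOn_univ.1 (hg.differentiableOn.deriv isOpen_univ)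

theorem st_one {x : ℝ} (h : 1 ≤ x) : Real.smoothTransition x = 1 :=
  Real.smoothTransition.one_of_one_le h

theorem th2_one (D : Cell) {r : ℝ} (hr : 0 < r) {w : ℂ} (h : r / 2 ≤ Metric.infDist w D.Z) :
    D.th2 r w = 1 := by
  rw [Cell.th2, chi]
  refine st_one ?_
  have : 2 ≤ 4 * Metric.infDist w D.Z / r := by
    rw [le_div_iff₀ hr]
    linarith
  linarith

theorem chi3_one {y : ℝ} (h1 : 5 / 64 ≤ y) (h2 : y ≤ 59 / 64) : chi3 y = 1 := by
  rw [chi3, st_one (by linarith), st_one (by linarith), one_mul]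

/-- off the masses -/
theorem not_mem (D : Cell) {w : ℂ} (h : 0 < Metric.infDist w D.Z) : w ∉ D.Z := by
  intro hw
  rw [Metric.infDist_zero_of_mem hw] at h
  exact lt_irrefl _ h

/-- the region -/
def O (D : Cell) (r l : ℝ) : Set ℂ := {ζ | r / 2 < D.ρ l ζ ∧ 5 / 64 < ζ.im ∧ ζ.im < 59 / 64}

theorem continuous_rho (D : Cell) (l : ℝ) : Continuous (D.ρ l) :=
  (Metric.continuous_infDist_pt D.Z).comp (continuous_id.div_const (l : ℂ))

theorem isOpen_O (D : Cell) (r l : ℝ) : IsOpen (O D r l) :=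
  ((isOpen_lt continuous_const (continuous_rho D l)).inter
    ((isOpen_lt continuous_const Complex.continuous_im).inter
      (isOpen_lt Complex.continuous_im continuous_const)))

/-- `V` in the region -/
theorem VV_eq (D : Cell) (g : ℂ → ℂ) (A : ℝ) {r l : ℝ} (hr : 0 < r) {ζ : ℂ} (h : ζ ∈ O D r l) :
    D.VV g A r l ζ = (l / A : ℂ) * deriv g ζ * D.v (ζ / l) := by
  rw [Cell.VV, Cell.vs, chi3_one h.2.1.le h.2.2.le, th2_one D hr h.1.le]
  push_cast
  ring

theorem hasDerivAt_comp_div {f : ℂ → ℂ} {f' : ℂ} {l : ℝ} {ζ : ℂ}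
    (h : HasDerivAt f f' (ζ / l)) : HasDerivAt (fun ζ : ℂ => f (ζ / l)) (f' / l) ζ := by
  have h1 : HasDerivAt (fun ζ : ℂ => ζ / (l : ℂ)) (1 / (l : ℂ)) ζ := (hasDerivAt_id ζ).div_const _
  have h2 := HasDerivAt.comp (h := fun ζ : ℂ => ζ / (l : ℂ)) (h₂ := f) ζ h h1
  rw [mul_one_div] at h2
  exact h2

/-- derivative of `(l / A) g'(ζ) v(ζ / l)` -/
theorem hasDeriv1 (D : Cell) {g : ℂ → ℂ} (hg : Differentiable ℂ g) (A : ℝ) {r l : ℝ} (hr : 0 < r)
    {ζ : ℂ} (h : r / 2 < D.ρ l ζ) :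
    HasDerivAt (fun ζ : ℂ => (l / A : ℂ) * deriv g ζ * D.v (ζ / l))
      ((l / A : ℂ) * (deriv (deriv g) ζ * D.v (ζ / l) + deriv g ζ * D.v1 (ζ / l) / l)) ζ := by
  have hZ : ζ / l ∉ D.Z := not_mem D (lt_trans (by positivity) h)
  have h1 : HasDerivAt (deriv g) (deriv (deriv g) ζ) ζ := (diff_deriv hg ζ).hasDerivAt
  have h2 : HasDerivAt (fun ζ : ℂ => D.v (ζ / l)) (D.v1 (ζ / l) / l) ζ :=
    hasDerivAt_comp_div (D.dv _ hZ)
  have h3 := (h1.const_mul (l / A : ℂ)).mul h2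
  refine HasDerivAt.congr_deriv h3 ?_
  ring

/-- second derivative -/
theorem hasDeriv2 (D : Cell) {g : ℂ → ℂ} (hg : Differentiable ℂ g) (A : ℝ) {r l : ℝ} (hr : 0 < r)
    {ζ : ℂ} (h : r / 2 < D.ρ l ζ) :
    HasDerivAt (fun ζ : ℂ => (l / A : ℂ) * (deriv (deriv g) ζ * D.v (ζ / l) +
        deriv g ζ * D.v1 (ζ / l) / l))
      ((l / A : ℂ) * (deriv (deriv (deriv g)) ζ * D.v (ζ / l) +
        2 * deriv (deriv g) ζ * D.v1 (ζ / l) / l + deriv g ζ * D.v2 (ζ / l) / l ^ 2)) ζ := by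
  have hZ : ζ / l ∉ D.Z := not_mem D (lt_trans (by positivity) h)
  have h1 : HasDerivAt (deriv g) (deriv (deriv g) ζ) ζ := (diff_deriv hg ζ).hasDerivAt
  have h1' : HasDerivAt (deriv (deriv g)) (deriv (deriv (deriv g)) ζ) ζ :=
    (diff_deriv (diff_deriv hg) ζ).hasDerivAt
  have h2 : HasDerivAt (fun ζ : ℂ => D.v (ζ / l)) (D.v1 (ζ / l) / l) ζ :=
    hasDerivAt_comp_div (D.dv _ hZ)
  have h3 : HasDerivAt (fun ζ : ℂ => D.v1 (ζ / l)) (D.v2 (ζ / l) / l) ζ :=
    hasDerivAt_comp_div (D.dv1 _ hZ)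
  have h4 := ((h1'.mul h2).add ((h1.mul h3).div_const (l : ℂ))).const_mul (l / A : ℂ)
  refine HasDerivAt.congr_deriv h4 ?_
  ring

theorem vv_hasDeriv (D : Cell) {g : ℂ → ℂ} (hg : Differentiable ℂ g) (A : ℝ) {r l : ℝ}
    (hr : 0 < r) {ζ : ℂ} (h : ζ ∈ O D r l) :
    HasDerivAt (D.VV g A r l)
      ((l / A : ℂ) * (deriv (deriv g) ζ * D.v (ζ / l) + deriv g ζ * D.v1 (ζ / l) / l)) ζ := by
  refine (hasDeriv1 D hg A hr h.1).congr_of_eventuallyEq ?_
  filter_upwards [(isOpen_O D r l).mem_nhds h] with x hx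
  exact VV_eq D g A hr hx

end VderM

open VderM in
theorem specVder : SpecVder := by
  intro D g A r l hg hA hr hr2 hl z h1 h2 h3
  have hz : z ∈ O D r l := ⟨h1, h2, h3⟩
  have hev : ∀ᶠ ζ in 𝓝 z, dz (D.VV g A r l) ζ =
      (l / A : ℂ) * (deriv (deriv g) ζ * D.v (ζ / l) + deriv g ζ * D.v1 (ζ / l) / l) := by
    filter_upwards [(isOpen_O D r l).mem_nhds hz] with x hx
    exact (wirt (vv_hasDeriv D hg A hr hx)).1
  refine ⟨?_, (wirt (vv_hasDeriv D hg A hr hz)).2, hev, ?_⟩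
  · obtain ⟨t, ht, hsub⟩ := Metric.isOpen_iff.1 (isOpen_O D r l) z hz
    exact ⟨t, ht, fun x hx => (vv_hasDeriv D hg A hr (hsub hx)).differentiableAt.differentiableWithinAt⟩
  · exact (hasDeriv2 D hg A hr h1).congr_of_eventuallyEq hev

end MP1707
end

section
/-!
# MP_1707ab_an, n = 2, PART M, module PTG
-/
set_option autoImplicit false

open scoped Topology BigOperators Classical ContDiff
open MeasureTheory

namespace MP1707

namespace PtGM

/-! ### calculus -/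

theorem re_hasFDerivAt {f : ℝ → ℝ} {z : ℂ} (hf : DifferentiableAt ℝ f z.im) :
    HasFDerivAt (fun z : ℂ => (f z.im : ℂ))
      (Complex.ofRealCLM.comp (deriv f z.im • Complex.imCLM)) z := by
  have h1 : HasFDerivAt (fun z : ℂ => f z.im) (deriv f z.im • Complex.imCLM) z :=
    hf.hasDerivAt.comp_hasFDerivAt z Complex.imCLM.hasFDerivAt
  exact Complex.ofRealCLM.hasFDerivAt.comp z h1

theorem re_diff {f : ℝ → ℝ} {z : ℂ} (hf : DifferentiableAt ℝ f z.im) :
    DifferentiableAt ℝ (fun z : ℂ => (f z.im : ℂ)) z := (re_hasFDerivAt hf).differentiableAt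

theorem fd_re {f : ℝ → ℝ} {z : ℂ} (hf : DifferentiableAt ℝ f z.im) :
    ‖fderiv ℝ (fun z : ℂ => (f z.im : ℂ)) z‖ ≤ |deriv f z.im| := by
  rw [(re_hasFDerivAt hf).fderiv]
  refine ContinuousLinearMap.opNorm_le_bound _ (abs_nonneg _) fun v => ?_
  change ‖((deriv f z.im * v.im : ℝ) : ℂ)‖ ≤ _
  rw [Complex.norm_real, norm_mul, Real.norm_eq_abs, Real.norm_eq_abs]
  exact mul_le_mul_of_nonneg_left (Complex.abs_im_le_norm v) (abs_nonneg _)

theorem div_hasFDerivAt (l : ℝ) (z : ℂ) :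
    HasFDerivAt (fun z : ℂ => z / (l : ℂ)) (((1 / (l : ℂ)) : ℂ) • (1 : ℂ →L[ℝ] ℂ)) z :=
  ((hasDerivAt_id z).div_const (l : ℂ)).complexToReal_fderiv

theorem fderiv_div {h : ℂ → ℂ} {l : ℝ} {z : ℂ} (hh : DifferentiableAt ℝ h (z / l)) :
    HasFDerivAt (fun z : ℂ => h (z / l))
      ((fderiv ℝ h (z / l)).comp (((1 / (l : ℂ)) : ℂ) • (1 : ℂ →L[ℝ] ℂ))) z :=
  HasFDerivAt.comp (f := fun z : ℂ => z / (l : ℂ)) (g := h) z hh.hasFDerivAt (div_hasFDerivAt l z)

theorem fd_div {h : ℂ → ℂ} {l : ℝ} (hl : 0 < l) {z : ℂ} (hh : DifferentiableAt ℝ h (z / l)) :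
    ‖fderiv ℝ (fun z : ℂ => h (z / l)) z‖ ≤ ‖fderiv ℝ h (z / l)‖ / l := by
  rw [(fderiv_div hh).fderiv]
  refine ContinuousLinearMap.opNorm_le_bound _ (by positivity) fun v => ?_
  change ‖fderiv ℝ h (z / l) ((1 / (l : ℂ)) * v)‖ ≤ _
  refine (ContinuousLinearMap.le_opNorm _ _).trans (le_of_eq ?_)
  have h1 : ‖(1 / (l : ℂ)) * v‖ = ‖v‖ / l := by
    rw [norm_mul, norm_div, norm_one, Complex.norm_real, Real.norm_eq_abs, abs_of_pos hl]
    ring
  rw [h1]
  ring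

theorem dzb_div {h : ℂ → ℂ} {l : ℝ} {z : ℂ} (hh : DifferentiableAt ℝ h (z / l)) :
    dzb (fun z : ℂ => h (z / l)) z = dzb h (z / l) / l := by
  rw [dzb, (fderiv_div hh).fderiv, dzb]
  have h1 : ∀ v : ℂ, (fderiv ℝ h (z / l)).comp (((1 / (l : ℂ)) : ℂ) • (1 : ℂ →L[ℝ] ℂ)) v =
      fderiv ℝ h (z / l) v / l := by
    intro v
    change fderiv ℝ h (z / l) ((1 / (l : ℂ)) * v) = _
    have h2 : (1 / (l : ℂ)) * v = ((1 / l : ℝ)) • v := by
      rw [Complex.real_smul]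
      push_cast
      ring
    rw [h2, map_smul, Complex.real_smul]
    push_cast
    ring
  rw [h1, h1]
  ring

theorem fd_mul {a b : ℂ → ℂ} {z : ℂ} (ha : DifferentiableAt ℝ a z) (hb : DifferentiableAt ℝ b z) :
    ‖fderiv ℝ (fun z => a z * b z) z‖ ≤ ‖a z‖ * ‖fderiv ℝ b z‖ + ‖b z‖ * ‖fderiv ℝ a z‖ := by
  rw [fderiv_fun_mul ha hb]
  refine (norm_add_le _ _).trans ?_
  rw [norm_smul, norm_smul]

theorem dzb_mul {a b : ℂ → ℂ} {z : ℂ} (ha : DifferentiableAt ℝ a z) (hb : DifferentiableAt ℝ b z) :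
    dzb (fun z => a z * b z) z = a z * dzb b z + b z * dzb a z := by
  rw [dzb, dzb, dzb, fderiv_fun_mul ha hb]
  simp only [add_apply, smul_apply, smul_eq_mul]
  ring

theorem dzb_le (f : ℂ → ℂ) (z : ℂ) : ‖dzb f z‖ ≤ ‖fderiv ℝ f z‖ := by
  rw [dzb, norm_div]
  have h1 : ‖fderiv ℝ f z 1‖ ≤ ‖fderiv ℝ f z‖ := by
    simpa using (fderiv ℝ f z).le_opNorm 1
  have h2 : ‖fderiv ℝ f z Complex.I‖ ≤ ‖fderiv ℝ f z‖ := by
    simpa using (fderiv ℝ f z).le_opNorm Complex.I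
  have h3 : ‖fderiv ℝ f z 1 + Complex.I * fderiv ℝ f z Complex.I‖ ≤ 2 * ‖fderiv ℝ f z‖ := by
    refine (norm_add_le _ _).trans ?_
    rw [norm_mul, Complex.norm_I, one_mul]
    linarith
  have h4 : ‖(2 : ℂ)‖ = 2 := by simp
  rw [h4, div_le_iff₀ two_pos]
  linarith

theorem hol_diff {f : ℂ → ℂ} {f' z : ℂ} (h : HasDerivAt f f' z) : DifferentiableAt ℝ f z :=
  h.complexToReal_fderiv.differentiableAt

theorem fd_hol {f : ℂ → ℂ} {f' z : ℂ} (h : HasDerivAt f f' z) : ‖fderiv ℝ f z‖ ≤ ‖f'‖ := by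
  rw [h.complexToReal_fderiv.fderiv]
  refine ContinuousLinearMap.opNorm_le_bound _ (norm_nonneg _) fun v => ?_
  change ‖f' * v‖ ≤ _
  rw [norm_mul]

theorem dzb_congr {f h : ℂ → ℂ} {z : ℂ} (e : f =ᶠ[𝓝 z] h) : dzb f z = dzb h z := by
  rw [dzb, dzb, e.fderiv_eq]

/-! ### cutoffs -/

theorem st_diff (x : ℝ) : DifferentiableAt ℝ Real.smoothTransition x :=
  (Real.smoothTransition.contDiff (n := 1)).differentiable (by norm_num) x

theorem st_abs (x : ℝ) : |Real.smoothTransition x| ≤ 1 := by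
  rw [abs_of_nonneg (Real.smoothTransition.nonneg _)]
  exact Real.smoothTransition.le_one _

/-- derivative of a product of two cutoffs -/
theorem two_cut {B : ℝ} (h : ∀ t, |deriv Real.smoothTransition t| ≤ B) (c a b : ℝ) (y : ℝ) :
    DifferentiableAt ℝ (fun y => Real.smoothTransition (c * (y - a)) *
      Real.smoothTransition (c * (b - y))) y ∧
    |deriv (fun y => Real.smoothTransition (c * (y - a)) *
      Real.smoothTransition (c * (b - y))) y| ≤ 2 * B * |c| := by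
  have h1 : HasDerivAt (fun y => Real.smoothTransition (c * (y - a)))
      (deriv Real.smoothTransition (c * (y - a)) * c) y := by
    have h2 : HasDerivAt (fun y : ℝ => c * (y - a)) (c * 1) y :=
      ((hasDerivAt_id y).sub_const a).const_mul c
    rw [mul_one] at h2
    exact HasDerivAt.comp (h := fun y : ℝ => c * (y - a)) y (st_diff _).hasDerivAt h2
  have h3 : HasDerivAt (fun y => Real.smoothTransition (c * (b - y)))
      (deriv Real.smoothTransition (c * (b - y)) * (-c)) y := by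
    have h2 : HasDerivAt (fun y : ℝ => c * (b - y)) (c * (-1)) y :=
      ((hasDerivAt_id y).const_sub b).const_mul c
    have h2' : HasDerivAt (fun y : ℝ => c * (b - y)) (-c) y := h2.congr_deriv (by ring)
    exact HasDerivAt.comp (h := fun y : ℝ => c * (b - y)) y (st_diff _).hasDerivAt h2'
  have h4 : HasDerivAt (fun y => Real.smoothTransition (c * (y - a)) *
      Real.smoothTransition (c * (b - y))) _ y := h1.mul h3
  refine ⟨h4.differentiableAt, ?_⟩
  rw [h4.deriv]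
  have hB : 0 ≤ B := (abs_nonneg _).trans (h 0)
  refine (abs_add_le _ _).trans ?_
  rw [abs_mul, abs_mul, abs_mul, abs_mul, abs_neg]
  have e1 := h (c * (y - a))
  have e2 := h (c * (b - y))
  have e3 := st_abs (c * (y - a))
  have e4 := st_abs (c * (b - y))
  calc |deriv Real.smoothTransition (c * (y - a))| * |c| * |Real.smoothTransition (c * (b - y))| +
        |Real.smoothTransition (c * (y - a))| * (|deriv Real.smoothTransition (c * (b - y))| * |c|)
      ≤ B * |c| * 1 + 1 * (B * |c|) := by gcongr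
    _ = 2 * B * |c| := by ring

theorem chi3_d {B : ℝ} (h : ∀ t, |deriv Real.smoothTransition t| ≤ B) (y : ℝ) :
    DifferentiableAt ℝ chi3 y ∧ |deriv chi3 y| ≤ 128 * B := by
  have := two_cut h 64 (1 / 16) (15 / 16) y
  refine ⟨this.1, this.2.trans (le_of_eq ?_)⟩
  rw [abs_of_pos (by norm_num : (0 : ℝ) < 64)]
  ring

/-! ### the smoothed `v` -/

variable (D : Cell)

theorem th2_complex {B : ℝ} (hB : 0 < B) (h : ∀ t, |deriv Real.smoothTransition t| ≤ B) {r : ℝ}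
    (hr : 0 < r) (hrd : r ≤ D.d0 / 4) (w : ℂ) :
    DifferentiableAt ℝ (fun w => (D.th2 r w : ℂ)) w ∧
      ‖fderiv ℝ (fun w => (D.th2 r w : ℂ)) w‖ ≤ 4 * B / r := by
  have h1 : DifferentiableAt ℝ (D.th2 r) w := by
    rw [CutM.th2_eq]
    exact (CutM.T_contDiff D (SmM.h4r D hr hrd)).differentiable (by simp) w
  have h2 : HasFDerivAt (fun w => (D.th2 r w : ℂ)) (Complex.ofRealCLM.comp (fderiv ℝ (D.th2 r) w)) w :=
    Complex.ofRealCLM.hasFDerivAt.comp w h1.hasFDerivAt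
  refine ⟨h2.differentiableAt, ?_⟩
  rw [h2.fderiv]
  have h3 : ‖fderiv ℝ (D.th2 r) w‖ ≤ 4 * B / r := by
    rw [CutM.th2_eq]
    refine (CutM.T_fderiv D hB h (by positivity) w).trans (le_of_eq ?_)
    ring
  refine ContinuousLinearMap.opNorm_le_bound _ (by positivity) fun v => ?_
  change ‖((fderiv ℝ (D.th2 r) w v : ℝ) : ℂ)‖ ≤ _
  rw [Complex.norm_real]
  exact (ContinuousLinearMap.le_opNorm _ _).trans (mul_le_mul_of_nonneg_right h3 (norm_nonneg _))

theorem dzb_vs {B : ℝ} (hB : 0 < B) (h : ∀ t, |deriv Real.smoothTransition t| ≤ B) {r : ℝ}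
    (hr : 0 < r) (hrd : r ≤ D.d0 / 4) (w : ℂ) :
    ‖dzb (D.vs r) w‖ ≤
      if r / 4 ≤ Metric.infDist w D.Z ∧ Metric.infDist w D.Z ≤ r / 2 then 16 * B * D.C / r ^ 2
      else 0 := by
  have hd0 := D.hd0
  have hC := D.hC
  have hcont : Continuous fun w : ℂ => Metric.infDist w D.Z := Metric.continuous_infDist_pt _
  split_ifs with hw
  · obtain ⟨hw1, hw2⟩ := hw
    obtain ⟨p, hp, hwp, hnear⟩ := SmM.near_ev D (w := w) (by linarith)
    have hid := CutM.infDist_eq D hp hwp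
    have hZ : w ∉ D.Z := SmM.not_mem_of_infDist D (lt_of_lt_of_le (by positivity) hw1)
    have hev : D.vs r =ᶠ[𝓝 w] fun x => (D.th2 r x : ℂ) * (D.v x - D.v (p + D.d0)) +
        D.v (p + D.d0) := by
      filter_upwards [hnear] with x hx
      rw [Cell.vs, hx]
      ring
    have ht := th2_complex D hB h hr hrd w
    have hv : HasDerivAt (fun x => D.v x - D.v (p + D.d0)) (D.v1 w) w := (D.dv w hZ).sub_const _
    have e1 : dzb (D.vs r) w = (D.v w - D.v (p + D.d0)) * dzb (fun w => (D.th2 r w : ℂ)) w := by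
      rw [dzb_congr hev]
      have e2 : dzb (fun x => (D.th2 r x : ℂ) * (D.v x - D.v (p + D.d0)) + D.v (p + D.d0)) w =
          dzb (fun x => (D.th2 r x : ℂ) * (D.v x - D.v (p + D.d0))) w := by
        rw [dzb, dzb, fderiv_add_const]
      rw [e2, dzb_mul ht.1 (hol_diff hv), (VderM.wirt hv).2]
      ring
    rw [e1, norm_mul]
    have e3 : ‖D.v w - D.v (p + D.d0)‖ ≤ D.C / ‖w - p‖ := by
      refine D.nearv p hp w ?_ ?_
      · rw [← hid]
        linarith
      · rw [← hid]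
        linarith
    have e4 : D.C / ‖w - p‖ ≤ D.C / (r / 4) := by
      rw [← hid]
      gcongr
    have e5 : ‖dzb (fun w => (D.th2 r w : ℂ)) w‖ ≤ 4 * B / r := (dzb_le _ _).trans ht.2
    calc ‖D.v w - D.v (p + D.d0)‖ * ‖dzb (fun w => (D.th2 r w : ℂ)) w‖
        ≤ (D.C / (r / 4)) * (4 * B / r) := by
          gcongr
          exact e3.trans e4
      _ = 16 * B * D.C / r ^ 2 := by
          field_simp
          ring
  · rw [not_and_or, not_le, not_le] at hw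
    refine le_of_eq (norm_eq_zero.2 ?_)
    rcases hw with hw | hw
    · obtain ⟨p, hp, hwp, hnear⟩ := SmM.near_ev D (w := w) (by linarith)
      have ho : IsOpen {x : ℂ | Metric.infDist x D.Z < r / 4} := isOpen_lt hcont continuous_const
      have hev : D.vs r =ᶠ[𝓝 w] fun _ => D.v (p + D.d0) := by
        filter_upwards [hnear, ho.mem_nhds hw] with x hx hx'
        have e : D.th2 r x = 0 := by
          rw [CutM.th2_eq]
          apply CutM.T_zero
          have hx'' : Metric.infDist x D.Z < r / 4 := hx'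
          rw [div_mul_eq_mul_div, div_le_iff₀ hr]
          linarith
        rw [Cell.vs, hx, e]
        push_cast
        ring
      rw [dzb_congr hev, dzb]
      simp
    · have hZ : w ∉ D.Z := SmM.not_mem_of_infDist D (by linarith)
      have ho : IsOpen {x : ℂ | r / 2 < Metric.infDist x D.Z} := isOpen_lt continuous_const hcont
      have hev : D.vs r =ᶠ[𝓝 w] D.v := by
        filter_upwards [ho.mem_nhds hw] with x hx'
        have hx'' : r / 2 < Metric.infDist x D.Z := hx'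
        rw [Cell.vs, VderM.th2_one D hr hx''.le]
        push_cast
        ring
      rw [dzb_congr hev]
      exact (VderM.wirt (D.dv w hZ)).2

theorem norm_le_K {L : ℝ} (hL : 1 ≤ L) {z : ℂ} (hz : z ∈ K L) : ‖z‖ ≤ 4 * L := by
  obtain ⟨hz1, hz2, hz3⟩ := hz
  have h1 := Complex.norm_le_abs_re_add_abs_im z
  rw [abs_of_nonneg hz2] at h1
  linarith

theorem norm_div_l {l : ℝ} (hl : 0 < l) (z : ℂ) : ‖z / (l : ℂ)‖ = ‖z‖ / l := by
  rw [norm_div, Complex.norm_real, Real.norm_eq_abs, abs_of_pos hl]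

theorem norm_lA {l A : ℝ} (hl : 0 < l) (hA : 1 ≤ A) : ‖(l / A : ℂ)‖ = l / A := by
  have hA0 : 0 < A := by linarith
  rw [norm_div, Complex.norm_real, Complex.norm_real, Real.norm_eq_abs, Real.norm_eq_abs,
    abs_of_pos hl, abs_of_pos hA0]

end PtGM

open PtGM in
theorem specPtG : SpecPtG := by
  obtain ⟨B, hB, hBd⟩ := CutM.exists_bound
  intro D
  have hd0 := D.hd0
  have hDC := D.hC
  refine ⟨1 + 4 / D.d0 + 512 * B * D.C, by
    have : 0 ≤ 4 / D.d0 + 512 * B * D.C := by positivity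
    linarith, ?_⟩
  intro L e0 H0 g hg hL hH he he1 A ε r hA hε hεC hr hrC
  have hrd : r ≤ D.d0 / 4 := by
    refine hrC.trans ?_
    rw [div_le_iff₀ (by positivity)]
    calc (1 : ℝ) = D.d0 / 4 * (4 / D.d0) := by field_simp
      _ ≤ _ := by
          gcongr
          have : 0 ≤ 512 * B * D.C := by positivity
          linarith
  obtain ⟨C1, hC1, hvs⟩ := LocM.vs_bound D hr hrd
  refine ⟨128 * B * H0 * C1, 1, by positivity, one_pos, ?_⟩
  intro l hl hl0 z hz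
  have hA0 : 0 < A := by linarith
  have hzn := norm_le_K hL hz
  obtain ⟨hz1, hz2, hz3⟩ := hz
  have hg1 : ‖deriv g z‖ ≤ H0 := (hg.2.1 z (by linarith) (by rw [abs_of_nonneg hz2]; linarith)).2.1
  have hgd : HasDerivAt (deriv g) (deriv (deriv g) z) z := (VderM.diff_deriv hg.1 z).hasDerivAt
  have hgd' : HasDerivAt (fun z => (l / A : ℂ) * deriv g z) ((l / A : ℂ) * deriv (deriv g) z) z :=
    hgd.const_mul _
  have hvsd : DifferentiableAt ℝ (D.vs r) (z / l) :=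
    (SmM.cd_vs D hr hrd 1).differentiable (by norm_num) _
  have hvsd' : DifferentiableAt ℝ (fun z : ℂ => D.vs r (z / l)) z := (fderiv_div hvsd).differentiableAt
  have hc3 := chi3_d hBd z.im
  have hc3d : DifferentiableAt ℝ (fun z : ℂ => (chi3 z.im : ℂ)) z := re_diff hc3.1
  have e1 : dzb (D.VV g A r l) z = (l / A : ℂ) * deriv g z * (dzb (D.vs r) (z / l) / l) * chi3 z.im +
      (l / A : ℂ) * deriv g z * D.vs r (z / l) * dzb (fun z : ℂ => (chi3 z.im : ℂ)) z := by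
    have e2 : D.VV g A r l = fun z => ((l / A : ℂ) * deriv g z * D.vs r (z / l)) * (chi3 z.im : ℂ) := rfl
    have hm : DifferentiableAt ℝ (fun z => (l / A : ℂ) * deriv g z * D.vs r (z / l)) z :=
      (hol_diff hgd').mul hvsd'
    rw [e2, dzb_mul hm hc3d, dzb_mul (hol_diff hgd') hvsd', (VderM.wirt hgd').2, dzb_div hvsd]
    ring
  rw [e1]
  refine (norm_add_le _ _).trans ?_
  have hc3n : ‖(chi3 z.im : ℂ)‖ ≤ 1 := by
    rw [Complex.norm_real, Real.norm_eq_abs, abs_of_nonneg (LocM.chi3_mem _).1]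
    exact (LocM.chi3_mem _).2
  have hc3z : ‖dzb (fun z : ℂ => (chi3 z.im : ℂ)) z‖ ≤ 128 * B :=
    (dzb_le _ _).trans ((fd_re hc3.1).trans hc3.2)
  have hv := hvs (z / l)
  rw [norm_div_l hl] at hv
  have hv2 : ‖D.vs r (z / l)‖ ≤ C1 + D.C * (4 * L / l) := by
    refine hv.trans ?_
    gcongr
  have hdz := dzb_vs D hB hBd hr hrd (z / l)
  -- first term
  have t1 : ‖(l / A : ℂ) * deriv g z * (dzb (D.vs r) (z / l) / l) * chi3 z.im‖ ≤
      if r / 4 ≤ D.ρ l z ∧ D.ρ l z ≤ r / 2 then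
        (1 + 4 / D.d0 + 512 * B * D.C) * H0 / (A * r ^ 2) else 0 := by
    rw [norm_mul, norm_mul, norm_mul, norm_lA hl hA, norm_div, Complex.norm_real, Real.norm_eq_abs,
      abs_of_pos hl]
    have hρ : D.ρ l z = Metric.infDist (z / l) D.Z := rfl
    rw [← hρ] at hdz
    split_ifs at hdz ⊢ with hc
    · calc l / A * ‖deriv g z‖ * (‖dzb (D.vs r) (z / l)‖ / l) * ‖(chi3 z.im : ℂ)‖
          ≤ l / A * H0 * ((16 * B * D.C / r ^ 2) / l) * 1 := by gcongr
        _ = (16 * B * D.C) * H0 / (A * r ^ 2) := by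
            field_simp
        _ ≤ _ := by
            gcongr
            have h1 : 0 ≤ 4 / D.d0 := by positivity
            have h2 : 0 ≤ B * D.C := by positivity
            linarith
    · have h0 : ‖dzb (D.vs r) (z / l)‖ = 0 := le_antisymm hdz (norm_nonneg _)
      rw [h0]
      simp
  -- second term
  have t2 : ‖(l / A : ℂ) * deriv g z * D.vs r (z / l) * dzb (fun z : ℂ => (chi3 z.im : ℂ)) z‖ ≤
      (1 + 4 / D.d0 + 512 * B * D.C) * H0 * L / A + 128 * B * H0 * C1 * l := by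
    rw [norm_mul, norm_mul, norm_mul, norm_lA hl hA]
    calc l / A * ‖deriv g z‖ * ‖D.vs r (z / l)‖ * ‖dzb (fun z : ℂ => (chi3 z.im : ℂ)) z‖
        ≤ l / A * H0 * (C1 + D.C * (4 * L / l)) * (128 * B) := by gcongr
      _ = 128 * B * H0 * C1 * (l / A) + (512 * B * D.C) * H0 * L / A := by
          field_simp
          ring
      _ ≤ 128 * B * H0 * C1 * l + (1 + 4 / D.d0 + 512 * B * D.C) * H0 * L / A := by
          have h1 : l / A ≤ l := div_le_self hl.le hA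
          have h2 : 0 ≤ 4 / D.d0 := by positivity
          gcongr
          linarith
      _ = _ := by ring
  linarith

end MP1707
end

section
/-!
# MP_1707ab_an, n = 2, PART M, module PTA
-/
set_option autoImplicit false

open scoped Topology BigOperators Classical ContDiff
open MeasureTheory

namespace MP1707

namespace PtAM

open PtGM

theorem fd_mix {t a b : ℂ → ℂ} {z : ℂ} (ht : DifferentiableAt ℝ t z) (ha : DifferentiableAt ℝ a z)
    (hb : DifferentiableAt ℝ b z) (ht1 : ‖t z‖ ≤ 1) :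
    ‖fderiv ℝ (fun z => t z * a z + (1 - t z) * b z) z‖ ≤
      ‖fderiv ℝ a z‖ + 2 * ‖fderiv ℝ b z‖ + ‖a z - b z‖ * ‖fderiv ℝ t z‖ := by
  have e1 : (fun z => t z * a z + (1 - t z) * b z) = fun z => b z + t z * (a z - b z) := by
    funext x
    ring
  have hab : DifferentiableAt ℝ (fun z => a z - b z) z := ha.sub hb
  have hm : DifferentiableAt ℝ (fun z => t z * (a z - b z)) z := ht.mul hab
  have e2 : fderiv ℝ (fun z => b z + t z * (a z - b z)) z =
      fderiv ℝ b z + fderiv ℝ (fun z => t z * (a z - b z)) z := fderiv_fun_add hb hm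
  have e3 : fderiv ℝ (fun z => a z - b z) z = fderiv ℝ a z - fderiv ℝ b z := fderiv_fun_sub ha hb
  rw [e1, e2]
  refine (norm_add_le _ _).trans ?_
  have e4 := fd_mul ht hab
  rw [e3] at e4
  have e5 : ‖fderiv ℝ a z - fderiv ℝ b z‖ ≤ ‖fderiv ℝ a z‖ + ‖fderiv ℝ b z‖ := norm_sub_le _ _
  have e6 : ‖t z‖ * ‖fderiv ℝ a z - fderiv ℝ b z‖ ≤ 1 * (‖fderiv ℝ a z‖ + ‖fderiv ℝ b z‖) := by
    gcongr
  linarith

theorem fd_add {a b : ℂ → ℂ} {z : ℂ} (ha : DifferentiableAt ℝ a z) (hb : DifferentiableAt ℝ b z) :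
    ‖fderiv ℝ (fun z => a z + b z) z‖ ≤ ‖fderiv ℝ a z‖ + ‖fderiv ℝ b z‖ := by
  rw [fderiv_fun_add ha hb]
  exact norm_add_le _ _

theorem one_cut {B : ℝ} (h : ∀ t, |deriv Real.smoothTransition t| ≤ B) (c a : ℝ) (y : ℝ) :
    DifferentiableAt ℝ (fun y => Real.smoothTransition (c * (a - y))) y ∧
    |deriv (fun y => Real.smoothTransition (c * (a - y))) y| ≤ B * |c| := by
  have h3 : HasDerivAt (fun y => Real.smoothTransition (c * (a - y)))
      (deriv Real.smoothTransition (c * (a - y)) * (-c)) y := by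
    have h2 : HasDerivAt (fun y : ℝ => c * (a - y)) (c * (-1)) y :=
      ((hasDerivAt_id y).const_sub a).const_mul c
    have h2' : HasDerivAt (fun y : ℝ => c * (a - y)) (-c) y := h2.congr_deriv (by ring)
    exact HasDerivAt.comp (h := fun y : ℝ => c * (a - y)) y (st_diff _).hasDerivAt h2'
  refine ⟨h3.differentiableAt, ?_⟩
  rw [h3.deriv, abs_mul, abs_neg]
  exact mul_le_mul_of_nonneg_right (h _) (abs_nonneg _)

theorem chi1_d {B : ℝ} (h : ∀ t, |deriv Real.smoothTransition t| ≤ B) {l : ℝ} (hl : 0 < l) (y : ℝ) :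
    DifferentiableAt ℝ (chi1 l) y ∧ |deriv (chi1 l) y| ≤ 2 * B / l := by
  have e : chi1 l = fun y => Real.smoothTransition (1 / l * (y - 1 / 8)) *
      Real.smoothTransition (1 / l * (7 / 8 - y)) := by
    funext y
    rw [chi1]
    congr 2 <;> ring
  rw [e]
  have h1 := two_cut h (1 / l) (1 / 8) (7 / 8) y
  refine ⟨h1.1, h1.2.trans (le_of_eq ?_)⟩
  rw [abs_of_pos (by positivity : 0 < 1 / l)]
  ring

theorem chi1_norm (l y : ℝ) : ‖(chi1 l y : ℂ)‖ ≤ 1 := by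
  rw [Complex.norm_real, Real.norm_eq_abs, abs_of_nonneg (LocM.chi1_mem _ _).1]
  exact (LocM.chi1_mem _ _).2

theorem st_norm (x : ℝ) : ‖(Real.smoothTransition x : ℂ)‖ ≤ 1 := by
  rw [Complex.norm_real, Real.norm_eq_abs]
  exact st_abs _

/-- derivative of `gw` -/
theorem gw_d {B : ℝ} (_hB : 0 < B) (h : ∀ t, |deriv Real.smoothTransition t| ≤ B) {g : ℂ → ℂ}
    (hg : Differentiable ℂ g) {H0 : ℝ} {z : ℂ} (h0 : ‖g z‖ ≤ H0) (h1 : ‖deriv g z‖ ≤ H0) :
    DifferentiableAt ℝ (gw g) z ∧ ‖fderiv ℝ (gw g) z‖ ≤ H0 + 64 * B * H0 + 32 * B := by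
  have hH : 0 ≤ H0 := (norm_nonneg _).trans h0
  have hbt := two_cut h 32 (3 / 32) (29 / 32) z.im
  have ht := one_cut h 32 (29 / 32) z.im
  rw [abs_of_pos (by norm_num : (0 : ℝ) < 32)] at hbt ht
  have hd : HasDerivAt g (deriv g z) z := (hg z).hasDerivAt
  have e : gw g = fun z : ℂ => ((Real.smoothTransition (32 * (z.im - 3 / 32)) *
      Real.smoothTransition (32 * (29 / 32 - z.im)) : ℝ) : ℂ) * g z +
      (1 - ((Real.smoothTransition (32 * (29 / 32 - z.im)) : ℝ) : ℂ)) := by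
    funext z
    rw [gw, chib, chit]
    push_cast
    ring
  have d1 : DifferentiableAt ℝ (fun z : ℂ => ((Real.smoothTransition (32 * (z.im - 3 / 32)) *
      Real.smoothTransition (32 * (29 / 32 - z.im)) : ℝ) : ℂ)) z := re_diff hbt.1
  have d2 : DifferentiableAt ℝ
      (fun z : ℂ => ((Real.smoothTransition (32 * (29 / 32 - z.im)) : ℝ) : ℂ)) z := re_diff ht.1
  have d3 : DifferentiableAt ℝ
      (fun z : ℂ => 1 - ((Real.smoothTransition (32 * (29 / 32 - z.im)) : ℝ) : ℂ)) z :=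
    d2.const_sub 1
  have d4 : DifferentiableAt ℝ (fun z : ℂ => ((Real.smoothTransition (32 * (z.im - 3 / 32)) *
      Real.smoothTransition (32 * (29 / 32 - z.im)) : ℝ) : ℂ) * g z) z := d1.mul (hol_diff hd)
  have e1 := fd_add d4 d3
  have e2 := fd_mul d1 (hol_diff hd)
  have e3 := fd_hol hd
  have e4 := fd_re hbt.1
  have e5 : ‖fderiv ℝ (fun z : ℂ => 1 - ((Real.smoothTransition (32 * (29 / 32 - z.im)) : ℝ) : ℂ)) z‖ ≤
      B * 32 := by
    rw [fderiv_const_sub, norm_neg]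
    exact (fd_re ht.1).trans ht.2
  have e6 : ‖((Real.smoothTransition (32 * (z.im - 3 / 32)) *
      Real.smoothTransition (32 * (29 / 32 - z.im)) : ℝ) : ℂ)‖ ≤ 1 := by
    push_cast
    rw [norm_mul]
    exact mul_le_one₀ (st_norm _) (norm_nonneg _) (st_norm _)
  rw [e]
  refine ⟨d4.add d3, e1.trans ?_⟩
  have e7 : ‖((Real.smoothTransition (32 * (z.im - 3 / 32)) *
      Real.smoothTransition (32 * (29 / 32 - z.im)) : ℝ) : ℂ)‖ * ‖fderiv ℝ g z‖ ≤ 1 * H0 := by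
    gcongr
    exact e3.trans h1
  have e8 : ‖g z‖ * ‖fderiv ℝ (fun z : ℂ => ((Real.smoothTransition (32 * (z.im - 3 / 32)) *
      Real.smoothTransition (32 * (29 / 32 - z.im)) : ℝ) : ℂ)) z‖ ≤ H0 * (2 * B * 32) := by
    gcongr
    exact e4.trans hbt.2
  linarith

variable (D : Cell)

theorem T_complex {B : ℝ} (hB : 0 < B) (h : ∀ t, |deriv Real.smoothTransition t| ≤ B) {r : ℝ}
    (hr : 0 < r) (hrd : r ≤ D.d0 / 4) {l : ℝ} (hl : 0 < l) (z : ℂ) :
    DifferentiableAt ℝ (fun z : ℂ => (CutM.T D (1 / r) (z / l) : ℂ)) z ∧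
      ‖fderiv ℝ (fun z : ℂ => (CutM.T D (1 / r) (z / l) : ℂ)) z‖ ≤ B / (r * l) := by
  have key : ∀ w : ℂ, DifferentiableAt ℝ (fun w => (CutM.T D (1 / r) w : ℂ)) w ∧
      ‖fderiv ℝ (fun w => (CutM.T D (1 / r) w : ℂ)) w‖ ≤ B / r := by
    intro w
    have h1 : DifferentiableAt ℝ (CutM.T D (1 / r)) w :=
      (CutM.T_contDiff D (SmM.h1r D hr hrd)).differentiable (by simp) w
    have h2 : HasFDerivAt (fun w => (CutM.T D (1 / r) w : ℂ))
        (Complex.ofRealCLM.comp (fderiv ℝ (CutM.T D (1 / r)) w)) w :=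
      Complex.ofRealCLM.hasFDerivAt.comp w h1.hasFDerivAt
    refine ⟨h2.differentiableAt, ?_⟩
    rw [h2.fderiv]
    have h3 : ‖fderiv ℝ (CutM.T D (1 / r)) w‖ ≤ B / r := by
      refine (CutM.T_fderiv D hB h (by positivity) w).trans (le_of_eq ?_)
      ring
    refine ContinuousLinearMap.opNorm_le_bound _ (by positivity) fun v => ?_
    change ‖((fderiv ℝ (CutM.T D (1 / r)) w v : ℝ) : ℂ)‖ ≤ _
    rw [Complex.norm_real]
    exact (ContinuousLinearMap.le_opNorm _ _).trans (mul_le_mul_of_nonneg_right h3 (norm_nonneg _))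
  have k := key (z / l)
  refine ⟨(fderiv_div (h := fun w => (CutM.T D (1 / r) w : ℂ)) k.1).differentiableAt, ?_⟩
  refine (fd_div (h := fun w => (CutM.T D (1 / r) w : ℂ)) hl k.1).trans ?_
  calc ‖fderiv ℝ (fun w => (CutM.T D (1 / r) w : ℂ)) (z / l)‖ / l ≤ (B / r) / l := by
        gcongr
        exact k.2
    _ = B / (r * l) := by rw [div_div]

theorem T_norm (a : ℝ) (w : ℂ) : ‖(CutM.T D a w : ℂ)‖ ≤ 1 := by
  rw [Complex.norm_real, Real.norm_eq_abs, abs_of_nonneg (CutM.T_mem D _ _).1]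
  exact (CutM.T_mem D _ _).2

/-- bounds for `Fs` -/
theorem Fs_norm (hP : SpecPsi) {A ε l : ℝ} (hA : 1 ≤ A) (hε : 0 < ε) (hl : 0 < l) (z : ℂ) :
    ‖D.Fs A ε l z‖ ≤ A * D.C * (2 / ε) * l := by
  have hC := D.hC
  unfold Cell.Fs
  rw [norm_mul, norm_mul, norm_mul, norm_mul, Complex.norm_real, Complex.norm_real, Complex.norm_real,
    Real.norm_eq_abs, Real.norm_eq_abs, Real.norm_eq_abs, abs_of_pos hl,
    abs_of_nonneg (LocM.chi1_mem l _).1, abs_of_pos (by linarith : 0 < A)]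
  calc chi1 l z.im * (l * A) * (‖D.κ‖ * ‖psi ε (D.U (z / l))‖)
      ≤ 1 * (l * A) * (D.C * (2 / ε)) := by
        gcongr
        · exact (LocM.chi1_mem l _).2
        · exact D.κb
        · exact (hP ε hε).2.1 _
    _ = _ := by ring

theorem Fj_norm {A l : ℝ} (hA : 1 ≤ A) (hl : 0 < l) (w : ℂ) : ‖D.Fj A l w‖ ≤ A * D.C * l := by
  have hC := D.hC
  unfold Cell.Fj
  rw [norm_mul, norm_mul, norm_mul, Complex.norm_real, Complex.norm_real, Complex.norm_real,
    Real.norm_eq_abs, Real.norm_eq_abs, Real.norm_eq_abs, abs_of_pos hl,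
    abs_of_nonneg (LocM.chi1_mem l _).1, abs_of_pos (by linarith : 0 < A)]
  calc chi1 l (l * (D.near w).im) * (l * A) * ‖D.fh (D.near w)‖
      ≤ 1 * (l * A) * D.C := by
        gcongr
        · exact (LocM.chi1_mem l _).2
        · exact D.fhb _
    _ = _ := by ring

/-- derivative of `w ↦ κ ψ(U w)` -/
theorem psiU_d (hP : SpecPsi) {ε : ℝ} (hε : 0 < ε) {w : ℂ} (hw : w ∉ D.Z) :
    DifferentiableAt ℝ (fun w => D.κ * psi ε (D.U w)) w ∧
    ‖fderiv ℝ (fun w => D.κ * psi ε (D.U w)) w‖ ≤ 4 * D.C ^ 2 * (1 + 1 / ε) ^ 2 := by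
  have hC := D.hC
  obtain ⟨h1, -, -, h4⟩ := hP ε hε
  have hU := D.dU w hw
  have hψ : DifferentiableAt ℝ (psi ε) (D.U w) := h1.differentiable (by norm_num) _
  have hc : HasFDerivAt (fun w => psi ε (D.U w))
      ((fderiv ℝ (psi ε) (D.U w)).comp (fderiv ℝ D.U w)) w :=
    HasFDerivAt.comp (f := D.U) (g := psi ε) w hψ.hasFDerivAt (hol_diff hU).hasFDerivAt
  have hc2 := hc.const_mul D.κ
  refine ⟨hc2.differentiableAt, ?_⟩
  rw [hc2.fderiv, norm_smul]
  have e1 : ‖(fderiv ℝ (psi ε) (D.U w)).comp (fderiv ℝ D.U w)‖ ≤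
      ‖fderiv ℝ (psi ε) (D.U w)‖ * ‖fderiv ℝ D.U w‖ := ContinuousLinearMap.opNorm_comp_le _ _
  have e2 : ‖fderiv ℝ D.U w‖ ≤ D.C * (1 + ‖D.U w‖) ^ 2 := (fd_hol hU).trans (D.grad w hw)
  have e3 := h4 (D.U w)
  have hm : 0 < max ε ‖D.U w‖ := lt_max_of_lt_left hε
  have e4 : 1 + ‖D.U w‖ ≤ (1 + 1 / ε) * max ε ‖D.U w‖ := by
    have a1 : ε ≤ max ε ‖D.U w‖ := le_max_left _ _
    have a2 : ‖D.U w‖ ≤ max ε ‖D.U w‖ := le_max_right _ _
    have a3 : 1 ≤ 1 / ε * max ε ‖D.U w‖ := by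
      calc (1 : ℝ) = 1 / ε * ε := by field_simp
        _ ≤ _ := by gcongr
    linarith
  have e5 : (1 + ‖D.U w‖) ^ 2 ≤ (1 + 1 / ε) ^ 2 * (max ε ‖D.U w‖) ^ 2 := by
    rw [← mul_pow]
    have := norm_nonneg (D.U w)
    gcongr
  calc ‖D.κ‖ * ‖(fderiv ℝ (psi ε) (D.U w)).comp (fderiv ℝ D.U w)‖
      ≤ D.C * ((4 / (max ε ‖D.U w‖) ^ 2) * (D.C * ((1 + 1 / ε) ^ 2 * (max ε ‖D.U w‖) ^ 2))) := by
        gcongr
        · exact D.κb
        · refine e1.trans ?_
          gcongr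
          refine e2.trans ?_
          gcongr
    _ = _ := by
        field_simp

/-- derivative of `Fs` -/
theorem Fs_d {B : ℝ} (hB : 0 < B) (hBd : ∀ t, |deriv Real.smoothTransition t| ≤ B) (hP : SpecPsi)
    {A ε l : ℝ} (hA : 1 ≤ A) (hε : 0 < ε) (hl : 0 < l) {z : ℂ} (hz : z / l ∉ D.Z) :
    DifferentiableAt ℝ (D.Fs A ε l) z ∧
    ‖fderiv ℝ (D.Fs A ε l) z‖ ≤ A * (4 * D.C ^ 2 * (1 + 1 / ε) ^ 2) + 4 * A * B * D.C / ε := by
  have hC := D.hC
  have hA0 : 0 < A := by linarith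
  have hc1 := chi1_d hBd hl z.im
  have d1 : DifferentiableAt ℝ (fun z : ℂ => (chi1 l z.im : ℂ)) z := re_diff hc1.1
  have d2 : DifferentiableAt ℝ (fun z : ℂ => (chi1 l z.im : ℂ) * (l * A)) z := d1.mul_const _
  obtain ⟨p1, p2⟩ := psiU_d D hP hε hz
  have d3 : DifferentiableAt ℝ (fun z : ℂ => D.κ * psi ε (D.U (z / l))) z :=
    (fderiv_div (h := fun w => D.κ * psi ε (D.U w)) p1).differentiableAt
  have b3 : ‖fderiv ℝ (fun z : ℂ => D.κ * psi ε (D.U (z / l))) z‖ ≤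
      (4 * D.C ^ 2 * (1 + 1 / ε) ^ 2) / l := by
    refine (fd_div (h := fun w => D.κ * psi ε (D.U w)) hl p1).trans ?_
    gcongr
  have hlA : ‖((l : ℂ) * A)‖ = l * A := by
    rw [norm_mul, Complex.norm_real, Complex.norm_real, Real.norm_eq_abs, Real.norm_eq_abs,
      abs_of_pos hl, abs_of_pos hA0]
  have b2 : ‖fderiv ℝ (fun z : ℂ => (chi1 l z.im : ℂ) * (l * A)) z‖ ≤ 2 * B * A := by
    rw [fderiv_mul_const d1, norm_smul, hlA]
    calc l * A * ‖fderiv ℝ (fun z : ℂ => (chi1 l z.im : ℂ)) z‖ ≤ l * A * (2 * B / l) := by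
          gcongr
          exact (fd_re hc1.1).trans hc1.2
      _ = 2 * B * A := by field_simp
  have n2 : ‖(chi1 l z.im : ℂ) * (l * A)‖ ≤ l * A := by
    rw [norm_mul, hlA]
    have := chi1_norm l z.im
    have h2 : 0 ≤ l * A := by positivity
    nlinarith
  have n3 : ‖D.κ * psi ε (D.U (z / l))‖ ≤ D.C * (2 / ε) := by
    rw [norm_mul]
    gcongr
    · exact D.κb
    · exact (hP ε hε).2.1 _
  have e : D.Fs A ε l = fun z : ℂ => ((chi1 l z.im : ℂ) * (l * A)) * (D.κ * psi ε (D.U (z / l))) := rfl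
  rw [e]
  refine ⟨d2.mul d3, (fd_mul d2 d3).trans ?_⟩
  calc ‖(chi1 l z.im : ℂ) * (l * A)‖ * ‖fderiv ℝ (fun z : ℂ => D.κ * psi ε (D.U (z / l))) z‖ +
        ‖D.κ * psi ε (D.U (z / l))‖ * ‖fderiv ℝ (fun z : ℂ => (chi1 l z.im : ℂ) * (l * A)) z‖
      ≤ (l * A) * ((4 * D.C ^ 2 * (1 + 1 / ε) ^ 2) / l) + (D.C * (2 / ε)) * (2 * B * A) := by
        gcongr
    _ = _ := by
        field_simp
        ring

/-- derivative of `Cs` -/
theorem Cs_d {B : ℝ} (hB : 0 < B) (hBd : ∀ t, |deriv Real.smoothTransition t| ≤ B) {g : ℂ → ℂ}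
    (hg : Differentiable ℂ g) {H0 Cr l : ℝ} (hl : 0 < l) (hl1 : l ≤ 1) {z : ℂ} (hz : z / l ∉ D.Z)
    (h0 : ‖g z‖ ≤ H0) (h1 : ‖deriv g z‖ ≤ H0) (h2 : ‖deriv (deriv g) z‖ ≤ H0)
    (hG : ‖D.G (z / l)‖ ≤ Cr) (hG1 : ‖D.G1 (z / l)‖ ≤ Cr) :
    DifferentiableAt ℝ (D.Cs g l) z ∧
    ‖fderiv ℝ (D.Cs g l) z‖ ≤ (H0 + 64 * B * H0 + 32 * B) + H0 * D.C * Cr * (2 + 2 * B) := by
  have hC := D.hC
  have hH : 0 ≤ H0 := (norm_nonneg _).trans h0
  have hCr : 0 ≤ Cr := (norm_nonneg _).trans hG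
  have hc1 := chi1_d hBd hl z.im
  obtain ⟨q1, q2⟩ := gw_d hB hBd hg h0 h1
  have d1 : DifferentiableAt ℝ (fun z : ℂ => (chi1 l z.im : ℂ)) z := re_diff hc1.1
  have b1 : ‖fderiv ℝ (fun z : ℂ => (chi1 l z.im : ℂ)) z‖ ≤ 2 * B / l := (fd_re hc1.1).trans hc1.2
  have hgd : HasDerivAt (deriv g) (deriv (deriv g) z) z := (VderM.diff_deriv hg z).hasDerivAt
  have d2 : DifferentiableAt ℝ (fun z : ℂ => (chi1 l z.im : ℂ) * l) z := d1.mul_const _
  have hln : ‖(l : ℂ)‖ = l := by rw [Complex.norm_real, Real.norm_eq_abs, abs_of_pos hl]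
  have b2 : ‖fderiv ℝ (fun z : ℂ => (chi1 l z.im : ℂ) * l) z‖ ≤ 2 * B := by
    rw [fderiv_mul_const d1, norm_smul, hln]
    calc l * ‖fderiv ℝ (fun z : ℂ => (chi1 l z.im : ℂ)) z‖ ≤ l * (2 * B / l) := by gcongr
      _ = 2 * B := by field_simp
  have n2 : ‖(chi1 l z.im : ℂ) * l‖ ≤ l := by
    rw [norm_mul, hln]
    have := chi1_norm l z.im
    nlinarith
  have d3 : DifferentiableAt ℝ (fun z : ℂ => (chi1 l z.im : ℂ) * l * deriv g z) z :=
    d2.mul (hol_diff hgd)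
  have b3 : ‖fderiv ℝ (fun z : ℂ => (chi1 l z.im : ℂ) * l * deriv g z) z‖ ≤ H0 * (1 + 2 * B) := by
    refine (fd_mul d2 (hol_diff hgd)).trans ?_
    have a1 : ‖(chi1 l z.im : ℂ) * l‖ * ‖fderiv ℝ (deriv g) z‖ ≤ 1 * H0 := by
      have := (fd_hol hgd).trans h2
      gcongr
      exact n2.trans hl1
    have a2 : ‖deriv g z‖ * ‖fderiv ℝ (fun z : ℂ => (chi1 l z.im : ℂ) * l) z‖ ≤ H0 * (2 * B) := by
      gcongr
    linarith
  have n3 : ‖(chi1 l z.im : ℂ) * l * deriv g z‖ ≤ l * H0 := by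
    rw [norm_mul]
    gcongr
  have hGd := (D.dG _ hz).const_mul D.φ
  have d4 : DifferentiableAt ℝ (fun z : ℂ => D.φ * D.G (z / l)) z :=
    (fderiv_div (h := fun w => D.φ * D.G w) (hol_diff hGd)).differentiableAt
  have b4 : ‖fderiv ℝ (fun z : ℂ => D.φ * D.G (z / l)) z‖ ≤ D.C * Cr / l := by
    refine (fd_div (h := fun w => D.φ * D.G w) hl (hol_diff hGd)).trans ?_
    have a1 : ‖fderiv ℝ (fun w => D.φ * D.G w) (z / l)‖ ≤ D.C * Cr := by
      refine (fd_hol hGd).trans ?_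
      rw [norm_mul]
      have := D.φb
      gcongr
    gcongr
  have n4 : ‖D.φ * D.G (z / l)‖ ≤ D.C * Cr := by
    rw [norm_mul]
    have := D.φb
    gcongr
  have d5 : DifferentiableAt ℝ
      (fun z : ℂ => (chi1 l z.im : ℂ) * l * deriv g z * (D.φ * D.G (z / l))) z := d3.mul d4
  have b5 : ‖fderiv ℝ (fun z : ℂ => (chi1 l z.im : ℂ) * l * deriv g z * (D.φ * D.G (z / l))) z‖ ≤
      H0 * D.C * Cr * (2 + 2 * B) := by
    refine (fd_mul d3 d4).trans ?_
    calc ‖(chi1 l z.im : ℂ) * l * deriv g z‖ * ‖fderiv ℝ (fun z : ℂ => D.φ * D.G (z / l)) z‖ +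
          ‖D.φ * D.G (z / l)‖ * ‖fderiv ℝ (fun z : ℂ => (chi1 l z.im : ℂ) * l * deriv g z) z‖
        ≤ (l * H0) * (D.C * Cr / l) + (D.C * Cr) * (H0 * (1 + 2 * B)) := by gcongr
      _ = _ := by
          field_simp
          ring
  have e : D.Cs g l = fun z : ℂ => gw g z +
    (chi1 l z.im : ℂ) * l * deriv g z * (D.φ * D.G (z / l)) := rfl
  rw [e]
  refine ⟨q1.add d5, (fd_add q1 d5).trans ?_⟩
  linarith

/-- increments of `gw` -/
theorem gw_sub {B : ℝ} (hB : 0 < B) (hBd : ∀ t, |deriv Real.smoothTransition t| ≤ B) {L e0 H0 : ℝ}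
    {g : ℂ → ℂ} (hg : IsEnv L e0 H0 g) {z ζ : ℂ} (hz : z ∈ K L) (hζ : ‖z - ζ‖ ≤ 1) :
    ‖gw g z - gw g ζ‖ ≤ (H0 + 64 * B * H0 + 32 * B) * ‖z - ζ‖ := by
  have key : ∀ x ∈ Metric.closedBall z 1, DifferentiableAt ℝ (gw g) x ∧
      ‖fderiv ℝ (gw g) x‖ ≤ H0 + 64 * B * H0 + 32 * B := by
    intro x hx
    rw [Metric.mem_closedBall, dist_eq_norm] at hx
    have h1 : |x.re - z.re| ≤ 1 := (Complex.abs_re_le_norm (x - z)).trans hx
    have h2 : |x.im - z.im| ≤ 1 := (Complex.abs_im_le_norm (x - z)).trans hx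
    obtain ⟨z1, z2, z3⟩ := hz
    have h3 : |x.re| ≤ L + 3 := by
      rw [abs_le] at *
      constructor <;> linarith [h1.1, h1.2, z1.1, z1.2]
    have h4 : |x.im| ≤ 2 := by
      rw [abs_le] at *
      constructor <;> linarith [h2.1, h2.2]
    have h5 := hg.2.1 x h3 h4
    exact gw_d hB hBd hg.1 h5.1 h5.2.1
  have := (convex_closedBall z 1).norm_image_sub_le_of_norm_fderiv_le (𝕜 := ℝ) (f := gw g)
    (x := ζ) (y := z) (C := H0 + 64 * B * H0 + 32 * B) (fun x hx => (key x hx).1)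
    (fun x hx => (key x hx).2)
    (by rw [Metric.mem_closedBall, dist_eq_norm, ← norm_neg]; simpa using hζ)
    (Metric.mem_closedBall_self zero_le_one)
  exact this

/-- the exact region -/
theorem zero_near {g : ℂ → ℂ} (hg : Differentiable ℂ g) {r l : ℝ} (hr : 0 < r) (hrd : r ≤ D.d0 / 4)
    (A ε : ℝ) {z : ℂ} (hz : Metric.infDist (z / l) D.Z < r) :
    om (D.VV g A r l) (D.CC g A r l) (D.FF A ε r l) z = 0 ∧ fderiv ℝ (D.FF A ε r l) z = 0 := by
  obtain ⟨p, hp, -, hev⟩ := LocM.exact_near D hr hrd g A ε hz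
  set f0 : ℂ := (chi1 l (l * p.im) : ℂ) * (l * A) * D.fh p with hf0
  have e1 : D.FF A ε r l =ᶠ[𝓝 z] fun _ => f0 := by
    filter_upwards [hev] with x hx
    exact hx.2.1
  have e2 : D.CC g A r l =ᶠ[𝓝 z] fun ζ => f0 * dz (D.VV g A r l) ζ + gw g (l * p) := by
    filter_upwards [hev] with x hx
    exact hx.2.2
  have hV : ContDiff ℝ 2 (D.VV g A r l) := by exact_mod_cast SmM.cd_VV D hg hr hrd 2
  have hd : DifferentiableAt ℝ (dz (D.VV g A r l)) z :=
    (SmM.cd_dz hV).differentiable (by norm_num) z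
  constructor
  · rw [om, e2.fderiv_eq, e1.eq_of_nhds, fderiv_add_const, fderiv_const_mul hd, sub_self]
  · rw [e1.fderiv_eq]
    simp

/-- walls -/
theorem zero_wall {V c F : ℂ → ℂ} {z : ℂ} {k : ℂ} (h : ∀ᶠ ζ in 𝓝 z, F ζ = 0 ∧ c ζ = k) :
    om V c F z = 0 ∧ fderiv ℝ F z = 0 := by
  have e1 : F =ᶠ[𝓝 z] fun _ => 0 := by
    filter_upwards [h] with x hx
    exact hx.1
  have e2 : c =ᶠ[𝓝 z] fun _ => k := by
    filter_upwards [h] with x hx
    exact hx.2
  constructor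
  · rw [om, e2.fderiv_eq, e1.eq_of_nhds]
    simp
  · rw [e1.fderiv_eq]
    simp

end PtAM

open PtAM PtGM in
theorem specPtA (hP : SpecPsi) : SpecPtA := by
  obtain ⟨B, hB, hBd⟩ := CutM.exists_bound
  intro D
  have hd0 := D.hd0
  have hDC := D.hC
  refine ⟨1 + 4 / D.d0, by
    have : 0 ≤ 4 / D.d0 := by positivity
    linarith, ?_⟩
  intro L e0 H0 g hg hL hH he he1 A ε r hA hε hεC hr hrC
  have hrd : r ≤ D.d0 / 4 := by
    refine hrC.trans ?_
    rw [div_le_iff₀ (by positivity)]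
    calc (1 : ℝ) = D.d0 / 4 * (4 / D.d0) := by field_simp
      _ ≤ _ := by
          gcongr
          linarith
  obtain ⟨Cr, hCr, hfar⟩ := D.far r hr
  obtain ⟨G0, hG0⟩ : ∃ x, x = H0 + 64 * B * H0 + 32 * B := ⟨_, rfl⟩
  obtain ⟨KC, hKC⟩ : ∃ x, x = G0 + H0 * D.C * Cr * (2 + 2 * B) := ⟨_, rfl⟩
  obtain ⟨KF, hKF⟩ : ∃ x, x = A * (4 * D.C ^ 2 * (1 + 1 / ε) ^ 2) + 4 * A * B * D.C / ε := ⟨_, rfl⟩
  obtain ⟨KE, hKE⟩ : ∃ x, x = H0 * (4 * Cr + 4 * D.C * L) := ⟨_, rfl⟩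
  obtain ⟨KV, hKV⟩ : ∃ x, x = H0 * (2 * Cr + 4 * D.C * L) := ⟨_, rfl⟩
  obtain ⟨KS, hKS⟩ : ∃ x, x = A * D.C * (2 / ε) := ⟨_, rfl⟩
  obtain ⟨KJ, hKJ⟩ : ∃ x, x = A * D.C := ⟨_, rfl⟩
  obtain ⟨KR, hKR⟩ : ∃ x, x = G0 * (2 * D.d0) + H0 * D.C * Cr + KJ * KV := ⟨_, rfl⟩
  have hG00 : 0 ≤ G0 := by rw [hG0]; positivity
  have hKC0 : 0 ≤ KC := by rw [hKC]; positivity
  have hKF0 : 0 ≤ KF := by rw [hKF]; positivity
  have hKE0 : 0 ≤ KE := by rw [hKE]; positivity
  have hKV0 : 0 ≤ KV := by rw [hKV]; positivity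
  have hKS0 : 0 ≤ KS := by rw [hKS]; positivity
  have hKJ0 : 0 ≤ KJ := by rw [hKJ]; positivity
  have hKR0 : 0 ≤ KR := by rw [hKR]; positivity
  obtain ⟨X1, hX1⟩ : ∃ x, x = KC + 2 * (KJ * KE) + KR * (B / r) + (KS + KJ) * KE := ⟨_, rfl⟩
  obtain ⟨X2, hX2⟩ : ∃ x, x = KF + (KS + KJ) * (B / r) := ⟨_, rfl⟩
  have hX10 : 0 ≤ X1 := by rw [hX1]; positivity
  have hX20 : 0 ≤ X2 := by rw [hX2]; positivity
  refine ⟨1 + X1 + X2, min 1 (min (1 / (256 * r)) (1 / (2 * D.d0))), by positivity, by positivity, ?_⟩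
  intro l hl hl0 z hz
  have hl1 : l ≤ 1 := hl0.trans (min_le_left _ _)
  have hl2 : l ≤ 1 / (256 * r) := hl0.trans ((min_le_right _ _).trans (min_le_left _ _))
  have hl3 : l ≤ 1 / (2 * D.d0) := hl0.trans ((min_le_right _ _).trans (min_le_right _ _))
  have hrl : 2 * r * l ≤ 1 / 128 := by
    have : l * (256 * r) ≤ 1 := by rwa [le_div_iff₀ (by positivity)] at hl2
    linarith
  have hdl : 2 * D.d0 * l ≤ 1 := by
    have : l * (2 * D.d0) ≤ 1 := by rwa [le_div_iff₀ (by positivity)] at hl3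
    linarith
  have finish0 : om (D.VV g A r l) (D.CC g A r l) (D.FF A ε r l) z = 0 ∧
      fderiv ℝ (D.FF A ε r l) z = 0 →
      ‖om (D.VV g A r l) (D.CC g A r l) (D.FF A ε r l) z‖ ≤ 1 + X1 + X2 ∧
        ‖fderiv ℝ (D.FF A ε r l) z‖ ≤ 1 + X1 + X2 := by
    rintro ⟨h1, h2⟩
    rw [h1, h2]
    simp only [norm_zero]
    constructor <;> positivity
  rcases lt_or_ge (Metric.infDist (z / l) D.Z) r with hρ | hρ
  · exact finish0 (zero_near D hg.1 hr hrd A ε hρ)
  rcases le_or_gt z.im (5 / 64) with hi1 | hi1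
  · refine finish0 (zero_wall (k := 0) ?_)
    have ho : IsOpen {x : ℂ | x.im < 5 / 64 + 1 / 256} := isOpen_lt Complex.continuous_im continuous_const
    have hmem : z ∈ {x : ℂ | x.im < 5 / 64 + 1 / 256} := by
      change z.im < 5 / 64 + 1 / 256
      linarith
    filter_upwards [ho.mem_nhds hmem] with x hx
    exact LocM.low D hr hrd hl hrl g A ε (le_of_lt hx)
  rcases le_or_gt (59 / 64) z.im with hi2 | hi2
  · refine finish0 (zero_wall (k := 1) ?_)
    have ho : IsOpen {x : ℂ | 59 / 64 - 1 / 256 < x.im} := isOpen_lt continuous_const Complex.continuous_im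
    have hmem : z ∈ {x : ℂ | 59 / 64 - 1 / 256 < x.im} := by
      change 59 / 64 - 1 / 256 < z.im
      linarith
    filter_upwards [ho.mem_nhds hmem] with x hx
    exact LocM.high D hr hrd hl hrl g A ε (le_of_lt hx)
  -- the main region
  have hZ : z / l ∉ D.Z := SmM.not_mem_of_infDist D (lt_of_lt_of_le hr hρ)
  have hzn := norm_le_K hL hz
  have hzm := hz
  obtain ⟨hz1, hz2, hz3⟩ := hz
  obtain ⟨hg0, hg1, hg2, hg3⟩ := hg.2.1 z (by linarith) (by rw [abs_of_nonneg hz2]; linarith)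
  obtain ⟨hv, hv1, hv2, hG, hG1⟩ := hfar (z / l) hρ
  obtain ⟨-, -, hdz, hE⟩ := specVder D g A r l hg.1 hA hr hrd hl z (by
    change r / 2 < Metric.infDist (z / l) D.Z
    linarith) hi1 hi2
  have hdz0 := hdz.self_of_nhds
  have hvb : ‖D.v (z / l)‖ ≤ Cr + D.C * (4 * L / l) := by
    refine hv.trans ?_
    rw [norm_div_l hl]
    gcongr
  have hA0 : 0 < A := by linarith
  have hln : ‖(l : ℂ)‖ = l := by rw [Complex.norm_real, Real.norm_eq_abs, abs_of_pos hl]
  have hlA1 : l / A ≤ l := div_le_self hl.le hA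
  have hll : l ^ 2 ≤ 1 := pow_le_one₀ hl.le hl1
  -- bound of `∂V`
  have hKVb : ‖dz (D.VV g A r l) z‖ ≤ KV := by
    rw [hdz0, norm_mul, norm_lA hl hA]
    have a1 : ‖deriv (deriv g) z * D.v (z / l) + deriv g z * D.v1 (z / l) / l‖ ≤
        H0 * (Cr + D.C * (4 * L / l)) + H0 * Cr / l := by
      refine (norm_add_le _ _).trans ?_
      rw [norm_mul, norm_div, norm_mul, hln]
      gcongr
    calc l / A * ‖deriv (deriv g) z * D.v (z / l) + deriv g z * D.v1 (z / l) / l‖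
        ≤ l * (H0 * (Cr + D.C * (4 * L / l)) + H0 * Cr / l) := by gcongr
      _ = H0 * (l * Cr + Cr + 4 * D.C * L) := by
          field_simp
          ring
      _ ≤ H0 * (1 * Cr + Cr + 4 * D.C * L) := by gcongr
      _ = KV := by rw [hKV]; ring
  -- bound of the derivative of `∂V`
  have hKEb : ‖fderiv ℝ (dz (D.VV g A r l)) z‖ ≤ KE / l := by
    refine (fd_hol hE).trans ?_
    rw [norm_mul, norm_lA hl hA]
    have a1 : ‖deriv (deriv (deriv g)) z * D.v (z / l) + 2 * deriv (deriv g) z * D.v1 (z / l) / l +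
        deriv g z * D.v2 (z / l) / l ^ 2‖ ≤
        H0 * (Cr + D.C * (4 * L / l)) + 2 * H0 * Cr / l + H0 * Cr / l ^ 2 := by
      refine (norm_add₃_le).trans ?_
      rw [norm_mul, norm_div, norm_mul, norm_mul, norm_div, norm_mul, norm_pow, hln]
      have : ‖(2 : ℂ)‖ = 2 := by simp
      rw [this]
      gcongr
    calc l / A * ‖deriv (deriv (deriv g)) z * D.v (z / l) + 2 * deriv (deriv g) z * D.v1 (z / l) / l +
        deriv g z * D.v2 (z / l) / l ^ 2‖
        ≤ l * (H0 * (Cr + D.C * (4 * L / l)) + 2 * H0 * Cr / l + H0 * Cr / l ^ 2) := by gcongr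
      _ = H0 * (l ^ 2 * Cr + 2 * l * Cr + Cr + 4 * D.C * (l * L)) / l := by
          field_simp
          ring
      _ ≤ H0 * (1 * Cr + 2 * 1 * Cr + Cr + 4 * D.C * (1 * L)) / l := by gcongr
      _ = KE / l := by rw [hKE]; ring
  have hdzd : DifferentiableAt ℝ (dz (D.VV g A r l)) z := hol_diff hE
  have hFFb : ‖D.FF A ε r l z‖ ≤ (KS + KJ) * l := by
    have := LocM.FF_bound D hP (r := r) hA hε hl z
    rw [hKS, hKJ]
    exact this
  have hFE : ‖D.FF A ε r l z • fderiv ℝ (dz (D.VV g A r l)) z‖ ≤ (KS + KJ) * KE := by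
    rw [norm_smul]
    calc ‖D.FF A ε r l z‖ * ‖fderiv ℝ (dz (D.VV g A r l)) z‖ ≤ ((KS + KJ) * l) * (KE / l) := by gcongr
      _ = (KS + KJ) * KE := by field_simp
  obtain ⟨hFsd, hFsb⟩ := Fs_d D hB hBd hP hA hε hl hZ
  obtain ⟨hCsd, hCsb⟩ := Cs_d D hB hBd hg.1 hl hl1 hZ hg0 hg1 hg2 hG hG1
  rw [← hKF] at hFsb
  rw [← hG0, ← hKC] at hCsb
  obtain ⟨hTd, hTb⟩ := T_complex D hB hBd hr hrd hl z
  have hTn := T_norm D (1 / r) (z / l)
  have hFsn : ‖D.Fs A ε l z‖ ≤ KS * l := by rw [hKS]; exact Fs_norm D hP hA hε hl z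
  have hFjn : ‖D.Fj A l (z / l)‖ ≤ KJ * l := by rw [hKJ]; exact Fj_norm D hA hl (z / l)
  have two : ‖fderiv ℝ (D.CC g A r l) z‖ ≤ KC + 2 * (KJ * KE) + KR * (B / r) ∧
      ‖fderiv ℝ (D.FF A ε r l) z‖ ≤ X2 := by
    rcases lt_or_ge (Metric.infDist (z / l) D.Z) (2 * D.d0) with hm | hm
    · obtain ⟨p, hp, hzp, hnear⟩ := SmM.near_ev' D hm
      have hnz := hnear.self_of_nhds
      have ej : (fun ζ : ℂ => D.Fj A l (ζ / l)) =ᶠ[𝓝 z] fun _ => D.Fj A l (z / l) := by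
        filter_upwards [hnear] with x hx
        unfold Cell.Fj
        rw [hx, hnz]
      have djd : DifferentiableAt ℝ (fun ζ : ℂ => D.Fj A l (ζ / l)) z :=
        (differentiableAt_const _).congr_of_eventuallyEq ej
      have dj0 : fderiv ℝ (fun ζ : ℂ => D.Fj A l (ζ / l)) z = 0 := by
        rw [ej.fderiv_eq]
        simp
      have eb : (fun ζ : ℂ => gw g (l * D.near (ζ / l)) + D.Fj A l (ζ / l) * dz (D.VV g A r l) ζ)
          =ᶠ[𝓝 z] fun ζ => gw g (l * p) + D.Fj A l (z / l) * dz (D.VV g A r l) ζ := by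
        filter_upwards [hnear, ej] with x hx hx2
        rw [hx, hx2]
      have hmd : DifferentiableAt ℝ (fun ζ : ℂ => D.Fj A l (z / l) * dz (D.VV g A r l) ζ) z :=
        hdzd.const_mul _
      have dbd : DifferentiableAt ℝ
          (fun ζ : ℂ => gw g (l * D.near (ζ / l)) + D.Fj A l (ζ / l) * dz (D.VV g A r l) ζ) z :=
        (hmd.const_add _).congr_of_eventuallyEq eb
      have dbb : ‖fderiv ℝ
          (fun ζ : ℂ => gw g (l * D.near (ζ / l)) + D.Fj A l (ζ / l) * dz (D.VV g A r l) ζ) z‖ ≤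
          KJ * KE := by
        rw [eb.fderiv_eq, fderiv_const_add, fderiv_const_mul hdzd, norm_smul]
        calc ‖D.Fj A l (z / l)‖ * ‖fderiv ℝ (dz (D.VV g A r l)) z‖ ≤ (KJ * l) * (KE / l) := by gcongr
          _ = KJ * KE := by field_simp
      have hzlp : ‖z - l * p‖ ≤ 2 * D.d0 * l := by
        have hl' : (l : ℂ) ≠ 0 := by exact_mod_cast hl.ne'
        have h1 : z - l * p = l * (z / l - p) := by field_simp
        rw [h1, norm_mul, hln, mul_comm]
        exact mul_le_mul_of_nonneg_right hzp.le hl.le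
      have hR : ‖D.Cs g l z - (gw g (l * D.near (z / l)) + D.Fj A l (z / l) *
          dz (D.VV g A r l) z)‖ ≤ KR * l := by
        have e1 : D.Cs g l z - (gw g (l * D.near (z / l)) + D.Fj A l (z / l) *
          dz (D.VV g A r l) z) = (gw g z - gw g (l * p)) +
            (chi1 l z.im : ℂ) * l * deriv g z * (D.φ * D.G (z / l)) +
            -(D.Fj A l (z / l) * dz (D.VV g A r l) z) := by
          rw [Cell.Cs, hnz]
          ring
        rw [e1]
        refine (norm_add₃_le).trans ?_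
        have a1 : ‖gw g z - gw g (l * p)‖ ≤ G0 * (2 * D.d0 * l) := by
          refine (gw_sub hB hBd hg hzm (hzlp.trans hdl)).trans ?_
          rw [← hG0]
          gcongr
        have a2 : ‖(chi1 l z.im : ℂ) * l * deriv g z * (D.φ * D.G (z / l))‖ ≤
            1 * l * H0 * (D.C * Cr) := by
          rw [norm_mul, norm_mul, norm_mul, norm_mul, hln]
          have b1 := chi1_norm l z.im
          have b2 := D.φb
          gcongr
        have a3 : ‖-(D.Fj A l (z / l) * dz (D.VV g A r l) z)‖ ≤ KJ * l * KV := by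
          rw [norm_neg, norm_mul]
          gcongr
        calc _ ≤ G0 * (2 * D.d0 * l) + 1 * l * H0 * (D.C * Cr) + KJ * l * KV := by gcongr
          _ = KR * l := by rw [hKR]; ring
      constructor
      · rw [SmM.CC_eq]
        refine (fd_mix hTd hCsd dbd hTn).trans ?_
        have b1 : ‖D.Cs g l z - (gw g (l * D.near (z / l)) + D.Fj A l (z / l) *
            dz (D.VV g A r l) z)‖ *
            ‖fderiv ℝ (fun z : ℂ => (CutM.T D (1 / r) (z / l) : ℂ)) z‖ ≤ KR * (B / r) := by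
          calc _ ≤ (KR * l) * (B / (r * l)) := by gcongr
            _ = KR * (B / r) := by field_simp
        linarith
      · rw [SmM.FF_eq]
        refine (fd_mix hTd hFsd djd hTn).trans ?_
        rw [dj0, norm_zero, mul_zero, add_zero]
        have b1 : ‖D.Fs A ε l z - D.Fj A l (z / l)‖ *
            ‖fderiv ℝ (fun z : ℂ => (CutM.T D (1 / r) (z / l) : ℂ)) z‖ ≤ (KS + KJ) * (B / r) := by
          calc _ ≤ (KS * l + KJ * l) * (B / (r * l)) := by
                gcongr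
                refine (norm_sub_le _ _).trans ?_
                gcongr
            _ = (KS + KJ) * (B / r) := by field_simp
        rw [hX2]
        linarith
    · have ho : IsOpen {x : ℂ | 2 < 1 / r * Metric.infDist (x / l) D.Z} :=
        isOpen_lt continuous_const (continuous_const.mul (SmM.cont_infDist D l))
      have hmem : z ∈ {x : ℂ | 2 < 1 / r * Metric.infDist (x / l) D.Z} := by
        change 2 < 1 / r * Metric.infDist (z / l) D.Z
        rw [div_mul_eq_mul_div, one_mul, lt_div_iff₀ hr]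
        linarith
      have hT1 : ∀ᶠ x in 𝓝 z, CutM.T D (1 / r) (x / l) = 1 := by
        filter_upwards [ho.mem_nhds hmem] with x hx
        exact CutM.T_one D (le_of_lt hx)
      have eC : D.CC g A r l =ᶠ[𝓝 z] D.Cs g l := by
        filter_upwards [hT1] with x hx
        rw [SmM.CC_eq]
        simp only [hx]
        push_cast
        ring
      have eF : D.FF A ε r l =ᶠ[𝓝 z] D.Fs A ε l := by
        filter_upwards [hT1] with x hx
        rw [SmM.FF_eq]
        simp only [hx]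
        push_cast
        ring
      constructor
      · rw [eC.fderiv_eq]
        have : 0 ≤ 2 * (KJ * KE) + KR * (B / r) := by positivity
        linarith
      · rw [eF.fderiv_eq, hX2]
        have : 0 ≤ (KS + KJ) * (B / r) := by positivity
        linarith
  constructor
  · rw [om]
    refine (norm_sub_le _ _).trans ?_
    have h1 := two.1
    have h2 : ‖fderiv ℝ (D.CC g A r l) z‖ + ‖D.FF A ε r l z • fderiv ℝ (dz (D.VV g A r l)) z‖ ≤ X1 := by
      rw [hX1]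
      linarith
    linarith
  · linarith [two.2]

end MP1707
end

section
/-!
# MP_1707ab_an, n = 2, PART M, module PTF (helper58)

`ω` in the middle, in the annuli around the masses.
-/
set_option autoImplicit false

open scoped Topology BigOperators Classical ContDiff
open MeasureTheory

namespace MP1707

namespace PtFM

/-- the algebra of `ω` for a glued field -/
theorem om_glue {V c F : ℂ → ℂ} {z : ℂ} {T Cs : ℂ → ℂ} {γ φj C1 V2 : ℂ} {DT : ℂ →L[ℝ] ℂ}
    (hT : HasFDerivAt T DT z) (hCs : HasDerivAt Cs C1 z) (hV : HasDerivAt (dz V) V2 z)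
    (hc : ∀ᶠ ζ in 𝓝 z, c ζ = T ζ * Cs ζ + (1 - T ζ) * (γ + φj * dz V ζ)) {Fs : ℂ}
    (hF : F z = T z * Fs + (1 - T z) * φj) :
    om V c F z = (T z * (C1 - Fs * V2)) • (1 : ℂ →L[ℝ] ℂ) + (Cs z - γ - φj * dz V z) • DT := by
  have h1 : HasFDerivAt Cs (C1 • (1 : ℂ →L[ℝ] ℂ)) z := hCs.complexToReal_fderiv
  have h2 : HasFDerivAt (dz V) (V2 • (1 : ℂ →L[ℝ] ℂ)) z := hV.complexToReal_fderiv
  have h3 : HasFDerivAt (fun ζ => γ + φj * dz V ζ) (φj • (V2 • (1 : ℂ →L[ℝ] ℂ))) z :=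
    (h2.const_mul φj).const_add γ
  have h4 : HasFDerivAt (fun ζ => 1 - T ζ) (-DT) z := hT.const_sub 1
  have h5 := (hT.mul h1).add (h4.mul h3)
  have h6 : HasFDerivAt c _ z := h5.congr_of_eventuallyEq (hc.mono fun ζ h => h)
  unfold om
  rw [h6.fderiv, h2.fderiv, hF]
  ext ζ
  all_goals
    simp only [sub_apply, add_apply, smul_apply, neg_apply, one_apply_eq_self, smul_eq_mul]
    ring

/-- the box on which the envelope is bounded -/
theorem convex_box (L : ℝ) : Convex ℝ {z : ℂ | |z.re| ≤ L + 3 ∧ |z.im| ≤ 2} := by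
  have h1 : {z : ℂ | |z.re| ≤ L + 3 ∧ |z.im| ≤ 2} =
      Complex.reLm ⁻¹' (Set.Icc (-(L + 3)) (L + 3)) ∩ Complex.imLm ⁻¹' (Set.Icc (-2) 2) := by
    ext z
    simp [abs_le]
  rw [h1]
  exact ((convex_Icc _ _).linear_preimage _).inter ((convex_Icc _ _).linear_preimage _)

theorem lip_g {L e0 H0 : ℝ} {g : ℂ → ℂ} (hg : IsEnv L e0 H0 g) {x y : ℂ}
    (hx : |x.re| ≤ L + 3 ∧ |x.im| ≤ 2) (hy : |y.re| ≤ L + 3 ∧ |y.im| ≤ 2) :
    ‖g y - g x‖ ≤ H0 * ‖y - x‖ :=
  (convex_box L).norm_image_sub_le_of_norm_deriv_le (fun z _ => hg.1 z)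
    (fun z hz => (hg.2.1 z hz.1 hz.2).2.1) hx hy

theorem chi1_one {l y : ℝ} (hl : 0 < l) (h1 : 1 / 8 + l ≤ y) (h2 : y ≤ 7 / 8 - l) : chi1 l y = 1 := by
  unfold chi1
  rw [Real.smoothTransition.one_of_one_le, Real.smoothTransition.one_of_one_le, one_mul]
  · rw [le_div_iff₀ hl]
    linarith
  · rw [le_div_iff₀ hl]
    linarith

theorem gw_mid (g : ℂ → ℂ) {z : ℂ} (h1 : 1 / 8 ≤ z.im) (h2 : z.im ≤ 7 / 8) : gw g z = g z := by
  unfold gw chib chit
  rw [Real.smoothTransition.one_of_one_le (x := 32 * (z.im - 3 / 32)) (by linarith),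
    Real.smoothTransition.one_of_one_le (x := 32 * (29 / 32 - z.im)) (by linarith)]
  simp

/-- derivative of the scaled cutoff -/
theorem hasFDeriv_th {D : Cell} {r l B : ℝ} (hl : 0 < l) (hsm : ContDiff ℝ ∞ (D.th r)) (z : ℂ)
    (hB : ‖fderiv ℝ (D.th r) (z / l)‖ ≤ B / r) :
    ∃ DT : ℂ →L[ℝ] ℂ, HasFDerivAt (fun ζ : ℂ => (D.th r (ζ / l) : ℂ)) DT z ∧ ‖DT‖ ≤ B / r / l := by
  have h1 : HasFDerivAt (D.th r) (fderiv ℝ (D.th r) (z / l)) (z / l) :=
    (hsm.differentiable (by norm_num) _).hasFDerivAt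
  have h2 : HasFDerivAt (fun ζ : ℂ => (l⁻¹ : ℝ) • ζ) ((l⁻¹ : ℝ) • ContinuousLinearMap.id ℝ ℂ) z :=
    (hasFDerivAt_id z).const_smul (l⁻¹ : ℝ)
  have h3 : ∀ ζ : ℂ, (l⁻¹ : ℝ) • ζ = ζ / l := by
    intro ζ
    rw [Complex.real_smul]
    push_cast
    rw [div_eq_inv_mul]
  rw [← h3 z] at h1
  have h4 := HasFDerivAt.comp z h1 h2
  have h5 := (Complex.ofRealCLM.hasFDerivAt (x := D.th r ((l⁻¹ : ℝ) • z))).comp z h4
  refine ⟨_, h5.congr_of_eventuallyEq (Filter.Eventually.of_forall fun ζ => ?_), ?_⟩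
  · simp only [Function.comp, Complex.ofRealCLM_apply]
    rw [h3]
  · refine (ContinuousLinearMap.opNorm_comp_le _ _).trans ?_
    rw [Complex.ofRealCLM_norm, one_mul]
    refine (ContinuousLinearMap.opNorm_comp_le _ _).trans ?_
    have h6 : ‖(l⁻¹ : ℝ) • ContinuousLinearMap.id ℝ ℂ‖ ≤ l⁻¹ := by
      rw [norm_smul, Real.norm_of_nonneg (by positivity)]
      calc l⁻¹ * ‖ContinuousLinearMap.id ℝ ℂ‖ ≤ l⁻¹ * 1 := by
            gcongr
            exact ContinuousLinearMap.norm_id_le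
        _ = l⁻¹ := mul_one _
    rw [h3 z]
    calc ‖fderiv ℝ (D.th r) (z / l)‖ * ‖(l⁻¹ : ℝ) • ContinuousLinearMap.id ℝ ℂ‖ ≤ B / r * l⁻¹ := by
          have h7 : 0 ≤ B / r := (norm_nonneg _).trans hB
          gcongr
      _ = B / r / l := by rw [div_eq_mul_inv (B / r) l]

end PtFM

open PtFM

theorem specPtF (hCut : SpecCut) (hVd : SpecVder) : SpecPtF := by
  intro D
  obtain ⟨B, hB, -, hCut⟩ := hCut
  have hd0 := D.hd0
  have hDC := D.hC
  have hDC0 : 0 < D.C := by linarith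
  set C : ℝ := 6 * B * D.C ^ 2 + 4 / D.d0 + 2 + D.C with hC
  have hBD : 0 < 6 * B * D.C ^ 2 := by positivity
  have h4d : 0 < 4 / D.d0 := by positivity
  refine ⟨C, by linarith, ?_⟩
  intro L e0 H0 g hg hL hH0 he0 he1 A ε r hA hε hεC hr hrC
  have hL0 : 0 < L := by linarith
  have hH00 : 0 < H0 := by linarith
  have hA0 : 0 < A := by linarith
  have hr4 : r ≤ D.d0 / 4 := by
    have h1 : 1 / C ≤ 1 / (4 / D.d0) := one_div_le_one_div_of_le h4d (by linarith)
    have h2 : 1 / (4 / D.d0) = D.d0 / 4 := by field_simp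
    linarith
  have hr2 : r ≤ 1 / 2 := hrC.trans (one_div_le_one_div_of_le (by norm_num) (by linarith))
  have hεD : ε ≤ 1 / D.C := hεC.trans (one_div_le_one_div_of_le hDC0 (by linarith))
  obtain ⟨Cr, hCr, hfar⟩ := D.far r hr
  obtain ⟨s1, -, s3, -, -, -, -, s8, s9, s10⟩ := hCut D r hr hr4
  refine ⟨H0 * D.C * Cr + D.C ^ 2 * H0 * (3 * Cr + D.C * (L + 3)) + B / r * (D.C * H0 * Cr), 1,
    by positivity, one_pos, ?_⟩
  intro l hl hl1 z hz hy1 hy2 hρ1 hρ2
  -- the mass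
  set w : ℂ := z / l with hw
  have hρ1' : r ≤ Metric.infDist w D.Z := hρ1
  have hρ2' : Metric.infDist w D.Z ≤ 2 * r := hρ2
  obtain ⟨p, hp, hwp, hnear⟩ := SmM.near_ev' D (z := z) (l := l) (show Metric.infDist w D.Z < 2 * D.d0 by linarith)
  obtain ⟨hn1, hn2⟩ := s9 p hp w hwp
  rw [hn2] at hρ1' hρ2'
  have hwZ : w ∉ D.Z := SmM.not_mem_of_infDist D (by rw [hn2]; linarith)
  obtain ⟨hU, -, hGv⟩ := D.near0 p hp w (by linarith) (by linarith)
  obtain ⟨hv, hv1, hv2, hGw, -⟩ := hfar w hρ1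
  -- positions
  have hlne : (l : ℂ) ≠ 0 := by exact_mod_cast hl.ne'
  have hzw : z = l * w := by
    rw [hw]
    field_simp
  have hzlp : ‖z - l * p‖ ≤ 2 * r * l := by
    rw [hzw, ← mul_sub, norm_mul, Complex.norm_real, Real.norm_of_nonneg hl.le]
    calc l * ‖w - p‖ ≤ l * (2 * r) := by gcongr
      _ = 2 * r * l := by ring
  have h2rl : 2 * r * l ≤ l := by
    calc 2 * r * l ≤ 2 * (1 / 2) * l := by gcongr
      _ = l := by ring
  have hlp_re : |(l * p - z).re| ≤ l := (Complex.abs_re_le_norm _).trans (by rw [norm_sub_rev]; linarith)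
  have hlp_im : |(l * p - z).im| ≤ l := (Complex.abs_im_le_norm _).trans (by rw [norm_sub_rev]; linarith)
  rw [Complex.sub_re] at hlp_re
  rw [Complex.sub_im] at hlp_im
  obtain ⟨a1, a2⟩ := abs_le.1 hlp_re
  obtain ⟨a3, a4⟩ := abs_le.1 hlp_im
  obtain ⟨hz1, hz2, hz3⟩ := hz
  obtain ⟨b1, b2⟩ := abs_le.1 hz1
  have hzbox : |z.re| ≤ L + 3 ∧ |z.im| ≤ 2 := ⟨by linarith, abs_le.2 ⟨by linarith, by linarith⟩⟩
  have hpbox : |((l : ℂ) * p).re| ≤ L + 3 ∧ |((l : ℂ) * p).im| ≤ 2 :=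
    ⟨abs_le.2 ⟨by linarith, by linarith⟩, abs_le.2 ⟨by linarith, by linarith⟩⟩
  have hlpim : ((l : ℂ) * p).im = l * p.im := Complex.im_ofReal_mul _ _
  have hchip : chi1 l (l * p.im) = 1 := by
    rw [← hlpim]
    exact chi1_one hl (by linarith) (by linarith)
  have hgwp : gw g (l * p) = g (l * p) := gw_mid g (by linarith) (by linarith)
  obtain ⟨G0, G1, G2, G3⟩ := hg.2.1 z hzbox.1 hzbox.2
  -- the ingredients
  obtain ⟨-, -, hdzV, hdzV2⟩ := hVd D g A r l hg.1 hA hr hr4 hl z (by linarith) (by linarith) (by linarith)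
  obtain ⟨DT, hDT, hDTb⟩ := hasFDeriv_th (B := B) hl s1 z (s8 w).1
  have hCs : HasDerivAt (fun ζ : ℂ => g ζ + l * deriv g ζ * (D.φ * D.G (ζ / l)))
      (deriv g z + (l * deriv (deriv g) z * (D.φ * D.G w) + l * deriv g z * (D.φ * (D.G1 w / l)))) z := by
    have h1 : HasDerivAt g (deriv g z) z := (hg.1 z).hasDerivAt
    have h2 : HasDerivAt (deriv g) (deriv (deriv g) z) z := (VderM.diff_deriv hg.1 z).hasDerivAt
    have h3 : HasDerivAt (fun ζ : ℂ => D.G (ζ / l)) (D.G1 w / l) z :=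
      VderM.hasDerivAt_comp_div (D.dG w hwZ)
    exact h1.add ((h2.const_mul (l : ℂ)).mul (h3.const_mul D.φ))
  have hmid : ∀ᶠ ζ in 𝓝 z, 1 / 8 + 2 * l < ζ.im ∧ ζ.im < 7 / 8 - 2 * l :=
    ((isOpen_lt continuous_const Complex.continuous_im).inter
      (isOpen_lt Complex.continuous_im continuous_const)).mem_nhds ⟨hy1, hy2⟩
  set γ : ℂ := g (l * p) with hγ
  set φj : ℂ := l * A * D.fh p with hφj
  have hFj : ∀ᶠ ζ in 𝓝 z, D.Fj A l (ζ / l) = φj := by
    filter_upwards [hnear] with ζ hζ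
    unfold Cell.Fj
    rw [hζ, hchip, hφj]
    push_cast
    ring
  have hc : ∀ᶠ ζ in 𝓝 z, D.CC g A r l ζ = (D.th r (ζ / l) : ℂ) *
      (g ζ + l * deriv g ζ * (D.φ * D.G (ζ / l))) + (1 - (D.th r (ζ / l) : ℂ)) *
      (γ + φj * dz (D.VV g A r l) ζ) := by
    filter_upwards [hnear, hmid, hFj] with ζ h1 h2 h3
    unfold Cell.CC Cell.Cs
    rw [h1, h3, hgwp, gw_mid g (by linarith [h2.1]) (by linarith [h2.2]),
      chi1_one hl (by linarith [h2.1]) (by linarith [h2.2])]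
    push_cast
    ring
  have hpsi : psi ε (D.U w) = (D.U w)⁻¹ := by
    unfold psi
    rw [if_pos (hεD.trans hU)]
  have hF : D.FF A ε r l z = (D.th r (z / l) : ℂ) * (l * A * (D.κ * (D.U w)⁻¹)) +
      (1 - (D.th r (z / l) : ℂ)) * φj := by
    unfold Cell.FF Cell.Fs
    rw [hFj.self_of_nhds, chi1_one hl (by linarith) (by linarith), ← hw, hpsi]
    push_cast
    ring
  have hom := om_glue hDT hCs hdzV2 hc hF
  rw [hom]
  -- estimates
  have hth0 : 0 ≤ D.th r (z / l) := (s3 (z / l)).1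
  have hth1 : D.th r (z / l) ≤ 1 := (s3 (z / l)).2.1
  have hUne : D.U w ≠ 0 := by
    intro h
    rw [h, norm_zero] at hU
    have : 0 < 1 / D.C := by positivity
    linarith
  have hUinv : ‖D.κ * (D.U w)⁻¹‖ ≤ D.C ^ 2 := by
    rw [norm_mul, norm_inv]
    have h1 : ‖D.U w‖⁻¹ ≤ D.C := by
      rw [inv_le_comm₀ (norm_pos_iff.2 hUne) hDC0]
      rw [one_div] at hU
      exact hU
    calc ‖D.κ‖ * ‖D.U w‖⁻¹ ≤ D.C * D.C := by
          gcongr
          exact D.κb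
      _ = D.C ^ 2 := by ring
  have hnz : ‖z‖ ≤ L + 3 := by
    have h1 := Complex.norm_le_abs_re_add_abs_im z
    have h5 : |z.im| ≤ 1 := abs_le.2 ⟨by linarith, hz3⟩
    linarith
  have hlw : l * ‖w‖ ≤ L + 3 := by
    have h1 : l * ‖w‖ = ‖z‖ := by
      rw [hzw, norm_mul, Complex.norm_real, Real.norm_of_nonneg hl.le]
    rw [h1]
    exact hnz
  have hlv : l * ‖D.v w‖ ≤ Cr + D.C * (L + 3) := by
    calc l * ‖D.v w‖ ≤ l * (Cr + D.C * ‖w‖) := by gcongr
      _ = l * Cr + D.C * (l * ‖w‖) := by ring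
      _ ≤ 1 * Cr + D.C * (L + 3) := by gcongr
      _ = _ := by ring
  -- first part
  have key1 : deriv g z + (l * deriv (deriv g) z * (D.φ * D.G w) + l * deriv g z * (D.φ * (D.G1 w / l))) -
      l * A * (D.κ * (D.U w)⁻¹) * ((l / A : ℂ) * (deriv (deriv (deriv g)) z * D.v (z / l) +
        2 * deriv (deriv g) z * D.v1 (z / l) / l + deriv g z * D.v2 (z / l) / l ^ 2)) =
      l * (deriv (deriv g) z * (D.φ * D.G w)) - (D.κ * (D.U w)⁻¹) *
        (l * (deriv (deriv (deriv g)) z * (l * D.v w)) + l * (2 * deriv (deriv g) z * D.v1 w)) := by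
    have h1 : D.v2 w * D.κ = D.U w * (1 + D.φ * D.G1 w) := by
      rw [D.ident w hwZ]
      ring
    have hAne : (A : ℂ) ≠ 0 := by exact_mod_cast hA0.ne'
    rw [← hw]
    field_simp
    linear_combination (-(deriv g z)) * h1
  have n1 : ‖deriv g z + (l * deriv (deriv g) z * (D.φ * D.G w) + l * deriv g z * (D.φ * (D.G1 w / l))) -
      l * A * (D.κ * (D.U w)⁻¹) * ((l / A : ℂ) * (deriv (deriv (deriv g)) z * D.v (z / l) +
        2 * deriv (deriv g) z * D.v1 (z / l) / l + deriv g z * D.v2 (z / l) / l ^ 2))‖ ≤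
      (H0 * D.C * Cr + D.C ^ 2 * H0 * (3 * Cr + D.C * (L + 3))) * l := by
    rw [key1]
    have m1 : ‖(l : ℂ) * (deriv (deriv g) z * (D.φ * D.G w))‖ ≤ l * (H0 * (D.C * Cr)) := by
      rw [norm_mul, norm_mul, norm_mul, Complex.norm_real, Real.norm_of_nonneg hl.le]
      gcongr
      exact D.φb
    have m2 : ‖(l : ℂ) * (deriv (deriv (deriv g)) z * (l * D.v w))‖ ≤ l * (H0 * (Cr + D.C * (L + 3))) := by
      rw [norm_mul, norm_mul, norm_mul, Complex.norm_real, Real.norm_of_nonneg hl.le]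
      gcongr
    have m3 : ‖(l : ℂ) * (2 * deriv (deriv g) z * D.v1 w)‖ ≤ l * (2 * H0 * Cr) := by
      rw [norm_mul, norm_mul, norm_mul, Complex.norm_real, Real.norm_of_nonneg hl.le, Complex.norm_two]
      gcongr
    have m4 := norm_add_le ((l : ℂ) * (deriv (deriv (deriv g)) z * (l * D.v w)))
      ((l : ℂ) * (2 * deriv (deriv g) z * D.v1 w))
    calc ‖(l : ℂ) * (deriv (deriv g) z * (D.φ * D.G w)) - (D.κ * (D.U w)⁻¹) *
        (l * (deriv (deriv (deriv g)) z * (l * D.v w)) + l * (2 * deriv (deriv g) z * D.v1 w))‖ ≤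
        ‖(l : ℂ) * (deriv (deriv g) z * (D.φ * D.G w))‖ + ‖(D.κ * (D.U w)⁻¹) *
        (l * (deriv (deriv (deriv g)) z * (l * D.v w)) + l * (2 * deriv (deriv g) z * D.v1 w))‖ :=
          norm_sub_le _ _
      _ ≤ l * (H0 * (D.C * Cr)) + D.C ^ 2 * (l * (H0 * (Cr + D.C * (L + 3))) + l * (2 * H0 * Cr)) := by
          rw [norm_mul (D.κ * (D.U w)⁻¹)]
          gcongr
          linarith
      _ = _ := by ring
  -- second part
  have key2 : (g z + l * deriv g z * (D.φ * D.G (z / l))) - γ - φj * dz (D.VV g A r l) z =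
      (g z - g (l * p)) + l * (deriv g z * (D.φ * D.G w - D.fh p * D.v1 w)) -
        l * (D.fh p * (deriv (deriv g) z * (l * D.v w))) := by
    have hAne : (A : ℂ) ≠ 0 := by exact_mod_cast hA0.ne'
    rw [hdzV.self_of_nhds, hγ, hφj, ← hw]
    field_simp
    ring
  have n2 : ‖(g z + l * deriv g z * (D.φ * D.G (z / l))) - γ - φj * dz (D.VV g A r l) z‖ ≤
      l * (6 * D.C ^ 2 * H0 * L) + l * l * (D.C * H0 * Cr) := by
    rw [key2]
    have m1 : ‖g z - g (l * p)‖ ≤ H0 * (2 * r * l) :=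
      (lip_g hg hpbox hzbox).trans (by gcongr)
    have m2 : ‖(l : ℂ) * (deriv g z * (D.φ * D.G w - D.fh p * D.v1 w))‖ ≤ l * (H0 * (D.C * (2 * r))) := by
      rw [norm_mul, norm_mul, Complex.norm_real, Real.norm_of_nonneg hl.le]
      gcongr
      exact hGv.trans (by gcongr)
    have m3 : ‖(l : ℂ) * (D.fh p * (deriv (deriv g) z * (l * D.v w)))‖ ≤
        l * (D.C * (H0 * (l * Cr + D.C * (L + 3)))) := by
      rw [norm_mul, norm_mul, norm_mul, norm_mul, Complex.norm_real, Real.norm_of_nonneg hl.le]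
      have h1 : l * ‖D.v w‖ ≤ l * Cr + D.C * (L + 3) := by
        calc l * ‖D.v w‖ ≤ l * (Cr + D.C * ‖w‖) := by gcongr
          _ = l * Cr + D.C * (l * ‖w‖) := by ring
          _ ≤ l * Cr + D.C * (L + 3) := by gcongr
      gcongr
      exact D.fhb p
    have m4 : ‖(g z - g (l * p)) + l * (deriv g z * (D.φ * D.G w - D.fh p * D.v1 w)) -
        l * (D.fh p * (deriv (deriv g) z * (l * D.v w)))‖ ≤
        H0 * (2 * r * l) + l * (H0 * (D.C * (2 * r))) + l * (D.C * (H0 * (l * Cr + D.C * (L + 3)))) := by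
      refine (norm_sub_le _ _).trans (add_le_add ((norm_add_le _ _).trans (add_le_add m1 m2)) m3)
    refine m4.trans ?_
    have q1 : 2 * r + D.C * (2 * r) + D.C * (D.C * (L + 3)) ≤ 6 * D.C ^ 2 * L := by
      have e1 : 2 * r ≤ D.C ^ 2 * L := by
        calc 2 * r ≤ 1 := by linarith
          _ ≤ D.C ^ 2 * L := by
            have : 1 ≤ D.C ^ 2 := one_le_pow₀ hDC
            nlinarith
      have e2 : D.C * (2 * r) ≤ D.C ^ 2 * L := by
        calc D.C * (2 * r) ≤ D.C * 1 := by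
              gcongr
              linarith
          _ ≤ D.C * (D.C * L) := by
              gcongr
              nlinarith
          _ = D.C ^ 2 * L := by ring
      have e3 : D.C * (D.C * (L + 3)) ≤ 4 * (D.C ^ 2 * L) := by
        calc D.C * (D.C * (L + 3)) ≤ D.C * (D.C * (4 * L)) := by
              gcongr
              linarith
          _ = 4 * (D.C ^ 2 * L) := by ring
      linarith
    calc H0 * (2 * r * l) + l * (H0 * (D.C * (2 * r))) + l * (D.C * (H0 * (l * Cr + D.C * (L + 3)))) =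
          l * (H0 * (2 * r + D.C * (2 * r) + D.C * (D.C * (L + 3)))) + l * l * (D.C * H0 * Cr) := by ring
      _ ≤ l * (H0 * (6 * D.C ^ 2 * L)) + l * l * (D.C * H0 * Cr) := by gcongr
      _ = _ := by ring
  -- conclusion
  have n3 : ‖((D.th r (z / l) : ℂ) * (deriv g z + (l * deriv (deriv g) z * (D.φ * D.G w) +
      l * deriv g z * (D.φ * (D.G1 w / l))) -
      l * A * (D.κ * (D.U w)⁻¹) * ((l / A : ℂ) * (deriv (deriv (deriv g)) z * D.v (z / l) +
        2 * deriv (deriv g) z * D.v1 (z / l) / l + deriv g z * D.v2 (z / l) / l ^ 2)))) •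
      (1 : ℂ →L[ℝ] ℂ)‖ ≤ (H0 * D.C * Cr + D.C ^ 2 * H0 * (3 * Cr + D.C * (L + 3))) * l := by
    rw [norm_smul, norm_mul, Complex.norm_real, Real.norm_of_nonneg hth0, norm_one, mul_one]
    calc D.th r (z / l) * _ ≤ 1 * ((H0 * D.C * Cr + D.C ^ 2 * H0 * (3 * Cr + D.C * (L + 3))) * l) := by
          gcongr
      _ = _ := one_mul _
  have n4 : ‖((g z + l * deriv g z * (D.φ * D.G (z / l))) - γ - φj * dz (D.VV g A r l) z) • DT‖ ≤
      (l * (6 * D.C ^ 2 * H0 * L) + l * l * (D.C * H0 * Cr)) * (B / r / l) := by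
    rw [norm_smul]
    gcongr
  refine (norm_add_le _ _).trans ?_
  refine (add_le_add n3 n4).trans ?_
  have n5 : (l * (6 * D.C ^ 2 * H0 * L) + l * l * (D.C * H0 * Cr)) * (B / r / l) =
      6 * B * D.C ^ 2 * H0 * L / r + B / r * (D.C * H0 * Cr) * l := by
    field_simp
  rw [n5]
  have n6 : 6 * B * D.C ^ 2 * H0 * L / r ≤ C * H0 * L / r := by
    have : 6 * B * D.C ^ 2 ≤ C := by linarith
    gcongr
  have n7 : (H0 * D.C * Cr + D.C ^ 2 * H0 * (3 * Cr + D.C * (L + 3)) + B / r * (D.C * H0 * Cr)) * l =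
      (H0 * D.C * Cr + D.C ^ 2 * H0 * (3 * Cr + D.C * (L + 3))) * l + B / r * (D.C * H0 * Cr) * l := by ring
  rw [n7]
  linarith

end MP1707
end
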