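import Pool.Agent.Lib.MP_1707ab_an.N2.SpecM

section
/-!
# MP_1707ab_an, n = 2, part M: common lemmas for PTB, PTC, PTD, PTE
-/
set_option autoImplicit false

open scoped Topology BigOperators ContDiff

namespace MP1707

namespace PtM

/-- the content of `SpecCut` for one cell and one `r` -/
structure CutF (D : Cell) (B r : ℝ) : Prop where
  r0 : 0 < r
  rd : r ≤ D.d0 / 4
  B0 : 0 < B
  st : ∀ t, |deriv Real.smoothTransition t| ≤ B
  smth : ContDiff ℝ ∞ (D.th r)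
  smth2 : ContDiff ℝ ∞ (D.th2 r)
  th0 : ∀ w, 0 ≤ D.th r w
  th1 : ∀ w, D.th r w ≤ 1
  th_zero : ∀ w, Metric.infDist w D.Z ≤ r → D.th r w = 0
  th_one : ∀ w, 2 * r ≤ Metric.infDist w D.Z → D.th r w = 1
  th2_zero : ∀ w, Metric.infDist w D.Z ≤ r / 4 → D.th2 r w = 0
  th2_one : ∀ w, r / 2 ≤ Metric.infDist w D.Z → D.th2 r w = 1
  dth : ∀ w, ‖fderiv ℝ (D.th r) w‖ ≤ B / r
  dth2 : ∀ w, ‖fderiv ℝ (D.th2 r) w‖ ≤ 4 * B / r
  near : ∀ p ∈ D.Z, ∀ w : ℂ, ‖w - p‖ < 2 * D.d0 → D.near w = p ∧ Metric.infDist w D.Z = ‖w - p‖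
  ex : ∀ w, Metric.infDist w D.Z < 2 * D.d0 → ∃ p ∈ D.Z, ‖w - p‖ < 2 * D.d0

theorem exists_cutF (h : SpecCut) : ∃ B : ℝ, 0 < B ∧ ∀ (D : Cell) (r : ℝ), 0 < r → r ≤ D.d0 / 4 →
    CutF D B r := by
  obtain ⟨B, hB, hst, h⟩ := h
  refine ⟨B, hB, fun D r hr hrd => ?_⟩
  obtain ⟨h1, h2, h3, h4, h5, h6, h7, h8, h9, h10⟩ := h D r hr hrd
  exact ⟨hr, hrd, hB, hst, h1, h2, fun w => (h3 w).1, fun w => (h3 w).2.1, h4, h5, h6, h7,
    fun w => (h8 w).1, fun w => (h8 w).2, h9, h10⟩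

namespace CutF

variable {D : Cell} {B r : ℝ} (h : CutF D B r)

include h

/-- near a point at distance `< 2 d0` from the masses, the nearest mass is locally constant -/
theorem near_loc {w : ℂ} (hw : Metric.infDist w D.Z < 2 * D.d0) : ∃ p ∈ D.Z, ‖w - p‖ < 2 * D.d0 ∧
    D.near w = p ∧ Metric.infDist w D.Z = ‖w - p‖ ∧
    ∀ᶠ w' in 𝓝 w, ‖w' - p‖ < 2 * D.d0 ∧ D.near w' = p ∧ Metric.infDist w' D.Z = ‖w' - p‖ := by
  obtain ⟨p, hp, hpw⟩ := h.ex w hw
  refine ⟨p, hp, hpw, (h.near p hp w hpw).1, (h.near p hp w hpw).2, ?_⟩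
  have : ∀ᶠ w' in 𝓝 w, ‖w' - p‖ < 2 * D.d0 := by
    have hc : Continuous fun w' : ℂ => ‖w' - p‖ := by fun_prop
    exact hc.continuousAt.eventually_lt continuousAt_const hpw
  filter_upwards [this] with w' hw'
  exact ⟨hw', (h.near p hp w' hw').1, (h.near p hp w' hw').2⟩

end CutF

/-- scaling of neighbourhoods -/
theorem eventually_scale {l : ℝ} {z : ℂ} {P : ℂ → Prop}
    (h : ∀ᶠ w in 𝓝 (z / (l : ℂ)), P w) : ∀ᶠ ζ in 𝓝 z, P (ζ / (l : ℂ)) := by
  have hc : Continuous fun ζ : ℂ => ζ / (l : ℂ) := by fun_prop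
  exact hc.continuousAt.eventually h

theorem hasFDerivAt_scale (l : ℝ) (z : ℂ) :
    HasFDerivAt (fun ζ : ℂ => ζ / (l : ℂ)) ((1 / (l : ℂ)) • ContinuousLinearMap.id ℝ ℂ) z := by
  have : (fun ζ : ℂ => ζ / (l : ℂ)) = fun ζ => ((1 / (l : ℂ)) • ContinuousLinearMap.id ℝ ℂ) ζ := by
    funext ζ
    simp [div_eq_mul_inv, mul_comm]
  rw [this]
  exact ContinuousLinearMap.hasFDerivAt _

theorem norm_scale_le {l : ℝ} (hl : 0 < l) :
    ‖((1 / (l : ℂ)) • ContinuousLinearMap.id ℝ ℂ : ℂ →L[ℝ] ℂ)‖ ≤ 1 / l := by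
  refine (ContinuousLinearMap.opNorm_le_bound _ (by positivity) fun v => ?_)
  simp [abs_of_pos hl]

/-- the derivative of a real function of `ζ / l`, seen as a complex function -/
theorem scale_real {T : ℂ → ℝ} {l : ℝ} (hl : 0 < l) (z : ℂ)
    (hT : DifferentiableAt ℝ T (z / (l : ℂ))) :
    ∃ T' : ℂ →L[ℝ] ℂ, HasFDerivAt (fun ζ : ℂ => ((T (ζ / (l : ℂ)) : ℝ) : ℂ)) T' z ∧
      ‖T'‖ ≤ ‖fderiv ℝ T (z / (l : ℂ))‖ / l := by
  refine ⟨Complex.ofRealCLM.comp ((fderiv ℝ T (z / (l : ℂ))).comp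
    ((1 / (l : ℂ)) • ContinuousLinearMap.id ℝ ℂ)), ?_, ?_⟩
  · exact Complex.ofRealCLM.hasFDerivAt.comp z (hT.hasFDerivAt.comp z (hasFDerivAt_scale l z))
  · calc _ ≤ ‖Complex.ofRealCLM‖ * ‖(fderiv ℝ T (z / (l : ℂ))).comp
          ((1 / (l : ℂ)) • ContinuousLinearMap.id ℝ ℂ)‖ := ContinuousLinearMap.opNorm_comp_le _ _
      _ = ‖(fderiv ℝ T (z / (l : ℂ))).comp ((1 / (l : ℂ)) • ContinuousLinearMap.id ℝ ℂ)‖ := by
          rw [Complex.ofRealCLM_norm, one_mul]
      _ ≤ ‖fderiv ℝ T (z / (l : ℂ))‖ * ‖((1 / (l : ℂ)) • ContinuousLinearMap.id ℝ ℂ : ℂ →L[ℝ] ℂ)‖ :=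
          ContinuousLinearMap.opNorm_comp_le _ _
      _ ≤ ‖fderiv ℝ T (z / (l : ℂ))‖ * (1 / l) := by
          gcongr
          exact norm_scale_le hl
      _ = _ := by ring

/-- derivative of a mixture `a X + (1 - a) k` -/
theorem mix {a X : ℂ → ℂ} {a' X' : ℂ →L[ℝ] ℂ} {z k : ℂ} (ha : HasFDerivAt a a' z)
    (hX : HasFDerivAt X X' z) :
    HasFDerivAt (fun ζ => a ζ * X ζ + (1 - a ζ) * k) (a z • X' + (X z - k) • a') z := by
  have h1 := (ha.mul hX).add ((ha.const_sub 1).mul_const k)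
  refine h1.congr_fderiv ?_
  ext v <;> simp <;> ring

theorem mix_norm {a' X' : ℂ →L[ℝ] ℂ} {c d : ℂ} :
    ‖c • X' + d • a'‖ ≤ ‖c‖ * ‖X'‖ + ‖d‖ * ‖a'‖ := by
  refine (norm_add_le _ _).trans ?_
  rw [norm_smul, norm_smul]

/-- a complex derivative as a real derivative -/
theorem hasFDerivAt_of_hasDerivAt {f : ℂ → ℂ} {f' z : ℂ} (h : HasDerivAt f f' z) :
    HasFDerivAt f (f' • ContinuousLinearMap.id ℝ ℂ) z := by
  have h1 := h.hasFDerivAt.restrictScalars ℝ
  refine h1.congr_fderiv ?_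
  ext v <;> simp [mul_comm]

theorem norm_smul_id (f' : ℂ) : ‖(f' • ContinuousLinearMap.id ℝ ℂ : ℂ →L[ℝ] ℂ)‖ ≤ ‖f'‖ := by
  refine (ContinuousLinearMap.opNorm_le_bound _ (norm_nonneg _) fun v => ?_)
  simp

/-- values of the cutoffs -/
theorem st_zero {t : ℝ} (h : t ≤ 0) : Real.smoothTransition t = 0 :=
  Real.smoothTransition.zero_of_nonpos h

theorem st_one {t : ℝ} (h : 1 ≤ t) : Real.smoothTransition t = 1 :=
  Real.smoothTransition.one_of_one_le h

theorem chi1_zero_low {l y : ℝ} (hl : 0 < l) (hy : y ≤ 1 / 8) : chi1 l y = 0 := by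
  unfold chi1
  rw [st_zero (div_nonpos_of_nonpos_of_nonneg (by linarith) hl.le), zero_mul]

theorem chi1_zero_high {l y : ℝ} (hl : 0 < l) (hy : 7 / 8 ≤ y) : chi1 l y = 0 := by
  unfold chi1
  rw [st_zero (t := (7 / 8 - y) / l) (div_nonpos_of_nonpos_of_nonneg (by linarith) hl.le), mul_zero]

theorem chi1_one {l y : ℝ} (hl : 0 < l) (h1 : 1 / 8 + l ≤ y) (h2 : y ≤ 7 / 8 - l) : chi1 l y = 1 := by
  unfold chi1
  rw [st_one (by rw [le_div_iff₀ hl]; linarith), st_one (by rw [le_div_iff₀ hl]; linarith), one_mul]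

theorem chib_zero {y : ℝ} (h : y ≤ 3 / 32) : chib y = 0 := st_zero (by linarith)
theorem chib_one {y : ℝ} (h : 1 / 8 ≤ y) : chib y = 1 := st_one (by linarith)
theorem chit_zero {y : ℝ} (h : 29 / 32 ≤ y) : chit y = 0 := st_zero (by linarith)
theorem chit_one {y : ℝ} (h : y ≤ 7 / 8) : chit y = 1 := st_one (by linarith)

theorem chi3_one {y : ℝ} (h1 : 5 / 64 ≤ y) (h2 : y ≤ 59 / 64) : chi3 y = 1 := by
  unfold chi3
  rw [st_one (by linarith), st_one (by linarith), one_mul]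

theorem gw_mid (g : ℂ → ℂ) {z : ℂ} (h1 : 1 / 8 ≤ z.im) (h2 : z.im ≤ 7 / 8) : gw g z = g z := by
  unfold gw
  rw [chib_one h1, chit_one h2]
  simp

theorem gw_low (g : ℂ → ℂ) {z : ℂ} (h2 : z.im ≤ 7 / 8) : gw g z = (chib z.im : ℂ) * g z := by
  unfold gw
  rw [chit_one h2]
  simp

theorem gw_high (g : ℂ → ℂ) {z : ℂ} (h1 : 1 / 8 ≤ z.im) :
    gw g z = 1 + (chit z.im : ℂ) * (g z - 1) := by
  unfold gw
  rw [chib_one h1]
  push_cast
  ring

/-- points of `K L` have norm at most `L + 3` -/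
theorem norm_le_of_mem_K {L : ℝ} {z : ℂ} (hz : z ∈ K L) : ‖z‖ ≤ L + 3 := by
  have := Complex.norm_le_abs_re_add_abs_im z
  have h1 := hz.1
  have h2 : |z.im| ≤ 1 := abs_le.mpr ⟨by linarith [hz.2.1], hz.2.2⟩
  linarith

/-- comparison of `z` with the scaled nearest mass -/
theorem norm_sub_scale {l : ℝ} (hl : 0 < l) (z p : ℂ) : ‖z - l * p‖ = l * ‖z / (l : ℂ) - p‖ := by
  have hl' : (l : ℂ) ≠ 0 := by exact_mod_cast hl.ne'
  have : z - l * p = (l : ℂ) * (z / (l : ℂ) - p) := by field_simp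
  rw [this, norm_mul, Complex.norm_real, Real.norm_of_nonneg hl.le]

end PtM

end MP1707
end

section
/-!
# MP_1707ab_an, n = 2, part M, module PTB
-/
set_option autoImplicit false

open scoped Topology BigOperators ContDiff

namespace MP1707

namespace PtM

/-- `dz V` is differentiable when `V` is `C²` -/
theorem differentiable_dz {V : ℂ → ℂ} (hV : ContDiff ℝ 2 V) : Differentiable ℝ (dz V) := by
  have h1 : ContDiff ℝ 1 (fderiv ℝ V) := hV.fderiv_right (by norm_num)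
  have h2 : Differentiable ℝ (fderiv ℝ V) := h1.differentiable (by norm_num)
  unfold dz
  have h3 : ∀ v : ℂ, Differentiable ℝ fun z => fderiv ℝ V z v := fun v => h2.clm_apply
    (differentiable_const v)
  have h4 : Differentiable ℝ fun z => (fderiv ℝ V z 1 - Complex.I * fderiv ℝ V z Complex.I) :=
    (h3 1).sub ((h3 Complex.I).const_mul Complex.I)
  have h5 := h4.const_mul ((2 : ℂ)⁻¹)
  have e : (fun z => (fderiv ℝ V z 1 - Complex.I * fderiv ℝ V z Complex.I) / 2) =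
      fun z => (2 : ℂ)⁻¹ * (fderiv ℝ V z 1 - Complex.I * fderiv ℝ V z Complex.I) := by
    funext z
    ring
  rw [e]
  exact h5

/-- `ω = 0` where `F` is constant and `c = F dV_z + const` -/
theorem om_eq_zero {V c F : ℂ → ℂ} {z f0 k0 : ℂ} (hV : Differentiable ℝ (dz V))
    (hF : ∀ᶠ ζ in 𝓝 z, F ζ = f0) (hc : ∀ᶠ ζ in 𝓝 z, c ζ = f0 * dz V ζ + k0) :
    om V c F z = 0 ∧ fderiv ℝ F z = 0 := by
  have h1 : fderiv ℝ F z = 0 := by
    rw [Filter.EventuallyEq.fderiv_eq (f := fun _ : ℂ => f0) hF]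
    exact fderiv_const_apply f0
  refine ⟨?_, h1⟩
  have h2 : fderiv ℝ c z = f0 • fderiv ℝ (dz V) z := by
    rw [Filter.EventuallyEq.fderiv_eq (f := fun ζ : ℂ => f0 * dz V ζ + k0) hc]
    have := ((hV z).hasFDerivAt.const_mul f0).add_const k0
    exact this.fderiv
  unfold om
  rw [h2, hF.self_of_nhds, sub_self]

end PtM

open PtM in
theorem specPtB (hcut : SpecCut) (hsm : SpecSm) : SpecPtB := by
  obtain ⟨B, hB, hcut⟩ := exists_cutF hcut
  intro D
  have hd0 := D.hd0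
  have hDC := D.hC
  refine ⟨max D.C (4 / D.d0), hDC.trans (le_max_left _ _), ?_⟩
  intro L e0 H0 g hg hL hH0 he0 he01 A ε r hA hε hεC hr hrC
  have hC0 : 0 < max D.C (4 / D.d0) := lt_max_of_lt_left (by linarith)
  have hr4 : r ≤ D.d0 / 4 := by
    refine hrC.trans ?_
    rw [div_le_iff₀ hC0]
    have := le_max_right D.C (4 / D.d0)
    calc (1 : ℝ) = D.d0 / 4 * (4 / D.d0) := by field_simp
      _ ≤ _ := by gcongr
  have hεC' : ε ≤ 1 / D.C := hεC.trans (one_div_le_one_div_of_le (by linarith) (le_max_left _ _))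
  have hc := hcut D r hr hr4
  refine ⟨1, 1, one_pos, one_pos, ?_⟩
  intro l hl _ z _ hρ
  have hρ' : Metric.infDist (z / (l : ℂ)) D.Z < r := hρ
  have hV := (hsm D g A ε r l hg.1 hA hε hεC' hr hr4 hl).1
  obtain ⟨p, hp, hpz, hnp, hdp, hloc⟩ := hc.near_loc (w := z / (l : ℂ)) (by linarith)
  have hev : ∀ᶠ w in 𝓝 (z / (l : ℂ)), D.near w = p ∧ D.th r w = 0 := by
    have h1 : ∀ᶠ w in 𝓝 (z / (l : ℂ)), Metric.infDist w D.Z < r :=
      (Metric.continuous_infDist_pt D.Z).continuousAt.eventually_lt continuousAt_const hρ'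
    filter_upwards [hloc, h1] with w h2 h3
    exact ⟨h2.2.1, hc.th_zero w h3.le⟩
  have hev' := eventually_scale hev
  refine om_eq_zero (f0 := (chi1 l (l * p.im) : ℂ) * (l * A) * D.fh p) (k0 := gw g (l * p))
    (differentiable_dz hV) ?_ ?_
  · filter_upwards [hev'] with ζ hζ
    unfold Cell.FF Cell.Fj
    rw [hζ.1, hζ.2]
    simp
  · filter_upwards [hev'] with ζ hζ
    unfold Cell.CC Cell.Fj
    rw [hζ.1, hζ.2]
    simp
    ring

end MP1707
end

section
/-!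
# MP_1707ab_an, n = 2, part M, module PTC
-/
set_option autoImplicit false

open scoped Topology BigOperators ContDiff

namespace MP1707

namespace PtM

theorem deriv_cut {B : ℝ} (hst : ∀ t, |deriv Real.smoothTransition t| ≤ B) (a b : ℝ) (y : ℝ) :
    ∃ d : ℝ, HasDerivAt (fun y : ℝ => Real.smoothTransition (a * y + b)) d y ∧ |d| ≤ |a| * B := by
  have h1 : HasDerivAt Real.smoothTransition (deriv Real.smoothTransition (a * y + b)) (a * y + b) :=
    ((Real.smoothTransition.contDiff (n := 1)).differentiable (by norm_num) _).hasDerivAt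
  have h2 : HasDerivAt (fun y : ℝ => a * y + b) a y := by
    simpa using ((hasDerivAt_id y).const_mul a).add_const b
  refine ⟨deriv Real.smoothTransition (a * y + b) * a,
    HasDerivAt.comp (h₂ := Real.smoothTransition) (h := fun y : ℝ => a * y + b) y h1 h2, ?_⟩
  rw [abs_mul, mul_comm]
  gcongr
  exact hst _

/-- derivative of `κ(Im ζ) h(ζ)` -/
theorem cutprod {κ : ℝ → ℝ} {h : ℂ → ℂ} (hh : Differentiable ℂ h) {z : ℂ} {d M : ℝ}
    (hκ : HasDerivAt κ d z.im) (hd : |d| ≤ M) (hκ1 : |κ z.im| ≤ 1) :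
    ∃ T : ℂ →L[ℝ] ℂ, HasFDerivAt (fun ζ : ℂ => ((κ ζ.im : ℝ) : ℂ) * h ζ) T z ∧
      ‖T‖ ≤ ‖deriv h z‖ + ‖h z‖ * M := by
  have h1 : HasFDerivAt (fun ζ : ℂ => κ ζ.im) (d • Complex.imCLM) z :=
    HasDerivAt.comp_hasFDerivAt (f := fun ζ : ℂ => ζ.im) (h₂ := κ) z hκ Complex.imCLM.hasFDerivAt
  have h2 : HasFDerivAt (fun ζ : ℂ => ((κ ζ.im : ℝ) : ℂ)) (Complex.ofRealCLM.comp (d • Complex.imCLM)) z :=
    HasFDerivAt.comp (g := fun t : ℝ => ((t : ℝ) : ℂ)) (f := fun ζ : ℂ => κ ζ.im) z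
      Complex.ofRealCLM.hasFDerivAt h1
  have h3 := hasFDerivAt_of_hasDerivAt (hh z).hasDerivAt
  refine ⟨_, h2.mul h3, ?_⟩
  have t0 : ‖((κ z.im : ℝ) : ℂ) • (deriv h z • ContinuousLinearMap.id ℝ ℂ : ℂ →L[ℝ] ℂ) +
      h z • Complex.ofRealCLM.comp (d • Complex.imCLM)‖ ≤
      |κ z.im| * ‖(deriv h z • ContinuousLinearMap.id ℝ ℂ : ℂ →L[ℝ] ℂ)‖ +
        ‖h z‖ * ‖Complex.ofRealCLM.comp (d • Complex.imCLM)‖ := by
    refine (norm_add_le _ _).trans (add_le_add (le_of_eq ?_) (le_of_eq (norm_smul _ _)))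
    rw [norm_smul (((κ z.im : ℝ) : ℂ)), Complex.norm_real, Real.norm_eq_abs]
  refine t0.trans ?_
  have t1 : ‖(deriv h z • ContinuousLinearMap.id ℝ ℂ : ℂ →L[ℝ] ℂ)‖ ≤ ‖deriv h z‖ := norm_smul_id _
  have t2 : ‖Complex.ofRealCLM.comp (d • Complex.imCLM)‖ ≤ M := by
    refine (ContinuousLinearMap.opNorm_comp_le _ _).trans ?_
    rw [Complex.ofRealCLM_norm, one_mul, norm_smul, Complex.imCLM_norm, mul_one]
    exact hd
  have : |κ z.im| * ‖(deriv h z • ContinuousLinearMap.id ℝ ℂ : ℂ →L[ℝ] ℂ)‖ ≤ 1 * ‖deriv h z‖ := by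
    gcongr
  have : ‖h z‖ * ‖Complex.ofRealCLM.comp (d • Complex.imCLM)‖ ≤ ‖h z‖ * M := by gcongr
  linarith

/-- the estimate of `Dc` near a wall -/
theorem wall_bound {D : Cell} {B r l A K : ℝ} (hc : CutF D B r) (hl : 0 < l) {g : ℂ → ℂ} {f : ℂ → ℂ}
    {k0 : ℂ} {S : Set ℂ} (hS : Convex ℝ S) (hf : ∀ ζ ∈ S, ∃ T : ℂ →L[ℝ] ℂ, HasFDerivAt f T ζ ∧ ‖T‖ ≤ K)
    {z : ℂ} (hz : z ∈ S) (hgw : ∀ᶠ ζ in 𝓝 z, gw g ζ = k0 + f ζ)
    (hp : ∀ p : ℂ, ‖z / (l : ℂ) - p‖ ≤ 2 * r → l * p ∈ S ∧ gw g (l * p) = k0 + f (l * p))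
    (hCC : ∀ᶠ ζ in 𝓝 z, D.CC g A r l ζ = (D.th r (ζ / l) : ℂ) * gw g ζ +
      (1 - (D.th r (ζ / l) : ℂ)) * gw g (l * D.near (ζ / l))) :
    ‖fderiv ℝ (D.CC g A r l) z‖ ≤ K * (1 + 2 * B) := by
  obtain ⟨T, hT, hTK⟩ := hf z hz
  have hK : 0 ≤ K := (norm_nonneg _).trans hTK
  have hB := hc.B0
  have hr := hc.r0
  have hd0 := D.hd0
  have hrd := hc.rd
  have hgwd : HasFDerivAt (gw g) T z := by
    have := hT.const_add k0
    exact this.congr_of_eventuallyEq hgw
  rcases le_or_gt (Metric.infDist (z / (l : ℂ)) D.Z) (2 * r) with hle | hgt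
  · obtain ⟨p, hpZ, hpz, hnp, hdp, hloc⟩ := hc.near_loc (w := z / (l : ℂ)) (by linarith)
    have hloc' := eventually_scale hloc
    rw [hdp] at hle
    obtain ⟨hpS, hpgw⟩ := hp p hle
    obtain ⟨a', ha', han⟩ := scale_real hl z ((hc.smth.differentiable (by simp)) (z / (l : ℂ)))
    have hev : ∀ᶠ ζ in 𝓝 z, D.CC g A r l ζ = (D.th r (ζ / l) : ℂ) * gw g ζ +
        (1 - (D.th r (ζ / l) : ℂ)) * gw g (l * p) := by
      filter_upwards [hCC, hloc'] with ζ a1 a2
      rw [a1, a2.2.1]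
    have hder := (mix (k := gw g (l * p)) ha' hgwd).congr_of_eventuallyEq hev
    rw [hder.fderiv]
    refine mix_norm.trans ?_
    have t1 : ‖((D.th r (z / l) : ℝ) : ℂ)‖ ≤ 1 := by
      rw [Complex.norm_real, Real.norm_of_nonneg (hc.th0 _)]
      exact hc.th1 _
    have t2 : ‖gw g z - gw g (l * p)‖ ≤ K * (l * (2 * r)) := by
      rw [hgw.self_of_nhds, hpgw, add_sub_add_left_eq_sub]
      have hmv := hS.norm_image_sub_le_of_norm_fderiv_le (𝕜 := ℝ) (f := f) (C := K) (x := l * p) (y := z)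
        (fun ζ hζ => by
          obtain ⟨T, h1, _⟩ := hf ζ hζ
          exact h1.differentiableAt)
        (fun ζ hζ => by
          obtain ⟨T, h1, h2⟩ := hf ζ hζ
          rw [h1.fderiv]
          exact h2) hpS hz
      refine hmv.trans ?_
      rw [norm_sub_scale hl]
      gcongr
    have t3 : ‖a'‖ ≤ B / r / l := han.trans (by gcongr; exact hc.dth _)
    calc ‖((D.th r (z / l) : ℝ) : ℂ)‖ * ‖T‖ + ‖gw g z - gw g (l * p)‖ * ‖a'‖ ≤
          1 * K + K * (l * (2 * r)) * (B / r / l) := by gcongr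
      _ = K * (1 + 2 * B) := by field_simp
  · have hev1 : ∀ᶠ ζ in 𝓝 z, 2 * r < Metric.infDist (ζ / (l : ℂ)) D.Z :=
      eventually_scale (P := fun w => 2 * r < Metric.infDist w D.Z)
        (continuousAt_const.eventually_lt (Metric.continuous_infDist_pt D.Z).continuousAt hgt)
    have hev : ∀ᶠ ζ in 𝓝 z, D.CC g A r l ζ = gw g ζ := by
      filter_upwards [hCC, hev1] with ζ a1 a2
      rw [a1, hc.th_one _ a2.le]
      simp
    rw [(hgwd.congr_of_eventuallyEq hev).fderiv]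
    refine hTK.trans ?_
    nlinarith

/-- `F = 0` and the form of `c` near a wall -/
theorem wall_form {D : Cell} {B r l : ℝ} (hc : CutF D B r) (hr : 2 * r ≤ 1) (hl : 0 < l) (g : ℂ → ℂ)
    (A ε : ℝ) {ζ : ℂ} (hζ : ζ.im < 1 / 8 - 2 * l ∨ 7 / 8 + 2 * l < ζ.im) :
    D.FF A ε r l ζ = 0 ∧ D.CC g A r l ζ = (D.th r (ζ / l) : ℂ) * gw g ζ +
      (1 - (D.th r (ζ / l) : ℂ)) * gw g (l * D.near (ζ / l)) := by
  have hd0 := D.hd0
  have hrd := hc.rd
  have hr0 := hc.r0
  have h1 : chi1 l ζ.im = 0 := by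
    rcases hζ with h | h
    · exact chi1_zero_low hl (by linarith)
    · exact chi1_zero_high hl (by linarith)
  have h2 : (1 - (D.th r (ζ / l) : ℂ)) * D.Fj A l (ζ / l) = 0 := by
    rcases le_or_gt (2 * r) (Metric.infDist (ζ / (l : ℂ)) D.Z) with hge | hlt
    · rw [hc.th_one _ hge]
      simp
    · obtain ⟨p, hpZ, hpz, hnp, hdp, -⟩ := hc.near_loc (w := ζ / (l : ℂ)) (by linarith)
      have hlp : |l * p.im - ζ.im| ≤ l := by
        have e1 := norm_sub_scale hl ζ p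
        have e2 : |(ζ - l * p).im| ≤ ‖ζ - l * p‖ := Complex.abs_im_le_norm _
        have e3 : (ζ - l * p).im = ζ.im - l * p.im := by simp
        rw [e3, abs_sub_comm] at e2
        rw [e1, ← hdp] at e2
        refine e2.trans ?_
        have : l * Metric.infDist (ζ / (l : ℂ)) D.Z ≤ l * 1 := by
          gcongr
          linarith
        linarith
      have hlp' := abs_le.mp hlp
      have : chi1 l (l * (D.near (ζ / l)).im) = 0 := by
        rw [hnp]
        rcases hζ with h | h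
        · exact chi1_zero_low hl (by linarith)
        · exact chi1_zero_high hl (by linarith)
      unfold Cell.Fj
      rw [this]
      simp
  constructor
  · unfold Cell.FF Cell.Fs
    rw [h1, h2]
    simp
  · unfold Cell.CC Cell.Cs
    rw [h1, mul_add (1 - (D.th r (ζ / l) : ℂ)), ← mul_assoc (1 - (D.th r (ζ / l) : ℂ)), h2]
    simp

end PtM

open PtM in
theorem specPtC (hcut : SpecCut) : SpecPtC := by
  obtain ⟨B, hB, hcut⟩ := exists_cutF hcut
  intro D
  have hd0 := D.hd0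
  set C : ℝ := 4 / D.d0 + 2 + (32 * B + 1) * (1 + 2 * B) with hC
  have k1 : 0 < 4 / D.d0 := by positivity
  have k2 : 0 ≤ (32 * B + 1) * (1 + 2 * B) := by positivity
  have hC0 : 0 < C := by linarith
  refine ⟨C, by linarith, ?_⟩
  intro L e0 H0 g hg hL hH0 he0 he01 A ε r hA hε hεC hr hrC
  have hr4 : r ≤ D.d0 / 4 := by
    refine hrC.trans ?_
    rw [div_le_iff₀ hC0]
    calc (1 : ℝ) = D.d0 / 4 * (4 / D.d0) := by field_simp
      _ ≤ D.d0 / 4 * C := by gcongr; linarith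
  have hr2 : 2 * r ≤ 1 := by
    have : r * C ≤ 1 := by rwa [le_div_iff₀ hC0] at hrC
    nlinarith
  have hc := hcut D r hr hr4
  refine ⟨1, 1 / 4, one_pos, by norm_num, ?_⟩
  intro l hl hl4 z hz hwall
  have hform : ∀ᶠ ζ in 𝓝 z, D.FF A ε r l ζ = 0 ∧ D.CC g A r l ζ = (D.th r (ζ / l) : ℂ) * gw g ζ +
      (1 - (D.th r (ζ / l) : ℂ)) * gw g (l * D.near (ζ / l)) := by
    have : ∀ᶠ ζ : ℂ in 𝓝 z, ζ.im < 1 / 8 - 2 * l ∨ 7 / 8 + 2 * l < ζ.im := by
      rcases hwall with h | h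
      · filter_upwards [Complex.continuous_im.continuousAt.eventually_lt continuousAt_const h] with ζ a
        exact Or.inl a
      · filter_upwards [continuousAt_const.eventually_lt Complex.continuous_im.continuousAt h] with ζ a
        exact Or.inr a
    filter_upwards [this] with ζ a
    exact wall_form hc hr2 hl g A ε a
  have hF : ∀ᶠ ζ in 𝓝 z, D.FF A ε r l ζ = 0 := hform.mono fun ζ h => h.1
  have hCC := hform.mono fun ζ h => h.2
  have hF' : fderiv ℝ (D.FF A ε r l) z = 0 := by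
    rw [Filter.EventuallyEq.fderiv_eq (f := fun _ : ℂ => (0 : ℂ)) hF]
    exact fderiv_const_apply 0
  refine ⟨?_, hF'⟩
  have hom : om (D.VV g A r l) (D.CC g A r l) (D.FF A ε r l) z = fderiv ℝ (D.CC g A r l) z := by
    unfold om
    rw [hF.self_of_nhds]
    simp
  rw [hom]
  have hK : (32 * B + 1) * e0 * (1 + 2 * B) ≤ C * e0 := by
    have : (32 * B + 1) * e0 * (1 + 2 * B) = ((32 * B + 1) * (1 + 2 * B)) * e0 := by ring
    rw [this]
    gcongr
    linarith
  refine le_trans ?_ hK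
  have hz1 := hz.1
  have hz2 := hz.2.1
  have hz3 := hz.2.2
  -- the mass near `z` is close to `z`
  have hclose : ∀ p : ℂ, ‖z / (l : ℂ) - p‖ ≤ 2 * r →
      |(l * p : ℂ).re - z.re| ≤ l ∧ |(l * p : ℂ).im - z.im| ≤ l := by
    intro p hp
    have e1 := norm_sub_scale hl z p
    have e0 : ‖z - l * p‖ ≤ l := by
      rw [e1]
      calc l * ‖z / (l : ℂ) - p‖ ≤ l * 1 := by gcongr; linarith
        _ = l := mul_one l
    have e2 : |(z - l * p).im| ≤ ‖z - l * p‖ := Complex.abs_im_le_norm _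
    have e3 : |(z - l * p).re| ≤ ‖z - l * p‖ := Complex.abs_re_le_norm _
    rw [Complex.sub_im, abs_sub_comm] at e2
    rw [Complex.sub_re, abs_sub_comm] at e3
    exact ⟨e3.trans e0, e2.trans e0⟩
  rcases hwall with h | h
  · -- bottom
    refine wall_bound (S := {w : ℂ | |w.re| ≤ L + 3 ∧ -(1 / 4) ≤ w.im ∧ w.im ≤ 1 / 8})
      (f := fun ζ => ((chib ζ.im : ℝ) : ℂ) * g ζ) (k0 := 0) hc hl ?_ ?_ ?_ ?_ ?_ hCC
    · have : {w : ℂ | |w.re| ≤ L + 3 ∧ -(1 / 4) ≤ w.im ∧ w.im ≤ 1 / 8} =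
          (Complex.reLm ⁻¹' (Set.Icc (-(L + 3)) (L + 3))) ∩
          (Complex.imLm ⁻¹' (Set.Icc (-(1 / 4)) (1 / 8))) := by
        ext w
        simp [abs_le]
      rw [this]
      exact ((convex_Icc _ _).linear_preimage _).inter ((convex_Icc _ _).linear_preimage _)
    · rintro ζ ⟨a1, a2, a3⟩
      obtain ⟨b1, b2⟩ := hg.2.2.1 ζ a1 (abs_le.mpr ⟨a2, by linarith⟩)
      obtain ⟨d, hd, hdB⟩ := deriv_cut hc.st 32 (-3) ζ.im
      have hd' : HasDerivAt chib d ζ.im := by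
        have e : chib = fun y : ℝ => Real.smoothTransition (32 * y + -3) := by
          funext y
          unfold chib
          congr 1
          ring
        rw [e]
        exact hd
      obtain ⟨T, hT, hTn⟩ := cutprod (M := 32 * B) hg.1 hd'
        (by rwa [abs_of_pos (by norm_num : (0 : ℝ) < 32)] at hdB)
        (by unfold chib
            rw [abs_of_nonneg (Real.smoothTransition.nonneg _)]
            exact Real.smoothTransition.le_one _)
      refine ⟨T, hT, hTn.trans ?_⟩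
      nlinarith
    · exact ⟨by linarith, by linarith, by linarith⟩
    · have : ∀ᶠ ζ : ℂ in 𝓝 z, ζ.im < 7 / 8 :=
        Complex.continuous_im.continuousAt.eventually_lt continuousAt_const (by linarith)
      filter_upwards [this] with ζ a
      rw [gw_low g a.le, zero_add]
    · intro p hp
      obtain ⟨c1, c2⟩ := hclose p hp
      have c1' := abs_le.mp c1
      have c2' := abs_le.mp c2
      have hz1' := abs_le.mp hz1
      refine ⟨⟨abs_le.mpr ⟨by linarith, by linarith⟩, by linarith, by linarith⟩, ?_⟩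
      rw [gw_low g (by linarith), zero_add]
  · -- top
    refine wall_bound (S := {w : ℂ | |w.re| ≤ L + 3 ∧ 7 / 8 ≤ w.im ∧ w.im ≤ 5 / 4})
      (f := fun ζ => ((chit ζ.im : ℝ) : ℂ) * (g ζ - 1)) (k0 := 1) hc hl ?_ ?_ ?_ ?_ ?_ hCC
    · have : {w : ℂ | |w.re| ≤ L + 3 ∧ 7 / 8 ≤ w.im ∧ w.im ≤ 5 / 4} =
          (Complex.reLm ⁻¹' (Set.Icc (-(L + 3)) (L + 3))) ∩
          (Complex.imLm ⁻¹' (Set.Icc (7 / 8) (5 / 4))) := by
        ext w
        simp [abs_le]
      rw [this]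
      exact ((convex_Icc _ _).linear_preimage _).inter ((convex_Icc _ _).linear_preimage _)
    · rintro ζ ⟨a1, a2, a3⟩
      obtain ⟨b1, b2⟩ := hg.2.2.2 ζ a1 (abs_le.mpr ⟨by linarith, by linarith⟩)
      obtain ⟨d, hd, hdB⟩ := deriv_cut hc.st (-32) 29 ζ.im
      have hd' : HasDerivAt chit d ζ.im := by
        have e : chit = fun y : ℝ => Real.smoothTransition (-32 * y + 29) := by
          funext y
          unfold chit
          congr 1
          ring
        rw [e]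
        exact hd
      have hder : deriv (fun ζ => g ζ - 1) ζ = deriv g ζ := deriv_sub_const 1
      obtain ⟨T, hT, hTn⟩ := cutprod (M := 32 * B) (h := fun ζ => g ζ - 1)
        (hg.1.sub_const 1) hd'
        (by rwa [abs_neg, abs_of_pos (by norm_num : (0 : ℝ) < 32)] at hdB)
        (by unfold chit
            rw [abs_of_nonneg (Real.smoothTransition.nonneg _)]
            exact Real.smoothTransition.le_one _)
      refine ⟨T, hT, hTn.trans ?_⟩
      rw [hder]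
      nlinarith
    · exact ⟨by linarith, by linarith, by linarith⟩
    · have : ∀ᶠ ζ : ℂ in 𝓝 z, 1 / 8 < ζ.im :=
        continuousAt_const.eventually_lt Complex.continuous_im.continuousAt (by linarith)
      filter_upwards [this] with ζ a
      rw [gw_high g a.le]
    · intro p hp
      obtain ⟨c1, c2⟩ := hclose p hp
      have c1' := abs_le.mp c1
      have c2' := abs_le.mp c2
      have hz1' := abs_le.mp hz1
      refine ⟨⟨abs_le.mpr ⟨by linarith, by linarith⟩, by linarith, by linarith⟩, ?_⟩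
      rw [gw_high g (by linarith)]

end MP1707
end

section
/-!
# MP_1707ab_an, n = 2, part M, module PTD
-/
set_option autoImplicit false

open scoped Topology BigOperators ContDiff

namespace MP1707

namespace PtM

/-- the derivative of the field `F` away from the masses (where `chi1 = 1`) -/
theorem Fs_deriv (hpsi : SpecPsi) (D : Cell) {A ε l : ℝ} (hA : 1 ≤ A) (hε : 0 < ε) (hl : 0 < l)
    {z : ℂ} (hz : z / (l : ℂ) ∉ D.Z) :
    ∃ T : ℂ →L[ℝ] ℂ, HasFDerivAt (fun ζ : ℂ => (l * A : ℂ) * (D.κ * psi ε (D.U (ζ / l)))) T z ∧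
      ‖T‖ ≤ A * D.C * (4 / (max ε ‖D.U (z / l)‖) ^ 2) * (D.C * (1 + ‖D.U (z / l)‖) ^ 2) := by
  obtain ⟨p0, _, _, p3⟩ := hpsi ε hε
  have hDC0 : 0 ≤ D.C := by linarith [D.hC]
  have h1 : HasFDerivAt (psi ε) (fderiv ℝ (psi ε) (D.U (z / l))) (D.U (z / l)) :=
    (p0.differentiable (by norm_num) _).hasFDerivAt
  have h2 : HasFDerivAt D.U (D.U1 (z / l) • ContinuousLinearMap.id ℝ ℂ) (z / (l : ℂ)) :=
    hasFDerivAt_of_hasDerivAt (D.dU _ hz)
  have h3 := hasFDerivAt_scale l z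
  have h4 : HasFDerivAt (fun ζ : ℂ => psi ε (D.U (ζ / l)))
      ((fderiv ℝ (psi ε) (D.U (z / l))).comp ((D.U1 (z / l) • ContinuousLinearMap.id ℝ ℂ).comp
        ((1 / (l : ℂ)) • ContinuousLinearMap.id ℝ ℂ))) z := by
    have h23 : HasFDerivAt (fun ζ : ℂ => D.U (ζ / l))
        ((D.U1 (z / l) • ContinuousLinearMap.id ℝ ℂ).comp
          ((1 / (l : ℂ)) • ContinuousLinearMap.id ℝ ℂ)) z :=
      HasFDerivAt.comp (g := D.U) (f := fun ζ : ℂ => ζ / (l : ℂ)) z h2 h3
    exact HasFDerivAt.comp (g := psi ε) (f := fun ζ : ℂ => D.U (ζ / l)) z h1 h23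
  have h5 := (h4.const_mul D.κ).const_mul (l * A : ℂ)
  refine ⟨_, h5, ?_⟩
  rw [norm_smul, norm_smul, norm_mul, Complex.norm_real, Complex.norm_real,
    Real.norm_of_nonneg hl.le, Real.norm_of_nonneg (by linarith : 0 ≤ A)]
  have h6 : ‖(fderiv ℝ (psi ε) (D.U (z / l))).comp ((D.U1 (z / l) • ContinuousLinearMap.id ℝ ℂ).comp
        ((1 / (l : ℂ)) • ContinuousLinearMap.id ℝ ℂ))‖ ≤
      (4 / (max ε ‖D.U (z / l)‖) ^ 2) * ((D.C * (1 + ‖D.U (z / l)‖) ^ 2) * (1 / l)) := by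
    refine (ContinuousLinearMap.opNorm_comp_le _ _).trans ?_
    refine mul_le_mul (p3 _) ?_ (norm_nonneg _) (by positivity)
    refine (ContinuousLinearMap.opNorm_comp_le _ _).trans ?_
    exact mul_le_mul ((norm_smul_id _).trans (D.grad _ hz)) (norm_scale_le hl) (norm_nonneg _)
      (by positivity)
  calc _ ≤ l * A * (D.C * ((4 / (max ε ‖D.U (z / l)‖) ^ 2) *
        ((D.C * (1 + ‖D.U (z / l)‖) ^ 2) * (1 / l)))) := by
        gcongr
        exact D.κb
    _ = _ := by field_simp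

theorem bound_far {C ε u : ℝ} (hC : 1 ≤ C) (hε : 0 < ε) (hε1 : ε ≤ 1) (hu : 0 ≤ u) :
    (4 / (max ε u) ^ 2) * (C * (1 + u) ^ 2) ≤ 16 * C / ε ^ 2 := by
  have hm : 0 < max ε u := lt_max_of_lt_left hε
  have h1 : (1 + u) * ε ≤ 2 * max ε u := by
    have := le_max_left ε u
    have := le_max_right ε u
    rcases le_total u 1 with h | h
    · nlinarith
    · nlinarith
  have h2 : ((1 + u) * ε) ^ 2 ≤ (2 * max ε u) ^ 2 := by gcongr
  rw [div_mul_eq_mul_div, div_le_div_iff₀ (by positivity) (by positivity)]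
  nlinarith

theorem bound_near {C ε u : ℝ} (hC : 1 ≤ C) (hε : 0 < ε) (hu : 1 / C ≤ u) :
    (4 / (max ε u) ^ 2) * (C * (1 + u) ^ 2) ≤ 4 * C * (C + 1) ^ 2 := by
  have hm : 0 < max ε u := lt_max_of_lt_left hε
  have hu0 : 0 < u := lt_of_lt_of_le (by positivity) hu
  have h0 : 1 ≤ C * u := by
    rw [div_le_iff₀ (by linarith)] at hu
    linarith
  have h1 : 1 + u ≤ (C + 1) * max ε u := by
    have := le_max_right ε u
    nlinarith
  have h2 : (1 + u) ^ 2 ≤ ((C + 1) * max ε u) ^ 2 := by gcongr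
  rw [div_mul_eq_mul_div, div_le_iff₀ (by positivity)]
  nlinarith

end PtM

open PtM in
theorem specPtD (hcut : SpecCut) (hpsi : SpecPsi) : SpecPtD := by
  obtain ⟨B, hB, hcut⟩ := exists_cutF hcut
  intro D
  have hd0 := D.hd0
  have hDC := D.hC
  have hDC0 : 0 ≤ D.C := by linarith
  set C : ℝ := D.C + 4 / D.d0 + 2 + 16 * D.C ^ 2 + 4 * D.C ^ 2 * (D.C + 1) ^ 2 + 2 * B * D.C with hC
  have k1 : 0 < 4 / D.d0 := by positivity
  have k2 : 0 ≤ 16 * D.C ^ 2 := by positivity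
  have k3 : 0 ≤ 4 * D.C ^ 2 * (D.C + 1) ^ 2 := by positivity
  have k4 : 0 ≤ 2 * B * D.C := by positivity
  have hC0 : 0 < C := by linarith
  refine ⟨C, by linarith, ?_⟩
  intro L e0 H0 g hg hL hH0 he0 he01 A ε r hA hε hεC hr hrC
  have hr4 : r ≤ D.d0 / 4 := by
    refine hrC.trans ?_
    rw [div_le_iff₀ hC0]
    calc (1 : ℝ) = D.d0 / 4 * (4 / D.d0) := by field_simp
      _ ≤ D.d0 / 4 * C := by gcongr; linarith
  have hr2 : 2 * r ≤ 1 := by
    have : r * C ≤ 1 := by rwa [le_div_iff₀ hC0] at hrC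
    nlinarith
  have hεC' : ε ≤ 1 / D.C := hεC.trans (one_div_le_one_div_of_le (by linarith) (by linarith))
  have hε1 : ε ≤ 1 := hεC'.trans ((div_le_one (by linarith)).mpr hDC)
  have hc := hcut D r hr hr4
  refine ⟨1, 1, one_pos, one_pos, ?_⟩
  intro l hl _ z hz h1 h2
  have hA0 : 0 ≤ A := by linarith
  have hev2 : ∀ᶠ ζ : ℂ in 𝓝 z, 1 / 8 + 2 * l < ζ.im :=
    continuousAt_const.eventually_lt Complex.continuous_im.continuousAt h1
  have hev3 : ∀ᶠ ζ : ℂ in 𝓝 z, ζ.im < 7 / 8 - 2 * l :=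
    Complex.continuous_im.continuousAt.eventually_lt continuousAt_const h2
  have hAe : C * A ≤ C * A / ε ^ 2 := by
    rw [le_div_iff₀ (by positivity)]
    have : ε ^ 2 ≤ 1 := by nlinarith
    have : 0 ≤ C * A := by positivity
    nlinarith
  -- near the masses
  have hnear : D.ρ l z ≤ 2 * r → ‖fderiv ℝ (D.FF A ε r l) z‖ ≤ C * A := by
    intro hρ
    have hρ' : Metric.infDist (z / (l : ℂ)) D.Z ≤ 2 * r := hρ
    obtain ⟨p, hp, hpz, hnp, hdp, hloc⟩ := hc.near_loc (w := z / (l : ℂ)) (by linarith)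
    have hloc' := eventually_scale hloc
    rcases lt_or_ge (Metric.infDist (z / (l : ℂ)) D.Z) r with hlt | hge
    · have hev : ∀ᶠ ζ in 𝓝 z, D.FF A ε r l ζ = (chi1 l (l * p.im) : ℂ) * (l * A) * D.fh p := by
        have h3 : ∀ᶠ w in 𝓝 (z / (l : ℂ)), Metric.infDist w D.Z < r :=
          (Metric.continuous_infDist_pt D.Z).continuousAt.eventually_lt continuousAt_const hlt
        filter_upwards [hloc', eventually_scale h3] with ζ a1 a2
        unfold Cell.FF Cell.Fj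
        rw [a1.2.1, hc.th_zero _ a2.le]
        simp
      rw [Filter.EventuallyEq.fderiv_eq hev, fderiv_const_apply]
      simp only [norm_zero]
      positivity
    · have hw0 : 0 < ‖z / (l : ℂ) - p‖ := by linarith
      have hzZ : z / (l : ℂ) ∉ D.Z := by
        intro hmem
        rw [Metric.infDist_zero_of_mem hmem] at hge
        linarith
      have hlp : |l * p.im - z.im| ≤ l := by
        have e1 := norm_sub_scale hl z p
        have e2 : |(z - l * p).im| ≤ ‖z - l * p‖ := Complex.abs_im_le_norm _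
        have e3 : (z - l * p).im = z.im - l * p.im := by simp
        rw [e3, abs_sub_comm] at e2
        rw [e1, ← hdp] at e2
        refine e2.trans ?_
        have : l * Metric.infDist (z / (l : ℂ)) D.Z ≤ l * 1 := by
          gcongr
          linarith
        linarith
      have hlp' := abs_le.mp hlp
      have hchi : chi1 l (l * p.im) = 1 := chi1_one hl (by linarith) (by linarith)
      obtain ⟨T, hT, hTn⟩ := Fs_deriv hpsi D (A := A) (ε := ε) hA hε hl hzZ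
      obtain ⟨a', ha', han⟩ := scale_real hl z
        ((hc.smth.differentiable (by simp)) (z / (l : ℂ)))
      have hev : ∀ᶠ ζ in 𝓝 z, D.FF A ε r l ζ = (D.th r (ζ / l) : ℂ) *
          ((l * A : ℂ) * (D.κ * psi ε (D.U (ζ / l)))) +
            (1 - (D.th r (ζ / l) : ℂ)) * ((l * A : ℂ) * D.fh p) := by
        filter_upwards [hloc', hev2, hev3] with ζ a1 a2 a3
        unfold Cell.FF Cell.Fj Cell.Fs
        rw [a1.2.1, hchi, chi1_one hl (by linarith) (by linarith)]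
        push_cast
        ring
      have hder := (mix (k := (l * A : ℂ) * D.fh p) ha' hT).congr_of_eventuallyEq hev
      rw [hder.fderiv]
      refine mix_norm.trans ?_
      obtain ⟨n1, n2, _⟩ := D.near0 p hp (z / (l : ℂ)) hw0 (by linarith)
      have hU : ε ≤ ‖D.U (z / l)‖ := hεC'.trans n1
      have hpv : psi ε (D.U (z / l)) = (D.U (z / l))⁻¹ := by
        unfold psi
        rw [if_pos hU]
      have t1 : ‖((D.th r (z / l) : ℝ) : ℂ)‖ ≤ 1 := by
        rw [Complex.norm_real, Real.norm_of_nonneg (hc.th0 _)]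
        exact hc.th1 _
      have t2 : ‖T‖ ≤ A * D.C * (4 * D.C * (D.C + 1) ^ 2) := by
        refine hTn.trans ?_
        rw [mul_assoc]
        exact mul_le_mul_of_nonneg_left (bound_near hDC hε n1) (by positivity)
      have t3 : ‖(l * A : ℂ) * (D.κ * psi ε (D.U (z / l))) - (l * A : ℂ) * D.fh p‖ ≤
          l * A * (D.C * (2 * r)) := by
        rw [← mul_sub, norm_mul, norm_mul, Complex.norm_real, Complex.norm_real,
          Real.norm_of_nonneg hl.le, Real.norm_of_nonneg hA0, hpv, ← div_eq_mul_inv]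
        gcongr
        refine n2.trans ?_
        gcongr
        linarith
      have t4 : ‖a'‖ ≤ B / r / l := han.trans (by gcongr; exact hc.dth _)
      calc ‖((D.th r (z / l) : ℝ) : ℂ)‖ * ‖T‖ +
            ‖(l * A : ℂ) * (D.κ * psi ε (D.U (z / l))) - (l * A : ℂ) * D.fh p‖ * ‖a'‖ ≤
          1 * (A * D.C * (4 * D.C * (D.C + 1) ^ 2)) + l * A * (D.C * (2 * r)) * (B / r / l) := by
            gcongr
        _ = (4 * D.C ^ 2 * (D.C + 1) ^ 2 + 2 * B * D.C) * A := by field_simp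
        _ ≤ C * A := by gcongr; linarith
  refine ⟨?_, hnear⟩
  rcases le_or_gt (D.ρ l z) (2 * r) with hle | hgt
  · exact (hnear hle).trans hAe
  · have hρ' : 2 * r < Metric.infDist (z / (l : ℂ)) D.Z := hgt
    have hzZ : z / (l : ℂ) ∉ D.Z := by
      intro hmem
      rw [Metric.infDist_zero_of_mem hmem] at hρ'
      linarith
    obtain ⟨T, hT, hTn⟩ := Fs_deriv hpsi D (A := A) (ε := ε) hA hε hl hzZ
    have hev1 : ∀ᶠ ζ in 𝓝 z, 2 * r < Metric.infDist (ζ / (l : ℂ)) D.Z :=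
      eventually_scale (P := fun w => 2 * r < Metric.infDist w D.Z)
        (continuousAt_const.eventually_lt (Metric.continuous_infDist_pt D.Z).continuousAt hρ')
    have hev : ∀ᶠ ζ in 𝓝 z, D.FF A ε r l ζ = (l * A : ℂ) * (D.κ * psi ε (D.U (ζ / l))) := by
      filter_upwards [hev1, hev2, hev3] with ζ a1 a2 a3
      unfold Cell.FF Cell.Fs
      rw [hc.th_one _ a1.le, chi1_one hl (by linarith) (by linarith)]
      push_cast
      ring
    rw [(hT.congr_of_eventuallyEq hev).fderiv]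
    refine hTn.trans ?_
    have := bound_far (u := ‖D.U (z / l)‖) hDC hε hε1 (norm_nonneg _)
    calc A * D.C * (4 / (max ε ‖D.U (z / l)‖) ^ 2) * (D.C * (1 + ‖D.U (z / l)‖) ^ 2) =
          A * D.C * ((4 / (max ε ‖D.U (z / l)‖) ^ 2) * (D.C * (1 + ‖D.U (z / l)‖) ^ 2)) := by ring
      _ ≤ A * D.C * (16 * D.C / ε ^ 2) := by gcongr
      _ = (16 * D.C ^ 2) * A / ε ^ 2 := by ring
      _ ≤ C * A / ε ^ 2 := by gcongr; linarith

end MP1707
end

section
/-!
# MP_1707ab_an, n = 2, part M, module PTE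
-/
set_option autoImplicit false

open scoped Topology BigOperators ContDiff

namespace MP1707

namespace PtM

/-- `ω` where everything is holomorphic -/
theorem om_of_hasDerivAt {V c F : ℂ → ℂ} {z c' v' : ℂ} (hc : HasDerivAt c c' z)
    (hv : HasDerivAt (dz V) v' z) : om V c F z = (c' - F z * v') • ContinuousLinearMap.id ℝ ℂ := by
  unfold om
  rw [(hasFDerivAt_of_hasDerivAt hc).fderiv, (hasFDerivAt_of_hasDerivAt hv).fderiv]
  refine ContinuousLinearMap.ext fun v => ?_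
  simp
  ring

theorem not_mem_of_pos {D : Cell} {w : ℂ} (h : 0 < Metric.infDist w D.Z) : w ∉ D.Z := by
  intro hw
  rw [Metric.infDist_zero_of_mem hw] at h
  exact lt_irrefl _ h

/-- the local form of `c` in the middle, where `th = 1` -/
theorem CC_hasDerivAt {D : Cell} {g : ℂ → ℂ} (hg : Differentiable ℂ g) {A r l : ℝ} (hl : 0 < l)
    {z : ℂ} (hz : z / (l : ℂ) ∉ D.Z)
    (hev : ∀ᶠ ζ in 𝓝 z, D.CC g A r l ζ = g ζ + l * deriv g ζ * (D.φ * D.G (ζ / l))) :
    HasDerivAt (D.CC g A r l) (deriv g z * (1 + D.φ * D.G1 (z / l)) +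
      l * deriv (deriv g) z * (D.φ * D.G (z / l))) z := by
  have hl' : (l : ℂ) ≠ 0 := by exact_mod_cast hl.ne'
  have h1 : HasDerivAt (fun ζ : ℂ => ζ / (l : ℂ)) (1 / (l : ℂ)) z := (hasDerivAt_id z).div_const _
  have h2 : HasDerivAt (fun ζ : ℂ => D.G (ζ / l)) (D.G1 (z / l) * (1 / (l : ℂ))) z :=
    (D.dG _ hz).comp z h1
  have h3 : HasDerivAt (deriv g) (deriv (deriv g) z) z := (hg.deriv z).hasDerivAt
  have h4 : HasDerivAt (fun ζ : ℂ => g ζ + l * deriv g ζ * (D.φ * D.G (ζ / l)))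
      (deriv g z + ((l * deriv (deriv g) z) * (D.φ * D.G (z / l)) +
        l * deriv g z * (D.φ * (D.G1 (z / l) * (1 / (l : ℂ)))))) z :=
    (hg z).hasDerivAt.add ((h3.const_mul (l : ℂ)).mul (h2.const_mul D.φ))
  refine (h4.congr_of_eventuallyEq hev).congr_deriv ?_
  field_simp
  ring

/-- `ω` in the middle, where `th = th2 = 1`: the coefficient -/
theorem om_coef {g g1 g2 g3 φG φG1 κψ v v1 v2 : ℂ} {A l : ℝ} (hA : 1 ≤ A) (hl : 0 < l) :
    (g1 * (1 + φG1) + l * g2 * φG) - (l * A) * κψ *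
      ((l / A : ℂ) * (g3 * v + 2 * g2 * v1 / l + g1 * v2 / l ^ 2)) + 0 * g =
    g1 * (1 + φG1 - κψ * v2) + (l * (g2 * φG) - κψ * (l * (l * (g3 * v)) + 2 * l * (g2 * v1))) := by
  have hl' : (l : ℂ) ≠ 0 := by exact_mod_cast hl.ne'
  have hA' : (A : ℂ) ≠ 0 := by
    have : A ≠ 0 := by linarith
    exact_mod_cast this
  field_simp
  ring

end PtM

open PtM in
theorem specPtE (hcut : SpecCut) (hvder : SpecVder) (hpsi : SpecPsi) : SpecPtE := by
  obtain ⟨B, hB, hcut⟩ := exists_cutF hcut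
  intro D
  have hd0 := D.hd0
  have hDC := D.hC
  set C : ℝ := D.C + 4 / D.d0 + 2 * D.C ^ 2 with hC
  have hC1 : D.C ≤ C := by
    have : 0 < 4 / D.d0 := by positivity
    have : 0 ≤ 2 * D.C ^ 2 := by positivity
    linarith
  have hC2 : 4 / D.d0 ≤ C := by
    have : 0 ≤ 2 * D.C ^ 2 := by positivity
    linarith
  have hC3 : D.C + 2 * D.C ^ 2 ≤ C := by
    have : 0 < 4 / D.d0 := by positivity
    linarith
  have hC0 : 0 < C := by linarith
  refine ⟨C, by linarith, ?_⟩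
  intro L e0 H0 g hg hL hH0 he0 he01 A ε r hA hε hεC hr hrC
  have hr4 : r ≤ D.d0 / 4 := by
    refine hrC.trans ?_
    rw [div_le_iff₀ hC0]
    calc (1 : ℝ) = D.d0 / 4 * (4 / D.d0) := by field_simp
      _ ≤ _ := by gcongr
  have hεC' : ε ≤ 1 / D.C := hεC.trans (one_div_le_one_div_of_le (by linarith) hC1)
  have hc := hcut D r hr hr4
  obtain ⟨Cr, hCr, hfar⟩ := D.far r hr
  set E : ℝ := H0 * D.C * Cr + D.C * (2 / ε) * (H0 * (Cr + D.C * (L + 3)) + 2 * H0 * Cr) with hE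
  have hE0 : 0 ≤ E := by
    have : 0 ≤ L + 3 := by linarith
    have hDC0 : 0 ≤ D.C := by linarith
    have hH : 0 ≤ H0 := by linarith
    positivity
  refine ⟨E + 1, 1, by linarith, one_pos, ?_⟩
  intro l hl hl1 z hz h1 h2 hρ
  have hρ' : 2 * r < Metric.infDist (z / (l : ℂ)) D.Z := hρ
  have hl' : (l : ℂ) ≠ 0 := by exact_mod_cast hl.ne'
  have hzZ : z / (l : ℂ) ∉ D.Z := not_mem_of_pos (by linarith)
  -- local form of `c`
  have hev1 : ∀ᶠ ζ in 𝓝 z, 2 * r < Metric.infDist (ζ / (l : ℂ)) D.Z :=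
    eventually_scale (P := fun w => 2 * r < Metric.infDist w D.Z)
      (continuousAt_const.eventually_lt (Metric.continuous_infDist_pt D.Z).continuousAt hρ')
  have hev2 : ∀ᶠ ζ : ℂ in 𝓝 z, 1 / 8 + 2 * l < ζ.im :=
    continuousAt_const.eventually_lt Complex.continuous_im.continuousAt h1
  have hev3 : ∀ᶠ ζ : ℂ in 𝓝 z, ζ.im < 7 / 8 - 2 * l :=
    Complex.continuous_im.continuousAt.eventually_lt continuousAt_const h2
  have hevC : ∀ᶠ ζ in 𝓝 z, D.CC g A r l ζ = g ζ + l * deriv g ζ * (D.φ * D.G (ζ / l)) := by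
    filter_upwards [hev1, hev2, hev3] with ζ a1 a2 a3
    unfold Cell.CC Cell.Cs
    rw [hc.th_one _ a1.le, gw_mid g (by linarith) (by linarith), chi1_one hl (by linarith) (by linarith)]
    push_cast
    ring
  have hFz : D.FF A ε r l z = (l * A) * (D.κ * psi ε (D.U (z / l))) := by
    unfold Cell.FF Cell.Fs
    rw [hc.th_one _ hρ'.le, chi1_one hl (by linarith) (by linarith)]
    push_cast
    ring
  have hcd := CC_hasDerivAt (A := A) (r := r) hg.1 hl hzZ hevC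
  obtain ⟨_, _, _, hvd⟩ := hvder D g A r l hg.1 hA hr hr4 hl z (by
    show r / 2 < Metric.infDist (z / (l : ℂ)) D.Z
    linarith) (by linarith) (by linarith)
  rw [om_of_hasDerivAt hcd hvd, hFz]
  refine (norm_smul_id _).trans ?_
  have hco := om_coef (g := 0) (g1 := deriv g z) (g2 := deriv (deriv g) z)
    (g3 := deriv (deriv (deriv g)) z) (φG := D.φ * D.G (z / l)) (φG1 := D.φ * D.G1 (z / l))
    (κψ := D.κ * psi ε (D.U (z / l))) (v := D.v (z / l)) (v1 := D.v1 (z / l)) (v2 := D.v2 (z / l))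
    hA hl
  rw [zero_mul, add_zero] at hco
  rw [hco]
  -- bounds
  obtain ⟨b1, b2, b3, b4, b5⟩ := hfar (z / l) (by linarith)
  have hzn := norm_le_of_mem_K hz
  have hwn : ‖z / (l : ℂ)‖ = ‖z‖ / l := by
    rw [norm_div, Complex.norm_real, Real.norm_of_nonneg hl.le]
  have hgb := hg.2.1 z (by linarith [hz.1]) (abs_le.mpr ⟨by linarith [hz.2.1], by linarith [hz.2.2]⟩)
  obtain ⟨_, g1b, g2b, g3b⟩ := hgb
  obtain ⟨_, p1, p2, _⟩ := hpsi ε hε
  have hps := p1 (D.U (z / l))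
  have hDC0 : 0 ≤ D.C := by linarith
  have hH00 : 0 ≤ H0 := by linarith
  have hκψ : ‖D.κ * psi ε (D.U (z / l))‖ ≤ D.C * (2 / ε) := by
    rw [norm_mul]
    gcongr
    exact D.κb
  have hlv : l * ‖D.v (z / l)‖ ≤ Cr + D.C * (L + 3) := by
    calc l * ‖D.v (z / l)‖ ≤ l * (Cr + D.C * (‖z‖ / l)) := by rw [← hwn]; gcongr
      _ = l * Cr + D.C * ‖z‖ := by field_simp
      _ ≤ 1 * Cr + D.C * (L + 3) := by gcongr
      _ = _ := by ring
  have hrest : ‖(l : ℂ) * (deriv (deriv g) z * (D.φ * D.G (z / l))) -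
      D.κ * psi ε (D.U (z / l)) * (l * (l * (deriv (deriv (deriv g)) z * D.v (z / l))) +
        2 * l * (deriv (deriv g) z * D.v1 (z / l)))‖ ≤ E * l := by
    have t1 : ‖(l : ℂ) * (deriv (deriv g) z * (D.φ * D.G (z / l)))‖ ≤ (H0 * D.C * Cr) * l := by
      rw [norm_mul, norm_mul, norm_mul, Complex.norm_real, Real.norm_of_nonneg hl.le]
      calc l * (‖deriv (deriv g) z‖ * (‖D.φ‖ * ‖D.G (z / l)‖)) ≤ l * (H0 * (D.C * Cr)) := by
            gcongr
            exact D.φb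
        _ = _ := by ring
    have t2 : ‖(l : ℂ) * (l * (deriv (deriv (deriv g)) z * D.v (z / l))) +
        2 * l * (deriv (deriv g) z * D.v1 (z / l))‖ ≤
        (H0 * (Cr + D.C * (L + 3)) + 2 * H0 * Cr) * l := by
      refine (norm_add_le _ _).trans ?_
      have t3 : ‖(l : ℂ) * (l * (deriv (deriv (deriv g)) z * D.v (z / l)))‖ ≤
          l * (H0 * (Cr + D.C * (L + 3))) := by
        rw [norm_mul, norm_mul, norm_mul, Complex.norm_real, Real.norm_of_nonneg hl.le]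
        calc l * (l * (‖deriv (deriv (deriv g)) z‖ * ‖D.v (z / l)‖)) =
              l * (‖deriv (deriv (deriv g)) z‖ * (l * ‖D.v (z / l)‖)) := by ring
          _ ≤ l * (H0 * (Cr + D.C * (L + 3))) := by gcongr
      have t4 : ‖(2 : ℂ) * l * (deriv (deriv g) z * D.v1 (z / l))‖ ≤ 2 * l * (H0 * Cr) := by
        rw [norm_mul, norm_mul, norm_mul, Complex.norm_real, Real.norm_of_nonneg hl.le,
          Complex.norm_ofNat]
        gcongr
      linarith
    calc _ ≤ (H0 * D.C * Cr) * l + (D.C * (2 / ε)) *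
          ((H0 * (Cr + D.C * (L + 3)) + 2 * H0 * Cr) * l) := by
          refine (norm_sub_le _ _).trans (add_le_add t1 ?_)
          rw [norm_mul]
          exact mul_le_mul hκψ t2 (norm_nonneg _) (by positivity)
      _ = E * l := by rw [hE]; ring
  have hmain : ‖deriv g z * (1 + D.φ * D.G1 (z / l) - D.κ * psi ε (D.U (z / l)) * D.v2 (z / l))‖ ≤
      if ‖D.U (z / l)‖ < ε then C * H0 * ε else 0 := by
    split_ifs with hU
    · have hU' : ‖D.U (z / l)‖ ≤ 1 / D.C := hU.le.trans hεC'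
      have s1 := D.small1 _ hzZ hU'
      have s2 := D.small2 _ hzZ hU'
      have s3 := p2 (D.U (z / l))
      have s4 : ‖D.κ * psi ε (D.U (z / l)) * D.v2 (z / l)‖ ≤ 2 * D.C ^ 2 * ‖D.U (z / l)‖ := by
        rw [norm_mul, norm_mul]
        calc ‖D.κ‖ * ‖psi ε (D.U (z / l))‖ * ‖D.v2 (z / l)‖ ≤
              D.C * ‖psi ε (D.U (z / l))‖ * (D.C * ‖D.U (z / l)‖ ^ 2) := by
              gcongr
              exact D.κb
          _ = D.C ^ 2 * ‖D.U (z / l)‖ * (‖psi ε (D.U (z / l))‖ * ‖D.U (z / l)‖) := by ring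
          _ ≤ D.C ^ 2 * ‖D.U (z / l)‖ * 2 := by gcongr
          _ = _ := by ring
      rw [norm_mul]
      calc ‖deriv g z‖ * ‖1 + D.φ * D.G1 (z / l) - D.κ * psi ε (D.U (z / l)) * D.v2 (z / l)‖ ≤
            H0 * (D.C * ‖D.U (z / l)‖ + 2 * D.C ^ 2 * ‖D.U (z / l)‖) := by
            gcongr
            exact (norm_sub_le _ _).trans (add_le_add s1 s4)
        _ = (D.C + 2 * D.C ^ 2) * H0 * ‖D.U (z / l)‖ := by ring
        _ ≤ C * H0 * ε := by gcongr
    · push Not at hU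
      have hU0 : D.U (z / l) ≠ 0 := by
        intro h0
        rw [h0, norm_zero] at hU
        linarith
      have hpv : psi ε (D.U (z / l)) = (D.U (z / l))⁻¹ := by
        unfold psi
        rw [if_pos hU]
      have hid := D.ident _ hzZ
      have : 1 + D.φ * D.G1 (z / l) - D.κ * psi ε (D.U (z / l)) * D.v2 (z / l) = 0 := by
        rw [hpv]
        field_simp
        linear_combination hid
      rw [this, mul_zero, norm_zero]
  calc _ ≤ _ + _ := norm_add_le _ _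
    _ ≤ (if ‖D.U (z / l)‖ < ε then C * H0 * ε else 0) + E * l := add_le_add hmain hrest
    _ ≤ (E + 1) * l + (if ‖D.U (z / l)‖ < ε then C * H0 * ε else 0) := by linarith

end MP1707
end

section
/-!
# ZETA: the Weierstrass zeta function
-/
set_option autoImplicit false

open scoped Topology BigOperators Classical
open Filter Set

namespace MP1707

namespace ZetaM

variable (L : PeriodPair)

/-- the summand with the `l₀` term omitted -/
noncomputable def zex (l₀ z : ℂ) : ℂ :=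
  ∑' l : L.lattice, if l = l₀ then 0 else (1 / (z - l) + 1 / l + z / l ^ 2)

/-- the Weierstrass zeta function -/
noncomputable def zeta (z : ℂ) : ℂ := ∑' l : L.lattice, (1 / (z - l) + 1 / l + z / l ^ 2)

lemma bound (r : ℝ) (hr : 0 < r) (s : ℂ) (hs : ‖s‖ < r) (l : ℂ) (h : 2 * r ≤ ‖l‖) :
    ‖1 / (s - l) + 1 / l + s / l ^ 2‖ ≤ 2 * r ^ 2 * ‖l‖ ^ (-3 : ℝ) := by
  have hsl : s ≠ l := by rintro rfl; linarith
  have hl : 0 < ‖l‖ := by linarith
  have hl0 : l ≠ 0 := norm_pos_iff.1 hl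
  have hsl' : s - l ≠ 0 := sub_ne_zero.2 hsl
  have h1 : ‖l‖ / 2 ≤ ‖s - l‖ := by
    rw [norm_sub_rev]
    exact .trans (by linarith) (norm_sub_norm_le l s)
  have e : 1 / (s - l) + 1 / l + s / l ^ 2 = s ^ 2 / ((s - l) * l ^ 2) := by
    field_simp
    ring
  rw [e, norm_div, norm_mul, norm_pow, norm_pow]
  calc ‖s‖ ^ 2 / (‖s - l‖ * ‖l‖ ^ 2) ≤ r ^ 2 / (‖l‖ / 2 * ‖l‖ ^ 2) := by gcongr
    _ = 2 * r ^ 2 / ‖l‖ ^ 3 := by field_simp
    _ = 2 * r ^ 2 * ‖l‖ ^ (-3 : ℝ) := by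
      rw [Real.rpow_neg hl.le, div_eq_mul_inv]
      norm_cast

lemma hasSum_zex (l₀ : ℂ) : HasSumLocallyUniformly
    (fun (l : L.lattice) (z : ℂ) ↦ if l.1 = l₀ then 0 else (1 / (z - l) + 1 / l + z / l ^ 2))
    (zex L l₀) := by
  refine L.hasSumLocallyUniformly_aux (u := (2 * · ^ 2 * ‖·‖ ^ (-3 : ℝ))) _
    (fun _ _ ↦ (ZLattice.summable_norm_rpow _ _ (by simp; norm_num)).mul_left _) fun r hr ↦
    Filter.eventually_atTop.mpr ⟨2 * r, ?_⟩
  rintro _ h s hs l rfl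
  split_ifs
  · simpa using! show 0 ≤ 2 * r ^ 2 * (‖↑l‖ ^ 3)⁻¹ by positivity
  · exact bound r hr s hs l h

lemma aux_ne {x l₀ : ℂ} (i : L.lattice) (hx : x ∈ ((L.lattice : Set ℂ) \ {l₀})ᶜ) (hl : i.1 ≠ l₀) :
    x - i ≠ 0 := by
  intro e
  obtain rfl := sub_eq_zero.mp e
  exact hx ⟨i.2, hl⟩

lemma differentiableOn_zex (l₀ : ℂ) :
    DifferentiableOn ℂ (zex L l₀) ((L.lattice : Set ℂ) \ {l₀})ᶜ := by
  refine (hasSum_zex L l₀).hasSumLocallyUniformlyOn.differentiableOn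
    (.of_forall fun s ↦ .fun_sum fun i hi ↦ ?_) L.isOpen_compl_lattice_sdiff
  split_ifs with h
  · simp
  · exact ((DifferentiableOn.div (by fun_prop) (by fun_prop) fun x hx => aux_ne L i hx h).add
      (by fun_prop)).add (by fun_prop)

lemma hd (x l : ℂ) (hx : l - x ≠ 0) :
    HasDerivAt (fun z : ℂ => 1 / (z - x) + 1 / x + z / x ^ 2)
      (-1 / (l - x) ^ 2 + 0 + 1 / x ^ 2) l := by
  have h3 : HasDerivAt (fun z : ℂ => z - x) 1 l := (hasDerivAt_id l).sub_const _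
  have h4 := (hasDerivAt_const l (1 : ℂ)).div h3 hx
  have h5 : HasDerivAt (fun z : ℂ => z / x ^ 2) (1 / x ^ 2) l := (hasDerivAt_id l).div_const _
  have h6 : HasDerivAt (fun z : ℂ => 1 / (z - x)) (-1 / (l - x) ^ 2) l :=
    h4.congr_deriv (by ring)
  exact (h6.add (hasDerivAt_const l (1 / x))).add h5

lemma deriv_zex (l₀ : ℂ) :
    Set.EqOn (deriv (zex L l₀)) (fun z => -(L.weierstrassPExcept l₀ z))
      ((L.lattice : Set ℂ) \ {l₀})ᶜ := by
  refine ((hasSum_zex L l₀).tendstoLocallyUniformlyOn.deriv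
    (.of_forall fun s ↦ ?_) L.isOpen_compl_lattice_sdiff).unique ?_
  · refine .fun_sum fun i hi ↦ ?_
    split_ifs with h
    · simp
    exact ((DifferentiableOn.div (by fun_prop) (by fun_prop) fun x hx => aux_ne L i hx h).add
      (by fun_prop)).add (by fun_prop)
  · have h1 := ((L.hasSumLocallyUniformly_weierstrassPExcept l₀).tendstoLocallyUniformlyOn
      (s := ((L.lattice : Set ℂ) \ {l₀})ᶜ)).neg
    refine h1.congr ?_
    intro s l hl
    simp only [Function.comp_apply, Pi.neg_apply]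
    rw [deriv_fun_sum fun x _ => ?_, ← Finset.sum_neg_distrib]
    · refine Finset.sum_congr rfl fun x _ => ?_
      split_ifs with hl₁
      · simp
      rw [(hd x l (aux_ne L x hl hl₁)).deriv]
      ring
    · split_ifs with hl₁
      · exact differentiableAt_const _
      exact (hd x l (aux_ne L x hl hl₁)).differentiableAt

lemma zex_add (l₀ : L.lattice) (z : ℂ) :
    zex L l₀ z + (1 / (z - l₀.1) + 1 / l₀.1 + z / l₀.1 ^ 2) = zeta L z := by
  trans zex L l₀ z + ∑' i : L.lattice,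
    if i = l₀.1 then (1 / (z - l₀.1) + 1 / l₀.1 + z / l₀.1 ^ 2) else 0
  · simp
  rw [zex, zeta, ← Summable.tsum_add]
  · congr with w; split_ifs <;> simp only [zero_add, add_zero, *]
  · exact ⟨_, (hasSum_zex L l₀).hasSum⟩
  · exact summable_of_hasFiniteSupport ((Set.finite_singleton l₀).subset (by simp))

lemma zex_of_notMem (l₀ : ℂ) (hl : l₀ ∉ L.lattice) : zex L l₀ = zeta L := by
  funext z
  unfold zex zeta
  congr 1
  funext l
  have : l.1 ≠ l₀ := by rintro rfl; simp at hl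
  simp [this]

end ZetaM

open ZetaM in
theorem specZeta : SpecZeta := by
  intro L
  refine ⟨zeta L, fun z hz => ?_, fun p hp => ?_⟩
  · have h0 := L.ω₁_div_two_notMem_lattice
    rw [← zex_of_notMem L _ h0]
    have hz' : z ∈ ((L.lattice : Set ℂ) \ {L.ω₁ / 2})ᶜ := fun h => hz h.1
    have h1 := ((differentiableOn_zex L (L.ω₁ / 2)).differentiableAt
      (L.isOpen_compl_lattice_sdiff.mem_nhds hz')).hasDerivAt
    rw [deriv_zex L _ hz'] at h1
    simpa [L.weierstrassPExcept_of_notMem _ h0] using h1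
  · refine ⟨fun z => zex L p z + (1 / p + z / p ^ 2), ?_, ?_⟩
    · refine AnalyticAt.add ?_ ?_
      · exact ((differentiableOn_zex L p).analyticOnNhd L.isOpen_compl_lattice_sdiff) p (by simp)
      · refine analyticAt_const.add ?_
        have : (fun z : ℂ => z / p ^ 2) = fun z => z * (p ^ 2)⁻¹ := by
          funext z; rw [div_eq_mul_inv]
        rw [this]
        exact analyticAt_id.mul analyticAt_const
    · refine Filter.Eventually.of_forall fun z => ?_
      rw [← zex_add L ⟨p, hp⟩ z]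
      ring

end MP1707
end
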