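import Pool.Agent.Lib.MP_1707ab_an.N2.SpecM
import Pool.Agent.Lib.MP_1707ab_an.N2.M.Alg

section
/-!
# MP_1707ab_an, n = 2, PART M: helper lemmas for ZSET, FARE, AREAE (helper59)
-/
set_option autoImplicit false

open scoped Topology BigOperators Classical ContDiff
open MeasureTheory Filter

namespace MP1707

namespace ZBaseM

/-- every point is at bounded distance from the lattice -/
theorem exists_near (Λ : PeriodPair) : ∃ R0 : ℝ, 0 < R0 ∧ ∀ z : ℂ, ∃ l ∈ Λ.lattice, ‖z - l‖ ≤ R0 := by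
  refine ⟨1 + ∑ i, ‖Λ.basis i‖, by positivity, fun z => ⟨ZSpan.floor Λ.basis z, ?_, ?_⟩⟩
  · rw [Λ.lattice_eq_span_range_basis]
    exact (ZSpan.floor Λ.basis z).2
  · have h := ZSpan.norm_fract_le (K := ℝ) Λ.basis z
    rw [ZSpan.fract_apply] at h
    linarith

/-- finite sets have positive separation -/
theorem finite_pos (T : Set ℝ) (hT : T.Finite) (h : ∀ t ∈ T, 0 < t) :
    ∃ d : ℝ, 0 < d ∧ ∀ t ∈ T, d ≤ t := by
  induction T, hT using Set.Finite.induction_on with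
  | empty => exact ⟨1, one_pos, by simp⟩
  | @insert a s _ _ ih =>
    obtain ⟨d, hd, h1⟩ := ih (fun t ht => h t (Set.mem_insert_of_mem _ ht))
    refine ⟨min a d, lt_min (h a (Set.mem_insert _ _)) hd, fun t ht => ?_⟩
    rcases Set.mem_insert_iff.1 ht with rfl | ht
    · exact min_le_left _ _
    · exact (min_le_right _ _).trans (h1 t ht)

/-- a set without accumulation points, invariant under the lattice, is separated -/
theorem separated (Λ : PeriodPair) (S : Set ℂ) (h1 : ∀ p : ℂ, ∀ᶠ z in 𝓝[≠] p, z ∉ S)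
    (h2 : ∀ z ∈ S, ∀ l ∈ Λ.lattice, z - l ∈ S) :
    ∃ d : ℝ, 0 < d ∧ ∀ p ∈ S, ∀ q ∈ S, p ≠ q → d ≤ ‖p - q‖ := by
  obtain ⟨R0, hR0, hn⟩ := exists_near Λ
  set F : Set ℂ := S ∩ Metric.closedBall 0 (R0 + 1) with hF
  have hfin : F.Finite := by
    by_contra hinf
    obtain ⟨x, _, hx⟩ := Set.Infinite.exists_accPt_of_subset_isCompact (K := Metric.closedBall 0 (R0 + 1))
      hinf (isCompact_closedBall _ _) Set.inter_subset_right
    rw [accPt_iff_frequently_nhdsNE] at hx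
    exact hx ((h1 x).mono fun z hz hz' => hz hz'.1)
  obtain ⟨d, hd, hd'⟩ := finite_pos ((fun pq : ℂ × ℂ => ‖pq.1 - pq.2‖) '' F.offDiag)
    (hfin.offDiag.image _) (by
      rintro _ ⟨⟨p, q⟩, hpq, rfl⟩
      simp only [Set.mem_offDiag] at hpq
      exact norm_pos_iff.2 (sub_ne_zero.2 hpq.2.2))
  refine ⟨min 1 d, lt_min one_pos hd, fun p hp q hq hpq => ?_⟩
  by_contra hlt
  push Not at hlt
  obtain ⟨l, hl, hl'⟩ := hn p
  have hp' : p - l ∈ F := ⟨h2 p hp l hl, by
    rw [mem_closedBall_zero_iff]; linarith⟩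
  have hq' : q - l ∈ F := ⟨h2 q hq l hl, by
    rw [mem_closedBall_zero_iff]
    have h3 : q - l = (p - l) - (p - q) := by ring
    rw [h3]
    have := norm_sub_le (p - l) (p - q)
    have := hlt.trans_le (min_le_left 1 d)
    linarith⟩
  have h4 := hd' (‖(p - l) - (q - l)‖) ⟨(p - l, q - l), by
    simp only [Set.mem_offDiag]
    exact ⟨hp', hq', fun h => hpq (by simpa using h)⟩, rfl⟩
  rw [sub_sub_sub_cancel_right] at h4
  exact absurd (hlt.trans_le (min_le_right 1 d)) (not_lt.2 h4)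

theorem closed_of (S : Set ℂ) (h1 : ∀ p : ℂ, ∀ᶠ z in 𝓝[≠] p, z ∉ S) : IsClosed S := by
  rw [← isOpen_compl_iff, isOpen_iff_mem_nhds]
  intro p hp
  have h := h1 p
  rw [eventually_nhdsWithin_iff] at h
  filter_upwards [h] with z hz
  by_cases hzp : z = p
  · rw [hzp]; exact hp
  · exact hz hzp

section Ell

variable (D : EllData)

theorem P_add (z l : ℂ) (hl : l ∈ D.Λ.lattice) : D.P (z + l) = D.P z :=
  D.Λ.weierstrassP_add_coe z ⟨l, hl⟩

theorem Q_add (z l : ℂ) (hl : l ∈ D.Λ.lattice) : D.Q (z + l) = D.Q z :=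
  D.Λ.derivWeierstrassP_add_coe z ⟨l, hl⟩

theorem sq_eq (z : ℂ) (hz : z ∉ D.Λ.lattice) : D.Q z ^ 2 = 4 * D.P z ^ 3 + D.s ^ 2 := by
  have := D.Λ.derivWeierstrassP_sq z hz
  rw [D.g2] at this
  rw [D.hs2]
  unfold EllData.Q EllData.P
  rw [this]; ring

theorem lattice_ev (p : ℂ) : ∀ᶠ z in 𝓝[≠] p, z ∉ D.Λ.lattice := by
  rw [eventually_nhdsWithin_iff]
  filter_upwards [D.Λ.compl_lattice_sdiff_singleton_mem_nhds p] with z hz hzp hz'
  exact hz ⟨hz', hzp⟩

theorem P_tendsto (p : ℂ) (hp : p ∈ D.Λ.lattice) :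
    Tendsto D.P (𝓝[≠] p) (Bornology.cobounded ℂ) :=
  tendsto_cobounded_of_meromorphicOrderAt_neg (by
    unfold EllData.P
    rw [D.Λ.order_weierstrassP p hp]
    decide)

/-- `|℘'|` is large near the lattice -/
theorem Q_large (p : ℂ) (hp : p ∈ D.Λ.lattice) (M : ℝ) : ∀ᶠ z in 𝓝[≠] p, M ≤ ‖D.Q z‖ := by
  set N : ℝ := 1 + ‖D.s‖ ^ 2 + M ^ 2 with hN
  have h1 : ∀ᶠ z in 𝓝[≠] p, N ≤ ‖D.P z‖ := by
    have := (tendsto_norm_cobounded_atTop.comp (P_tendsto D p hp)).eventually_ge_atTop N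
    exact this
  filter_upwards [h1, lattice_ev D p] with z hz hzl
  have h2 := sq_eq D z hzl
  have hN1 : 1 ≤ N := by nlinarith [sq_nonneg ‖D.s‖, sq_nonneg M]
  have h3 : ‖D.Q z‖ ^ 2 ≥ 4 * ‖D.P z‖ ^ 3 - ‖D.s‖ ^ 2 := by
    rw [← norm_pow, h2]
    have := norm_sub_norm_le (4 * D.P z ^ 3) (-(D.s ^ 2))
    rw [sub_neg_eq_add, norm_neg, norm_mul, norm_pow, norm_pow] at this
    simpa using this
  have h4 : N ≤ ‖D.P z‖ ^ 3 := by
    have h5 : N ^ 3 ≤ ‖D.P z‖ ^ 3 := by gcongr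
    have h6 : N ≤ N ^ 3 := by nlinarith [mul_nonneg (sub_nonneg.2 hN1) (sub_nonneg.2 hN1), sq_nonneg N]
    linarith
  have h7 : M ^ 2 ≤ ‖D.Q z‖ ^ 2 := by nlinarith [sq_nonneg ‖D.s‖, sq_nonneg M]
  exact le_of_sq_le_sq_right' h7 where
  le_of_sq_le_sq_right' {a b : ℝ} (h : a ^ 2 ≤ b ^ 2) (hb : 0 ≤ b := by positivity) : a ≤ b := by
    exact (abs_le_of_sq_le_sq' h hb).2

theorem Q_meromorphic : Meromorphic D.Q := D.Λ.meromorphic_derivWeierstrassP

/-- `℘' ≠ c` near every point -/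
theorem Q_ne (c : ℂ) (p : ℂ) : ∀ᶠ z in 𝓝[≠] p, D.Q z - c ≠ 0 := by
  have hm : Meromorphic (fun z => D.Q z - c) := by
    intro x
    exact (Q_meromorphic D x).sub (MeromorphicAt.const c x)
  have h0 : meromorphicOrderAt (fun z => D.Q z - c) 0 ≠ ⊤ := by
    rw [meromorphicOrderAt_ne_top_iff_eventually_ne_zero (hm 0)]
    filter_upwards [Q_large D 0 (zero_mem _) (‖c‖ + 1)] with z hz h
    rw [sub_eq_zero] at h
    rw [h] at hz
    linarith
  have h1 := (hm.exists_meromorphicOrderAt_ne_top_iff_forall).1 ⟨0, h0⟩ p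
  exact (meromorphicOrderAt_ne_top_iff_eventually_ne_zero (hm p)).1 h1

end Ell

end ZBaseM

end MP1707
end

section
/-!
# MP_1707ab_an, n = 2, PART M: module ZSET (helper59)
-/
set_option autoImplicit false

open scoped Topology BigOperators Classical ContDiff
open MeasureTheory Filter

namespace MP1707

namespace ZsetM

open ZBaseM

variable (D : EllData)

theorem Y_ev (p : ℂ) : ∀ᶠ z in 𝓝[≠] p, z ∉ D.Z := by
  filter_upwards [lattice_ev D p, Q_ne D D.s p] with z h1 h2 h3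
  rcases h3 with h3 | h3
  · exact h1 h3
  · exact h2 h3

theorem add_mem (z : ℂ) (hz : z ∈ D.Z) (p : ℂ) (hp : p ∈ D.Λ.lattice) : z + p ∈ D.Z := by
  rcases hz with h | h
  · exact Or.inl (Submodule.add_mem _ h hp)
  · refine Or.inr ?_
    show D.Q (z + p) - D.s = 0
    rw [Q_add D z p hp]
    exact h

theorem sub_mem (z : ℂ) (hz : z ∈ D.Z) (p : ℂ) (hp : p ∈ D.Λ.lattice) : z - p ∈ D.Z := by
  rw [sub_eq_add_neg]
  exact add_mem D z hz _ (neg_mem hp)

theorem infDist_sub (z : ℂ) (p : ℂ) (hp : p ∈ D.Λ.lattice) :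
    Metric.infDist (z - p) D.Z = Metric.infDist z D.Z := by
  have key : ∀ z p : ℂ, p ∈ D.Λ.lattice → Metric.infDist (z - p) D.Z ≤ Metric.infDist z D.Z := by
    intro z p hp
    have hne : D.Z.Nonempty := ⟨0, Or.inl (zero_mem _)⟩
    refine (Metric.le_infDist hne).2 fun {y} hy => ?_
    refine (Metric.infDist_le_dist_of_mem (sub_mem D y hy p hp)).trans ?_
    rw [dist_sub_right]
  refine le_antisymm (key z p hp) ?_
  have := key (z - p) (-p) (neg_mem hp)
  rwa [sub_neg_eq_add, sub_add_cancel] at this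

end ZsetM

/-- ZSET -/
theorem specZset : SpecZset := fun D =>
  ⟨⟨0, Or.inl (zero_mem _)⟩, ZBaseM.closed_of _ (ZsetM.Y_ev D), fun z hz p hp => ZsetM.add_mem D z hz p hp,
    ZBaseM.separated D.Λ D.Z (ZsetM.Y_ev D) fun z hz l hl => ZsetM.sub_mem D z hz l hl⟩

end MP1707
end

section
/-!
# MP_1707ab_an, n = 2, PART M: module FARE (helper59)
-/
set_option autoImplicit false

open scoped Topology BigOperators Classical ContDiff
open MeasureTheory Filter

namespace MP1707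

namespace FarEM

open ZBaseM ZsetM

variable (D : EllData)

theorem preconn : IsPreconnected ((D.Λ.lattice : Set ℂ)ᶜ) := by
  refine (Set.Countable.isConnected_compl_of_one_lt_rank (by simp) ?_).2
  exact countable_of_Lindelof_of_discrete (X := D.Λ.lattice)

theorem open_compl : IsOpen ((D.Λ.lattice : Set ℂ)ᶜ) := D.Λ.isClosed_lattice.isOpen_compl

theorem w0_mem : D.Λ.ω₁ / 2 ∉ D.Λ.lattice := D.Λ.ω₁_div_two_notMem_lattice

/-- the quasi-period -/
noncomputable def eta (l : ℂ) : ℂ := D.ζ (D.Λ.ω₁ / 2 + l) - D.ζ (D.Λ.ω₁ / 2)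

theorem not_add {z l : ℂ} (hz : z ∉ D.Λ.lattice) (hl : l ∈ D.Λ.lattice) : z + l ∉ D.Λ.lattice :=
  fun h => hz (by simpa using Submodule.sub_mem _ h hl)

theorem zeta_add (z l : ℂ) (hz : z ∉ D.Λ.lattice) (hl : l ∈ D.Λ.lattice) :
    D.ζ (z + l) = D.ζ z + eta D l := by
  have hd : ∀ w ∈ ((D.Λ.lattice : Set ℂ)ᶜ),
      HasDerivAt (fun w => D.ζ (w + l) - D.ζ w) 0 w := by
    intro w hw
    have h1 := (D.hζ (w + l) (not_add D hw hl)).comp_add_const w l
    have h2 := h1.sub (D.hζ w hw)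
    have h3 : D.Λ.weierstrassP (w + l) = D.Λ.weierstrassP w := P_add D w l hl
    rw [h3, sub_self] at h2
    exact h2
  have h := IsOpen.is_const_of_deriv_eq_zero (open_compl D) (preconn D)
    (f := fun w => D.ζ (w + l) - D.ζ w)
    (fun w hw => (hd w hw).differentiableAt.differentiableWithinAt)
    (fun w hw => (hd w hw).deriv) (show z ∈ ((D.Λ.lattice : Set ℂ)ᶜ) from hz)
    (show D.Λ.ω₁ / 2 ∈ ((D.Λ.lattice : Set ℂ)ᶜ) from w0_mem D)
  unfold eta
  rw [← h]; ring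

theorem eta_add (l l' : ℂ) (hl : l ∈ D.Λ.lattice) (hl' : l' ∈ D.Λ.lattice) :
    eta D (l + l') = eta D l + eta D l' := by
  have h1 := zeta_add D (D.Λ.ω₁ / 2 + l) l' (not_add D (w0_mem D) hl) hl'
  have h2 : D.Λ.ω₁ / 2 + (l + l') = D.Λ.ω₁ / 2 + l + l' := by ring
  unfold eta at *
  rw [h2, h1]; ring

/-- `eta` as a homomorphism -/
noncomputable def etaHom : D.Λ.lattice →+ ℂ :=
  AddMonoidHom.mk' (fun l => eta D l.1) fun a b => eta_add D a.1 b.1 a.2 b.2

theorem eta_bound : ∃ C : ℝ, 0 < C ∧ ∀ l ∈ D.Λ.lattice, ‖eta D l‖ ≤ C * ‖l‖ := by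
  set f0 := LinearMap.toContinuousLinearMap (D.Λ.basis.coord 0) with hf0
  set f1 := LinearMap.toContinuousLinearMap (D.Λ.basis.coord 1) with hf1
  refine ⟨1 + ‖f0‖ * ‖eta D D.Λ.ω₁‖ + ‖f1‖ * ‖eta D D.Λ.ω₂‖, by positivity, fun l hl => ?_⟩
  obtain ⟨m, n, hmn⟩ := PeriodPair.mem_lattice.1 hl
  have e0 : f0 l = m := by
    have h1 : l = (m : ℝ) • D.Λ.basis 0 + (n : ℝ) • D.Λ.basis 1 := by
      rw [D.Λ.basis_zero, D.Λ.basis_one, ← hmn]; simp
    rw [h1, map_add, map_smul, map_smul]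
    simp [hf0, -PeriodPair.basis_zero, -PeriodPair.basis_one]
  have e1 : f1 l = n := by
    have h1 : l = (m : ℝ) • D.Λ.basis 0 + (n : ℝ) • D.Λ.basis 1 := by
      rw [D.Λ.basis_zero, D.Λ.basis_one, ← hmn]; simp
    rw [h1, map_add, map_smul, map_smul]
    simp [hf1, -PeriodPair.basis_zero, -PeriodPair.basis_one]
  have hsum : eta D l = m * eta D D.Λ.ω₁ + n * eta D D.Λ.ω₂ := by
    have h1 : (⟨l, hl⟩ : D.Λ.lattice) = m • (⟨D.Λ.ω₁, D.Λ.ω₁_mem_lattice⟩ : D.Λ.lattice) +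
        n • (⟨D.Λ.ω₂, D.Λ.ω₂_mem_lattice⟩ : D.Λ.lattice) := by
      apply Subtype.ext
      simp [← hmn]
    have h2 := congrArg (etaHom D) h1
    rw [map_add, map_zsmul, map_zsmul] at h2
    simpa [etaHom, zsmul_eq_mul] using h2
  rw [hsum]
  have b0 : |(m : ℝ)| ≤ ‖f0‖ * ‖l‖ := by
    have := f0.le_opNorm l
    rwa [e0] at this
  have b1 : |(n : ℝ)| ≤ ‖f1‖ * ‖l‖ := by
    have := f1.le_opNorm l
    rwa [e1] at this
  calc ‖(m : ℂ) * eta D D.Λ.ω₁ + n * eta D D.Λ.ω₂‖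
      ≤ ‖(m : ℂ) * eta D D.Λ.ω₁‖ + ‖(n : ℂ) * eta D D.Λ.ω₂‖ := norm_add_le _ _
    _ = |(m : ℝ)| * ‖eta D D.Λ.ω₁‖ + |(n : ℝ)| * ‖eta D D.Λ.ω₂‖ := by
        rw [norm_mul, norm_mul, Complex.norm_intCast, Complex.norm_intCast]
    _ ≤ (‖f0‖ * ‖l‖) * ‖eta D D.Λ.ω₁‖ + (‖f1‖ * ‖l‖) * ‖eta D D.Λ.ω₂‖ := by gcongr
    _ ≤ _ := by nlinarith [norm_nonneg l]

theorem not_lattice {z : ℂ} (hz : z ∉ D.Z) : z ∉ D.Λ.lattice := fun h => hz (Or.inl h)

theorem Y_ne {z : ℂ} (hz : z ∉ D.Z) : D.Y z ≠ 0 := fun h => hz (Or.inr h)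

theorem P_cont {z : ℂ} (hz : z ∉ D.Z) : ContinuousAt D.P z :=
  (D.Λ.differentiableOn_weierstrassP.differentiableAt
    ((open_compl D).mem_nhds (not_lattice D hz))).continuousAt

theorem Q_cont {z : ℂ} (hz : z ∉ D.Z) : ContinuousAt D.Q z :=
  (D.Λ.differentiableOn_derivWeierstrassP.differentiableAt
    ((open_compl D).mem_nhds (not_lattice D hz))).continuousAt

theorem Y_cont {z : ℂ} (hz : z ∉ D.Z) : ContinuousAt D.Y z := (Q_cont D hz).sub continuousAt_const

theorem zeta_cont {z : ℂ} (hz : z ∉ D.Z) : ContinuousAt D.ζ z :=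
  (D.hζ z (not_lattice D hz)).continuousAt

theorem G_cont {z : ℂ} (hz : z ∉ D.Z) : ContinuousAt D.G z :=
  (P_cont D hz).neg.div (continuousAt_const.mul (Y_cont D hz))
    (mul_ne_zero (mul_ne_zero two_ne_zero D.hs) (Y_ne D hz))

theorem G1_cont {z : ℂ} (hz : z ∉ D.Z) : ContinuousAt D.G1 z :=
  continuousAt_const.add (continuousAt_const.div (Y_cont D hz) (Y_ne D hz))

theorem v1_cont {z : ℂ} (hz : z ∉ D.Z) : ContinuousAt D.v1 z :=
  (P_cont D hz).add (continuousAt_const.mul (G_cont D hz))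

theorem v2_cont {z : ℂ} (hz : z ∉ D.Z) : ContinuousAt D.v2 z :=
  (((Y_cont D hz).sub continuousAt_const).pow 2).div (Y_cont D hz) (Y_ne D hz)

theorem v_cont {z : ℂ} (hz : z ∉ D.Z) : ContinuousAt D.v z :=
  (continuousAt_const.mul (zeta_cont D hz)).add
    ((continuousAt_const.mul ((P_cont D hz).pow 2)).div (Y_cont D hz) (Y_ne D hz))

theorem Y_add (z l : ℂ) (hl : l ∈ D.Λ.lattice) : D.Y (z + l) = D.Y z := by
  unfold EllData.Y; rw [Q_add D z l hl]

theorem G_add (z l : ℂ) (hl : l ∈ D.Λ.lattice) : D.G (z + l) = D.G z := by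
  unfold EllData.G; rw [P_add D z l hl, Y_add D z l hl]

theorem G1_add (z l : ℂ) (hl : l ∈ D.Λ.lattice) : D.G1 (z + l) = D.G1 z := by
  unfold EllData.G1; rw [Y_add D z l hl]

theorem v1_add (z l : ℂ) (hl : l ∈ D.Λ.lattice) : D.v1 (z + l) = D.v1 z := by
  unfold EllData.v1; rw [P_add D z l hl, G_add D z l hl]

theorem v2_add (z l : ℂ) (hl : l ∈ D.Λ.lattice) : D.v2 (z + l) = D.v2 z := by
  unfold EllData.v2 EllData.U; rw [Y_add D z l hl]

theorem v_add (z l : ℂ) (hz : z ∉ D.Λ.lattice) (hl : l ∈ D.Λ.lattice) :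
    D.v (z + l) = D.v z - (1 - EllData.mm) * eta D l := by
  unfold EllData.v; rw [P_add D z l hl, Y_add D z l hl, zeta_add D z l hz hl]; ring

/-- a function that is continuous off `Z` is bounded on the compact part -/
theorem bdd (f : ℂ → ℂ) (hf : ∀ z ∉ D.Z, ContinuousAt f z) (R r : ℝ) (hr : 0 < r) :
    ∃ C : ℝ, 0 < C ∧ ∀ z : ℂ, ‖z‖ ≤ R → r ≤ Metric.infDist z D.Z → ‖f z‖ ≤ C := by
  have hK : IsCompact (Metric.closedBall (0 : ℂ) R ∩ {z | r ≤ Metric.infDist z D.Z}) :=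
    (isCompact_closedBall _ _).inter_right
      (isClosed_le continuous_const (Metric.continuous_infDist_pt _))
  have hc : ContinuousOn f (Metric.closedBall (0 : ℂ) R ∩ {z | r ≤ Metric.infDist z D.Z}) := by
    intro z hz
    refine (hf z fun h => ?_).continuousWithinAt
    have h1 : r ≤ Metric.infDist z D.Z := hz.2
    rw [Metric.infDist_zero_of_mem h] at h1
    linarith
  obtain ⟨C, hC⟩ := hK.exists_bound_of_continuousOn hc
  refine ⟨max C 1, lt_max_of_lt_right one_pos, fun z h1 h2 => ?_⟩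
  exact (hC z ⟨mem_closedBall_zero_iff.2 h1, h2⟩).trans (le_max_left _ _)

/-- and if it is periodic, everywhere -/
theorem bdd_periodic (f : ℂ → ℂ) (hf : ∀ z ∉ D.Z, ContinuousAt f z)
    (hp : ∀ z l : ℂ, l ∈ D.Λ.lattice → f (z + l) = f z) (r : ℝ) (hr : 0 < r) :
    ∃ C : ℝ, 0 < C ∧ ∀ z : ℂ, r ≤ Metric.infDist z D.Z → ‖f z‖ ≤ C := by
  obtain ⟨R0, _, hn⟩ := exists_near D.Λ
  obtain ⟨C, hC, h⟩ := bdd D f hf R0 r hr
  refine ⟨C, hC, fun z hz => ?_⟩
  obtain ⟨l, hl, hl'⟩ := hn z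
  have h1 := h (z - l) hl' (by rwa [infDist_sub D z l hl])
  have h2 := hp (z - l) l hl
  rw [sub_add_cancel] at h2
  rwa [h2]

end FarEM

open FarEM ZBaseM ZsetM in
/-- FARE -/
theorem specFarE : SpecFarE := by
  intro D
  obtain ⟨R0, hR0, hn⟩ := exists_near D.Λ
  obtain ⟨Ce, hCe, he⟩ := eta_bound D
  refine ⟨1 + ‖(1 - EllData.mm : ℂ)‖ * Ce, by positivity, fun r hr => ?_⟩
  obtain ⟨c0, hc0, h0⟩ := bdd D D.v (fun z hz => v_cont D hz) R0 r hr
  obtain ⟨c1, hc1, h1⟩ := bdd_periodic D D.v1 (fun z hz => v1_cont D hz) (v1_add D) r hr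
  obtain ⟨c2, hc2, h2⟩ := bdd_periodic D D.v2 (fun z hz => v2_cont D hz) (v2_add D) r hr
  obtain ⟨c3, hc3, h3⟩ := bdd_periodic D D.G (fun z hz => G_cont D hz) (G_add D) r hr
  obtain ⟨c4, hc4, h4⟩ := bdd_periodic D D.G1 (fun z hz => G1_cont D hz) (G1_add D) r hr
  refine ⟨c0 + ‖(1 - EllData.mm : ℂ)‖ * (Ce * R0) + c1 + c2 + c3 + c4, by positivity, fun w hw => ?_⟩
  have hpos : 0 ≤ ‖(1 - EllData.mm : ℂ)‖ * (Ce * R0) := by positivity
  refine ⟨?_, ?_, ?_, ?_, ?_⟩
  · obtain ⟨l, hl, hl'⟩ := hn w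
    have hwZ : w ∉ D.Z := fun h => by
      rw [Metric.infDist_zero_of_mem h] at hw; linarith
    have hwl : w - l ∉ D.Λ.lattice := fun h => not_lattice D hwZ (by simpa using Submodule.add_mem _ h hl)
    have e1 := v_add D (w - l) l hwl hl
    rw [sub_add_cancel] at e1
    rw [e1]
    have b1 := h0 (w - l) hl' (by rwa [infDist_sub D w l hl])
    have b2 : ‖l‖ ≤ ‖w‖ + R0 := by
      have := norm_sub_norm_le l w
      rw [norm_sub_rev] at this
      linarith
    have b3 : ‖(1 - EllData.mm) * eta D l‖ ≤ ‖(1 - EllData.mm : ℂ)‖ * (Ce * (‖w‖ + R0)) := by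
      rw [norm_mul]
      gcongr
      exact (he l hl).trans (by gcongr)
    calc ‖D.v (w - l) - (1 - EllData.mm) * eta D l‖ ≤ ‖D.v (w - l)‖ + ‖(1 - EllData.mm) * eta D l‖ :=
          norm_sub_le _ _
      _ ≤ c0 + ‖(1 - EllData.mm : ℂ)‖ * (Ce * (‖w‖ + R0)) := by linarith
      _ ≤ _ := by nlinarith [norm_nonneg w]
  · have := h1 w hw; linarith
  · have := h2 w hw; linarith
  · have := h3 w hw; linarith
  · have := h4 w hw; linarith

end MP1707
end

section
/-!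
# MP_1707ab_an, n = 2, PART M, module CELL
-/
set_option autoImplicit false

open scoped Topology BigOperators Classical
open MeasureTheory

namespace MP1707

theorem specCell (h0 : SpecEll0) (hO : SpecODE) (hA : SpecAlg) (hZ : SpecZset) (hN : SpecNearE)
    (hF : SpecFarE) (hAr : SpecAreaE) : SpecCell := by
  obtain ⟨D⟩ := h0
  obtain ⟨hA1, hu, -⟩ := hA D
  obtain ⟨hne, hcl, -, d, hd, hsep⟩ := hZ D
  obtain ⟨CN, dN, hCN, hdN, hN⟩ := hN D
  obtain ⟨CF, hCF, hF⟩ := hF D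
  obtain ⟨CA, hCA, hAr1, hAr2⟩ := hAr D
  have hu' : 0 < ‖D.u‖ := norm_pos_iff.2 hu
  set M : ℝ := (1 + ‖D.u‖ + ‖D.s‖) ^ 2 + ‖D.s‖ ^ 2 with hM
  have hM0 : 0 ≤ M := by positivity
  set C : ℝ := 7 + 2 * M + CN + CF + CA + ‖-EllData.κ / D.u‖ + ‖EllData.κ‖ + ‖D.φ‖ + 2 / ‖D.u‖ +
    ‖EllData.κ‖ * (2 / ‖D.u‖) with hC
  have p1 : 0 ≤ ‖-EllData.κ / D.u‖ := norm_nonneg _
  have p2 : 0 ≤ ‖EllData.κ‖ := norm_nonneg _
  have p3 : 0 ≤ ‖D.φ‖ := norm_nonneg _
  have p4 : 0 ≤ 2 / ‖D.u‖ := by positivity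
  have p5 : 0 ≤ ‖EllData.κ‖ * (2 / ‖D.u‖) := by positivity
  have hC1 : 1 ≤ C := by linarith
  have hC0 : 0 < C := by linarith
  have hCN' : CN ≤ C := by linarith
  have hCF' : CF ≤ C := by linarith
  have hCA' : CA ≤ C := by linarith
  have hCu : 2 / ‖D.u‖ ≤ C := by linarith
  have hCκu : ‖EllData.κ‖ * (2 / ‖D.u‖) ≤ C := by linarith
  have hYU : ∀ z, ‖D.U z‖ ≤ 1 / C → ‖D.u‖ / 2 ≤ ‖D.Y z‖ := by
    intro z hz
    have e1 : D.Y z = D.U z + D.u := by simp only [EllData.U]; ring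
    have e2 : 1 / C ≤ ‖D.u‖ / 2 := by
      rw [div_le_iff₀ hC0]
      have := mul_le_mul_of_nonneg_left hCu (by positivity : 0 ≤ ‖D.u‖ / 2)
      have e3 : ‖D.u‖ / 2 * (2 / ‖D.u‖) = 1 := by field_simp
      linarith
    have e4 : ‖D.u‖ ≤ ‖D.U z + D.u‖ + ‖D.U z‖ := by
      calc ‖D.u‖ = ‖(D.U z + D.u) - D.U z‖ := by congr 1; ring
        _ ≤ _ := norm_sub_le _ _
    rw [e1]
    linarith
  have hYinv : ∀ z, ‖D.U z‖ ≤ 1 / C → 1 / ‖D.Y z‖ ≤ 2 / ‖D.u‖ := by
    intro z hz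
    have e1 := hYU z hz
    calc 1 / ‖D.Y z‖ ≤ 1 / (‖D.u‖ / 2) := one_div_le_one_div_of_le (by positivity) e1
      _ = 2 / ‖D.u‖ := by field_simp
  set d0 : ℝ := min (d / 4) (dN / 2) with hd0
  have hd0p : 0 < d0 := lt_min (by positivity) (by positivity)
  have hd01 : 4 * d0 ≤ d := by
    have := min_le_left (d / 4) (dN / 2)
    linarith
  have hd02 : 2 * d0 ≤ dN := by
    have := min_le_right (d / 4) (dN / 2)
    linarith
  refine ⟨{
    Z := D.Z
    d0 := d0
    C := C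
    fh := D.fh
    v := D.v
    v1 := D.v1
    v2 := D.v2
    G := D.G
    G1 := D.G1
    U := D.U
    U1 := D.U1
    κ := EllData.κ
    φ := D.φ
    hd0 := hd0p
    hC := hC1
    ne := hne
    closed := hcl
    sep := fun p hp q hq hpq => hd01.trans (hsep p hp q hq hpq)
    fhb := ?_
    κb := by linarith
    φb := by linarith
    dv := fun z hz => (hA1 z hz).1
    dv1 := fun z hz => (hA1 z hz).2.1
    dG := fun z hz => (hA1 z hz).2.2.1
    dU := fun z hz => (hA1 z hz).2.2.2.1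
    ident := fun z hz => (hA1 z hz).2.2.2.2.1
    small1 := ?_
    small2 := ?_
    grad := ?_
    near0 := ?_
    nearv := ?_
    far := ?_
    areaU := ?_
    areaZ := ?_ }⟩
  · intro p
    by_cases hp : p ∈ D.Λ.lattice
    · simp only [EllData.fh, hp, if_true, norm_zero]
      exact hC0.le
    · simp only [EllData.fh, hp, if_false]
      linarith
  · intro z hz hUz
    rw [(hA1 z hz).2.2.2.2.2]
    have e1 := hYinv z hUz
    calc ‖EllData.κ * D.U z / D.Y z‖ = ‖EllData.κ‖ * (1 / ‖D.Y z‖) * ‖D.U z‖ := by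
          rw [norm_div, norm_mul]; ring
      _ ≤ ‖EllData.κ‖ * (2 / ‖D.u‖) * ‖D.U z‖ := by gcongr
      _ ≤ C * ‖D.U z‖ := by gcongr
  · intro z hz hUz
    have e1 := hYinv z hUz
    calc ‖D.v2 z‖ = (1 / ‖D.Y z‖) * ‖D.U z‖ ^ 2 := by
          rw [EllData.v2, norm_div, norm_pow]; ring
      _ ≤ (2 / ‖D.u‖) * ‖D.U z‖ ^ 2 := by gcongr
      _ ≤ C * ‖D.U z‖ ^ 2 := by gcongr
  · intro z hz
    have hzl : z ∉ D.Λ.lattice := fun h => hz (Or.inl h)
    obtain ⟨-, -, hode⟩ := hO D z hzl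
    have e0 : ‖D.U1 z‖ = 6 * ‖D.P z‖ ^ 2 := by
      rw [EllData.U1, norm_mul, norm_pow]
      norm_num
    rw [e0]
    have hU0 : 0 ≤ ‖D.U z‖ := norm_nonneg _
    have hone : (1 : ℝ) ≤ (1 + ‖D.U z‖) ^ 2 := by nlinarith
    rcases le_total (‖D.P z‖) 1 with hP | hP
    · have e1 : ‖D.P z‖ ^ 2 ≤ 1 := by
        have := norm_nonneg (D.P z)
        nlinarith
      have e2 : (6 : ℝ) ≤ C := by linarith
      calc 6 * ‖D.P z‖ ^ 2 ≤ 6 * 1 := by linarith
        _ ≤ C * (1 + ‖D.U z‖) ^ 2 := mul_le_mul e2 hone (by norm_num) hC0.le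
    · have e1 : ‖D.P z‖ ^ 2 ≤ ‖D.P z‖ ^ 3 := pow_le_pow_right₀ hP (by norm_num)
      have e2 : 4 * ‖D.P z‖ ^ 3 = ‖D.Q z ^ 2 - D.s ^ 2‖ := by
        have : D.Q z ^ 2 - D.s ^ 2 = 4 * D.P z ^ 3 := by rw [hode]; ring
        rw [this, norm_mul, norm_pow]
        norm_num
      have e3 : D.Q z = D.U z + D.u + D.s := by
        simp only [EllData.U, EllData.Y]; ring
      have e4 : ‖D.Q z‖ ≤ (1 + ‖D.U z‖) * (1 + ‖D.u‖ + ‖D.s‖) := by
        rw [e3]
        have h1 := norm_add_le (D.U z + D.u) D.s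
        have h2 := norm_add_le (D.U z) D.u
        have h3 := norm_nonneg D.s
        nlinarith [mul_nonneg hU0 h3, mul_nonneg hU0 hu'.le]
      have e5 : ‖D.Q z ^ 2 - D.s ^ 2‖ ≤ M * (1 + ‖D.U z‖) ^ 2 := by
        calc ‖D.Q z ^ 2 - D.s ^ 2‖ ≤ ‖D.Q z‖ ^ 2 + ‖D.s‖ ^ 2 := by
              refine (norm_sub_le _ _).trans ?_
              rw [norm_pow, norm_pow]
          _ ≤ ((1 + ‖D.U z‖) * (1 + ‖D.u‖ + ‖D.s‖)) ^ 2 + ‖D.s‖ ^ 2 * (1 + ‖D.U z‖) ^ 2 := by
              have h1 : ‖D.Q z‖ ^ 2 ≤ ((1 + ‖D.U z‖) * (1 + ‖D.u‖ + ‖D.s‖)) ^ 2 := by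
                gcongr
              have h2 : ‖D.s‖ ^ 2 * 1 ≤ ‖D.s‖ ^ 2 * (1 + ‖D.U z‖) ^ 2 := by
                gcongr
              linarith
          _ = M * (1 + ‖D.U z‖) ^ 2 := by rw [hM]; ring
      calc 6 * ‖D.P z‖ ^ 2 ≤ 2 * (4 * ‖D.P z‖ ^ 3) := by
            have := pow_nonneg (norm_nonneg (D.P z)) 3
            linarith
        _ ≤ 2 * (M * (1 + ‖D.U z‖) ^ 2) := by rw [e2]; linarith
        _ = (2 * M) * (1 + ‖D.U z‖) ^ 2 := by ring
        _ ≤ C * (1 + ‖D.U z‖) ^ 2 := by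
            have : 2 * M ≤ C := by linarith
            gcongr
  · intro p hp w hw hw2
    obtain ⟨-, h1, h2, h3, -⟩ := hN p hp w hw (hw2.trans hd02)
    refine ⟨(one_div_le_one_div_of_le hCN hCN').trans h1, h2.trans ?_, h3.trans ?_⟩
    · gcongr
    · gcongr
  · intro p hp w hw hw2
    obtain ⟨-, -, -, -, h4⟩ := hN p hp w hw (by linarith)
    have e1 : ‖p + (d0 : ℂ) - p‖ = d0 := by
      rw [add_sub_cancel_left, Complex.norm_real, Real.norm_eq_abs, abs_of_pos hd0p]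
    have := h4 (p + d0) (by rw [e1]; exact hw2) (by rw [e1]; linarith)
    refine this.trans ?_
    gcongr
  · intro r hr
    obtain ⟨Cr, hCr, h⟩ := hF r hr
    refine ⟨Cr, hCr, fun w hw => ?_⟩
    obtain ⟨h1, h2, h3, h4, h5⟩ := h w hw
    refine ⟨h1.trans ?_, h2, h3, h4, h5⟩
    have := norm_nonneg w
    gcongr
  · intro ε R hε hε2 hR
    refine (hAr1 ε R hε (hε2.trans (one_div_le_one_div_of_le hCA hCA')) hR).trans ?_
    refine ENNReal.ofReal_le_ofReal ?_
    gcongr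
  · intro r R hr hr2 hR
    refine (hAr2 r R hr (hr2.trans (one_div_le_one_div_of_le hCA hCA')) hR).trans ?_
    refine ENNReal.ofReal_le_ofReal ?_
    gcongr

end MP1707
end

section
/-!
# MP_1707ab_an, n = 2, PART M, module COST (helper58)
-/
set_option autoImplicit false

open scoped Topology BigOperators Classical ContDiff
open MeasureTheory

namespace MP1707

namespace CostM

theorem vol_rect (a b c d : ℝ) : volume (Set.Icc a b ×ℂ Set.Icc c d) =
    ENNReal.ofReal (b - a) * ENNReal.ofReal (d - c) := by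
  have h1 : Set.Icc a b ×ℂ Set.Icc c d =
      Complex.measurableEquivRealProd ⁻¹' (Set.Icc a b ×ˢ Set.Icc c d) := by
    ext z
    rw [Complex.mem_reProdIm, Set.mem_preimage, Complex.measurableEquivRealProd_apply]
    exact Iff.rfl
  rw [h1, Complex.volume_preserving_equiv_real_prod.measure_preimage
    (measurableSet_Icc.prod measurableSet_Icc).nullMeasurableSet, Measure.volume_eq_prod,
    Measure.prod_prod, Real.volume_Icc, Real.volume_Icc]

theorem int_bound {ι : Type} [Fintype ι] (K : Set ℂ) (V : ℝ) (hV0 : 0 ≤ V) (hKm : MeasurableSet K)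
    (hV : volume K ≤ ENNReal.ofReal V) (S : ι → Set ℂ) (v c : ι → ℝ) (hv : ∀ i, 0 ≤ v i)
    (hS : ∀ i, volume (S i) ≤ ENNReal.ofReal (v i)) (c0 : ℝ) (hc0 : 0 ≤ c0) (hc : ∀ i, 0 ≤ c i)
    (I : ℂ → ℝ) (hI0 : ∀ z ∈ K, 0 ≤ I z)
    (hI : ∀ z ∈ K, I z ≤ c0 + ∑ i, c i * (S i).indicator 1 z) :
    ∫ z in K, I z ≤ c0 * V + ∑ i, c i * v i := by
  have hKfin : volume K < ⊤ := lt_of_le_of_lt hV ENNReal.ofReal_lt_top
  have : IsFiniteMeasure (volume.restrict K) := ⟨by rwa [Measure.restrict_apply_univ]⟩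
  set S' : ι → Set ℂ := fun i => toMeasurable volume (S i) with hS'
  have hm : ∀ i, MeasurableSet (S' i) := fun i => measurableSet_toMeasurable _ _
  have hint : ∀ i, Integrable (fun z => (S' i).indicator (1 : ℂ → ℝ) z) (volume.restrict K) := by
    intro i
    exact (integrable_const (1 : ℝ)).indicator (hm i)
  have h1 : ∫ z in K, I z ≤ ∫ z in K, (c0 + ∑ i, c i * (S' i).indicator (1 : ℂ → ℝ) z) := by
    refine integral_mono_of_nonneg ?_ ?_ ?_
    · exact (ae_restrict_mem hKm).mono fun z hz => hI0 z hz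
    · refine (integrable_const c0).add (integrable_finsetSum _ fun i _ => (hint i).const_mul _)
    · refine (ae_restrict_mem hKm).mono fun z hz => ?_
      refine (hI z hz).trans ?_
      refine add_le_add le_rfl (Finset.sum_le_sum fun i _ => mul_le_mul_of_nonneg_left ?_ (hc i))
      exact Set.indicator_le_indicator_of_subset (subset_toMeasurable _ _) (fun _ => zero_le_one) z
  refine h1.trans ?_
  rw [integral_add (integrable_const c0) (integrable_finsetSum _ fun i _ => (hint i).const_mul _),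
    integral_finsetSum _ fun i _ => (hint i).const_mul _]
  gcongr with i hi
  · rw [integral_const, smul_eq_mul, mul_comm]
    gcongr
    rw [Measure.real, Measure.restrict_apply_univ]
    exact ENNReal.toReal_le_of_le_ofReal hV0 hV
  · rw [integral_const_mul]
    have h2 := hc i
    gcongr
    have h3 : ∫ z in K, (S' i).indicator (1 : ℂ → ℝ) z = (volume.restrict K).real (S' i) :=
      integral_indicator_one (hm i)
    rw [h3, Measure.real]
    refine ENNReal.toReal_le_of_le_ofReal (hv i) ?_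
    calc (volume.restrict K) (S' i) ≤ volume (S' i) := Measure.restrict_apply_le _ _
      _ = volume (S i) := measure_toMeasurable _
      _ ≤ _ := hS i

theorem vol_scale (T : Set ℂ) (l : ℝ) (hl : 0 < l) (v : ℝ) (hv : volume T ≤ ENNReal.ofReal v) :
    volume {z : ℂ | z / l ∈ T} ≤ ENNReal.ofReal (l ^ 2 * v) := by
  have h1 : {z : ℂ | z / l ∈ T} = ((l⁻¹ : ℝ) • ·) ⁻¹' T := by
    ext z
    rw [Set.mem_preimage]
    have : z / (l : ℂ) = (l⁻¹ : ℝ) • z := by
      rw [Complex.real_smul]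
      push_cast
      rw [div_eq_inv_mul]
    rw [← this]
    exact Iff.rfl
  rw [h1, Measure.addHaar_preimage_smul volume (inv_ne_zero hl.ne'), Complex.finrank_real_complex,
    ENNReal.ofReal_mul (by positivity)]
  have h2 : |((l⁻¹) ^ 2)⁻¹| = l ^ 2 := by
    rw [inv_pow, inv_inv, abs_of_pos (by positivity)]
  rw [h2]
  gcongr

/-- the box is a rectangle -/
theorem K_eq (L : ℝ) : K L = Set.Icc (-(L + 2)) (L + 2) ×ℂ Set.Icc 0 1 := by
  ext z
  rw [Complex.mem_reProdIm]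
  constructor
  · rintro ⟨h1, h2, h3⟩
    exact ⟨abs_le.1 h1, h2, h3⟩
  · rintro ⟨h1, h2, h3⟩
    exact ⟨abs_le.2 h1, h2, h3⟩

theorem norm_scaled {L l : ℝ} (hl : 0 < l) {z : ℂ} (hz : z ∈ K L) : ‖z / l‖ ≤ (L + 3) / l := by
  rw [norm_div, Complex.norm_real, Real.norm_of_nonneg hl.le]
  gcongr
  have h1 := Complex.norm_le_abs_re_add_abs_im z
  obtain ⟨h2, h3, h4⟩ := hz
  have h5 : |z.im| ≤ 1 := abs_le.2 ⟨by linarith, h4⟩
  linarith

/-- final arithmetic -/
theorem arith {M E L e0 H0 A ε r l DC : ℝ} (hM : 1 ≤ M) (hE : 0 < E) (hL : 1 ≤ L) (he0 : 0 < e0)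
    (hH0 : 1 ≤ H0) (hA : 1 ≤ A) (hε : 0 < ε) (hε1 : ε ≤ 1) (hr : 0 < r) (hl : 0 < l) (hl1 : l ≤ 1)
    (hDC : 1 ≤ DC) (hDM : DC ≤ M) :
    (M * e0 + M * H0 * L / A + E * l + E * l * (1 + M * A / ε ^ 2) + E * l * (1 + M * A)) * (2 * L + 4) +
      ((E + (M * H0 * L / A + E * l)) * (1 + E) * (4 * l * (2 * L + 4)) +
       (E + (M * H0 * L / A + E * l)) * (1 + E) * (4 * l * (2 * L + 4)) +
       M * H0 * ε * (1 + M * A / ε ^ 2) * (DC * ε ^ 2 * (L + 3) ^ 2) +
       M * H0 * L / r * (1 + M * A) * (DC * (2 * r) ^ 2 * (L + 3) ^ 2) +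
       M * H0 / (A * r ^ 2) * (DC * (r / 2) ^ 2 * (L + 3) ^ 2)) ≤
    200 * M ^ 3 * L ^ 3 * (e0 + H0 / A + H0 * A * ε + H0 * A * r) +
      (E * (3 + M * A / ε ^ 2 + M * A) * (2 * L + 4) +
        (2 * E + M * H0 * L / A) * (1 + E) * (8 * (2 * L + 4))) * l := by
  have hL0 : 0 < L := by linarith
  have hM0 : 0 < M := by linarith
  have hH00 : 0 < H0 := by linarith
  have hA0 : 0 < A := by linarith
  have hDC0 : 0 < DC := by linarith
  have hL2 : 2 * L + 4 ≤ 6 * L := by linarith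
  have hL3 : (L + 3) ^ 2 ≤ 16 * L ^ 2 := by nlinarith
  have hM2 : M ≤ M ^ 3 := by
    calc M = M ^ 1 := (pow_one M).symm
      _ ≤ M ^ 3 := pow_le_pow_right₀ hM (by norm_num)
  have hM3 : M ^ 2 ≤ M ^ 3 := pow_le_pow_right₀ hM (by norm_num)
  have hLL : L ≤ L ^ 3 := by
    calc L = L ^ 1 := (pow_one L).symm
      _ ≤ L ^ 3 := pow_le_pow_right₀ hL (by norm_num)
  have hLL2 : L ^ 2 ≤ L ^ 3 := pow_le_pow_right₀ hL (by norm_num)
  -- e0
  have t1 : M * e0 * (2 * L + 4) ≤ 200 * M ^ 3 * L ^ 3 * e0 := by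
    calc M * e0 * (2 * L + 4) ≤ M ^ 3 * e0 * (6 * L ^ 3) := by
          gcongr
          linarith
      _ = 6 * (M ^ 3 * L ^ 3 * e0) := by ring
      _ ≤ 200 * (M ^ 3 * L ^ 3 * e0) := by
          gcongr
          norm_num
      _ = _ := by ring
  -- H0 / A
  have t2 : M * H0 * L / A * (2 * L + 4) ≤ 100 * M ^ 3 * L ^ 3 * (H0 / A) := by
    calc M * H0 * L / A * (2 * L + 4) = M * (L * (2 * L + 4)) * (H0 / A) := by ring
      _ ≤ M ^ 3 * (6 * L ^ 3) * (H0 / A) := by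
          have h1 : L * (2 * L + 4) ≤ 6 * L ^ 3 := by
            calc L * (2 * L + 4) ≤ L * (6 * L) := by gcongr
              _ = 6 * L ^ 2 := by ring
              _ ≤ 6 * L ^ 3 := by gcongr
          gcongr ?_ * ?_ * _
      _ = 6 * (M ^ 3 * L ^ 3 * (H0 / A)) := by ring
      _ ≤ 100 * (M ^ 3 * L ^ 3 * (H0 / A)) := by
          gcongr
          norm_num
      _ = _ := by ring
  have t3 : M * H0 / (A * r ^ 2) * (DC * (r / 2) ^ 2 * (L + 3) ^ 2) ≤ 100 * M ^ 3 * L ^ 3 * (H0 / A) := by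
    calc M * H0 / (A * r ^ 2) * (DC * (r / 2) ^ 2 * (L + 3) ^ 2) =
          1 / 4 * (M * DC) * (L + 3) ^ 2 * (H0 / A) := by
          field_simp
          ring
      _ ≤ 1 / 4 * (M ^ 3) * (16 * L ^ 3) * (H0 / A) := by
          gcongr
          · calc M * DC ≤ M * M := by gcongr
              _ = M ^ 2 := by ring
              _ ≤ M ^ 3 := hM3
          · exact hL3.trans (by gcongr)
      _ = 4 * (M ^ 3 * L ^ 3 * (H0 / A)) := by ring
      _ ≤ 100 * (M ^ 3 * L ^ 3 * (H0 / A)) := by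
          gcongr
          norm_num
      _ = _ := by ring
  -- ε
  have t4 : M * H0 * ε * (1 + M * A / ε ^ 2) * (DC * ε ^ 2 * (L + 3) ^ 2) ≤
      200 * M ^ 3 * L ^ 3 * (H0 * A * ε) := by
    calc M * H0 * ε * (1 + M * A / ε ^ 2) * (DC * ε ^ 2 * (L + 3) ^ 2) =
          (M * DC * (ε ^ 2 + M * A)) * (L + 3) ^ 2 * (H0 * ε) := by
          field_simp
      _ ≤ (M * M * (M * A + M * A)) * (16 * L ^ 3) * (H0 * ε) := by
          gcongr
          · calc ε ^ 2 ≤ 1 := pow_le_one₀ hε.le hε1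
              _ ≤ M * A := by nlinarith
          · exact hL3.trans (by gcongr)
      _ = 32 * (M ^ 3 * L ^ 3 * (H0 * A * ε)) := by ring
      _ ≤ 200 * (M ^ 3 * L ^ 3 * (H0 * A * ε)) := by
          gcongr
          norm_num
      _ = _ := by ring
  -- r
  have t5 : M * H0 * L / r * (1 + M * A) * (DC * (2 * r) ^ 2 * (L + 3) ^ 2) ≤
      200 * M ^ 3 * L ^ 3 * (H0 * A * r) := by
    calc M * H0 * L / r * (1 + M * A) * (DC * (2 * r) ^ 2 * (L + 3) ^ 2) =
          4 * (M * DC * (1 + M * A)) * (L * (L + 3) ^ 2) * (H0 * r) := by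
          field_simp
          ring
      _ ≤ 4 * (M * M * (M * A + M * A)) * (L * (16 * L ^ 2)) * (H0 * r) := by
          gcongr
          nlinarith
      _ = 128 * (M ^ 3 * L ^ 3 * (H0 * A * r)) := by ring
      _ ≤ 200 * (M ^ 3 * L ^ 3 * (H0 * A * r)) := by
          gcongr
          norm_num
      _ = _ := by ring
  -- l
  have t6 : (E + (M * H0 * L / A + E * l)) * (1 + E) * (4 * l * (2 * L + 4)) ≤
      (2 * E + M * H0 * L / A) * (1 + E) * (4 * (2 * L + 4)) * l := by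
    calc (E + (M * H0 * L / A + E * l)) * (1 + E) * (4 * l * (2 * L + 4)) ≤
          (E + (M * H0 * L / A + E * 1)) * (1 + E) * (4 * l * (2 * L + 4)) := by gcongr
      _ = _ := by ring
  have t7 : (M * e0 + M * H0 * L / A + E * l + E * l * (1 + M * A / ε ^ 2) + E * l * (1 + M * A)) *
      (2 * L + 4) = M * e0 * (2 * L + 4) + M * H0 * L / A * (2 * L + 4) +
        E * (3 + M * A / ε ^ 2 + M * A) * (2 * L + 4) * l := by ring
  rw [t7]
  have t8 : 200 * M ^ 3 * L ^ 3 * (e0 + H0 / A + H0 * A * ε + H0 * A * r) =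
    200 * M ^ 3 * L ^ 3 * e0 + 100 * M ^ 3 * L ^ 3 * (H0 / A) + 100 * M ^ 3 * L ^ 3 * (H0 / A) +
    200 * M ^ 3 * L ^ 3 * (H0 * A * ε) + 200 * M ^ 3 * L ^ 3 * (H0 * A * r) := by ring
  have t9 : (E * (3 + M * A / ε ^ 2 + M * A) * (2 * L + 4) +
        (2 * E + M * H0 * L / A) * (1 + E) * (8 * (2 * L + 4))) * l =
      E * (3 + M * A / ε ^ 2 + M * A) * (2 * L + 4) * l +
      (2 * E + M * H0 * L / A) * (1 + E) * (4 * (2 * L + 4)) * l +
      (2 * E + M * H0 * L / A) * (1 + E) * (4 * (2 * L + 4)) * l := by ring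
  rw [t8, t9]
  linarith

end CostM

open CostM

theorem specCost (hA : SpecPtA) (hB : SpecPtB) (hC : SpecPtC) (hD : SpecPtD) (hE : SpecPtE)
    (hF : SpecPtF) (hG : SpecPtG) (hV : SpecVder) : SpecCost := by
  intro D
  obtain ⟨CA, hCA, hA⟩ := hA D
  obtain ⟨CB, hCB, hB⟩ := hB D
  obtain ⟨CC, hCC, hC⟩ := hC D
  obtain ⟨CD, hCD, hD⟩ := hD D
  obtain ⟨CE, hCE, hE⟩ := hE D
  obtain ⟨CF, hCF, hF⟩ := hF D
  obtain ⟨CG, hCG, hG⟩ := hG D
  have hDC := D.hC
  have hd0 := D.hd0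
  have hd4 : 0 < 4 / D.d0 := by positivity
  set M : ℝ := CA + CB + CC + CD + CE + CF + CG + D.C + 4 / D.d0 with hM
  have hM1 : 1 ≤ M := by linarith
  have hM0 : 0 < M := by linarith
  have hMC : M ≤ 200 * M ^ 3 := by
    have h1 : M ≤ M ^ 3 := by
      calc M = M ^ 1 := (pow_one M).symm
        _ ≤ M ^ 3 := pow_le_pow_right₀ hM1 (by norm_num)
    nlinarith [pow_pos hM0 3]
  have hMC2 : 2 * M ≤ 200 * M ^ 3 := by
    have h1 : M ≤ M ^ 3 := by
      calc M = M ^ 1 := (pow_one M).symm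
        _ ≤ M ^ 3 := pow_le_pow_right₀ hM1 (by norm_num)
    nlinarith [pow_pos hM0 3]
  refine ⟨200 * M ^ 3, by linarith, ?_⟩
  intro L e0 H0 g hg hL hH0 he0 he1 A ε r hA1 hε hεC hr hrC
  have hinv : ∀ C' : ℝ, 1 ≤ C' → C' ≤ M → 1 / (200 * M ^ 3) ≤ 1 / C' := by
    intro C' h1 h2
    exact one_div_le_one_div_of_le (by linarith) (by linarith)
  obtain ⟨EA, lA, hEA, hlA, hA⟩ := hA L e0 H0 g hg hL hH0 he0 he1 A ε r hA1 hε
    (hεC.trans (hinv _ hCA (by linarith))) hr (hrC.trans (hinv _ hCA (by linarith)))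
  obtain ⟨EB, lB, hEB, hlB, hB⟩ := hB L e0 H0 g hg hL hH0 he0 he1 A ε r hA1 hε
    (hεC.trans (hinv _ hCB (by linarith))) hr (hrC.trans (hinv _ hCB (by linarith)))
  obtain ⟨EC, lC, hEC, hlC, hC⟩ := hC L e0 H0 g hg hL hH0 he0 he1 A ε r hA1 hε
    (hεC.trans (hinv _ hCC (by linarith))) hr (hrC.trans (hinv _ hCC (by linarith)))
  obtain ⟨ED, lD, hED, hlD, hD⟩ := hD L e0 H0 g hg hL hH0 he0 he1 A ε r hA1 hε
    (hεC.trans (hinv _ hCD (by linarith))) hr (hrC.trans (hinv _ hCD (by linarith)))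
  obtain ⟨EE, lE, hEE, hlE, hE⟩ := hE L e0 H0 g hg hL hH0 he0 he1 A ε r hA1 hε
    (hεC.trans (hinv _ hCE (by linarith))) hr (hrC.trans (hinv _ hCE (by linarith)))
  obtain ⟨EF, lF, hEF, hlF, hF⟩ := hF L e0 H0 g hg hL hH0 he0 he1 A ε r hA1 hε
    (hεC.trans (hinv _ hCF (by linarith))) hr (hrC.trans (hinv _ hCF (by linarith)))
  obtain ⟨EG, lG, hEG, hlG, hG⟩ := hG L e0 H0 g hg hL hH0 he0 he1 A ε r hA1 hε
    (hεC.trans (hinv _ hCG (by linarith))) hr (hrC.trans (hinv _ hCG (by linarith)))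
  set E : ℝ := EA + EB + EC + ED + EE + EF + EG with hEdef
  have hE0 : 0 < E := by linarith
  have hA0 : 0 < A := by linarith
  have hH00 : 0 < H0 := by linarith
  have hL0 : 0 < L := by linarith
  -- consequences for ε, r
  have hεDC : ε ≤ 1 / D.C := hεC.trans (hinv _ hDC (by linarith))
  have hε1 : ε ≤ 1 := by
    refine hεDC.trans ?_
    rw [div_le_one (by linarith)]
    exact hDC
  have hrM : r ≤ 1 / (2 * M) := hrC.trans (one_div_le_one_div_of_le (by linarith) hMC2)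
  have h2r : 2 * r ≤ 1 / D.C := by
    have h1 : 2 * r ≤ 2 * (1 / (2 * M)) := by gcongr
    have h2 : 2 * (1 / (2 * M)) = 1 / M := by field_simp
    have h3 : 1 / M ≤ 1 / D.C := one_div_le_one_div_of_le (by linarith) (by linarith)
    linarith
  have hr4 : r ≤ D.d0 / 4 := by
    have h1 : 1 / (2 * M) ≤ 1 / (4 / D.d0) := one_div_le_one_div_of_le hd4 (by linarith)
    have h2 : 1 / (4 / D.d0) = D.d0 / 4 := by field_simp
    linarith
  refine ⟨E * (3 + M * A / ε ^ 2 + M * A) * (2 * L + 4) +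
        (2 * E + M * H0 * L / A) * (1 + E) * (8 * (2 * L + 4)),
    min (min (min lA lB) (min lC lD)) (min (min lE lF) (min lG (1 / 64))), by positivity,
    lt_min (lt_min (lt_min hlA hlB) (lt_min hlC hlD)) (lt_min (lt_min hlE hlF)
      (lt_min hlG (by norm_num))), ?_⟩
  intro l hl hl0
  have hlA' : l ≤ lA := hl0.trans ((min_le_left _ _).trans ((min_le_left _ _).trans (min_le_left _ _)))
  have hlB' : l ≤ lB := hl0.trans ((min_le_left _ _).trans ((min_le_left _ _).trans (min_le_right _ _)))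
  have hlC' : l ≤ lC := hl0.trans ((min_le_left _ _).trans ((min_le_right _ _).trans (min_le_left _ _)))
  have hlD' : l ≤ lD := hl0.trans ((min_le_left _ _).trans ((min_le_right _ _).trans (min_le_right _ _)))
  have hlE' : l ≤ lE := hl0.trans ((min_le_right _ _).trans ((min_le_left _ _).trans (min_le_left _ _)))
  have hlF' : l ≤ lF := hl0.trans ((min_le_right _ _).trans ((min_le_left _ _).trans (min_le_right _ _)))
  have hlG' : l ≤ lG := hl0.trans ((min_le_right _ _).trans ((min_le_right _ _).trans (min_le_left _ _)))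
  have hl64 : l ≤ 1 / 64 :=
    hl0.trans ((min_le_right _ _).trans ((min_le_right _ _).trans (min_le_right _ _)))
  have hl1 : l ≤ 1 := by linarith
  have hA := hA l hl hlA'
  have hB := hB l hl hlB'
  have hC := hC l hl hlC'
  have hD := hD l hl hlD'
  have hE := hE l hl hlE'
  have hF := hF l hl hlF'
  have hG := hG l hl hlG'
  have hV := hV D g A r l hg.1 hA1 hr hr4 hl
  refine le_trans ?_ (arith (M := M) (E := E) (L := L) (e0 := e0) (H0 := H0) (A := A) (ε := ε) (r := r)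
    (l := l) (DC := D.C) hM1 hE0 hL he0 hH0 hA1 hε hε1 hr hl hl1 hDC (by linarith))
  -- abbreviations
  set O : ℂ → ℝ := fun z => ‖om (D.VV g A r l) (D.CC g A r l) (D.FF A ε r l) z‖ with hO
  set B : ℂ → ℝ := fun z => ‖dzb (D.VV g A r l) z‖ with hBd
  set F : ℂ → ℝ := fun z => ‖fderiv ℝ (D.FF A ε r l) z‖ with hFd
  -- the sets
  let S : Fin 5 → Set ℂ := ![
    Set.Icc (-(L + 2)) (L + 2) ×ℂ Set.Icc (1 / 8 - 2 * l) (1 / 8 + 2 * l),
    Set.Icc (-(L + 2)) (L + 2) ×ℂ Set.Icc (7 / 8 - 2 * l) (7 / 8 + 2 * l),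
    {z : ℂ | z / l ∈ {w : ℂ | ‖w‖ ≤ (L + 3) / l ∧ w ∉ D.Z ∧ ‖D.U w‖ < ε}},
    {z : ℂ | z / l ∈ {w : ℂ | ‖w‖ ≤ (L + 3) / l ∧ Metric.infDist w D.Z ≤ 2 * r}},
    {z : ℂ | z / l ∈ {w : ℂ | ‖w‖ ≤ (L + 3) / l ∧ Metric.infDist w D.Z ≤ r / 2}}]
  let v : Fin 5 → ℝ := ![4 * l * (2 * L + 4), 4 * l * (2 * L + 4), D.C * ε ^ 2 * (L + 3) ^ 2,
    D.C * (2 * r) ^ 2 * (L + 3) ^ 2, D.C * (r / 2) ^ 2 * (L + 3) ^ 2]
  let c : Fin 5 → ℝ := ![(E + (M * H0 * L / A + E * l)) * (1 + E),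
    (E + (M * H0 * L / A + E * l)) * (1 + E), M * H0 * ε * (1 + M * A / ε ^ 2),
    M * H0 * L / r * (1 + M * A), M * H0 / (A * r ^ 2)]
  have hR : 1 ≤ (L + 3) / l := by
    rw [le_div_iff₀ hl]
    linarith
  have hscale : ∀ t : ℝ, l ^ 2 * (D.C * t ^ 2 * ((L + 3) / l) ^ 2) = D.C * t ^ 2 * (L + 3) ^ 2 := by
    intro t
    field_simp
  have hmain := int_bound (K L) (2 * L + 4) (by linarith)
    (by
      rw [K_eq]
      exact (isClosed_Icc.reProdIm isClosed_Icc).measurableSet)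
    (by
      rw [K_eq, vol_rect, ← ENNReal.ofReal_mul (by linarith)]
      refine ENNReal.ofReal_le_ofReal ?_
      linarith) S v c ?_ ?_
    (M * e0 + M * H0 * L / A + E * l + E * l * (1 + M * A / ε ^ 2) + E * l * (1 + M * A))
    (by positivity) ?_ (fun z => (O z + B z) * (1 + F z)) (fun z _ => by positivity) ?_
  · simp only [Fin.sum_univ_five] at hmain
    exact hmain
  · intro i
    fin_cases i <;> simp only [v] <;> simp <;> positivity
  · intro i
    fin_cases i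
    · show volume (Set.Icc (-(L + 2)) (L + 2) ×ℂ Set.Icc (1 / 8 - 2 * l) (1 / 8 + 2 * l)) ≤
        ENNReal.ofReal (4 * l * (2 * L + 4))
      rw [vol_rect, ← ENNReal.ofReal_mul (by linarith)]
      refine ENNReal.ofReal_le_ofReal (le_of_eq ?_)
      ring
    · show volume (Set.Icc (-(L + 2)) (L + 2) ×ℂ Set.Icc (7 / 8 - 2 * l) (7 / 8 + 2 * l)) ≤
        ENNReal.ofReal (4 * l * (2 * L + 4))
      rw [vol_rect, ← ENNReal.ofReal_mul (by linarith)]
      refine ENNReal.ofReal_le_ofReal (le_of_eq ?_)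
      ring
    · show volume {z : ℂ | z / l ∈ {w : ℂ | ‖w‖ ≤ (L + 3) / l ∧ w ∉ D.Z ∧ ‖D.U w‖ < ε}} ≤
        ENNReal.ofReal (D.C * ε ^ 2 * (L + 3) ^ 2)
      refine (vol_scale _ l hl _ (D.areaU ε ((L + 3) / l) hε hεDC hR)).trans ?_
      rw [hscale]
    · show volume {z : ℂ | z / l ∈ {w : ℂ | ‖w‖ ≤ (L + 3) / l ∧ Metric.infDist w D.Z ≤ 2 * r}} ≤
        ENNReal.ofReal (D.C * (2 * r) ^ 2 * (L + 3) ^ 2)
      refine (vol_scale _ l hl _ (D.areaZ (2 * r) ((L + 3) / l) (by linarith) h2r hR)).trans ?_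
      rw [hscale]
    · show volume {z : ℂ | z / l ∈ {w : ℂ | ‖w‖ ≤ (L + 3) / l ∧ Metric.infDist w D.Z ≤ r / 2}} ≤
        ENNReal.ofReal (D.C * (r / 2) ^ 2 * (L + 3) ^ 2)
      refine (vol_scale _ l hl _ (D.areaZ (r / 2) ((L + 3) / l) (by linarith) (by linarith) hR)).trans ?_
      rw [hscale]
  · intro i
    fin_cases i <;> simp only [c] <;> simp <;> positivity
  · -- the pointwise bound
    intro z hz
    simp only [Fin.sum_univ_five]
    have hi : ∀ i, 0 ≤ (S i).indicator (1 : ℂ → ℝ) z := fun i =>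
      Set.indicator_nonneg (fun _ _ => zero_le_one) z
    have hi1 : ∀ i, z ∈ S i → (S i).indicator (1 : ℂ → ℝ) z = 1 := fun i h => by
      rw [Set.indicator_of_mem h]
      rfl
    have hc0 : 0 ≤ c 0 := by simp only [c]; simp; positivity
    have hc1 : 0 ≤ c 1 := by simp only [c]; simp; positivity
    have hc2 : 0 ≤ c 2 := by simp only [c]; simp; positivity
    have hc3 : 0 ≤ c 3 := by simp only [c]; simp; positivity
    have hc4 : 0 ≤ c 4 := by simp only [c]; simp; positivity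
    have p0 := mul_nonneg hc0 (hi 0)
    have p1 := mul_nonneg hc1 (hi 1)
    have p2 := mul_nonneg hc2 (hi 2)
    have p3 := mul_nonneg hc3 (hi 3)
    have p4 := mul_nonneg hc4 (hi 4)
    have hO0 : 0 ≤ O z := norm_nonneg _
    have hB0 : 0 ≤ B z := norm_nonneg _
    have hF0 : 0 ≤ F z := norm_nonneg _
    have q0 : 0 ≤ M * e0 := by positivity
    have q1 : 0 ≤ M * H0 * L / A := by positivity
    have q2 : 0 ≤ E * l := by positivity
    have q3 : 0 ≤ E * l * (1 + M * A / ε ^ 2) := by positivity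
    have q4 : 0 ≤ E * l * (1 + M * A) := by positivity
    have hEG' : EG * l ≤ E * l := by
      have : EG ≤ E := by linarith
      gcongr
    have hCG' : CG * H0 * L / A ≤ M * H0 * L / A := by
      have : CG ≤ M := by linarith
      gcongr
    have hGz := hG z hz
    beta_reduce at hGz
    have hBz : ¬ (r / 4 ≤ D.ρ l z ∧ D.ρ l z ≤ r / 2) → B z ≤ M * H0 * L / A + E * l := by
      intro h
      rw [if_neg h] at hGz
      have : B z ≤ CG * H0 * L / A + EG * l + 0 := hGz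
      linarith
    by_cases ha : D.ρ l z < r
    · -- near the masses
      obtain ⟨e1, e2⟩ := hB z hz ha
      have hOz : O z = 0 := by
        simp only [hO]
        rw [e1, norm_zero]
      have hFz : F z = 0 := by
        simp only [hFd]
        rw [e2, norm_zero]
      rw [hOz, hFz]
      by_cases h : r / 4 ≤ D.ρ l z ∧ D.ρ l z ≤ r / 2
      · rw [if_pos h] at hGz
        have h1 : B z ≤ CG * H0 * L / A + EG * l + CG * H0 / (A * r ^ 2) := hGz
        have h2 : CG * H0 / (A * r ^ 2) ≤ M * H0 / (A * r ^ 2) := by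
          have : CG ≤ M := by linarith
          gcongr
        have h3 : z ∈ S 4 := by
          show z / l ∈ {w : ℂ | ‖w‖ ≤ (L + 3) / l ∧ Metric.infDist w D.Z ≤ r / 2}
          exact ⟨norm_scaled hl hz, h.2⟩
        have h4 : c 4 * (S 4).indicator (1 : ℂ → ℝ) z = M * H0 / (A * r ^ 2) := by
          rw [hi1 4 h3, mul_one]
          rfl
        rw [h4]
        linarith
      · have h1 := hBz h
        linarith
    · push Not at ha
      have hBz := hBz (fun h => by linarith [h.2])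
      by_cases hb : z.im < 1 / 8 - 2 * l ∨ 7 / 8 + 2 * l < z.im
      · -- near the walls
        obtain ⟨e1, e2⟩ := hC z hz hb
        have hOz : O z ≤ M * e0 := by
          have h1 : O z ≤ CC * e0 := e1
          have h2 : CC * e0 ≤ M * e0 := by
            have : CC ≤ M := by linarith
            gcongr
          linarith
        have hFz : F z = 0 := by
          simp only [hFd]
          rw [e2, norm_zero]
        rw [hFz]
        linarith
      · push Not at hb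
        by_cases hm : 1 / 8 + 2 * l < z.im ∧ z.im < 7 / 8 - 2 * l
        · -- the middle
          have hB0z : B z = 0 := by
            have h1 := (hV z (by linarith) (by linarith [hm.1]) (by linarith [hm.2])).2.1
            simp only [hBd]
            rw [h1, norm_zero]
          obtain ⟨d1, d2⟩ := hD z hz hm.1 hm.2
          rw [hB0z]
          by_cases h2 : 2 * r < D.ρ l z
          · have h3 := hE z hz hm.1 hm.2 h2
            beta_reduce at h3
            have h4 : F z ≤ M * A / ε ^ 2 := by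
              have h5 : F z ≤ CD * A / ε ^ 2 := d1
              have h6 : CD * A / ε ^ 2 ≤ M * A / ε ^ 2 := by
                have : CD ≤ M := by linarith
                gcongr
              linarith
            have hEE' : EE * l ≤ E * l := by
              have : EE ≤ E := by linarith
              gcongr
            by_cases h7 : ‖D.U (z / l)‖ < ε
            · rw [if_pos h7] at h3
              have h8 : O z ≤ EE * l + CE * H0 * ε := h3
              have h9 : CE * H0 * ε ≤ M * H0 * ε := by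
                have : CE ≤ M := by linarith
                gcongr
              have h10 : z ∈ S 2 := by
                show z / l ∈ {w : ℂ | ‖w‖ ≤ (L + 3) / l ∧ w ∉ D.Z ∧ ‖D.U w‖ < ε}
                refine ⟨norm_scaled hl hz, ?_, h7⟩
                intro hmem
                have h11 : D.ρ l z = 0 := Metric.infDist_zero_of_mem hmem
                linarith
              have h12 : c 2 * (S 2).indicator (1 : ℂ → ℝ) z = M * H0 * ε * (1 + M * A / ε ^ 2) := by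
                rw [hi1 2 h10, mul_one]
                rfl
              rw [h12]
              have h13 : (O z + 0) * (1 + F z) ≤ (E * l + M * H0 * ε) * (1 + M * A / ε ^ 2) := by
                have : O z ≤ E * l + M * H0 * ε := by linarith
                rw [add_zero]
                gcongr
              have h14 : (E * l + M * H0 * ε) * (1 + M * A / ε ^ 2) =
                E * l * (1 + M * A / ε ^ 2) + M * H0 * ε * (1 + M * A / ε ^ 2) := by ring
              linarith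
            · rw [if_neg h7] at h3
              have h8 : O z ≤ EE * l + 0 := h3
              have h13 : (O z + 0) * (1 + F z) ≤ (E * l) * (1 + M * A / ε ^ 2) := by
                have : O z ≤ E * l := by linarith
                rw [add_zero]
                gcongr
              linarith
          · push Not at h2
            have h3 : O z ≤ EF * l + CF * H0 * L / r := hF z hz hm.1 hm.2 ha h2
            have h4 : F z ≤ M * A := by
              have h5 : F z ≤ CD * A := d2 h2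
              have h6 : CD * A ≤ M * A := by
                have : CD ≤ M := by linarith
                gcongr
              linarith
            have hEF' : EF * l ≤ E * l := by
              have : EF ≤ E := by linarith
              gcongr
            have h9 : CF * H0 * L / r ≤ M * H0 * L / r := by
              have : CF ≤ M := by linarith
              gcongr
            have h10 : z ∈ S 3 := by
              show z / l ∈ {w : ℂ | ‖w‖ ≤ (L + 3) / l ∧ Metric.infDist w D.Z ≤ 2 * r}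
              exact ⟨norm_scaled hl hz, h2⟩
            have h12 : c 3 * (S 3).indicator (1 : ℂ → ℝ) z = M * H0 * L / r * (1 + M * A) := by
              rw [hi1 3 h10, mul_one]
              rfl
            rw [h12]
            have h13 : (O z + 0) * (1 + F z) ≤ (E * l + M * H0 * L / r) * (1 + M * A) := by
              have : O z ≤ E * l + M * H0 * L / r := by linarith
              rw [add_zero]
              gcongr
            have h14 : (E * l + M * H0 * L / r) * (1 + M * A) =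
              E * l * (1 + M * A) + M * H0 * L / r * (1 + M * A) := by ring
            linarith
        · -- the two layers
          have h1 : z ∈ S 0 ∨ z ∈ S 1 := by
            by_cases h : z.im ≤ 1 / 8 + 2 * l
            · left
              show z ∈ Set.Icc (-(L + 2)) (L + 2) ×ℂ Set.Icc (1 / 8 - 2 * l) (1 / 8 + 2 * l)
              rw [Complex.mem_reProdIm]
              exact ⟨abs_le.1 hz.1, hb.1, h⟩
            · right
              push Not at h
              have h2 : 7 / 8 - 2 * l ≤ z.im := by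
                by_contra h3
                push Not at h3
                exact hm ⟨h, h3⟩
              show z ∈ Set.Icc (-(L + 2)) (L + 2) ×ℂ Set.Icc (7 / 8 - 2 * l) (7 / 8 + 2 * l)
              rw [Complex.mem_reProdIm]
              exact ⟨abs_le.1 hz.1, h2, hb.2⟩
          obtain ⟨a1, a2⟩ := hA z hz
          have hOz : O z ≤ E := by
            have : O z ≤ EA := a1
            linarith
          have hFz : F z ≤ E := by
            have : F z ≤ EA := a2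
            linarith
          have h3 : (O z + B z) * (1 + F z) ≤ (E + (M * H0 * L / A + E * l)) * (1 + E) := by
            gcongr
          rcases h1 with h1 | h1
          · have h12 : c 0 * (S 0).indicator (1 : ℂ → ℝ) z = (E + (M * H0 * L / A + E * l)) * (1 + E) := by
              rw [hi1 0 h1, mul_one]
              rfl
            rw [h12]
            linarith
          · have h12 : c 1 * (S 1).indicator (1 : ℂ → ℝ) z = (E + (M * H0 * L / A + E * l)) * (1 + E) := by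
              rw [hi1 1 h1, mul_one]
              rfl
            rw [h12]
            linarith

end MP1707
end

section
/-!
# ELL0
-/
set_option autoImplicit false

namespace MP1707

theorem specEll0 (hZ : SpecZeta) (hH : SpecHex) : SpecEll0 := by
  obtain ⟨Λ, h2, h3⟩ := hH
  obtain ⟨ζ, h4, h5⟩ := hZ Λ
  obtain ⟨s, hs⟩ := IsAlgClosed.exists_pow_nat_eq (-Λ.g₃) (n := 2) (by norm_num)
  refine ⟨⟨Λ, h2, s, ?_, hs, ζ, h4, h5⟩⟩
  rintro rfl
  apply h3
  simpa using hs.symm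

end MP1707
end

section
/-!
# MP_1707ab_an, n = 2, part M, module ENV
-/
set_option autoImplicit false

open scoped Topology BigOperators ContDiff

namespace MP1707

namespace EnvM

/-- the derivative of the envelope, up to a constant -/
noncomputable def f0 (Λ : ℝ) (z : ℂ) : ℂ :=
  Complex.sinh (Real.pi * z) * Complex.exp (-(Λ : ℂ) * Complex.cosh (Real.pi * z) ^ 2)

theorem differentiable_f0 (Λ : ℝ) : Differentiable ℂ (f0 Λ) := by
  unfold f0
  fun_prop

theorem norm_sinh_le (w : ℂ) : ‖Complex.sinh w‖ ≤ Real.exp |w.re| := by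
  rw [Complex.sinh, norm_div, Complex.norm_ofNat]
  have h1 : ‖Complex.exp w - Complex.exp (-w)‖ ≤ Real.exp |w.re| + Real.exp |w.re| := by
    refine (norm_sub_le _ _).trans ?_
    rw [Complex.norm_exp, Complex.norm_exp, Complex.neg_re]
    gcongr
    · exact le_abs_self _
    · exact neg_le_abs _
  linarith

theorem cosh_sq_re (x y : ℝ) : (Complex.cosh (Real.pi * (⟨x, y⟩ : ℂ)) ^ 2).re =
    (1 + Real.cosh (2 * Real.pi * x) * Real.cos (2 * Real.pi * y)) / 2 := by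
  have h1 : Complex.cosh (Real.pi * (⟨x, y⟩ : ℂ)) ^ 2 =
      (1 + Complex.cosh (2 * (Real.pi * (⟨x, y⟩ : ℂ)))) / 2 := by
    rw [Complex.cosh_two_mul, Complex.sinh_sq]
    ring
  have h2 : 2 * (Real.pi * (⟨x, y⟩ : ℂ)) =
      ((2 * Real.pi * x : ℝ) : ℂ) + ((2 * Real.pi * y : ℝ) : ℂ) * Complex.I := by
    apply Complex.ext <;> simp <;> ring
  rw [h1, h2, Complex.cosh_add, Complex.cosh_mul_I, Complex.sinh_mul_I]
  have e : (1 + (Complex.cosh ((2 * Real.pi * x : ℝ) : ℂ) * Complex.cos ((2 * Real.pi * y : ℝ) : ℂ) +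
      Complex.sinh ((2 * Real.pi * x : ℝ) : ℂ) * (Complex.sin ((2 * Real.pi * y : ℝ) : ℂ) * Complex.I))) / 2 =
      (((1 + Real.cosh (2 * Real.pi * x) * Real.cos (2 * Real.pi * y)) / 2 : ℝ) : ℂ) +
        ((Real.sinh (2 * Real.pi * x) * Real.sin (2 * Real.pi * y) / 2 : ℝ) : ℂ) * Complex.I := by
    push_cast
    ring
  rw [e, Complex.add_re, Complex.ofReal_re, Complex.re_ofReal_mul, Complex.I_re]
  ring

theorem norm_f0_le {Λ L : ℝ} (hΛ : 0 ≤ Λ) (z : ℂ) (hre : |z.re| ≤ L + 3)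
    (hc : 0 ≤ Real.cos (2 * Real.pi * z.im)) :
    ‖f0 Λ z‖ ≤ Real.exp (Real.pi * (L + 3)) * Real.exp (-(Λ / 2)) := by
  unfold f0
  rw [norm_mul]
  have hz : z = ⟨z.re, z.im⟩ := rfl
  have h1 : ‖Complex.sinh (Real.pi * z)‖ ≤ Real.exp (Real.pi * (L + 3)) := by
    refine (norm_sinh_le _).trans ?_
    gcongr
    have : ((Real.pi : ℂ) * z).re = Real.pi * z.re := by simp
    rw [this, abs_mul, abs_of_pos Real.pi_pos]
    gcongr
  have h2 : ‖Complex.exp (-(Λ : ℂ) * Complex.cosh (Real.pi * z) ^ 2)‖ ≤ Real.exp (-(Λ / 2)) := by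
    rw [Complex.norm_exp]
    gcongr
    have e : (-(Λ : ℂ) * Complex.cosh (Real.pi * z) ^ 2).re =
        -Λ * (Complex.cosh (Real.pi * z) ^ 2).re := by
      rw [← Complex.ofReal_neg, Complex.re_ofReal_mul]
    rw [e, hz, cosh_sq_re]
    have h3 : 0 ≤ Real.cosh (2 * Real.pi * z.re) * Real.cos (2 * Real.pi * z.im) :=
      mul_nonneg (Real.cosh_pos _).le hc
    nlinarith
  exact mul_le_mul h1 h2 (norm_nonneg _) (Real.exp_pos _).le

theorem f0_line (Λ y : ℝ) : Complex.I * f0 Λ ((y : ℂ) * Complex.I) =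
    ((-(Real.sin (Real.pi * y) * Real.exp (-Λ * Real.cos (Real.pi * y) ^ 2)) : ℝ) : ℂ) := by
  unfold f0
  have e : (Real.pi : ℂ) * ((y : ℂ) * Complex.I) = ((Real.pi * y : ℝ) : ℂ) * Complex.I := by
    push_cast; ring
  rw [e, Complex.sinh_mul_I, Complex.cosh_mul_I]
  push_cast
  linear_combination (Complex.sin (Real.pi * y) *
    Complex.exp (-(Λ : ℂ) * Complex.cos (Real.pi * y) ^ 2)) * Complex.I_sq

theorem lower {Λ : ℝ} (hΛ : 0 ≤ Λ) :
    1 / 6 * Real.exp (-(Λ / 4)) ≤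
      ∫ y in (0 : ℝ)..1, Real.sin (Real.pi * y) * Real.exp (-Λ * Real.cos (Real.pi * y) ^ 2) := by
  set F : ℝ → ℝ := fun y => Real.sin (Real.pi * y) * Real.exp (-Λ * Real.cos (Real.pi * y) ^ 2)
    with hF
  have hFc : Continuous F := by rw [hF]; fun_prop
  have h1 : ∫ y in (1 / 3 : ℝ)..(2 / 3), F y ≤ ∫ y in (0 : ℝ)..1, F y := by
    refine intervalIntegral.integral_mono_interval (by norm_num) (by norm_num) (by norm_num) ?_
      (hFc.intervalIntegrable _ _)
    filter_upwards [MeasureTheory.ae_restrict_mem measurableSet_Ioc] with y hy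
    refine mul_nonneg (Real.sin_nonneg_of_nonneg_of_le_pi ?_ ?_) (Real.exp_pos _).le
    · exact mul_nonneg Real.pi_pos.le hy.1.le
    · have := mul_le_mul_of_nonneg_left hy.2 Real.pi_pos.le
      linarith
  have h2 : ∫ _ in (1 / 3 : ℝ)..(2 / 3), (1 / 2 * Real.exp (-(Λ / 4))) ≤
      ∫ y in (1 / 3 : ℝ)..(2 / 3), F y := by
    refine intervalIntegral.integral_mono_on (by norm_num) (by simp)
      (hFc.intervalIntegrable _ _) ?_
    intro y hy
    have hpi := Real.pi_pos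
    have ha : Real.pi / 3 ≤ Real.pi * y := by
      have := mul_le_mul_of_nonneg_left hy.1 hpi.le
      linarith
    have hb : Real.pi * y ≤ Real.pi - Real.pi / 3 := by
      have := mul_le_mul_of_nonneg_left hy.2 hpi.le
      linarith
    have c1 : Real.cos (Real.pi * y) ≤ 1 / 2 := by
      rw [← Real.cos_pi_div_three]
      exact Real.cos_le_cos_of_nonneg_of_le_pi (by positivity) (by linarith) ha
    have c2 : -(1 / 2) ≤ Real.cos (Real.pi * y) := by
      rw [← Real.cos_pi_div_three, ← Real.cos_pi_sub]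
      exact Real.cos_le_cos_of_nonneg_of_le_pi (by linarith) (by linarith) hb
    have c3 : Real.cos (Real.pi * y) ^ 2 ≤ 1 / 4 := by nlinarith
    have s0 : 0 ≤ Real.sin (Real.pi * y) :=
      Real.sin_nonneg_of_nonneg_of_le_pi (by linarith) (by linarith)
    have s1 := Real.sin_sq_add_cos_sq (Real.pi * y)
    have s2 := Real.sin_le_one (Real.pi * y)
    have s3 : 1 / 2 ≤ Real.sin (Real.pi * y) := by nlinarith
    refine mul_le_mul s3 ?_ (Real.exp_pos _).le s0
    gcongr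
    nlinarith
  have h3 : ∫ _ in (1 / 3 : ℝ)..(2 / 3), (1 / 2 * Real.exp (-(Λ / 4))) =
      1 / 6 * Real.exp (-(Λ / 4)) := by
    rw [intervalIntegral.integral_const, smul_eq_mul]
    ring
  linarith

theorem choose_Lam (A e0 : ℝ) (hA : 0 < A) (he0 : 0 < e0) :
    ∃ Λ : ℝ, 0 ≤ Λ ∧ A * Real.exp (-(Λ / 4)) ≤ e0 := by
  refine ⟨4 * max 0 (Real.log (A / e0)), by positivity, ?_⟩
  have h1 : Real.log (A / e0) ≤ max 0 (Real.log (A / e0)) := le_max_right _ _
  have h2 : Real.exp (-(4 * max 0 (Real.log (A / e0)) / 4)) ≤ Real.exp (-Real.log (A / e0)) := by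
    gcongr
    linarith
  rw [Real.exp_neg (Real.log (A / e0)), Real.exp_log (by positivity)] at h2
  calc _ ≤ A * (A / e0)⁻¹ := by gcongr
    _ = e0 := by field_simp

end EnvM

open EnvM in
theorem specEnv : SpecEnv := by
  intro L e0 hL he0
  have hB : (0 : ℝ) < Real.exp (Real.pi * (L + 3)) := Real.exp_pos _
  obtain ⟨Λ, hΛ, hΛ2⟩ := choose_Lam (6 * Real.exp (Real.pi * (L + 3)) * (L + 4)) e0
    (by positivity) he0
  obtain ⟨g0, hg0⟩ := (differentiable_f0 Λ).isExactOn_univ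
  have hg0 : ∀ z, HasDerivAt g0 (f0 Λ z) z := fun z => hg0 z (Set.mem_univ z)
  set D : ℂ := g0 Complex.I - g0 0 with hD
  have hDn : 1 / 6 * Real.exp (-(Λ / 4)) ≤ ‖D‖ := by
    have hcont : Continuous fun y : ℝ =>
        (-(Real.sin (Real.pi * y) * Real.exp (-Λ * Real.cos (Real.pi * y) ^ 2)) : ℝ) := by fun_prop
    have h1 : ∀ y ∈ Set.uIcc (0 : ℝ) 1, HasDerivAt (fun y : ℝ => g0 ((y : ℂ) * Complex.I))
        (((-(Real.sin (Real.pi * y) * Real.exp (-Λ * Real.cos (Real.pi * y) ^ 2)) : ℝ) : ℂ)) y := by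
      intro y _
      rw [← f0_line, mul_comm]
      have h2 : HasDerivAt (fun y : ℝ => (y : ℂ) * Complex.I) Complex.I y := by
        simpa using (Complex.ofRealCLM.hasDerivAt (x := y)).mul_const Complex.I
      exact (hg0 ((y : ℂ) * Complex.I)).comp y h2
    have h2 := intervalIntegral.integral_eq_sub_of_hasDerivAt h1
      ((Complex.continuous_ofReal.comp hcont).intervalIntegrable _ _)
    have h3 : D = ((∫ y in (0 : ℝ)..1,
        (-(Real.sin (Real.pi * y) * Real.exp (-Λ * Real.cos (Real.pi * y) ^ 2))) : ℝ) : ℂ) := by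
      rw [← intervalIntegral.integral_ofReal, h2, hD]
      simp
    rw [h3, Complex.norm_real, intervalIntegral.integral_neg, norm_neg, Real.norm_eq_abs]
    exact (lower hΛ).trans (le_abs_self _)
  have hDpos : 0 < ‖D‖ := lt_of_lt_of_le (by positivity) hDn
  have hD0 : D ≠ 0 := norm_pos_iff.mp hDpos
  set g : ℂ → ℂ := fun z => (g0 z - g0 0) / D with hg
  have hgd : ∀ z, HasDerivAt g (f0 Λ z / D) z := fun z => ((hg0 z).sub_const _).div_const D
  set M : ℝ := 6 * Real.exp (Real.pi * (L + 3)) * Real.exp (-(Λ / 4)) with hM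
  have hM0 : 0 < M := by positivity
  have hM1 : M * (L + 4) ≤ e0 := by rw [hM]; linarith
  have hM2 : M ≤ e0 := by nlinarith
  have hder : ∀ z : ℂ, |z.re| ≤ L + 3 → 0 ≤ Real.cos (2 * Real.pi * z.im) → ‖deriv g z‖ ≤ M := by
    intro z h1 h2
    rw [(hgd z).deriv, norm_div, div_le_iff₀ hDpos]
    have e : Real.exp (-(Λ / 2)) = Real.exp (-(Λ / 4)) * Real.exp (-(Λ / 4)) := by
      rw [← Real.exp_add]; congr 1; ring
    calc ‖f0 Λ z‖ ≤ Real.exp (Real.pi * (L + 3)) * Real.exp (-(Λ / 2)) := norm_f0_le hΛ z h1 h2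
      _ = M * (1 / 6 * Real.exp (-(Λ / 4))) := by rw [e, hM]; ring
      _ ≤ M * ‖D‖ := by gcongr
  have hcos0 : ∀ y : ℝ, |y| ≤ 1 / 4 → 0 ≤ Real.cos (2 * Real.pi * y) := by
    intro y hy
    have := abs_le.mp hy
    have hpi := Real.pi_pos
    exact Real.cos_nonneg_of_neg_pi_div_two_le_of_le (by nlinarith) (by nlinarith)
  have hcos1 : ∀ y : ℝ, |y - 1| ≤ 1 / 4 → 0 ≤ Real.cos (2 * Real.pi * y) := by
    intro y hy
    have := hcos0 (y - 1) hy
    have e : 2 * Real.pi * (y - 1) = 2 * Real.pi * y - 2 * Real.pi := by ring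
    rwa [e, Real.cos_sub_two_pi] at this
  have hgdiff : Differentiable ℂ g := fun z => (hgd z).differentiableAt
  refine ⟨g, hgdiff, ?_, ?_⟩
  · intro z h1 h2
    refine ⟨?_, (hder z h1 (hcos0 _ h2)).trans hM2⟩
    set S : Set ℂ := {w | |w.re| ≤ L + 3 ∧ |w.im| ≤ 1 / 4} with hS
    have hconv : Convex ℝ S := by
      have : S = (Complex.reLm ⁻¹' (Set.Icc (-(L + 3)) (L + 3))) ∩
          (Complex.imLm ⁻¹' (Set.Icc (-(1 / 4)) (1 / 4))) := by
        ext w
        simp [hS, abs_le]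
      rw [this]
      exact ((convex_Icc _ _).linear_preimage _).inter ((convex_Icc _ _).linear_preimage _)
    have h3 := hconv.norm_image_sub_le_of_norm_deriv_le (f := g) (C := M) (x := 0) (y := z)
      (fun w _ => hgdiff w) (fun w hw => hder w hw.1 (hcos0 _ hw.2))
      ⟨by simp; linarith, by simp⟩ ⟨h1, h2⟩
    have h4 : g 0 = 0 := by simp [hg]
    rw [h4, sub_zero, sub_zero] at h3
    refine h3.trans (le_trans ?_ hM1)
    gcongr
    have := Complex.norm_le_abs_re_add_abs_im z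
    linarith
  · intro z h1 h2
    refine ⟨?_, (hder z h1 (hcos1 _ h2)).trans hM2⟩
    set S : Set ℂ := {w | |w.re| ≤ L + 3 ∧ |w.im - 1| ≤ 1 / 4} with hS
    have hconv : Convex ℝ S := by
      have : S = (Complex.reLm ⁻¹' (Set.Icc (-(L + 3)) (L + 3))) ∩
          (Complex.imLm ⁻¹' (Set.Icc (3 / 4) (5 / 4))) := by
        ext w
        simp only [hS, Set.mem_ofPred_eq, abs_le, Set.mem_inter_iff, Set.mem_preimage,
          Complex.reLm_coe, Complex.imLm_coe, Set.mem_Icc]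
        constructor
        · rintro ⟨⟨a, b⟩, c, d⟩
          exact ⟨⟨a, b⟩, by linarith, by linarith⟩
        · rintro ⟨⟨a, b⟩, c, d⟩
          exact ⟨⟨a, b⟩, by linarith, by linarith⟩
      rw [this]
      exact ((convex_Icc _ _).linear_preimage _).inter ((convex_Icc _ _).linear_preimage _)
    have h3 := hconv.norm_image_sub_le_of_norm_deriv_le (f := g) (C := M) (x := Complex.I) (y := z)
      (fun w _ => hgdiff w) (fun w hw => hder w hw.1 (hcos1 _ hw.2))
      ⟨by simp; linarith, by simp⟩ ⟨h1, h2⟩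
    have h4 : g Complex.I = 1 := by
      simp only [hg, ← hD]
      exact div_self hD0
    rw [h4] at h3
    refine h3.trans (le_trans ?_ hM1)
    gcongr
    have := Complex.norm_le_abs_re_add_abs_im (z - Complex.I)
    simp only [Complex.sub_re, Complex.I_re, sub_zero, Complex.sub_im, Complex.I_im] at this
    linarith

end MP1707
end

section
/-!
# MP_1707ab_an, n = 2, PART M, module MMAIN (helper58)

Assembly of the macroscopic fields.
-/
set_option autoImplicit false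

open scoped Topology BigOperators Classical ContDiff
open MeasureTheory

namespace MP1707

namespace MMain

theorem near_cases (D : Cell) (w : ℂ) :
    (D.near w = 0 ∧ ∀ p ∈ D.Z, 2 * D.d0 ≤ ‖w - p‖) ∨ (D.near w ∈ D.Z ∧ ‖w - D.near w‖ < 2 * D.d0) := by
  by_cases h : ∃ p ∈ D.Z, ‖w - p‖ < 2 * D.d0
  · right
    have h1 : D.near w = h.choose := by
      unfold Cell.near
      rw [dif_pos h]
    rw [h1]
    exact h.choose_spec
  · left
    have h1 : D.near w = 0 := by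
      unfold Cell.near
      rw [dif_neg h]
    refine ⟨h1, ?_⟩
    push Not at h
    exact h

/-- `l * near` is close to `z`, or there is no mass near `z` and `th = 1`. -/
theorem near_im (D : Cell) (r l : ℝ) (hr : 0 < r) (hr' : r ≤ D.d0 / 4) (hl : 0 < l) (z : ℂ) :
    (D.near (z / l) = 0 ∧ D.th r (z / l) = 1) ∨ |l * (D.near (z / l)).im - z.im| ≤ 2 * D.d0 * l := by
  rcases near_cases D (z / l) with ⟨h1, h2⟩ | ⟨h1, h2⟩
  · left
    refine ⟨h1, ?_⟩
    have h3 : 2 * D.d0 ≤ Metric.infDist (z / l) D.Z := by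
      rw [Metric.le_infDist D.ne]
      intro p hp
      rw [dist_eq_norm]
      exact h2 p hp
    unfold Cell.th chi
    refine Real.smoothTransition.one_of_one_le ?_
    have h4 : 2 ≤ Metric.infDist (z / l) D.Z / r := by
      rw [le_div_iff₀ hr]
      have := D.hd0
      linarith
    linarith
  · right
    have h3 : |(z / l - D.near (z / l)).im| ≤ 2 * D.d0 := (Complex.abs_im_le_norm _).trans h2.le
    have h4 : l * (D.near (z / l)).im - z.im = -(l * (z / l - D.near (z / l)).im) := by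
      have h5 : (z / (l : ℂ)).im = z.im / l := Complex.div_ofReal_im z l
      rw [Complex.sub_im, h5]
      field_simp
      ring
    rw [h4, abs_neg, abs_mul, abs_of_pos hl]
    calc l * |(z / l - D.near (z / l)).im| ≤ l * (2 * D.d0) := by gcongr
      _ = 2 * D.d0 * l := by ring

theorem chi1_low {l y : ℝ} (hl : 0 < l) (hy : y ≤ 1 / 8) : chi1 l y = 0 := by
  unfold chi1
  rw [Real.smoothTransition.zero_of_nonpos, zero_mul]
  exact div_nonpos_of_nonpos_of_nonneg (by linarith) hl.le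

theorem chi1_high {l y : ℝ} (hl : 0 < l) (hy : 7 / 8 ≤ y) : chi1 l y = 0 := by
  unfold chi1
  rw [Real.smoothTransition.zero_of_nonpos (x := (7 / 8 - y) / l), mul_zero]
  exact div_nonpos_of_nonpos_of_nonneg (by linarith) hl.le

theorem gw_low (g : ℂ → ℂ) {z : ℂ} (hz : z.im ≤ 3 / 32) : gw g z = 0 := by
  unfold gw chib chit
  rw [Real.smoothTransition.zero_of_nonpos (x := 32 * (z.im - 3 / 32)) (by linarith),
    Real.smoothTransition.one_of_one_le (x := 32 * (29 / 32 - z.im)) (by linarith)]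
  simp

theorem gw_high (g : ℂ → ℂ) {z : ℂ} (hz : 29 / 32 ≤ z.im) : gw g z = 1 := by
  unfold gw chit
  rw [Real.smoothTransition.zero_of_nonpos (x := 32 * (29 / 32 - z.im)) (by linarith)]
  simp

theorem bot (D : Cell) (g : ℂ → ℂ) (A ε r l : ℝ) (hr : 0 < r) (hr' : r ≤ D.d0 / 4) (hl : 0 < l)
    (hl' : 2 * D.d0 * l ≤ 1 / 32) (z : ℂ) (hz : z.im < 1 / 16) :
    D.VV g A r l z = 0 ∧ D.FF A ε r l z = 0 ∧ D.CC g A r l z = 0 := by
  have h0 : chi1 l z.im = 0 := chi1_low hl (by linarith)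
  have hn : l * (D.near (z / l)).im ≤ 3 / 32 := by
    rcases near_im D r l hr hr' hl z with h | h
    · rw [h.1]
      simp
      norm_num
    · rw [abs_le] at h
      linarith [h.2]
  have hj : D.Fj A l (z / l) = 0 := by
    unfold Cell.Fj
    rw [chi1_low hl (by linarith)]
    simp
  have hs : D.Fs A ε l z = 0 := by
    unfold Cell.Fs
    rw [h0]
    simp
  have hg : gw g z = 0 := gw_low g (by linarith)
  have hc : D.Cs g l z = 0 := by
    unfold Cell.Cs
    rw [h0, hg]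
    simp
  have hgn : gw g (l * D.near (z / l)) = 0 := by
    refine gw_low g ?_
    rw [Complex.im_ofReal_mul]
    exact hn
  refine ⟨?_, ?_, ?_⟩
  · unfold Cell.VV chi3
    rw [Real.smoothTransition.zero_of_nonpos (x := 64 * (z.im - 1 / 16)) (by linarith)]
    simp
  · unfold Cell.FF
    rw [hs, hj]
    simp
  · unfold Cell.CC
    rw [hc, hj, hgn]
    simp

theorem top (D : Cell) (g : ℂ → ℂ) (A ε r l : ℝ) (hr : 0 < r) (hr' : r ≤ D.d0 / 4) (hl : 0 < l)
    (hl' : 2 * D.d0 * l ≤ 1 / 32) (z : ℂ) (hz : 15 / 16 < z.im) :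
    D.VV g A r l z = 0 ∧ D.FF A ε r l z = 0 ∧ D.CC g A r l z = 1 := by
  have h0 : chi1 l z.im = 0 := chi1_high hl (by linarith)
  have hn : D.near (z / l) = 0 ∧ D.th r (z / l) = 1 ∨ 29 / 32 ≤ l * (D.near (z / l)).im := by
    rcases near_im D r l hr hr' hl z with h | h
    · left
      exact h
    · right
      rw [abs_le] at h
      linarith [h.1]
  have hj : D.Fj A l (z / l) = 0 := by
    unfold Cell.Fj
    rcases hn with hn | hn
    · rw [hn.1, Complex.zero_im, mul_zero, chi1_low hl (by norm_num)]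
      simp
    · rw [chi1_high hl (by linarith)]
      simp
  have hs : D.Fs A ε l z = 0 := by
    unfold Cell.Fs
    rw [h0]
    simp
  have hg : gw g z = 1 := gw_high g (by linarith)
  have hc : D.Cs g l z = 1 := by
    unfold Cell.Cs
    rw [h0, hg]
    simp
  refine ⟨?_, ?_, ?_⟩
  · unfold Cell.VV chi3
    rw [Real.smoothTransition.zero_of_nonpos (x := 64 * (15 / 16 - z.im)) (by linarith)]
    simp
  · unfold Cell.FF
    rw [hs, hj]
    simp
  · unfold Cell.CC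
    rcases hn with hn | hn
    · rw [hn.2, hc]
      simp
    · have hgn : gw g (l * D.near (z / l)) = 1 := by
        refine gw_high g ?_
        rw [Complex.im_ofReal_mul]
        exact hn
      rw [hc, hj, hgn]
      simp

/-- bounds of `g` and its derivatives on the box -/
theorem exists_H0 (g : ℂ → ℂ) (hg : Differentiable ℂ g) (L : ℝ) : ∃ H0 : ℝ, 1 ≤ H0 ∧
    ∀ z : ℂ, |z.re| ≤ L + 3 → |z.im| ≤ 2 → ‖g z‖ ≤ H0 ∧ ‖deriv g z‖ ≤ H0 ∧ ‖deriv (deriv g) z‖ ≤ H0 ∧
    ‖deriv (deriv (deriv g)) z‖ ≤ H0 := by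
  have hK : IsCompact (Set.Icc (-(L + 3)) (L + 3) ×ℂ Set.Icc (-2 : ℝ) 2) :=
    isCompact_Icc.reProdIm isCompact_Icc
  have hg1 : Differentiable ℂ (deriv g) := by
    have := hg.differentiableOn.deriv isOpen_univ (s := Set.univ)
    exact differentiableOn_univ.1 this
  have hg2 : Differentiable ℂ (deriv (deriv g)) := by
    have := hg1.differentiableOn.deriv isOpen_univ (s := Set.univ)
    exact differentiableOn_univ.1 this
  have hg3 : Differentiable ℂ (deriv (deriv (deriv g))) := by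
    have := hg2.differentiableOn.deriv isOpen_univ (s := Set.univ)
    exact differentiableOn_univ.1 this
  obtain ⟨M0, h0⟩ := hK.exists_bound_of_continuousOn hg.continuous.continuousOn
  obtain ⟨M1, h1⟩ := hK.exists_bound_of_continuousOn hg1.continuous.continuousOn
  obtain ⟨M2, h2⟩ := hK.exists_bound_of_continuousOn hg2.continuous.continuousOn
  obtain ⟨M3, h3⟩ := hK.exists_bound_of_continuousOn hg3.continuous.continuousOn
  refine ⟨1 + |M0| + |M1| + |M2| + |M3|, ?_, ?_⟩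
  · have a0 := abs_nonneg M0
    have a1 := abs_nonneg M1
    have a2 := abs_nonneg M2
    have a3 := abs_nonneg M3
    linarith
  · intro z hz hz'
    have hmem : z ∈ Set.Icc (-(L + 3)) (L + 3) ×ℂ Set.Icc (-2 : ℝ) 2 := by
      rw [Complex.mem_reProdIm]
      exact ⟨abs_le.1 hz, abs_le.1 hz'⟩
    have a0 := abs_nonneg M0
    have a1 := abs_nonneg M1
    have a2 := abs_nonneg M2
    have a3 := abs_nonneg M3
    have b0 := le_abs_self M0
    have b1 := le_abs_self M1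
    have b2 := le_abs_self M2
    have b3 := le_abs_self M3
    exact ⟨(h0 z hmem).trans (by linarith), (h1 z hmem).trans (by linarith),
      (h2 z hmem).trans (by linarith), (h3 z hmem).trans (by linarith)⟩

end MMain

open MMain

theorem specMMain : SpecMMain := by
  rintro hEnv ⟨D⟩ hSm hLoc hWall hCost L δ hL hδ
  obtain ⟨C1, hC1, hLoc⟩ := hLoc D
  obtain ⟨C2, hC2, hWall⟩ := hWall D
  obtain ⟨C3, hC3, hCost⟩ := hCost D
  set C : ℝ := C1 + C2 + C3 + D.C with hCdef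
  have hDC := D.hC
  have hd0 := D.hd0
  have hC0 : 1 ≤ C := by linarith
  have hL3 : 1 ≤ L ^ 3 := one_le_pow₀ hL
  have hLp : 0 < L := by linarith
  have hCL : 0 < C * L ^ 3 := by positivity
  -- choice of e0, g, H0
  obtain ⟨e0, he0, he01, he02⟩ : ∃ e0 : ℝ, 0 < e0 ∧ e0 ≤ 1 ∧ C * L ^ 3 * e0 ≤ δ / 8 := by
    refine ⟨min 1 (δ / 8 / (C * L ^ 3)), lt_min one_pos (by positivity), min_le_left _ _, ?_⟩
    calc C * L ^ 3 * min 1 (δ / 8 / (C * L ^ 3)) ≤ C * L ^ 3 * (δ / 8 / (C * L ^ 3)) := by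
          gcongr
          exact min_le_right _ _
      _ = δ / 8 := by field_simp
  obtain ⟨g, hg, hg1, hg2⟩ := hEnv L e0 hL he0
  obtain ⟨H0, hH0, hH⟩ := exists_H0 g hg L
  have hEnvg : IsEnv L e0 H0 g := ⟨hg, hH, hg1, hg2⟩
  have hH0p : 0 < H0 := by linarith
  -- choice of A
  obtain ⟨A, hA, hA1⟩ : ∃ A : ℝ, 1 ≤ A ∧ C * L ^ 3 * (H0 / A) ≤ δ / 8 := by
    refine ⟨max 1 (C * L ^ 3 * H0 / (δ / 8)), le_max_left _ _, ?_⟩
    have hA : 0 < max 1 (C * L ^ 3 * H0 / (δ / 8)) := lt_max_of_lt_left one_pos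
    rw [mul_div_assoc', div_le_iff₀ hA]
    calc C * L ^ 3 * H0 = δ / 8 * (C * L ^ 3 * H0 / (δ / 8)) := by field_simp
      _ ≤ δ / 8 * max 1 (C * L ^ 3 * H0 / (δ / 8)) := by
          gcongr
          exact le_max_right _ _
  have hAp : 0 < A := by linarith
  have hB : 0 < C * L ^ 3 * (H0 * A) := by positivity
  -- choice of ε and r
  obtain ⟨ε, hε, hεC, hε1⟩ : ∃ ε : ℝ, 0 < ε ∧ ε ≤ 1 / C ∧ C * L ^ 3 * (H0 * A * ε) ≤ δ / 8 := by
    refine ⟨min (1 / C) (δ / 8 / (C * L ^ 3 * (H0 * A))), lt_min (by positivity) (by positivity),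
      min_le_left _ _, ?_⟩
    calc C * L ^ 3 * (H0 * A * min (1 / C) (δ / 8 / (C * L ^ 3 * (H0 * A)))) =
          C * L ^ 3 * (H0 * A) * min (1 / C) (δ / 8 / (C * L ^ 3 * (H0 * A))) := by ring
      _ ≤ C * L ^ 3 * (H0 * A) * (δ / 8 / (C * L ^ 3 * (H0 * A))) := by
          gcongr
          exact min_le_right _ _
      _ = δ / 8 := by field_simp
  obtain ⟨r, hr, hrC, hrd, hr1⟩ : ∃ r : ℝ, 0 < r ∧ r ≤ 1 / C ∧ r ≤ D.d0 / 4 ∧
      C * L ^ 3 * (H0 * A * r) ≤ δ / 8 := by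
    refine ⟨min (min (1 / C) (D.d0 / 4)) (δ / 8 / (C * L ^ 3 * (H0 * A))),
      lt_min (lt_min (by positivity) (by positivity)) (by positivity),
      (min_le_left _ _).trans (min_le_left _ _), (min_le_left _ _).trans (min_le_right _ _), ?_⟩
    calc C * L ^ 3 * (H0 * A * min (min (1 / C) (D.d0 / 4)) (δ / 8 / (C * L ^ 3 * (H0 * A)))) =
          C * L ^ 3 * (H0 * A) * min (min (1 / C) (D.d0 / 4)) (δ / 8 / (C * L ^ 3 * (H0 * A))) := by ring
      _ ≤ C * L ^ 3 * (H0 * A) * (δ / 8 / (C * L ^ 3 * (H0 * A))) := by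
          gcongr
          exact min_le_right _ _
      _ = δ / 8 := by field_simp
  have hinv : ∀ C' : ℝ, 1 ≤ C' → C' ≤ C → 1 / C ≤ 1 / C' := by
    intro C' h1 h2
    exact one_div_le_one_div_of_le (by linarith) h2
  have k1 := hinv C1 hC1 (by linarith)
  have k2 := hinv C2 hC2 (by linarith)
  have k3 := hinv C3 hC3 (by linarith)
  have k4 := hinv D.C hDC (by linarith)
  obtain ⟨E1, l1, hE1, hl1, hLoc⟩ := hLoc L e0 H0 g hEnvg hL hH0 he0 he01 A ε r hA hε (hεC.trans k1) hr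
    (hrC.trans k1)
  obtain ⟨E2, l2, hE2, hl2, hWall⟩ := hWall L e0 H0 g hEnvg hL hH0 he0 he01 A ε r hA hε (hεC.trans k2) hr
    (hrC.trans k2)
  obtain ⟨E3, l3, hE3, hl3, hCost⟩ := hCost L e0 H0 g hEnvg hL hH0 he0 he01 A ε r hA hε (hεC.trans k3) hr
    (hrC.trans k3)
  -- choice of l
  obtain ⟨l, hl, hll1, hll2, hll3, hld, hlE2, hlE2', hlE3⟩ : ∃ l : ℝ, 0 < l ∧ l ≤ l1 ∧ l ≤ l2 ∧ l ≤ l3 ∧
      2 * D.d0 * l ≤ 1 / 32 ∧ E2 * l ≤ 1 / 4 ∧ E2 * l ≤ δ / 8 ∧ E3 * l ≤ δ / 8 := by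
    refine ⟨min (min l1 l2) (min l3 (min (1 / 32 / (2 * D.d0)) (min (1 / 4 / E2)
      (min (δ / 8 / E2) (δ / 8 / E3))))), ?_, ?_, ?_, ?_, ?_, ?_, ?_, ?_⟩
    · refine lt_min (lt_min hl1 hl2) (lt_min hl3 (lt_min (by positivity) (lt_min (by positivity)
        (lt_min (by positivity) (by positivity)))))
    · exact (min_le_left _ _).trans (min_le_left _ _)
    · exact (min_le_left _ _).trans (min_le_right _ _)
    · exact (min_le_right _ _).trans (min_le_left _ _)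
    · have : min (min l1 l2) (min l3 (min (1 / 32 / (2 * D.d0)) (min (1 / 4 / E2)
        (min (δ / 8 / E2) (δ / 8 / E3))))) ≤ 1 / 32 / (2 * D.d0) :=
        (min_le_right _ _).trans ((min_le_right _ _).trans (min_le_left _ _))
      rw [le_div_iff₀ (by positivity)] at this
      linarith
    · have : min (min l1 l2) (min l3 (min (1 / 32 / (2 * D.d0)) (min (1 / 4 / E2)
        (min (δ / 8 / E2) (δ / 8 / E3))))) ≤ 1 / 4 / E2 :=
        (min_le_right _ _).trans ((min_le_right _ _).trans ((min_le_right _ _).trans (min_le_left _ _)))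
      rw [le_div_iff₀ (by positivity)] at this
      linarith
    · have : min (min l1 l2) (min l3 (min (1 / 32 / (2 * D.d0)) (min (1 / 4 / E2)
        (min (δ / 8 / E2) (δ / 8 / E3))))) ≤ δ / 8 / E2 :=
        (min_le_right _ _).trans ((min_le_right _ _).trans ((min_le_right _ _).trans
          ((min_le_right _ _).trans (min_le_left _ _))))
      rw [le_div_iff₀ (by positivity)] at this
      linarith
    · have : min (min l1 l2) (min l3 (min (1 / 32 / (2 * D.d0)) (min (1 / 4 / E2)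
        (min (δ / 8 / E2) (δ / 8 / E3))))) ≤ δ / 8 / E3 :=
        (min_le_right _ _).trans ((min_le_right _ _).trans ((min_le_right _ _).trans
          ((min_le_right _ _).trans (min_le_right _ _))))
      rw [le_div_iff₀ (by positivity)] at this
      linarith
  have hLoc := hLoc l hl hll1
  have hWall := hWall l hl hll2
  have hCost := hCost l hl hll3
  obtain ⟨s1, s2, s3⟩ := hSm D g A ε r l hg hA hε (hεC.trans k4) hr hrd hl
  refine ⟨{
    V := D.VV g A r l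
    c := D.CC g A r l
    F := D.FF A ε r l
    hV := s1
    hc := s3
    hF := s2
    loc := hLoc
    bot := ?_
    top := ?_
    bF := ?_
    bV := ?_
    cost := ?_ }⟩
  · intro z _ hz
    exact bot D g A ε r l hr hrd hl hld z hz
  · intro z _ hz
    exact top D g A ε r l hr hrd hl hld z hz
  · intro z hz
    exact (hWall z hz).2.2.1.trans hlE2
  · intro z hz
    refine (hWall z hz).2.2.2.trans ?_
    have h1 : C2 * H0 * L / A ≤ C * L ^ 3 * (H0 / A) := by
      have h2 : C2 * L ≤ C * L ^ 3 := by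
        have h3 : L ≤ L ^ 3 := by
          calc L = L ^ 1 := (pow_one L).symm
            _ ≤ L ^ 3 := pow_le_pow_right₀ hL (by norm_num)
        have h4 : C2 ≤ C := by linarith
        gcongr
      calc C2 * H0 * L / A = C2 * L * (H0 / A) := by ring
        _ ≤ C * L ^ 3 * (H0 / A) := by gcongr
    linarith
  · refine hCost.trans ?_
    have h1 : C3 * L ^ 3 * (e0 + H0 / A + H0 * A * ε + H0 * A * r) ≤
        C * L ^ 3 * (e0 + H0 / A + H0 * A * ε + H0 * A * r) := by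
      have h4 : C3 ≤ C := by linarith
      gcongr
    have h2 : C * L ^ 3 * (e0 + H0 / A + H0 * A * ε + H0 * A * r) =
      C * L ^ 3 * e0 + C * L ^ 3 * (H0 / A) + C * L ^ 3 * (H0 * A * ε) + C * L ^ 3 * (H0 * A * r) := by ring
    linarith

end MP1707
end

section
/-!
# ODE: `℘'' = 6 ℘²` if `g₂ = 0`
-/
set_option autoImplicit false

open scoped Topology BigOperators Classical
open Filter

namespace MP1707

namespace ODEM

theorem preconn (Λ : PeriodPair) : IsPreconnected ((Λ.lattice : Set ℂ)ᶜ) := by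
  have hc : (Λ.lattice : Set ℂ).Countable := Set.countable_coe_iff.1 (by
    have : Countable Λ.lattice := Λ.latticeEquivProd.toEquiv.countable_iff.2 inferInstance
    exact this)
  refine (hc.isConnected_compl_of_one_lt_rank ?_).isPreconnected
  rw [Complex.rank_real_complex]
  exact Nat.one_lt_ofNat

theorem anP (D : EllData) : AnalyticOnNhd ℂ D.P ((D.Λ.lattice : Set ℂ)ᶜ) :=
  D.Λ.analyticOnNhd_weierstrassP

theorem anQ (D : EllData) : AnalyticOnNhd ℂ D.Q ((D.Λ.lattice : Set ℂ)ᶜ) :=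
  D.Λ.analyticOnNhd_derivWeierstrassP

theorem derP (D : EllData) (z : ℂ) (hz : z ∉ D.Λ.lattice) : HasDerivAt D.P (D.Q z) z := by
  have h1 := (anP D z hz).differentiableAt.hasDerivAt
  have h2 : deriv D.P z = D.Q z := congrFun D.Λ.deriv_weierstrassP z
  rwa [h2] at h1

theorem sq (D : EllData) (z : ℂ) (hz : z ∉ D.Λ.lattice) :
    D.Q z ^ 2 = 4 * D.P z ^ 3 + D.s ^ 2 := by
  have h := D.Λ.derivWeierstrassP_sq z hz
  rw [D.g2, zero_mul, sub_zero] at h
  rw [D.hs2]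
  exact h.trans (sub_eq_add_neg _ _)

theorem isOpen_compl (D : EllData) : IsOpen ((D.Λ.lattice : Set ℂ)ᶜ) :=
  D.Λ.isClosed_lattice.isOpen_compl

theorem two (D : EllData) (z : ℂ) (hz : z ∉ D.Λ.lattice) :
    D.Q z * (deriv D.Q z - 6 * D.P z ^ 2) = 0 := by
  have hQ := (anQ D z hz).differentiableAt.hasDerivAt
  have h1 : HasDerivAt (fun w => D.Q w ^ 2) (2 * D.Q z * deriv D.Q z) z := by
    have h := hQ.pow 2
    have e : ((2 : ℕ) : ℂ) * D.Q z ^ (2 - 1) * deriv D.Q z = 2 * D.Q z * deriv D.Q z := by norm_num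
    rw [e] at h
    exact h
  have h2 : HasDerivAt (fun w => 4 * D.P w ^ 3 + D.s ^ 2) (4 * (3 * D.P z ^ 2 * D.Q z)) z := by
    have := (((derP D z hz).pow 3).const_mul 4).add_const (D.s ^ 2)
    simpa using this
  have h3 : (fun w => D.Q w ^ 2) =ᶠ[𝓝 z] fun w => 4 * D.P w ^ 3 + D.s ^ 2 := by
    filter_upwards [(isOpen_compl D).mem_nhds hz] with w hw
    exact sq D w hw
  have h4 := h1.unique (h2.congr_of_eventuallyEq h3)
  linear_combination (1 / 2 : ℂ) * h4

theorem Q_ne (D : EllData) : ¬ ∀ z ∈ ((D.Λ.lattice : Set ℂ)ᶜ), D.Q z = 0 := by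
  intro h
  have h1 := tendsto_cobounded_of_meromorphicOrderAt_neg (f := D.P) (x := 0) (by
    have := D.Λ.order_weierstrassP 0 (zero_mem _)
    show meromorphicOrderAt (PeriodPair.weierstrassP D.Λ) 0 < 0
    rw [this]
    decide)
  rw [← tendsto_norm_atTop_iff_cobounded] at h1
  have h2 := h1.eventually (eventually_gt_atTop (‖D.s‖ ^ 2 + 1))
  have h3 : ∀ᶠ z in 𝓝[≠] (0 : ℂ), z ∈ ((D.Λ.lattice : Set ℂ)ᶜ) := by
    have h4 := D.Λ.compl_lattice_sdiff_singleton_mem_nhds 0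
    filter_upwards [nhdsWithin_le_nhds h4, self_mem_nhdsWithin] with z hz hz0 hzl
    exact hz ⟨hzl, hz0⟩
  obtain ⟨z, hz, hzl⟩ := (h2.and h3).exists
  have h5 := sq D z hzl
  rw [h z hzl] at h5
  have h6 : ‖D.P z‖ ^ 3 * 4 = ‖D.s‖ ^ 2 := by
    have h7 : D.P z ^ 3 * 4 = -(D.s ^ 2) := by linear_combination -h5
    have h8 := congrArg norm h7
    rw [norm_mul, norm_neg, norm_pow, norm_pow] at h8
    simpa using h8
  have h9 : (1 : ℝ) ≤ ‖D.P z‖ := by
    have := sq_nonneg ‖D.s‖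
    linarith
  have h10 : ‖D.P z‖ ≤ ‖D.P z‖ ^ 3 := by
    calc ‖D.P z‖ = ‖D.P z‖ ^ 1 := (pow_one _).symm
      _ ≤ ‖D.P z‖ ^ 3 := pow_le_pow_right₀ h9 (by norm_num)
  linarith [norm_nonneg (D.P z)]

theorem derQ (D : EllData) (z : ℂ) (hz : z ∉ D.Λ.lattice) :
    HasDerivAt D.Q (6 * D.P z ^ 2) z := by
  have h1 : AnalyticOnNhd ℂ (fun w => deriv D.Q w - 6 * D.P w ^ 2) ((D.Λ.lattice : Set ℂ)ᶜ) := by
    intro w hw
    exact (anQ D w hw).deriv.sub (analyticAt_const.mul ((anP D w hw).pow 2))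
  have h2 := ((anQ D).eq_zero_or_eq_zero_of_mul_eq_zero h1 (fun w hw => two D w hw)
    (preconn D.Λ)).resolve_left (Q_ne D) z hz
  have h3 := (anQ D z hz).differentiableAt.hasDerivAt
  rwa [sub_eq_zero.1 h2] at h3

end ODEM

/-- ODE -/
theorem specODE : SpecODE := fun D z hz => ⟨ODEM.derP D z hz, ODEM.derQ D z hz, ODEM.sq D z hz⟩

end MP1707
end

section
/-!
# MP_1707ab_an, n = 2, PART M, module NEARE (helper58)

Uniform behaviour of the elliptic functions near the masses.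
-/
set_option autoImplicit false

open scoped Topology BigOperators Classical ContDiff
open MeasureTheory Filter

namespace MP1707

namespace NearEM

open ZBaseM

variable (D : EllData)

/-- the estimates at one point -/
def Good (C : ℝ) (p w : ℂ) : Prop :=
  w ∉ D.Z ∧ 1 / C ≤ ‖D.U w‖ ∧ ‖EllData.κ / D.U w - D.fh p‖ ≤ C * ‖w - p‖ ∧
    ‖D.φ * D.G w - D.fh p * D.v1 w‖ ≤ C * ‖w - p‖ ∧ ‖D.v w‖ ≤ C / ‖w - p‖

theorem Good.mono {C C' : ℝ} {p w : ℂ} (hC : 0 < C) (hCC : C ≤ C') (h : Good D C p w) : Good D C' p w := by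
  obtain ⟨h1, h2, h3, h4, h5⟩ := h
  refine ⟨h1, (one_div_le_one_div_of_le hC hCC).trans h2, h3.trans ?_, h4.trans ?_, h5.trans ?_⟩ <;> gcongr

/-- near a lattice point -/
theorem good_lattice (p : ℂ) (hp : p ∈ D.Λ.lattice) : ∃ C : ℝ, 0 < C ∧ ∀ᶠ w in 𝓝[≠] p, Good D C p w := by
  set A0 : ℂ → ℂ := D.Λ.weierstrassPExcept p with hA0
  set B0 : ℂ → ℂ := D.Λ.derivWeierstrassPExcept p with hB0
  have cA : ContinuousAt A0 p := (D.Λ.analyticAt_weierstrassPExcept p).continuousAt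
  have cB : ContinuousAt B0 p := (D.Λ.analyticAt_derivWeierstrassPExcept p).continuousAt
  obtain ⟨h, ha, hz⟩ := D.hζp p hp
  have ch : ContinuousAt h p := ha.continuousAt
  set a : ℂ → ℂ := fun z => 1 + (z - p) ^ 2 * (A0 z - 1 / p ^ 2) with hadef
  set b1 : ℂ → ℂ := fun z => -2 + (z - p) ^ 3 * B0 z - D.s * (z - p) ^ 3 with hb1def
  set b2 : ℂ → ℂ := fun z => -2 + (z - p) ^ 3 * B0 z - D.s * (z - p) ^ 3 - D.u * (z - p) ^ 3 with hb2def
  have ct : ContinuousAt (fun z : ℂ => z - p) p := by fun_prop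
  have ca : ContinuousAt a p := continuousAt_const.add ((ct.pow 2).mul (cA.sub continuousAt_const))
  have cb1 : ContinuousAt b1 p :=
    (continuousAt_const.add ((ct.pow 3).mul cB)).sub (continuousAt_const.mul (ct.pow 3))
  have cb2 : ContinuousAt b2 p := cb1.sub (continuousAt_const.mul (ct.pow 3))
  have ea : a p = 1 := by simp [hadef]
  have eb1 : b1 p = -2 := by simp [hb1def]
  have eb2 : b2 p = -2 := by simp [hb2def]
  have va : ∀ᶠ z in 𝓝[≠] p, ‖a z‖ < 2 := by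
    have h1 : ∀ᶠ z in 𝓝 p, ‖a z‖ < 2 := ca.norm.eventually_lt continuousAt_const (by rw [ea]; simp)
    exact h1.filter_mono nhdsWithin_le_nhds
  have vb1 : ∀ᶠ z in 𝓝[≠] p, 1 < ‖b1 z‖ := by
    have h1 : ∀ᶠ z in 𝓝 p, 1 < ‖b1 z‖ := continuousAt_const.eventually_lt cb1.norm (by rw [eb1]; simp)
    exact h1.filter_mono nhdsWithin_le_nhds
  have vb2 : ∀ᶠ z in 𝓝[≠] p, 1 < ‖b2 z‖ := by
    have h1 : ∀ᶠ z in 𝓝 p, 1 < ‖b2 z‖ := continuousAt_const.eventually_lt cb2.norm (by rw [eb2]; simp)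
    exact h1.filter_mono nhdsWithin_le_nhds
  have vh : ∀ᶠ z in 𝓝[≠] p, ‖h z‖ < ‖h p‖ + 1 := by
    have h1 : ∀ᶠ z in 𝓝 p, ‖h z‖ < ‖h p‖ + 1 := ch.norm.eventually_lt continuousAt_const (by linarith)
    exact h1.filter_mono nhdsWithin_le_nhds
  have vt : ∀ᶠ z in 𝓝[≠] p, ‖z - p‖ < 1 := by
    have h1 : ∀ᶠ z in 𝓝 p, ‖z - p‖ < 1 := ct.norm.eventually_lt continuousAt_const (by simp)
    exact h1.filter_mono nhdsWithin_le_nhds
  have hs : 0 < ‖D.s‖ := norm_pos_iff.2 D.hs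
  set C : ℝ := 1 + ‖EllData.κ‖ + ‖D.φ‖ / ‖D.s‖ +
    (‖(1 - EllData.mm : ℂ)‖ * (2 + ‖h p‖) + 8 * ‖(EllData.mm : ℂ)‖) with hC
  have hc1 : 0 ≤ ‖EllData.κ‖ := norm_nonneg _
  have hc2 : 0 ≤ ‖D.φ‖ / ‖D.s‖ := by positivity
  have hc3 : 0 ≤ ‖(1 - EllData.mm : ℂ)‖ * (2 + ‖h p‖) + 8 * ‖(EllData.mm : ℂ)‖ := by positivity
  have hC1 : 1 ≤ C := by linarith
  refine ⟨C, by linarith, ?_⟩
  filter_upwards [va, vb1, vb2, vh, vt, lattice_ev D p, hz, self_mem_nhdsWithin] with w ha hb1 hb2 hh ht hl hzw hne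
  have hwp : w - p ≠ 0 := sub_ne_zero.2 hne
  set t : ℂ := w - p with htdef
  have ht0 : 0 < ‖t‖ := norm_pos_iff.2 hwp
  have hb1ne : b1 w ≠ 0 := norm_pos_iff.1 (by linarith)
  have hb2ne : b2 w ≠ 0 := norm_pos_iff.1 (by linarith)
  have eP : D.P w = a w / t ^ 2 := by
    have h1 := D.Λ.weierstrassPExcept_add ⟨p, hp⟩ w
    simp only at h1
    show D.Λ.weierstrassP w = _
    rw [← h1, hadef]
    simp only
    rw [← htdef, ← hA0]
    field_simp
    ring
  have eY : D.Y w = b1 w / t ^ 3 := by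
    have h1 := D.Λ.derivWeierstrassPExcept_sub ⟨p, hp⟩ w
    simp only at h1
    show D.Λ.derivWeierstrassP w - D.s = _
    rw [← h1, hb1def]
    simp only
    rw [← htdef, ← hB0]
    field_simp
    ring
  have eU : D.U w = b2 w / t ^ 3 := by
    show D.Y w - D.u = _
    rw [eY]
    have : b2 w = b1 w - D.u * t ^ 3 := rfl
    rw [this]
    field_simp
  have hfh : D.fh p = 0 := by
    unfold EllData.fh
    rw [if_pos hp]
  have hYne : D.Y w ≠ 0 := by
    rw [eY]
    exact div_ne_zero hb1ne (pow_ne_zero _ hwp)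
  have ht3 : ‖t‖ ^ 3 ≤ ‖t‖ := by
    calc ‖t‖ ^ 3 ≤ ‖t‖ ^ 1 := pow_le_pow_of_le_one ht0.le ht.le (by norm_num)
      _ = ‖t‖ := pow_one _
  have ht31 : ‖t‖ ^ 3 ≤ 1 := pow_le_one₀ ht0.le ht.le
  refine ⟨?_, ?_, ?_, ?_, ?_⟩
  · rintro (h1 | h1)
    · exact hl h1
    · exact hYne h1
  · rw [eU, norm_div, norm_pow]
    have h1 : 1 / C ≤ 1 := by
      rw [div_le_one (by linarith)]
      exact hC1
    refine h1.trans ?_
    rw [le_div_iff₀ (by positivity)]
    linarith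
  · rw [hfh, sub_zero, eU, div_div_eq_mul_div, norm_div, norm_mul, norm_pow, div_le_iff₀ (by linarith)]
    calc ‖EllData.κ‖ * ‖t‖ ^ 3 ≤ C * ‖t‖ := by
          gcongr
          linarith
      _ = C * ‖t‖ * 1 := (mul_one _).symm
      _ ≤ C * ‖t‖ * ‖b2 w‖ := by gcongr
  · rw [hfh, zero_mul, sub_zero]
    have e1 : D.φ * D.G w = -(D.φ / (2 * D.s)) * (a w / b1 w) * t := by
      show D.φ * (-D.P w / (2 * D.s * D.Y w)) = _
      rw [eP, eY]
      have := D.hs
      field_simp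
    rw [e1, norm_mul, norm_mul, norm_neg, norm_div, norm_mul, Complex.norm_two, norm_div (a w)]
    have h1 : ‖a w‖ / ‖b1 w‖ ≤ 2 := by
      rw [div_le_iff₀ (by linarith)]
      linarith
    calc ‖D.φ‖ / (2 * ‖D.s‖) * (‖a w‖ / ‖b1 w‖) * ‖t‖ ≤ ‖D.φ‖ / (2 * ‖D.s‖) * 2 * ‖t‖ := by gcongr
      _ = ‖D.φ‖ / ‖D.s‖ * ‖t‖ := by field_simp
      _ ≤ C * ‖t‖ := by
          gcongr
          linarith
  · have e1 : D.v w = -(1 - EllData.mm) * (1 / t + h w) + 2 * EllData.mm * (a w ^ 2 / b1 w) / t := by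
      show -(1 - EllData.mm) * D.ζ w + 2 * EllData.mm * D.P w ^ 2 / D.Y w = _
      rw [hzw, eP, eY]
      field_simp
    rw [le_div_iff₀ ht0, ← norm_mul]
    have e2 : D.v w * t = -(1 - EllData.mm) * (1 + h w * t) + 2 * EllData.mm * (a w ^ 2 / b1 w) := by
      rw [e1]
      field_simp
    rw [e2]
    have h1 : ‖a w ^ 2 / b1 w‖ ≤ 4 := by
      rw [norm_div, norm_pow, div_le_iff₀ (by linarith)]
      have : ‖a w‖ ^ 2 ≤ 2 ^ 2 := by gcongr
      linarith
    have h2 : ‖1 + h w * t‖ ≤ 2 + ‖h p‖ := by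
      refine (norm_add_le _ _).trans ?_
      rw [norm_one, norm_mul]
      have : ‖h w‖ * ‖t‖ ≤ (‖h p‖ + 1) * 1 := by gcongr
      linarith
    calc ‖-(1 - EllData.mm) * (1 + h w * t) + 2 * EllData.mm * (a w ^ 2 / b1 w)‖ ≤
        ‖(1 - EllData.mm : ℂ)‖ * (2 + ‖h p‖) + 2 * ‖(EllData.mm : ℂ)‖ * 4 := by
          refine (norm_add_le _ _).trans ?_
          rw [norm_mul (-(1 - EllData.mm)), norm_neg, norm_mul (2 * EllData.mm), norm_mul 2,
            Complex.norm_two]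
          gcongr
      _ ≤ C := by linarith

/-- near a point with `℘' = s` -/
theorem good_zero (p : ℂ) (hp : p ∉ D.Λ.lattice) (hY : D.Y p = 0) :
    ∃ C : ℝ, 0 < C ∧ ∀ᶠ w in 𝓝[≠] p, Good D C p w := by
  have hs : 0 < ‖D.s‖ := norm_pos_iff.2 D.hs
  have hu : D.u ≠ 0 := AlgM.u_ne D
  have hu0 : 0 < ‖D.u‖ := norm_pos_iff.2 hu
  have hQp : D.Q p = D.s := sub_eq_zero.1 hY
  have hPp : D.P p = 0 := by
    have h1 := sq_eq D p hp
    rw [hQp] at h1
    have h2 : D.P p ^ 3 = 0 := by linear_combination (-1 / 4) * h1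
    exact pow_eq_zero_iff (by norm_num) |>.1 h2
  have dP : HasDerivAt D.P (D.Q p) p := ODEM.derP D p hp
  have cQ : ContinuousAt D.Q p := (ODEM.derQ D p hp).continuousAt
  have cζ : ContinuousAt D.ζ p := (D.hζ p hp).continuousAt
  set a : ℂ → ℂ := dslope D.P p with hadef
  have ca : ContinuousAt a p := continuousAt_dslope_same.2 dP.differentiableAt
  have ea : a p = D.s := by
    rw [hadef, dslope_same, dP.deriv, hQp]
  have hPa : ∀ z, D.P z = (z - p) * a z := by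
    intro z
    have h1 := sub_smul_dslope D.P p z
    rw [smul_eq_mul, hPp, sub_zero] at h1
    exact h1.symm
  have va1 : ∀ᶠ z in 𝓝[≠] p, ‖a z‖ < 2 * ‖D.s‖ := by
    have h1 : ∀ᶠ z in 𝓝 p, ‖a z‖ < 2 * ‖D.s‖ :=
      ca.norm.eventually_lt continuousAt_const (by rw [ea]; linarith)
    exact h1.filter_mono nhdsWithin_le_nhds
  have va2 : ∀ᶠ z in 𝓝[≠] p, ‖D.s‖ / 2 < ‖a z‖ := by
    have h1 : ∀ᶠ z in 𝓝 p, ‖D.s‖ / 2 < ‖a z‖ :=
      continuousAt_const.eventually_lt ca.norm (by rw [ea]; linarith)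
    exact h1.filter_mono nhdsWithin_le_nhds
  have cQs : ContinuousAt (fun z => D.Q z + D.s) p := cQ.add continuousAt_const
  have eQs : D.Q p + D.s = 2 * D.s := by rw [hQp]; ring
  have vq1 : ∀ᶠ z in 𝓝[≠] p, ‖D.Q z + D.s‖ < 3 * ‖D.s‖ := by
    have h1 : ∀ᶠ z in 𝓝 p, ‖D.Q z + D.s‖ < 3 * ‖D.s‖ :=
      cQs.norm.eventually_lt continuousAt_const (by
        rw [eQs, norm_mul, Complex.norm_two]; linarith)
    exact h1.filter_mono nhdsWithin_le_nhds
  have vq2 : ∀ᶠ z in 𝓝[≠] p, ‖D.s‖ < ‖D.Q z + D.s‖ := by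
    have h1 : ∀ᶠ z in 𝓝 p, ‖D.s‖ < ‖D.Q z + D.s‖ :=
      continuousAt_const.eventually_lt cQs.norm (by
        rw [eQs, norm_mul, Complex.norm_two]; linarith)
    exact h1.filter_mono nhdsWithin_le_nhds
  have vy : ∀ᶠ z in 𝓝[≠] p, ‖D.Y z‖ < ‖D.u‖ / 2 := by
    have cY : ContinuousAt D.Y p := cQ.sub continuousAt_const
    have h1 : ∀ᶠ z in 𝓝 p, ‖D.Y z‖ < ‖D.u‖ / 2 :=
      cY.norm.eventually_lt continuousAt_const (by rw [hY, norm_zero]; linarith)
    exact h1.filter_mono nhdsWithin_le_nhds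
  have vz : ∀ᶠ z in 𝓝[≠] p, ‖D.ζ z‖ < ‖D.ζ p‖ + 1 := by
    have h1 : ∀ᶠ z in 𝓝 p, ‖D.ζ z‖ < ‖D.ζ p‖ + 1 := cζ.norm.eventually_lt continuousAt_const (by linarith)
    exact h1.filter_mono nhdsWithin_le_nhds
  have vt : ∀ᶠ z in 𝓝[≠] p, ‖z - p‖ < 1 := by
    have ct : ContinuousAt (fun z : ℂ => z - p) p := by fun_prop
    have h1 : ∀ᶠ z in 𝓝 p, ‖z - p‖ < 1 := ct.norm.eventually_lt continuousAt_const (by simp)
    exact h1.filter_mono nhdsWithin_le_nhds
  set C : ℝ := 2 / ‖D.u‖ + ‖EllData.κ‖ * (32 * ‖D.s‖ ^ 2) / (‖D.u‖ / 2 * ‖D.u‖) +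
    ‖EllData.κ‖ / ‖D.u‖ * (2 * ‖D.s‖) +
    (‖(1 - EllData.mm : ℂ)‖ * (‖D.ζ p‖ + 1) + 48 * ‖(EllData.mm : ℂ)‖) with hC
  have hc0 : 0 < 2 / ‖D.u‖ := by positivity
  have hc1 : 0 ≤ ‖EllData.κ‖ * (32 * ‖D.s‖ ^ 2) / (‖D.u‖ / 2 * ‖D.u‖) := by positivity
  have hc2 : 0 ≤ ‖EllData.κ‖ / ‖D.u‖ * (2 * ‖D.s‖) := by positivity
  have hc3 : 0 ≤ ‖(1 - EllData.mm : ℂ)‖ * (‖D.ζ p‖ + 1) + 48 * ‖(EllData.mm : ℂ)‖ := by positivity
  refine ⟨C, by linarith, ?_⟩
  filter_upwards [va1, va2, vq1, vq2, vy, vz, vt, lattice_ev D p, self_mem_nhdsWithin] with w ha1 ha2 hq1 hq2 hy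
    hz ht hl hne
  have hwp : w - p ≠ 0 := sub_ne_zero.2 hne
  set t : ℂ := w - p with htdef
  have ht0 : 0 < ‖t‖ := norm_pos_iff.2 hwp
  have hqne : D.Q w + D.s ≠ 0 := norm_pos_iff.1 (by linarith)
  have hane : a w ≠ 0 := norm_pos_iff.1 (by linarith)
  have hPw : D.P w = t * a w := hPa w
  have eY : D.Y w = 4 * t ^ 3 * a w ^ 3 / (D.Q w + D.s) := by
    rw [eq_div_iff hqne]
    have h1 := sq_eq D w hl
    rw [hPw] at h1
    show (D.Q w - D.s) * (D.Q w + D.s) = _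
    linear_combination h1
  have hYne : D.Y w ≠ 0 := by
    rw [eY]
    exact div_ne_zero (mul_ne_zero (mul_ne_zero (by norm_num) (pow_ne_zero _ hwp)) (pow_ne_zero _ hane)) hqne
  have ht3 : ‖t‖ ^ 3 ≤ ‖t‖ := by
    calc ‖t‖ ^ 3 ≤ ‖t‖ ^ 1 := pow_le_pow_of_le_one ht0.le ht.le (by norm_num)
      _ = ‖t‖ := pow_one _
  have hYb : ‖D.Y w‖ ≤ 32 * ‖D.s‖ ^ 2 * ‖t‖ := by
    rw [eY, norm_div, norm_mul, norm_mul, norm_pow, norm_pow, div_le_iff₀ (by linarith)]
    have h1 : ‖(4 : ℂ)‖ = 4 := by norm_num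
    rw [h1]
    calc 4 * ‖t‖ ^ 3 * ‖a w‖ ^ 3 ≤ 4 * ‖t‖ * (2 * ‖D.s‖) ^ 3 := by gcongr
      _ = 32 * ‖D.s‖ ^ 2 * ‖t‖ * ‖D.s‖ := by ring
      _ ≤ 32 * ‖D.s‖ ^ 2 * ‖t‖ * ‖D.Q w + D.s‖ := by gcongr
  have hUb : ‖D.u‖ / 2 ≤ ‖D.U w‖ := by
    have h1 : D.u = D.Y w - D.U w := by
      show D.u = D.Y w - (D.Y w - D.u)
      ring
    have h2 : ‖D.u‖ ≤ ‖D.Y w‖ + ‖D.U w‖ := by
      conv_lhs => rw [h1]
      exact norm_sub_le _ _
    linarith
  have hUne : D.U w ≠ 0 := norm_pos_iff.1 (by linarith)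
  have hfh : D.fh p = -EllData.κ / D.u := by
    unfold EllData.fh
    rw [if_neg hp]
  have hfhw : D.fh w = -EllData.κ / D.u := by
    unfold EllData.fh
    rw [if_neg hl]
  refine ⟨?_, ?_, ?_, ?_, ?_⟩
  · rintro (h1 | h1)
    · exact hl h1
    · exact hYne h1
  · refine le_trans ?_ hUb
    have h1 : 1 / C ≤ 1 / (2 / ‖D.u‖) := one_div_le_one_div_of_le hc0 (by linarith)
    rwa [one_div_div] at h1
  · have e1 : EllData.κ / D.U w - D.fh p = EllData.κ * D.Y w / (D.U w * D.u) := by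
      rw [hfh]
      have h1 : D.U w = D.Y w - D.u := rfl
      rw [h1] at hUne
      rw [h1]
      field_simp
      ring
    rw [e1, norm_div, norm_mul, norm_mul]
    calc ‖EllData.κ‖ * ‖D.Y w‖ / (‖D.U w‖ * ‖D.u‖) ≤
          ‖EllData.κ‖ * (32 * ‖D.s‖ ^ 2 * ‖t‖) / (‖D.u‖ / 2 * ‖D.u‖) := by gcongr
      _ = ‖EllData.κ‖ * (32 * ‖D.s‖ ^ 2) / (‖D.u‖ / 2 * ‖D.u‖) * ‖t‖ := by ring
      _ ≤ C * ‖t‖ := by
          gcongr
          linarith
  · have e1 : D.φ * D.G w - D.fh p * D.v1 w = -(D.fh w) * D.P w := by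
      rw [hfh, ← hfhw]
      exact (specAlg specODE D).2.2 w hl
    rw [e1, hfhw, hPw, norm_mul, norm_neg, norm_div, norm_neg, norm_mul]
    calc ‖EllData.κ‖ / ‖D.u‖ * (‖t‖ * ‖a w‖) ≤ ‖EllData.κ‖ / ‖D.u‖ * (‖t‖ * (2 * ‖D.s‖)) := by gcongr
      _ = ‖EllData.κ‖ / ‖D.u‖ * (2 * ‖D.s‖) * ‖t‖ := by ring
      _ ≤ C * ‖t‖ := by
          gcongr
          linarith
  · rw [le_div_iff₀ ht0, ← norm_mul]
    have e2 : D.v w * t = -(1 - EllData.mm) * (D.ζ w * t) + 2 * EllData.mm * ((D.Q w + D.s) / (4 * a w)) := by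
      show (-(1 - EllData.mm) * D.ζ w + 2 * EllData.mm * D.P w ^ 2 / D.Y w) * t = _
      rw [hPw, eY]
      field_simp
    rw [e2]
    have h1 : ‖(D.Q w + D.s) / (4 * a w)‖ ≤ 24 := by
      rw [norm_div, norm_mul]
      have h2 : ‖(4 : ℂ)‖ = 4 := by norm_num
      rw [h2, div_le_iff₀ (by linarith)]
      linarith
    have h2 : ‖D.ζ w * t‖ ≤ ‖D.ζ p‖ + 1 := by
      rw [norm_mul]
      calc ‖D.ζ w‖ * ‖t‖ ≤ (‖D.ζ p‖ + 1) * 1 := by gcongr
        _ = _ := mul_one _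
    calc ‖-(1 - EllData.mm) * (D.ζ w * t) + 2 * EllData.mm * ((D.Q w + D.s) / (4 * a w))‖ ≤
        ‖(1 - EllData.mm : ℂ)‖ * (‖D.ζ p‖ + 1) + 2 * ‖(EllData.mm : ℂ)‖ * 24 := by
          refine (norm_add_le _ _).trans ?_
          rw [norm_mul (-(1 - EllData.mm)), norm_neg, norm_mul (2 * EllData.mm), norm_mul 2,
            Complex.norm_two]
          gcongr
      _ ≤ C := by linarith

theorem good_ball (p : ℂ) (hp : p ∈ D.Z) : ∃ C d : ℝ, 0 < C ∧ 0 < d ∧
    ∀ w, 0 < ‖w - p‖ → ‖w - p‖ ≤ d → Good D C p w := by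
  have h : ∃ C : ℝ, 0 < C ∧ ∀ᶠ w in 𝓝[≠] p, Good D C p w := by
    by_cases hl : p ∈ D.Λ.lattice
    · exact good_lattice D p hl
    · exact good_zero D p hl (hp.resolve_left hl)
  obtain ⟨C, hC, h⟩ := h
  rw [eventually_nhdsWithin_iff, Metric.eventually_nhds_iff] at h
  obtain ⟨d, hd, h⟩ := h
  refine ⟨C, d / 2, hC, by positivity, fun w h1 h2 => h ?_ ?_⟩
  · rw [dist_eq_norm]
    linarith
  · intro hw
    rw [Set.mem_singleton_iff] at hw
    rw [hw, sub_self, norm_zero] at h1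
    exact lt_irrefl _ h1

/-- finitely many masses in a ball -/
theorem finite_ball (R : ℝ) : (D.Z ∩ Metric.closedBall 0 R).Finite := by
  by_contra hinf
  obtain ⟨x, _, hx⟩ := Set.Infinite.exists_accPt_of_subset_isCompact (K := Metric.closedBall 0 R)
    hinf (isCompact_closedBall _ _) Set.inter_subset_right
  rw [accPt_iff_frequently_nhdsNE] at hx
  exact hx ((ZsetM.Y_ev D x).mono fun z hz hz' => hz hz'.1)

/-- uniform constants on a finite set of masses -/
theorem uniform (F : Set ℂ) (hF : F.Finite) (hFZ : F ⊆ D.Z) : ∃ C d : ℝ, 0 < C ∧ 0 < d ∧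
    ∀ p ∈ F, ∀ w, 0 < ‖w - p‖ → ‖w - p‖ ≤ d → Good D C p w := by
  induction F, hF using Set.Finite.induction_on with
  | empty => exact ⟨1, 1, one_pos, one_pos, fun p hp => absurd hp (Set.notMem_empty p)⟩
  | @insert a s _ _ ih =>
    obtain ⟨C1, d1, hC1, hd1, h1⟩ := ih fun p hp => hFZ (Set.mem_insert_of_mem _ hp)
    obtain ⟨C2, d2, hC2, hd2, h2⟩ := good_ball D a (hFZ (Set.mem_insert _ _))
    refine ⟨max C1 C2, min d1 d2, lt_max_of_lt_left hC1, lt_min hd1 hd2, fun p hp w hw hw' => ?_⟩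
    rcases Set.mem_insert_iff.1 hp with rfl | hp
    · exact (h2 w hw (hw'.trans (min_le_right _ _))).mono D hC2 (le_max_right _ _)
    · exact (h1 p hp w hw (hw'.trans (min_le_left _ _))).mono D hC1 (le_max_left _ _)

end NearEM

open NearEM ZBaseM

theorem specNearE : SpecNearE := by
  intro D
  obtain ⟨R0, hR0, hn⟩ := exists_near D.Λ
  obtain ⟨C, d, hC, hd, h⟩ := uniform D (D.Z ∩ Metric.closedBall 0 R0) (finite_ball D R0)
    Set.inter_subset_left
  have key : ∀ p ∈ D.Z, ∃ l ∈ D.Λ.lattice, ∀ w, 0 < ‖w - p‖ → ‖w - p‖ ≤ d →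
      Good D C (p - l) (w - l) := by
    intro p hp
    obtain ⟨l, hl, hl'⟩ := hn p
    refine ⟨l, hl, fun w h1 h2 => h (p - l) ⟨ZsetM.sub_mem D p hp l hl, ?_⟩ (w - l) ?_ ?_⟩
    · rw [mem_closedBall_zero_iff]
      exact hl'
    · rwa [sub_sub_sub_cancel_right]
    · rwa [sub_sub_sub_cancel_right]
  refine ⟨2 * C, d, by positivity, hd, ?_⟩
  intro p hp w hw hw'
  obtain ⟨l, hl, hg⟩ := key p hp
  obtain ⟨g1, g2, g3, g4, g5⟩ := hg w hw hw'
  have hsub : w - l - (p - l) = w - p := sub_sub_sub_cancel_right _ _ _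
  have hwl : w = (w - l) + l := by ring
  have hfh : D.fh (p - l) = D.fh p := by
    unfold EllData.fh
    have : p - l ∈ D.Λ.lattice ↔ p ∈ D.Λ.lattice := by
      constructor
      · intro h
        have := Submodule.add_mem _ h hl
        rwa [sub_add_cancel] at this
      · intro h
        exact Submodule.sub_mem _ h hl
    simp only [this]
  have hU : D.U w = D.U (w - l) := by
    show D.Y w - D.u = D.Y (w - l) - D.u
    conv_lhs => rw [hwl]
    rw [FarEM.Y_add D _ l hl]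
  have hG : D.G w = D.G (w - l) := by
    conv_lhs => rw [hwl]
    rw [FarEM.G_add D _ l hl]
  have hv1 : D.v1 w = D.v1 (w - l) := by
    conv_lhs => rw [hwl]
    rw [FarEM.v1_add D _ l hl]
  rw [hsub] at g3 g4 g5
  rw [hfh, ← hU] at g3
  rw [hfh, ← hG, ← hv1] at g4
  rw [← hU] at g2
  have hw0 : 0 ≤ ‖w - p‖ := norm_nonneg _
  refine ⟨fun h => g1 (ZsetM.sub_mem D w h l hl), ?_, ?_, ?_, ?_⟩
  · exact (one_div_le_one_div_of_le hC (by linarith)).trans g2
  · exact g3.trans (by gcongr; linarith)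
  · exact g4.trans (by gcongr; linarith)
  · intro w' h1 h2
    obtain ⟨k1, -, -, -, k5⟩ := hg w' (lt_of_lt_of_le hw h1) h2
    have hwl' : w' = (w' - l) + l := by ring
    have e1 : D.v w = D.v (w - l) - (1 - EllData.mm) * FarEM.eta D l := by
      conv_lhs => rw [hwl]
      exact FarEM.v_add D _ l (FarEM.not_lattice D g1) hl
    have e2 : D.v w' = D.v (w' - l) - (1 - EllData.mm) * FarEM.eta D l := by
      conv_lhs => rw [hwl']
      exact FarEM.v_add D _ l (FarEM.not_lattice D k1) hl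
    have e3 : D.v w - D.v w' = D.v (w - l) - D.v (w' - l) := by
      rw [e1, e2]
      ring
    have hsub' : w' - l - (p - l) = w' - p := sub_sub_sub_cancel_right _ _ _
    rw [hsub'] at k5
    rw [e3]
    calc ‖D.v (w - l) - D.v (w' - l)‖ ≤ ‖D.v (w - l)‖ + ‖D.v (w' - l)‖ := norm_sub_le _ _
      _ ≤ C / ‖w - p‖ + C / ‖w' - p‖ := add_le_add g5 k5
      _ ≤ C / ‖w - p‖ + C / ‖w - p‖ := by gcongr
      _ = 2 * C / ‖w - p‖ := by ring

end MP1707
end
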